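import Pool.Agent.Helper951_sr.Defs

/-!
Project SR (helper951, MP_72d76c_lc). Job HASH: random hashing (T4).
-/

namespace Pool.Agent.Helper951_sr

open Finset

theorem hash_exp_sub_one {x : ℝ} (h0 : 0 ≤ x) (h1 : x ≤ 1) : Real.exp x - 1 ≤ 2 * x := by
  have h := Real.exp_bound' h0 h1 (n := 2) (by norm_num)
  have h2 : Real.exp x ≤ 1 + x + x ^ 2 * (2 + 1) / (2 * 2) := by
    refine h.trans (le_of_eq ?_)
    simp [Finset.sum_range_succ, Nat.factorial]
  nlinarith

/-- The exponential moment over all maps. -/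
theorem hash_moment {E Q : Type} [Fintype E] [DecidableEq E] [Fintype Q] (g : E → Q → ℝ) :
    ∑ h : E → Q, Real.exp (∑ e, g e (h e)) = ∏ e, ∑ q, Real.exp (g e q) := by
  rw [Finset.prod_univ_sum]
  simp only [Fintype.piFinset_univ, Real.exp_sum]

/-- Markov's inequality for the exponential moment. -/
theorem hash_markov {H : Type} [Fintype H] (X : H → ℝ) (S : Finset H)
    (hS : ∀ h ∈ S, 0 ≤ X h) : (S.card : ℝ) ≤ ∑ h, Real.exp (X h) := by
  calc (S.card : ℝ) = ∑ h ∈ S, (1 : ℝ) := by simp
    _ ≤ ∑ h ∈ S, Real.exp (X h) := Finset.sum_le_sum fun h hh => Real.one_le_exp (hS h hh)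
    _ ≤ ∑ h, Real.exp (X h) :=
      Finset.sum_le_sum_of_subset_of_nonneg (Finset.subset_univ _) fun _ _ _ => (Real.exp_pos _).le

theorem hash_factor {Q : Type} [Fintype Q] [DecidableEq Q] [Nonempty Q] (J : Finset Q) (y : ℝ) :
    ∑ q : Q, Real.exp (if q ∈ J then y else 0) =
      Fintype.card Q * (1 + (J.card : ℝ) / Fintype.card Q * (Real.exp y - 1)) := by
  have hQ : (Fintype.card Q : ℝ) ≠ 0 := by
    have := Fintype.card_pos (α := Q)
    positivity
  have h1 : ∀ q : Q, Real.exp (if q ∈ J then y else 0) = 1 + (if q ∈ J then Real.exp y - 1 else 0) := by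
    intro q
    split_ifs <;> simp
  simp_rw [h1]
  rw [Finset.sum_add_distrib, Finset.sum_ite_mem, Finset.univ_inter, Finset.sum_const,
    Finset.sum_const, Finset.card_univ, nsmul_eq_mul, nsmul_eq_mul, mul_one]
  field_simp

theorem hash_mass {E Q : Type} [Fintype E] [DecidableEq E] [Fintype Q] [DecidableEq Q] [Nonempty Q] (f : E → ℝ)
    (φ μ : ℝ) (hφ : 0 < φ) (hμ : 0 ≤ μ) (hf : ∀ e, f e ^ 2 ≤ φ) (hf1 : nsq f ≤ 1) :
    ((univ.filter (fun h : E → Q => ∃ J : Finset Q,
        3 * (J.card : ℝ) / Fintype.card Q + μ < ∑ e, if h e ∈ J then f e ^ 2 else 0)).card : ℝ)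
      ≤ (1 + Real.exp (-1 / (φ * Fintype.card Q))) ^ Fintype.card Q * Real.exp (-μ / φ)
        * (Fintype.card Q : ℝ) ^ Fintype.card E := by
  classical
  have hQ0 : (0 : ℝ) < Fintype.card Q := by
    have := Fintype.card_pos (α := Q)
    positivity
  have hQ : (Fintype.card Q : ℝ) ≠ 0 := hQ0.ne'
  -- union bound
  have h1 : ((univ.filter (fun h : E → Q => ∃ J : Finset Q,
        3 * (J.card : ℝ) / Fintype.card Q + μ < ∑ e, if h e ∈ J then f e ^ 2 else 0)).card : ℝ) ≤
      ∑ J : Finset Q, ((univ.filter (fun h : E → Q =>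
        3 * (J.card : ℝ) / Fintype.card Q + μ < ∑ e, if h e ∈ J then f e ^ 2 else 0)).card : ℝ) := by
    have h2 : (univ.filter (fun h : E → Q => ∃ J : Finset Q,
        3 * (J.card : ℝ) / Fintype.card Q + μ < ∑ e, if h e ∈ J then f e ^ 2 else 0)) ⊆
        univ.biUnion fun J : Finset Q => univ.filter (fun h : E → Q =>
          3 * (J.card : ℝ) / Fintype.card Q + μ < ∑ e, if h e ∈ J then f e ^ 2 else 0) := by
      intro h hh
      obtain ⟨J, hJ⟩ := (Finset.mem_filter.1 hh).2
      exact Finset.mem_biUnion.2 ⟨J, mem_univ _, Finset.mem_filter.2 ⟨mem_univ _, hJ⟩⟩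
    exact_mod_cast (Finset.card_le_card h2).trans Finset.card_biUnion_le
  refine h1.trans ?_
  -- one set
  have h3 : ∀ J : Finset Q, ((univ.filter (fun h : E → Q =>
        3 * (J.card : ℝ) / Fintype.card Q + μ < ∑ e, if h e ∈ J then f e ^ 2 else 0)).card : ℝ) ≤
      Real.exp (-1 / (φ * Fintype.card Q)) ^ J.card * (Real.exp (-μ / φ) *
        (Fintype.card Q : ℝ) ^ Fintype.card E) := by
    intro J
    set c : ℝ := 3 * (J.card : ℝ) / Fintype.card Q + μ with hc
    have h4 := hash_markov (fun h : E → Q => ((∑ e, if h e ∈ J then f e ^ 2 else 0) - c) / φ)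
      (univ.filter (fun h : E → Q => c < ∑ e, if h e ∈ J then f e ^ 2 else 0))
      (fun h hh => div_nonneg (sub_nonneg.2 (Finset.mem_filter.1 hh).2.le) hφ.le)
    refine h4.trans ?_
    have h5 : ∀ h : E → Q, Real.exp (((∑ e, if h e ∈ J then f e ^ 2 else 0) - c) / φ) =
        Real.exp (-c / φ) * Real.exp (∑ e, if h e ∈ J then f e ^ 2 / φ else 0) := by
      intro h
      rw [← Real.exp_add]
      congr 1
      have h6 : (∑ e, if h e ∈ J then f e ^ 2 / φ else 0) =
          (∑ e, if h e ∈ J then f e ^ 2 else 0) / φ := by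
        rw [Finset.sum_div]
        exact Finset.sum_congr rfl fun e _ => by split_ifs <;> simp
      rw [h6]
      ring
    simp_rw [h5]
    rw [← Finset.mul_sum, hash_moment (fun e q => if q ∈ J then f e ^ 2 / φ else 0)]
    simp_rw [hash_factor]
    rw [Finset.prod_mul_distrib, Finset.prod_const, Finset.card_univ]
    have h7 : ∏ e, (1 + (J.card : ℝ) / Fintype.card Q * (Real.exp (f e ^ 2 / φ) - 1)) ≤
        Real.exp (2 * ((J.card : ℝ) / Fintype.card Q) / φ) := by
      calc ∏ e, (1 + (J.card : ℝ) / Fintype.card Q * (Real.exp (f e ^ 2 / φ) - 1))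
          ≤ ∏ e, Real.exp ((J.card : ℝ) / Fintype.card Q * (2 * (f e ^ 2 / φ))) := by
            refine Finset.prod_le_prod (fun e _ => ?_) fun e _ => ?_
            · have : 0 ≤ Real.exp (f e ^ 2 / φ) - 1 :=
                sub_nonneg.2 (Real.one_le_exp (by positivity))
              positivity
            · have h8 : Real.exp (f e ^ 2 / φ) - 1 ≤ 2 * (f e ^ 2 / φ) :=
                hash_exp_sub_one (by positivity) ((div_le_one hφ).2 (hf e))
              have h9 : (J.card : ℝ) / Fintype.card Q * (Real.exp (f e ^ 2 / φ) - 1) ≤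
                  (J.card : ℝ) / Fintype.card Q * (2 * (f e ^ 2 / φ)) :=
                mul_le_mul_of_nonneg_left h8 (by positivity)
              linarith [Real.add_one_le_exp ((J.card : ℝ) / Fintype.card Q * (2 * (f e ^ 2 / φ)))]
        _ = Real.exp (2 * ((J.card : ℝ) / Fintype.card Q) / φ * nsq f) := by
            rw [← Real.exp_sum]
            congr 1
            unfold nsq
            rw [Finset.mul_sum]
            exact Finset.sum_congr rfl fun e _ => by ring
        _ ≤ Real.exp (2 * ((J.card : ℝ) / Fintype.card Q) / φ) := by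
            apply Real.exp_le_exp.2
            have : 0 ≤ 2 * ((J.card : ℝ) / Fintype.card Q) / φ := by positivity
            nlinarith
    calc Real.exp (-c / φ) * ((Fintype.card Q : ℝ) ^ Fintype.card E *
          ∏ e, (1 + (J.card : ℝ) / Fintype.card Q * (Real.exp (f e ^ 2 / φ) - 1)))
        ≤ Real.exp (-c / φ) * ((Fintype.card Q : ℝ) ^ Fintype.card E *
          Real.exp (2 * ((J.card : ℝ) / Fintype.card Q) / φ)) := by gcongr
      _ = Real.exp (-1 / (φ * Fintype.card Q)) ^ J.card * (Real.exp (-μ / φ) *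
        (Fintype.card Q : ℝ) ^ Fintype.card E) := by
          rw [← Real.exp_nat_mul]
          have h10 : Real.exp (-c / φ) * Real.exp (2 * ((J.card : ℝ) / Fintype.card Q) / φ) =
              Real.exp (J.card * (-1 / (φ * Fintype.card Q))) * Real.exp (-μ / φ) := by
            rw [← Real.exp_add, ← Real.exp_add]
            congr 1
            rw [hc]
            field_simp
            ring
          linear_combination ((Fintype.card Q : ℝ) ^ Fintype.card E) * h10
  refine (Finset.sum_le_sum fun J _ => h3 J).trans (le_of_eq ?_)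
  rw [← Finset.sum_mul, mul_assoc]
  congr 1
  have h11 := Finset.sum_pow_mul_eq_add_pow (Real.exp (-1 / (φ * Fintype.card Q))) (1 : ℝ)
    (univ : Finset Q)
  rw [Finset.powerset_univ, Finset.card_univ] at h11
  simp only [one_pow, mul_one] at h11
  rw [h11, add_comm]

theorem hash_load {E Q : Type} [Fintype E] [DecidableEq E] [Fintype Q] [DecidableEq Q] [Nonempty Q] :
    ((univ.filter (fun h : E → Q => ∃ q : Q,
        3 * ((Fintype.card E : ℝ) / Fintype.card Q) ≤ ((univ.filter (fun e => h e = q)).card : ℝ))).card : ℝ)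
      ≤ Fintype.card Q * Real.exp (-(5 / 4) * ((Fintype.card E : ℝ) / Fintype.card Q))
        * (Fintype.card Q : ℝ) ^ Fintype.card E := by
  classical
  have hQ0 : (0 : ℝ) < Fintype.card Q := by
    have := Fintype.card_pos (α := Q)
    positivity
  have hQ : (Fintype.card Q : ℝ) ≠ 0 := hQ0.ne'
  set a : ℝ := (Fintype.card E : ℝ) / Fintype.card Q with ha
  have ha0 : 0 ≤ a := by positivity
  have h1 : ((univ.filter (fun h : E → Q => ∃ q : Q,
        3 * a ≤ ((univ.filter (fun e => h e = q)).card : ℝ))).card : ℝ) ≤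
      ∑ q : Q, ((univ.filter (fun h : E → Q =>
        3 * a ≤ ((univ.filter (fun e => h e = q)).card : ℝ))).card : ℝ) := by
    have h2 : (univ.filter (fun h : E → Q => ∃ q : Q,
        3 * a ≤ ((univ.filter (fun e => h e = q)).card : ℝ))) ⊆
        univ.biUnion fun q : Q => univ.filter (fun h : E → Q =>
          3 * a ≤ ((univ.filter (fun e => h e = q)).card : ℝ)) := by
      intro h hh
      obtain ⟨q, hq⟩ := (Finset.mem_filter.1 hh).2
      exact Finset.mem_biUnion.2 ⟨q, mem_univ _, Finset.mem_filter.2 ⟨mem_univ _, hq⟩⟩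
    exact_mod_cast (Finset.card_le_card h2).trans Finset.card_biUnion_le
  refine h1.trans ?_
  have h3 : ∀ q : Q, ((univ.filter (fun h : E → Q =>
        3 * a ≤ ((univ.filter (fun e => h e = q)).card : ℝ))).card : ℝ) ≤
      Real.exp (-(5 / 4) * a) * (Fintype.card Q : ℝ) ^ Fintype.card E := by
    intro q
    have h4 := hash_markov (fun h : E → Q => ((univ.filter (fun e => h e = q)).card : ℝ) - 3 * a)
      (univ.filter (fun h : E → Q => 3 * a ≤ ((univ.filter (fun e => h e = q)).card : ℝ)))
      (fun h hh => sub_nonneg.2 (Finset.mem_filter.1 hh).2)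
    refine h4.trans ?_
    have h5 : ∀ h : E → Q, Real.exp (((univ.filter (fun e => h e = q)).card : ℝ) - 3 * a) =
        Real.exp (-(3 * a)) * Real.exp (∑ e, if h e ∈ ({q} : Finset Q) then (1 : ℝ) else 0) := by
      intro h
      rw [← Real.exp_add]
      congr 1
      have h6 : (∑ e, if h e ∈ ({q} : Finset Q) then (1 : ℝ) else 0) =
          ((univ.filter (fun e => h e = q)).card : ℝ) := by
        simp
      rw [h6]
      ring
    simp_rw [h5]
    rw [← Finset.mul_sum, hash_moment (fun _ q' => if q' ∈ ({q} : Finset Q) then (1 : ℝ) else 0)]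
    simp_rw [hash_factor]
    rw [Finset.prod_mul_distrib, Finset.prod_const, Finset.prod_const, Finset.card_univ,
      Finset.card_singleton]
    have he : Real.exp 1 < 2.7182818286 := Real.exp_one_lt_d9
    have h7 : (1 + ((1 : ℕ) : ℝ) / Fintype.card Q * (Real.exp 1 - 1)) ^ Fintype.card E ≤
        Real.exp ((Real.exp 1 - 1) * a) := by
      have h8 : 1 + ((1 : ℕ) : ℝ) / Fintype.card Q * (Real.exp 1 - 1) ≤
          Real.exp (((1 : ℕ) : ℝ) / Fintype.card Q * (Real.exp 1 - 1)) := by
        have := Real.add_one_le_exp (((1 : ℕ) : ℝ) / Fintype.card Q * (Real.exp 1 - 1))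
        linarith
      have h9 : 0 ≤ 1 + ((1 : ℕ) : ℝ) / Fintype.card Q * (Real.exp 1 - 1) := by
        have : 0 ≤ Real.exp 1 - 1 := sub_nonneg.2 (Real.one_le_exp zero_le_one)
        positivity
      refine (pow_le_pow_left₀ h9 h8 _).trans (le_of_eq ?_)
      rw [← Real.exp_nat_mul]
      congr 1
      rw [ha]
      push_cast
      ring
    calc Real.exp (-(3 * a)) * ((Fintype.card Q : ℝ) ^ Fintype.card E *
          (1 + ((1 : ℕ) : ℝ) / Fintype.card Q * (Real.exp 1 - 1)) ^ Fintype.card E)
        ≤ Real.exp (-(3 * a)) * ((Fintype.card Q : ℝ) ^ Fintype.card E *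
          Real.exp ((Real.exp 1 - 1) * a)) := by gcongr
      _ = Real.exp (-(3 * a) + (Real.exp 1 - 1) * a) * (Fintype.card Q : ℝ) ^ Fintype.card E := by
          rw [Real.exp_add]
          ring
      _ ≤ Real.exp (-(5 / 4) * a) * (Fintype.card Q : ℝ) ^ Fintype.card E := by
          gcongr
          nlinarith
  refine (Finset.sum_le_sum fun q _ => h3 q).trans (le_of_eq ?_)
  rw [Finset.sum_const, Finset.card_univ, nsmul_eq_mul]
  ring

end Pool.Agent.Helper951_sr
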