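import Pool.Agent.Helper951_sr.Defs

/-!
Project SR (helper951, MP_72d76c_lc). Job C: calculus of costs.
-/

namespace Pool.Agent.Helper951_sr

open Finset

theorem calc_instr_mono {α : Type} {P P' : Set (α → ℝ)} {f : α → ℝ} (h : Instr P f) (hP : P ⊆ P') :
    Instr P' f := by
  cases h with
  | const c => exact Instr.const c
  | add f g hf hg => exact Instr.add f g (hP hf) (hP hg)
  | sub f g hf hg => exact Instr.sub f g (hP hf) (hP hg)
  | smul c f hf => exact Instr.smul c f (hP hf)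
  | sel f g p q hf hg hp hq => exact Instr.sel f g p q (hP hf) (hP hg) (hP hp) (hP hq)

theorem calc_slp_mono {α : Type} {P P' : Set (α → ℝ)} {L : List (α → ℝ)} (h : SLP P L) (hP : P ⊆ P') :
    SLP P' L := by
  induction h with
  | nil => exact SLP.nil
  | cons L f _ hf ih => exact SLP.cons L f ih (calc_instr_mono hf (Set.union_subset_union_left _ hP))

theorem calc_slp_append {α : Type} {P : Set (α → ℝ)} {L₁ L₂ : List (α → ℝ)} (h₁ : SLP P L₁)
    (h₂ : SLP (P ∪ {g | g ∈ L₁}) L₂) : SLP P (L₂ ++ L₁) := by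
  induction h₂ with
  | nil => exact h₁
  | cons L f _ hf ih =>
    refine SLP.cons (L ++ L₁) f ih (calc_instr_mono hf ?_)
    rintro g ((hg | hg) | hg)
    · exact Or.inl hg
    · exact Or.inr (List.mem_append.2 (Or.inr hg))
    · exact Or.inr (List.mem_append.2 (Or.inl hg))

theorem comp_mono {α : Type} {T T' : ℕ} {P P' Q Q' : Set (α → ℝ)} (h : Comp T P Q) (hT : T ≤ T') (hP : P ⊆ P')
    (hQ : Q' ⊆ Q) : Comp T' P' Q' := by
  obtain ⟨L, h1, h2, h3⟩ := h
  exact ⟨L, calc_slp_mono h1 hP, h2.trans hT,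
    hQ.trans (h3.trans (Set.union_subset_union_left _ hP))⟩

theorem comp_refl {α : Type} (P Q : Set (α → ℝ)) (h : Q ⊆ P) : Comp 0 P Q :=
  ⟨[], SLP.nil, le_rfl, h.trans Set.subset_union_left⟩

theorem comp_one {α : Type} (P : Set (α → ℝ)) (f : α → ℝ) (h : Instr P f) : Comp 1 P {f} := by
  refine ⟨[f], SLP.cons [] f SLP.nil (calc_instr_mono h Set.subset_union_left), le_rfl, ?_⟩
  rintro g rfl
  exact Or.inr (List.mem_singleton.2 rfl)

theorem comp_trans {α : Type} {T₁ T₂ : ℕ} {P Q R : Set (α → ℝ)} (h₁ : Comp T₁ P Q) (h₂ : Comp T₂ (P ∪ Q) R) :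
    Comp (T₁ + T₂) P (Q ∪ R) := by
  obtain ⟨L₁, h1, h2, h3⟩ := h₁
  obtain ⟨L₂, h4, h5, h6⟩ := h₂
  have hPQ : P ∪ Q ⊆ P ∪ {g | g ∈ L₁} := Set.union_subset Set.subset_union_left h3
  have hL : P ∪ {g | g ∈ L₁} ⊆ P ∪ {g | g ∈ L₂ ++ L₁} := by
    rintro g (hg | hg)
    · exact Or.inl hg
    · exact Or.inr (List.mem_append.2 (Or.inr hg))
  refine ⟨L₂ ++ L₁, calc_slp_append h1 (calc_slp_mono h4 hPQ), ?_, ?_⟩
  · rw [List.length_append]
    omega
  · refine Set.union_subset (h3.trans hL) ?_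
    intro g hg
    rcases h6 hg with h | h
    · exact hL (hPQ h)
    · exact Or.inr (List.mem_append.2 (Or.inl h))

theorem comp_union {α : Type} {T₁ T₂ : ℕ} {P Q R : Set (α → ℝ)} (h₁ : Comp T₁ P Q) (h₂ : Comp T₂ P R) :
    Comp (T₁ + T₂) P (Q ∪ R) :=
  comp_trans h₁ (comp_mono h₂ le_rfl Set.subset_union_left (fun _ h => h))

theorem comp_biUnion {α ι : Type} (s : Finset ι) (t : ι → ℕ) (P : Set (α → ℝ)) (Q : ι → Set (α → ℝ))
    (h : ∀ i ∈ s, Comp (t i) P (Q i)) : Comp (∑ i ∈ s, t i) P (⋃ i ∈ s, Q i) := by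
  classical
  induction s using Finset.induction_on with
  | empty => exact comp_refl _ _ (by simp)
  | insert a s ha ih =>
    rw [Finset.sum_insert ha, Finset.set_biUnion_insert]
    exact comp_union (h a (Finset.mem_insert_self _ _))
      (ih fun i hi => h i (Finset.mem_insert_of_mem hi))

theorem comp_iUnion {α ι : Type} [Fintype ι] (t : ι → ℕ) (P : Set (α → ℝ)) (Q : ι → Set (α → ℝ))
    (h : ∀ i, Comp (t i) P (Q i)) : Comp (∑ i, t i) P (⋃ i, Q i) := by
  have h1 := comp_biUnion univ t P Q fun i _ => h i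
  refine comp_mono h1 le_rfl (fun _ h => h) ?_
  intro f hf
  simpa using hf

theorem fast_mono {I J : Type} {T T' : ℕ} {Φ : (I → ℝ) → (J → ℝ)} (h : FastMap T Φ) (hT : T ≤ T') :
    FastMap T' Φ := fun α P x hx => comp_mono (h α P x hx) hT (fun _ h => h) fun _ h => h

theorem fast_comp {I J K : Type} {T₁ T₂ : ℕ} {Φ : (I → ℝ) → (J → ℝ)} {Ψ : (J → ℝ) → (K → ℝ)}
    (h₁ : FastMap T₁ Φ) (h₂ : FastMap T₂ Ψ) : FastMap (T₁ + T₂) (fun x => Ψ (Φ x)) := by
  intro α P x hx
  have h3 := h₁ α P x hx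
  have h4 := h₂ α (P ∪ {f | ∃ j, f = fun a => Φ (x a) j}) (fun a => Φ (x a))
    (fun j => Or.inr ⟨j, rfl⟩)
  exact comp_mono (comp_trans h3 h4) le_rfl (fun _ h => h) Set.subset_union_right

/-- renaming and copying coordinates is free -/
theorem fast_reindex {I J : Type} (e : J → I) : FastMap 0 (fun (x : I → ℝ) (j : J) => x (e j)) := by
  intro α P x hx
  apply comp_refl
  rintro f ⟨j, rfl⟩
  exact hx (e j)

/-- two maps of the same input, results side by side -/
theorem fast_pair {I J K : Type} {T₁ T₂ : ℕ} {Φ : (I → ℝ) → (J → ℝ)} {Ψ : (I → ℝ) → (K → ℝ)}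
    (h₁ : FastMap T₁ Φ) (h₂ : FastMap T₂ Ψ) : FastMap (T₁ + T₂) (fun x => Sum.elim (Φ x) (Ψ x)) := by
  intro α P x hx
  refine comp_mono (comp_union (h₁ α P x hx) (h₂ α P x hx)) le_rfl (fun _ h => h) ?_
  rintro f ⟨j | k, rfl⟩
  · exact Or.inl ⟨j, rfl⟩
  · exact Or.inr ⟨k, rfl⟩

/-- coordinates computed one by one -/
theorem fast_pi {I J : Type} [Fintype J] (t : J → ℕ) (Φ : (I → ℝ) → (J → ℝ))
    (h : ∀ j, FastMap (t j) (fun x (_ : Unit) => Φ x j)) : FastMap (∑ j, t j) Φ := by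
  intro α P x hx
  refine comp_mono (comp_iUnion t P _ fun j => h j α P x hx) le_rfl (fun _ h => h) ?_
  rintro f ⟨j, rfl⟩
  exact Set.mem_iUnion.2 ⟨j, (), rfl⟩

/-- coordinates computed one by one, all at the same cost -/
theorem fast_pi_const {I J : Type} [Fintype J] (t : ℕ) (Φ : (I → ℝ) → (J → ℝ))
    (h : ∀ j, FastMap t (fun x (_ : Unit) => Φ x j)) : FastMap (Fintype.card J * t) Φ := by
  have h1 := fast_pi (fun _ => t) Φ h
  rwa [Finset.sum_const, Finset.card_univ, smul_eq_mul] at h1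

/-- one instruction -/
theorem fast_instr {I : Type} (φ : (I → ℝ) → ℝ)
    (h : ∀ (α : Type) (P : Set (α → ℝ)) (x : α → I → ℝ), (∀ i, (fun a => x a i) ∈ P) →
      Instr P (fun a => φ (x a))) : FastMap 1 (fun x (_ : Unit) => φ x) := by
  intro α P x hx
  refine comp_mono (comp_one P _ (h α P x hx)) le_rfl (fun _ h => h) ?_
  rintro f ⟨_, rfl⟩
  rfl

/-- the input stays available -/
theorem fast_keep {I J : Type} {T : ℕ} {Φ : (I → ℝ) → (J → ℝ)} (h : FastMap T Φ) :
    FastMap T (fun x => Sum.elim x (Φ x)) := by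
  have h1 := fast_pair (fast_reindex (fun i : I => i)) h
  rwa [zero_add] at h1

/-- composition where the second map also uses the input -/
theorem fast_bind {I J K : Type} {T₁ T₂ : ℕ} {Φ : (I → ℝ) → (J → ℝ)} {Ψ : (I ⊕ J → ℝ) → (K → ℝ)}
    (h₁ : FastMap T₁ Φ) (h₂ : FastMap T₂ Ψ) : FastMap (T₁ + T₂) (fun x => Ψ (Sum.elim x (Φ x))) :=
  fast_comp (fast_keep h₁) h₂

/-- iteration -/
theorem fast_iterate {I : Type} {T : ℕ} {Φ : (I → ℝ) → (I → ℝ)} (h : FastMap T Φ) (k : ℕ) :
    FastMap (k * T) (Φ^[k]) := by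
  induction k with
  | zero =>
    rw [zero_mul]
    exact fast_reindex (fun i : I => i)
  | succ k ih =>
    rw [Nat.succ_mul, add_comm]
    have h1 := fast_comp (Φ := Φ) (Ψ := Φ^[k]) h ih
    exact h1

/-- equal maps -/
theorem fast_congr {I J : Type} {T : ℕ} {Φ Ψ : (I → ℝ) → (J → ℝ)} (h : FastMap T Φ)
    (hE : ∀ x j, Φ x j = Ψ x j) : FastMap T Ψ := by
  have h1 : Φ = Ψ := by
    funext x j
    exact hE x j
  rwa [← h1]

/-- blocks -/
theorem fast_blocks {R I J : Type} [Fintype R] {T : ℕ} {Φ : (I → ℝ) → (J → ℝ)} (h : FastMap T Φ) :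
    FastMap (Fintype.card R * T) (fun (x : R × I → ℝ) (s : R × J) => Φ (fun i => x (s.1, i)) s.2) := by
  intro α P x hx
  have h1 := comp_iUnion (fun _ : R => T) P _ fun r =>
    h α P (fun a i => x a (r, i)) fun i => hx (r, i)
  rw [Finset.sum_const, Finset.card_univ, smul_eq_mul] at h1
  refine comp_mono h1 le_rfl (fun _ h => h) ?_
  rintro f ⟨⟨r, j⟩, rfl⟩
  exact Set.mem_iUnion.2 ⟨r, j, rfl⟩

/-- a constant vector -/
theorem fast_const {I J : Type} [Fintype J] (c : J → ℝ) :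
    FastMap (Fintype.card J) (fun (_ : I → ℝ) => c) := by
  have h := fast_pi_const (I := I) 1 (fun _ => c) fun j =>
    fast_instr (fun _ => c j) fun _ _ _ _ => Instr.const (c j)
  rwa [mul_one] at h

/-- a linear form with support in `s` -/
theorem fast_lin {I : Type} [DecidableEq I] (s : Finset I) (c : I → ℝ) :
    FastMap (3 * s.card + 1) (fun x (_ : Unit) => ∑ i ∈ s, c i * x i) := by
  intro α P x hx
  induction s using Finset.induction_on with
  | empty =>
    refine comp_mono (comp_one P _ (Instr.const 0)) (by simp) (fun _ h => h) ?_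
    rintro f ⟨_, rfl⟩
    simp
  | insert a s ha ih =>
    rw [Finset.card_insert_of_notMem ha]
    set f₀ : α → ℝ := fun b => ∑ i ∈ s, c i * x b i with hf₀
    have h1 : Comp (3 * s.card + 1) P {f₀} := by
      refine comp_mono ih le_rfl (fun _ h => h) ?_
      rintro f rfl
      exact ⟨(), rfl⟩
    set f₂ : α → ℝ := fun b => c a * x b a with hf₂
    have h3 : Comp 1 (P ∪ {f₀}) {f₂} :=
      comp_one _ _ (Instr.smul _ _ (Or.inl (hx a)))
    have h4 : Comp 1 (P ∪ ({f₀} ∪ {f₂})) {fun b => f₂ b + f₀ b} :=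
      comp_one _ _ (Instr.add _ _ (Or.inr (Or.inr rfl)) (Or.inr (Or.inl rfl)))
    have h5 := comp_trans (comp_trans h1 h3) h4
    refine comp_mono h5 (by omega) (fun _ h => h) ?_
    rintro f ⟨_, rfl⟩
    refine Or.inr ?_
    rw [Set.mem_singleton_iff]
    funext b
    change ∑ i ∈ insert a s, c i * x b i = f₂ b + f₀ b
    rw [Finset.sum_insert ha]

/-- a sparse matrix: cost 3 * (number of nonzero entries) + number of rows -/
theorem fast_sparse {I J : Type} [Fintype I] [Fintype J] [DecidableEq I] (M : J → I → ℝ) :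
    FastMap (3 * (∑ j, (univ.filter (fun i => M j i ≠ 0)).card) + Fintype.card J) (mv M) := by
  have h := fast_pi (fun j => 3 * (univ.filter (fun i => M j i ≠ 0)).card + 1) (mv M) fun j => by
    refine fast_congr (fast_lin (univ.filter (fun i => M j i ≠ 0)) (M j)) fun x _ => ?_
    unfold mv
    rw [Finset.sum_filter]
    refine Finset.sum_congr rfl fun i _ => ?_
    split_ifs with h
    · rfl
    · rw [not_not.1 h, zero_mul]
  refine fast_mono h (le_of_eq ?_)
  rw [Finset.sum_add_distrib, ← Finset.mul_sum, Finset.sum_const, Finset.card_univ, smul_eq_mul,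
    mul_one]

/-- coordinatewise operations: one instruction each -/
theorem fast_add {I : Type} [Fintype I] :
    FastMap (Fintype.card I) (fun (x : I ⊕ I → ℝ) (i : I) => x (Sum.inl i) + x (Sum.inr i)) := by
  have h := fast_pi_const 1 (fun (x : I ⊕ I → ℝ) (i : I) => x (Sum.inl i) + x (Sum.inr i)) fun i =>
    fast_instr (fun x => x (Sum.inl i) + x (Sum.inr i)) fun _ _ _ hx => Instr.add _ _ (hx _) (hx _)
  rwa [mul_one] at h

theorem fast_sub {I : Type} [Fintype I] :
    FastMap (Fintype.card I) (fun (x : I ⊕ I → ℝ) (i : I) => x (Sum.inl i) - x (Sum.inr i)) := by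
  have h := fast_pi_const 1 (fun (x : I ⊕ I → ℝ) (i : I) => x (Sum.inl i) - x (Sum.inr i)) fun i =>
    fast_instr (fun x => x (Sum.inl i) - x (Sum.inr i)) fun _ _ _ hx => Instr.sub _ _ (hx _) (hx _)
  rwa [mul_one] at h

/-- selection, coordinatewise: `if a ≤ b then p else q` -/
theorem fast_sel {I : Type} [Fintype I] :
    FastMap (Fintype.card I) (fun (x : (I ⊕ I) ⊕ (I ⊕ I) → ℝ) (i : I) =>
      if x (Sum.inl (Sum.inl i)) ≤ x (Sum.inl (Sum.inr i)) then x (Sum.inr (Sum.inl i))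
        else x (Sum.inr (Sum.inr i))) := by
  have h := fast_pi_const 1 (fun (x : (I ⊕ I) ⊕ (I ⊕ I) → ℝ) (i : I) =>
      if x (Sum.inl (Sum.inl i)) ≤ x (Sum.inl (Sum.inr i)) then x (Sum.inr (Sum.inl i))
        else x (Sum.inr (Sum.inr i))) fun i =>
    fast_instr (fun x => if x (Sum.inl (Sum.inl i)) ≤ x (Sum.inl (Sum.inr i)) then
      x (Sum.inr (Sum.inl i)) else x (Sum.inr (Sum.inr i))) fun _ _ _ hx =>
        Instr.sel _ _ _ _ (hx _) (hx _) (hx _) (hx _)
  rwa [mul_one] at h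

/-- multiplication by constants -/
theorem fast_diag {I : Type} [Fintype I] (c : I → ℝ) :
    FastMap (2 * Fintype.card I) (fun (x : I → ℝ) (i : I) => c i * x i) := by
  have h := fast_pi_const 1 (fun (x : I → ℝ) (i : I) => c i * x i) fun i =>
    fast_instr (fun x => c i * x i) fun _ _ _ hx => Instr.smul _ _ (hx _)
  exact fast_mono h (by omega)

theorem fast_max : FastMap 1 (fun (x : Bool → ℝ) (_ : Unit) => max (x false) (x true)) := by
  refine fast_instr _ fun α P x hx => ?_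
  have h := Instr.sel (P := P) _ _ _ _ (hx false) (hx true) (hx true) (hx false)
  simpa only [max_def] using h

theorem fast_min : FastMap 1 (fun (x : Bool → ℝ) (_ : Unit) => min (x false) (x true)) := by
  refine fast_instr _ fun α P x hx => ?_
  have h := Instr.sel (P := P) _ _ _ _ (hx false) (hx true) (hx false) (hx true)
  simpa only [min_def] using h

/-- absolute values -/
theorem fast_abs {I : Type} [Fintype I] : FastMap (3 * Fintype.card I) (fun (x : I → ℝ) (i : I) => |x i|) := by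
  have h := fast_pi_const 3 (fun (x : I → ℝ) (i : I) => |x i|) fun i => by
    intro α P x hx
    set f₀ : α → ℝ := fun _ => 0 with hf₀
    have h1 : Comp 1 P {f₀} := comp_one _ _ (Instr.const _)
    set f₁ : α → ℝ := fun b => f₀ b - x b i with hf₁
    have h2 : Comp 1 (P ∪ {f₀}) {f₁} := comp_one _ _ (Instr.sub _ _ (Or.inr rfl) (Or.inl (hx i)))
    have h3 : Comp 1 (P ∪ ({f₀} ∪ {f₁})) {fun b => if f₀ b ≤ x b i then x b i else f₁ b} :=
      comp_one _ _ (Instr.sel _ _ _ _ (Or.inr (Or.inl rfl)) (Or.inl (hx i)) (Or.inl (hx i))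
        (Or.inr (Or.inr rfl)))
    have h4 := comp_trans (comp_trans h1 h2) h3
    refine comp_mono h4 (by norm_num) (fun _ h => h) ?_
    rintro f ⟨_, rfl⟩
    refine Or.inr ?_
    rw [Set.mem_singleton_iff]
    funext b
    simp only [hf₀, hf₁]
    split_ifs with hb
    · exact abs_of_nonneg hb
    · rw [abs_of_neg (not_le.1 hb), zero_sub]
  rwa [mul_comm] at h

end Pool.Agent.Helper951_sr
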