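import Pool.Agent.Helper951_sr.Defs
import Pool.Agent.Helper951_sr.Calc

/-!
Project SR (helper951, MP_72d76c_lc). Job H: Hadamard matrices and the fast Walsh-Hadamard transform.
-/

namespace Pool.Agent.Helper951_sr

open Finset

/-- The Sylvester doubling of a matrix. -/
def had_dbl {I : Type} (W : I → I → ℝ) : I ⊕ I → I ⊕ I → ℝ
  | Sum.inl i, Sum.inl j => W i j
  | Sum.inl i, Sum.inr j => W i j
  | Sum.inr i, Sum.inl j => W i j
  | Sum.inr i, Sum.inr j => - W i j

theorem had_dbl_isHad {I : Type} [Fintype I] [DecidableEq I] {W : I → I → ℝ} (h : IsHad W) :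
    IsHad (had_dbl W) := by
  obtain ⟨h1, h2, h3⟩ := h
  refine ⟨?_, ?_, ?_⟩
  · rintro (i | i) (j | j)
    · exact h1 i j
    · exact h1 i j
    · exact h1 i j
    · rcases h1 i j with h | h
      · right; simp [had_dbl, h]
      · left; simp [had_dbl, h]
  · rintro (i | i) (j | j) <;> simp only [had_dbl] <;> rw [h2]
  · rintro (i | i) (j | j)
    · rw [Fintype.sum_sum_type]
      simp only [had_dbl, h3, Sum.inl.injEq, Fintype.card_sum]
      split_ifs <;> push_cast <;> ring
    · rw [Fintype.sum_sum_type]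
      simp only [had_dbl, mul_neg, Finset.sum_neg_distrib, h3]
      simp
    · rw [Fintype.sum_sum_type]
      simp only [had_dbl, neg_mul, Finset.sum_neg_distrib, h3]
      simp
    · rw [Fintype.sum_sum_type]
      simp only [had_dbl, neg_mul_neg, h3, Sum.inr.injEq, Fintype.card_sum]
      split_ifs <;> push_cast <;> ring

theorem had_dbl_fast {I : Type} [Fintype I] {W : I → I → ℝ} {T : ℕ}
    (h : FastMap T (mv W)) : FastMap (T + T + (Fintype.card I + Fintype.card I)) (mv (had_dbl W)) := by
  have e1 : FastMap (0 + T) (fun x : I ⊕ I → ℝ => mv W (fun i => x (Sum.inl i))) :=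
    fast_comp (fast_reindex (Sum.inl : I → I ⊕ I)) h
  have e2 : FastMap (0 + T) (fun x : I ⊕ I → ℝ => mv W (fun i => x (Sum.inr i))) :=
    fast_comp (fast_reindex (Sum.inr : I → I ⊕ I)) h
  have e3 := fast_pair e1 e2
  have e4 := fast_comp e3 (fast_pair (fast_add (I := I)) (fast_sub (I := I)))
  have e5 : (fun x : I ⊕ I → ℝ => Sum.elim
      (fun i : I => Sum.elim (mv W (fun i => x (Sum.inl i))) (mv W (fun i => x (Sum.inr i))) (Sum.inl i) +
        Sum.elim (mv W (fun i => x (Sum.inl i))) (mv W (fun i => x (Sum.inr i))) (Sum.inr i))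
      (fun i : I => Sum.elim (mv W (fun i => x (Sum.inl i))) (mv W (fun i => x (Sum.inr i))) (Sum.inl i) -
        Sum.elim (mv W (fun i => x (Sum.inl i))) (mv W (fun i => x (Sum.inr i))) (Sum.inr i))) =
      mv (had_dbl W) := by
    funext x
    funext s
    rcases s with i | i
    · simp only [Sum.elim_inl, Sum.elim_inr, mv, Fintype.sum_sum_type, had_dbl]
    · simp only [Sum.elim_inl, Sum.elim_inr, mv, Fintype.sum_sum_type, had_dbl, neg_mul,
        Finset.sum_neg_distrib]
      ring
  rw [← e5]
  exact fast_mono e4 (by omega)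

/-- Transport along an equivalence. -/
theorem had_equiv {I J : Type} [Fintype I] [DecidableEq I] [Fintype J] [DecidableEq J] (e : I ≃ J)
    {T : ℕ} (h : ∃ W : I → I → ℝ, IsHad W ∧ FastMap T (mv W)) :
    ∃ W : J → J → ℝ, IsHad W ∧ FastMap T (mv W) := by
  obtain ⟨W, ⟨h1, h2, h3⟩, h4⟩ := h
  refine ⟨fun i j => W (e.symm i) (e.symm j), ⟨fun i j => h1 _ _, fun i j => h2 _ _,
    fun i j => ?_⟩, ?_⟩
  · rw [Equiv.sum_comp e.symm (fun l => W (e.symm i) l * W (e.symm j) l), h3]
    simp only [EmbeddingLike.apply_eq_iff_eq, Fintype.card_congr e]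
  · have e1 := fast_comp (fast_comp (fast_reindex e) h4) (fast_reindex e.symm)
    have e2 : (fun x : J → ℝ => fun j : J => mv W (fun i => x (e i)) (e.symm j)) =
        mv (fun i j => W (e.symm i) (e.symm j)) := by
      funext x j
      unfold mv
      rw [← Equiv.sum_comp e (fun l => W (e.symm j) (e.symm l) * x l)]
      simp
    rw [← e2]
    exact fast_mono e1 (by omega)

theorem exists_had (p : ℕ) : ∃ W : Fin (2 ^ p) → Fin (2 ^ p) → ℝ, IsHad W ∧ FastMap (p * 2 ^ p) (mv W) := by
  induction p with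
  | zero =>
    refine ⟨fun _ _ => 1, ⟨fun _ _ => Or.inl rfl, fun _ _ => rfl, fun i j => ?_⟩, ?_⟩
    · have hij : i = j := by
        apply Fin.ext
        have h1 := i.2
        have h2 := j.2
        simp only [pow_zero] at h1 h2
        omega
      rw [if_pos hij]
      simp
    · have e1 : (fun (x : Fin (2 ^ 0) → ℝ) (j : Fin (2 ^ 0)) => x j) = mv fun _ _ => 1 := by
        funext x j
        unfold mv
        have h0 : ∀ i : Fin (2 ^ 0), i = j := by
          intro i
          apply Fin.ext
          have h1 := i.2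
          have h2 := j.2
          simp only [pow_zero] at h1 h2
          omega
        rw [Finset.sum_eq_single j (fun b _ hb => absurd (h0 b) hb) (fun h => absurd (mem_univ _) h)]
        ring
      rw [← e1]
      exact fast_mono (fast_reindex (fun j : Fin (2 ^ 0) => j)) (by omega)
  | succ p ih =>
    obtain ⟨W, h1, h2⟩ := ih
    have h3 := had_dbl_fast h2
    have e : Fin (2 ^ p) ⊕ Fin (2 ^ p) ≃ Fin (2 ^ (p + 1)) :=
      finSumFinEquiv.trans (finCongr (by rw [pow_succ]; ring))
    refine had_equiv e ⟨had_dbl W, had_dbl_isHad h1, fast_mono h3 ?_⟩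
    rw [Fintype.card_fin, pow_succ]
    apply le_of_eq
    ring

end Pool.Agent.Helper951_sr
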