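import Pool.Agent.Helper951_sr.Defs

/-!
Project SR (helper951, MP_72d76c_lc). Job P1: Hoeffding.
-/

namespace Pool.Agent.Helper951_sr

open Finset

theorem hoeff_sum_prod {ι : Type} [Fintype ι] [DecidableEq ι] (f : ι → Bool → ℝ) :
    ∑ ε : ι → Bool, ∏ i, f i (ε i) = ∏ i, ∑ b : Bool, f i b := by
  rw [Finset.prod_univ_sum, Fintype.piFinset_univ]

theorem hoeff_mgf {ι : Type} [Fintype ι] [DecidableEq ι] (a : ι → ℝ) (l : ℝ) :
    ∑ ε : ι → Bool, Real.exp (l * ∑ i, sg (ε i) * a i) ≤ 2 ^ Fintype.card ι * Real.exp (l ^ 2 * nsq a / 2) := by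
  have h1 : ∀ ε : ι → Bool, Real.exp (l * ∑ i, sg (ε i) * a i) = ∏ i, Real.exp (l * (sg (ε i) * a i)) := by
    intro ε
    rw [Finset.mul_sum, Real.exp_sum]
  simp_rw [h1]
  rw [hoeff_sum_prod (fun i b => Real.exp (l * (sg b * a i)))]
  have h2 : ∀ i, ∑ b : Bool, Real.exp (l * (sg b * a i)) ≤ 2 * Real.exp (l ^ 2 * a i ^ 2 / 2) := by
    intro i
    have h3 := Real.cosh_le_exp_half_sq (l * a i)
    rw [Real.cosh_eq] at h3
    have h4 : ∑ b : Bool, Real.exp (l * (sg b * a i)) = Real.exp (l * a i) + Real.exp (-(l * a i)) := by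
      rw [Fintype.sum_bool]
      simp [sg]
    rw [h4]
    have h5 : (l * a i) ^ 2 / 2 = l ^ 2 * a i ^ 2 / 2 := by ring
    rw [h5] at h3
    linarith
  calc ∏ i, ∑ b : Bool, Real.exp (l * (sg b * a i)) ≤ ∏ i : ι, (2 * Real.exp (l ^ 2 * a i ^ 2 / 2)) := by
        apply Finset.prod_le_prod
        · intro i _
          positivity
        · intro i _
          exact h2 i
    _ = 2 ^ Fintype.card ι * Real.exp (l ^ 2 * nsq a / 2) := by
        rw [Finset.prod_mul_distrib, Finset.prod_const, Finset.card_univ, ← Real.exp_sum]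
        congr 2
        unfold nsq
        rw [Finset.mul_sum, Finset.sum_div]

theorem hoeffding {ι : Type} [Fintype ι] [DecidableEq ι] (a : ι → ℝ) (s t : ℝ) (hs : 0 < s) (ht : 0 ≤ t)
    (ha : nsq a ≤ s) :
    ((univ.filter (fun ε : ι → Bool => t ≤ ∑ i, sg (ε i) * a i)).card : ℝ)
      ≤ Real.exp (-t ^ 2 / (2 * s)) * 2 ^ Fintype.card ι := by
  have h1 := hoeff_mgf a (t / s)
  have h2 : ((univ.filter (fun ε : ι → Bool => t ≤ ∑ i, sg (ε i) * a i)).card : ℝ) * Real.exp (t / s * t)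
      ≤ ∑ ε : ι → Bool, Real.exp (t / s * ∑ i, sg (ε i) * a i) := by
    rw [← nsmul_eq_mul, ← Finset.sum_const]
    refine (Finset.sum_le_sum (fun ε hε => ?_)).trans
      (Finset.sum_le_univ_sum_of_nonneg (fun ε => (Real.exp_pos _).le))
    rw [Finset.mem_filter] at hε
    apply Real.exp_le_exp.mpr
    exact mul_le_mul_of_nonneg_left hε.2 (div_nonneg ht hs.le)
  have h3 : (t / s) ^ 2 * nsq a / 2 ≤ t ^ 2 / (2 * s) := by
    have h4 : (t / s) ^ 2 * nsq a / 2 ≤ (t / s) ^ 2 * s / 2 := by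
      have : 0 ≤ (t / s) ^ 2 := sq_nonneg _
      nlinarith
    refine h4.trans (le_of_eq ?_)
    field_simp
  have h5 : Real.exp ((t / s) ^ 2 * nsq a / 2) ≤ Real.exp (t ^ 2 / (2 * s)) := Real.exp_le_exp.mpr h3
  have h6 : ((univ.filter (fun ε : ι → Bool => t ≤ ∑ i, sg (ε i) * a i)).card : ℝ) * Real.exp (t / s * t)
      ≤ 2 ^ Fintype.card ι * Real.exp (t ^ 2 / (2 * s)) := by
    refine h2.trans (h1.trans ?_)
    exact mul_le_mul_of_nonneg_left h5 (by positivity)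
  have h7 : Real.exp (t / s * t) = Real.exp (t ^ 2 / (2 * s)) * Real.exp (t ^ 2 / (2 * s)) := by
    rw [← Real.exp_add]
    congr 1
    field_simp
    ring
  have h8 : Real.exp (-t ^ 2 / (2 * s)) * Real.exp (t ^ 2 / (2 * s)) = 1 := by
    rw [← Real.exp_add, neg_div, neg_add_cancel, Real.exp_zero]
  have hE : 0 < Real.exp (t ^ 2 / (2 * s)) := Real.exp_pos _
  rw [h7, ← mul_assoc] at h6
  have h9 := le_of_mul_le_mul_right h6 hE
  have hE' : 0 < Real.exp (-t ^ 2 / (2 * s)) := Real.exp_pos _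
  calc ((univ.filter (fun ε : ι → Bool => t ≤ ∑ i, sg (ε i) * a i)).card : ℝ)
      = Real.exp (-t ^ 2 / (2 * s)) * (((univ.filter (fun ε : ι → Bool => t ≤ ∑ i, sg (ε i) * a i)).card : ℝ) * Real.exp (t ^ 2 / (2 * s))) := by
        calc _ = ((univ.filter (fun ε : ι → Bool => t ≤ ∑ i, sg (ε i) * a i)).card : ℝ) * (Real.exp (-t ^ 2 / (2 * s)) * Real.exp (t ^ 2 / (2 * s))) := by
              rw [h8, mul_one]
          _ = _ := by ring
    _ ≤ Real.exp (-t ^ 2 / (2 * s)) * 2 ^ Fintype.card ι := mul_le_mul_of_nonneg_left h9 hE'.le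

end Pool.Agent.Helper951_sr
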