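import Pool.Agent.Helper951_sr.Defs

/-!
Project SR (helper951, MP_72d76c_lc). Job P2: nets.
-/

namespace Pool.Agent.Helper951_sr

open Finset

/-- A maximal separated set in the ball of radius two. -/
theorem net_max (E : Type) [NormedAddCommGroup E] [NormedSpace ℝ E] [FiniteDimensional ℝ E] :
    ∃ s : Finset E, s.card ≤ 5 ^ Module.finrank ℝ E ∧ (∀ c ∈ s, ‖c‖ ≤ 2) ∧
      ∀ v : E, ‖v‖ ≤ 2 → ∃ c ∈ s, ‖c - v‖ ≤ 1 := by
  classical
  let p : Finset E → Prop := fun s => (∀ c ∈ s, ‖c‖ ≤ 2) ∧ ∀ c ∈ s, ∀ d ∈ s, c ≠ d → 1 ≤ ‖c - d‖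
  let A : Set ℕ := {n | ∃ s : Finset E, p s ∧ s.card = n}
  have hne : A.Nonempty := ⟨0, ∅, ⟨by simp, by simp⟩, rfl⟩
  have hb : BddAbove A := ⟨5 ^ Module.finrank ℝ E, by
    rintro n ⟨s, hs, rfl⟩
    exact Besicovitch.card_le_of_separated s hs.1 hs.2⟩
  obtain ⟨s, hs, hcard⟩ := Nat.sSup_mem hne hb
  refine ⟨s, Besicovitch.card_le_of_separated s hs.1 hs.2, hs.1, fun v hv => ?_⟩
  by_contra hcon
  push Not at hcon
  have hvs : v ∉ s := fun h => by
    have := hcon v h
    rw [sub_self, norm_zero] at this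
    linarith
  have hp : p (insert v s) := by
    refine ⟨fun c hc => ?_, fun c hc d hd hcd => ?_⟩
    · rcases Finset.mem_insert.1 hc with rfl | hc
      · exact hv
      · exact hs.1 c hc
    · rcases Finset.mem_insert.1 hc with h1 | h1
      · rcases Finset.mem_insert.1 hd with h2 | h2
        · exact absurd (h1.trans h2.symm) hcd
        · rw [h1, norm_sub_rev]; exact (hcon d h2).le
      · rcases Finset.mem_insert.1 hd with h2 | h2
        · rw [h2]; exact (hcon c h1).le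
        · exact hs.2 c h1 d h2 hcd
  have h1 : (insert v s).card ≤ sSup A := le_csSup hb ⟨_, hp, rfl⟩
  rw [Finset.card_insert_of_notMem hvs, hcard] at h1
  omega

theorem exists_net (ι : Type) [Fintype ι] : ∃ Y : Finset (ι → ℝ), Y.card ≤ 5 ^ Fintype.card ι ∧
    (∀ y ∈ Y, nsq y ≤ 1) ∧ ∀ u : ι → ℝ, ∃ y ∈ Y, Real.sqrt (nsq u) ≤ 2 * ∑ i, y i * u i := by
  classical
  obtain ⟨s, hs1, hs2, hs3⟩ := net_max (EuclideanSpace ℝ ι)
  have hnorm : ∀ c : EuclideanSpace ℝ ι, ‖c‖ ^ 2 = ∑ i, c i ^ 2 := fun c => by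
    rw [EuclideanSpace.norm_sq_eq]
    exact Finset.sum_congr rfl fun i _ => by rw [Real.norm_eq_abs, sq_abs]
  have hinner : ∀ c d : EuclideanSpace ℝ ι, inner ℝ c d = ∑ i, c i * d i := fun c d => by
    rw [PiLp.inner_apply]
    exact Finset.sum_congr rfl fun i _ => by simp [mul_comm]
  refine ⟨s.image (fun c => fun i => c i / 2), ?_, ?_, ?_⟩
  · refine Finset.card_image_le.trans ?_
    rwa [finrank_euclideanSpace] at hs1
  · intro y hy
    obtain ⟨c, hc, rfl⟩ := Finset.mem_image.1 hy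
    have h1 := hs2 c hc
    have h2 : nsq (fun i => c i / 2) = ‖c‖ ^ 2 / 4 := by
      rw [hnorm, nsq, Finset.sum_div]
      exact Finset.sum_congr rfl fun i _ => by ring
    rw [h2]
    nlinarith [norm_nonneg c]
  · intro u
    have hu0 : 0 ≤ nsq u := Finset.sum_nonneg fun i _ => sq_nonneg _
    rcases eq_or_lt_of_le hu0 with hu | hu
    · obtain ⟨c, hc, _⟩ := hs3 0 (by simp)
      refine ⟨_, Finset.mem_image_of_mem _ hc, ?_⟩
      have hz : ∀ i, u i = 0 := fun i => by
        have := (Finset.sum_eq_zero_iff_of_nonneg (fun i _ => sq_nonneg (u i))).1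
          (hu.symm : ∑ i, u i ^ 2 = 0) i (Finset.mem_univ i)
        exact pow_eq_zero_iff (two_ne_zero) |>.1 this
      rw [← hu]
      simp [hz]
    · set N := Real.sqrt (nsq u) with hN
      have hNpos : 0 < N := Real.sqrt_pos.2 hu
      have hNsq : N ^ 2 = nsq u := Real.sq_sqrt hu0
      set U : EuclideanSpace ℝ ι := WithLp.toLp 2 u with hU
      have hUi : ∀ i, U i = u i := fun i => rfl
      have hUn : ‖U‖ = N := by
        have h3 : ‖U‖ ^ 2 = N ^ 2 := by
          rw [hnorm, hNsq]; rfl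
        exact (pow_left_inj₀ (norm_nonneg _) hNpos.le two_ne_zero).1 h3
      have hv : ‖(2 / N) • U‖ = 2 := by
        rw [norm_smul, hUn, Real.norm_eq_abs, abs_of_pos (by positivity)]
        field_simp
      obtain ⟨c, hc, hcv⟩ := hs3 ((2 / N) • U) hv.le
      refine ⟨_, Finset.mem_image_of_mem _ hc, ?_⟩
      have e1 : 2 * ∑ i, c i / 2 * u i = inner ℝ c U := by
        rw [hinner, Finset.mul_sum]
        exact Finset.sum_congr rfl fun i _ => by rw [hUi]; ring
      rw [e1]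
      have e2 : inner ℝ c U = inner ℝ (c - (2 / N) • U) U + (2 / N) * ‖U‖ ^ 2 := by
        rw [inner_sub_left, real_inner_smul_left, real_inner_self_eq_norm_sq]
        ring
      have e3 : -(‖c - (2 / N) • U‖ * ‖U‖) ≤ inner ℝ (c - (2 / N) • U) U :=
        (abs_le.1 (abs_real_inner_le_norm _ _)).1
      rw [e2, hUn] at *
      have e4 : 2 / N * N ^ 2 = 2 * N := by field_simp
      rw [e4]
      nlinarith

end Pool.Agent.Helper951_sr
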