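import Pool.Agent.Helper951_sr.Defs
import Pool.Agent.Helper951_sr.Hoeff
import Pool.Agent.Helper951_sr.Net
import Pool.Agent.Helper951_sr.Had

/-!
Project SR (helper951, MP_72d76c_lc). Job HW: Hanson-Wright lite (T3).
-/

namespace Pool.Agent.Helper951_sr

open Finset

/-- Take `ε` on `I` and `δ` off `I`. -/
def hwMerge {E : Type} (I : E → Prop) [DecidablePred I] (ε δ : E → Bool) : E → Bool :=
  fun e => if I e then ε e else δ e

/-- The exchange of the values on `I` is an involution of pairs. -/
def hwSwap {E : Type} (I : E → Prop) [DecidablePred I] :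
    ((E → Bool) × (E → Bool)) ≃ ((E → Bool) × (E → Bool)) where
  toFun p := (hwMerge I p.1 p.2, hwMerge I p.2 p.1)
  invFun p := (hwMerge I p.1 p.2, hwMerge I p.2 p.1)
  left_inv p := by
    ext e
    · simp only [hwMerge]
      by_cases h : I e <;> simp [h]
    · simp only [hwMerge]
      by_cases h : I e <;> simp [h]
  right_inv p := by
    ext e
    · simp only [hwMerge]
      by_cases h : I e <;> simp [h]
    · simp only [hwMerge]
      by_cases h : I e <;> simp [h]

theorem hw_merge_sum {E : Type} [Fintype E] [DecidableEq E] (I : E → Prop) [DecidablePred I]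
    (Q : (E → Bool) → ℝ) :
    ∑ δ : E → Bool, ∑ ε : E → Bool, Q (hwMerge I ε δ) = 2 ^ Fintype.card E * ∑ ε : E → Bool, Q ε := by
  have h1 : ∑ δ : E → Bool, ∑ ε : E → Bool, Q (hwMerge I ε δ)
      = ∑ p : (E → Bool) × (E → Bool), Q (hwSwap I p).2 := by
    rw [Fintype.sum_prod_type]
    rfl
  rw [h1, Equiv.sum_comp (hwSwap I) (fun p => Q p.2), Fintype.sum_prod_type]
  simp only [Finset.sum_const, Finset.card_univ, Fintype.card_fun, Fintype.card_bool, nsmul_eq_mul]
  push_cast
  ring

theorem hw_card_filter {α : Type} [Fintype α] (Q : α → Prop) [DecidablePred Q] :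
    ((univ.filter Q).card : ℝ) = ∑ x, if Q x then (1 : ℝ) else 0 := by
  rw [Finset.card_filter]
  push_cast
  rfl

/-- If all sections over the values off `I` are small, the whole set is small. -/
theorem hw_section {E : Type} [Fintype E] [DecidableEq E] (I : E → Prop) [DecidablePred I]
    (Q : (E → Bool) → Prop) [DecidablePred Q] (c : ℝ)
    (h : ∀ δ : E → Bool, ((univ.filter (fun ε : E → Bool => Q (hwMerge I ε δ))).card : ℝ) ≤ c) :
    ((univ.filter Q).card : ℝ) ≤ c := by
  have h1 := hw_merge_sum I (fun ε => if Q ε then (1 : ℝ) else 0)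
  rw [← hw_card_filter] at h1
  have h2 : ∑ δ : E → Bool, ∑ ε : E → Bool, (if Q (hwMerge I ε δ) then (1 : ℝ) else 0)
      ≤ 2 ^ Fintype.card E * c := by
    calc _ ≤ ∑ _δ : E → Bool, c := by
            apply Finset.sum_le_sum
            intro δ _
            rw [← hw_card_filter (fun ε : E → Bool => Q (hwMerge I ε δ))]
            exact h δ
      _ = _ := by
            simp only [Finset.sum_const, Finset.card_univ, Fintype.card_fun, Fintype.card_bool, nsmul_eq_mul]
            push_cast
            ring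
  have h3 : (0 : ℝ) < 2 ^ Fintype.card E := by positivity
  rw [h1] at h2
  exact le_of_mul_le_mul_left h2 h3

theorem hw_nsq_nonneg {ι : Type} [Fintype ι] (x : ι → ℝ) : 0 ≤ nsq x :=
  Finset.sum_nonneg (fun _ _ => sq_nonneg _)

/-- The transposed map has the same norm. -/
theorem hw_tr {E M : Type} [Fintype E] [Fintype M] (Ψ : M → E → ℝ) (κ : ℝ) (hκ : 0 < κ)
    (hΨ : ∀ η : E → ℝ, nsq (mv Ψ η) ≤ κ * nsq η) (y : M → ℝ) : nsq (tv Ψ y) ≤ κ * nsq y := by
  set z := tv Ψ y with hz
  have h1 : nsq z = ∑ j, y j * mv Ψ z j := by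
    unfold nsq mv
    simp_rw [Finset.mul_sum]
    rw [Finset.sum_comm]
    apply Finset.sum_congr rfl
    intro e _
    have h2 : z e = ∑ j, Ψ j e * y j := by rw [hz]; rfl
    calc z e ^ 2 = (∑ j, Ψ j e * y j) * z e := by rw [← h2]; ring
      _ = _ := by
        rw [Finset.sum_mul]
        apply Finset.sum_congr rfl
        intro j _
        ring
  have h3 : (∑ j, y j * mv Ψ z j) ^ 2 ≤ nsq y * nsq (mv Ψ z) := by
    unfold nsq
    exact Finset.sum_mul_sq_le_sq_mul_sq _ _ _
  rw [← h1] at h3
  have h4 := hΨ z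
  have hy := hw_nsq_nonneg y
  have hz0 := hw_nsq_nonneg z
  rcases hz0.eq_or_lt with h0 | h0
  · rw [← h0]
    positivity
  · have h5 : nsq z * nsq z ≤ (κ * nsq y) * nsq z := by
      calc nsq z * nsq z = nsq z ^ 2 := by ring
        _ ≤ nsq y * nsq (mv Ψ z) := h3
        _ ≤ nsq y * (κ * nsq z) := mul_le_mul_of_nonneg_left h4 hy
        _ = _ := by ring
    exact le_of_mul_le_mul_right h5 h0

/-- The part off `I` is bounded with overwhelming probability. -/
theorem hw_tail {E M : Type} [Fintype E] [DecidableEq E] [Fintype M] [Nonempty M] (Ψ : M → E → ℝ) (κ : ℝ)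
    (hκ : 0 < κ) (hΨ : ∀ η : E → ℝ, nsq (mv Ψ η) ≤ κ * nsq η) (I : E → Prop) [DecidablePred I] :
    ((univ.filter (fun ε : E → Bool =>
        32 * κ * Fintype.card M < nsq (mv Ψ (fun e => if I e then 0 else sg (ε e))))).card : ℝ)
      ≤ Real.exp (-2 * Fintype.card M) * 2 ^ Fintype.card E := by
  classical
  obtain ⟨Y, hY1, hY2, hY3⟩ := exists_net M
  set m : ℝ := (Fintype.card M : ℝ) with hm
  have hm0 : 0 < m := by
    rw [hm]
    exact_mod_cast Fintype.card_pos
  have hsub : (univ.filter (fun ε : E → Bool =>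
        32 * κ * m < nsq (mv Ψ (fun e => if I e then 0 else sg (ε e)))))
      ⊆ Y.biUnion (fun y => univ.filter (fun ε : E → Bool =>
        Real.sqrt (8 * κ * m) ≤ ∑ e, sg (ε e) * (if I e then 0 else tv Ψ y e))) := by
    intro ε hε
    rw [Finset.mem_filter] at hε
    obtain ⟨y, hy, hyu⟩ := hY3 (mv Ψ (fun e => if I e then 0 else sg (ε e)))
    rw [Finset.mem_biUnion]
    refine ⟨y, hy, ?_⟩
    rw [Finset.mem_filter]
    refine ⟨Finset.mem_univ _, ?_⟩
    have h1 : ∑ e, sg (ε e) * (if I e then 0 else tv Ψ y e)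
        = ∑ i, y i * mv Ψ (fun e => if I e then 0 else sg (ε e)) i := by
      unfold mv tv
      simp_rw [Finset.mul_sum]
      rw [Finset.sum_comm]
      apply Finset.sum_congr rfl
      intro e _
      by_cases h : I e
      · simp [h]
      · simp only [h, if_false]
        rw [Finset.mul_sum]
        apply Finset.sum_congr rfl
        intro j _
        ring
    rw [h1]
    have h2 : 2 * Real.sqrt (8 * κ * m) ≤ Real.sqrt (nsq (mv Ψ (fun e => if I e then 0 else sg (ε e)))) := by
      apply Real.le_sqrt_of_sq_le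
      rw [mul_pow, Real.sq_sqrt (by positivity)]
      linarith [hε.2]
    linarith
  have h1 : ((univ.filter (fun ε : E → Bool =>
        32 * κ * m < nsq (mv Ψ (fun e => if I e then 0 else sg (ε e))))).card : ℝ)
      ≤ ∑ y ∈ Y, ((univ.filter (fun ε : E → Bool =>
        Real.sqrt (8 * κ * m) ≤ ∑ e, sg (ε e) * (if I e then 0 else tv Ψ y e))).card : ℝ) := by
    have h2 := (Finset.card_le_card hsub).trans Finset.card_biUnion_le
    exact_mod_cast h2
  have h3 : ∀ y ∈ Y, ((univ.filter (fun ε : E → Bool =>
        Real.sqrt (8 * κ * m) ≤ ∑ e, sg (ε e) * (if I e then 0 else tv Ψ y e))).card : ℝ)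
      ≤ Real.exp (-4 * m) * 2 ^ Fintype.card E := by
    intro y hy
    have h4 : nsq (fun e => if I e then 0 else tv Ψ y e) ≤ κ := by
      calc nsq (fun e => if I e then 0 else tv Ψ y e) ≤ nsq (tv Ψ y) := by
            unfold nsq
            apply Finset.sum_le_sum
            intro e _
            by_cases h : I e
            · simp only [h, if_true]
              nlinarith [sq_nonneg (tv Ψ y e)]
            · simp [h]
        _ ≤ κ * nsq y := hw_tr Ψ κ hκ hΨ y
        _ ≤ κ * 1 := mul_le_mul_of_nonneg_left (hY2 y hy) hκ.le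
        _ = κ := mul_one _
    have h5 := hoeffding (fun e => if I e then 0 else tv Ψ y e) κ (Real.sqrt (8 * κ * m)) hκ
      (Real.sqrt_nonneg _) h4
    rw [Real.sq_sqrt (by positivity)] at h5
    have h6 : -(8 * κ * m) / (2 * κ) = -4 * m := by
      field_simp
      ring
    rw [h6] at h5
    exact h5
  have h7 : (Y.card : ℝ) ≤ Real.exp (2 * m) := by
    have h8 : ((5 : ℝ)) ≤ Real.exp 2 := by
      have h9 := Real.add_one_le_exp (1 : ℝ)
      have h10 : Real.exp 2 = Real.exp 1 * Real.exp 1 := by
        rw [← Real.exp_add]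
        norm_num
      have h11 := Real.exp_one_gt_d9
      rw [h10]
      nlinarith
    calc (Y.card : ℝ) ≤ (5 : ℝ) ^ Fintype.card M := by exact_mod_cast hY1
      _ ≤ (Real.exp 2) ^ Fintype.card M := pow_le_pow_left₀ (by norm_num) h8 _
      _ = Real.exp (2 * m) := by
        rw [← Real.exp_nat_mul, hm]
        ring_nf
  calc _ ≤ ∑ y ∈ Y, ((univ.filter (fun ε : E → Bool =>
        Real.sqrt (8 * κ * m) ≤ ∑ e, sg (ε e) * (if I e then 0 else tv Ψ y e))).card : ℝ) := h1
    _ ≤ ∑ _y ∈ Y, Real.exp (-4 * m) * 2 ^ Fintype.card E := Finset.sum_le_sum h3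
    _ = Y.card * (Real.exp (-4 * m) * 2 ^ Fintype.card E) := by rw [Finset.sum_const, nsmul_eq_mul]
    _ ≤ Real.exp (2 * m) * (Real.exp (-4 * m) * 2 ^ Fintype.card E) := by
        apply mul_le_mul_of_nonneg_right h7
        positivity
    _ = Real.exp (-2 * m) * 2 ^ Fintype.card E := by
        rw [← mul_assoc, ← Real.exp_add]
        congr 2
        ring

/-- The decoupled form. -/
theorem hw_dec {E M : Type} [Fintype E] [DecidableEq E] [Fintype M] [Nonempty M] (Ψ : M → E → ℝ) (κ t : ℝ)
    (hκ : 0 < κ) (ht : 0 < t) (hΨ : ∀ η : E → ℝ, nsq (mv Ψ η) ≤ κ * nsq η) (I : E → Prop) [DecidablePred I] :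
    ((univ.filter (fun ε : E → Bool =>
        t < 4 * |∑ j, mv Ψ (fun e => if I e then sg (ε e) else 0) j
          * mv Ψ (fun e => if I e then 0 else sg (ε e)) j|)).card : ℝ)
      ≤ (Real.exp (-2 * Fintype.card M) + 2 * Real.exp (-t ^ 2 / (1024 * κ ^ 2 * Fintype.card M)))
        * 2 ^ Fintype.card E := by
  classical
  have htail := hw_tail Ψ κ hκ hΨ I
  set m : ℝ := (Fintype.card M : ℝ) with hm
  have hm0 : 0 < m := by
    rw [hm]
    exact_mod_cast Fintype.card_pos
  set Q : (E → Bool) → Prop := fun ε => nsq (mv Ψ (fun e => if I e then 0 else sg (ε e))) ≤ 32 * κ * m ∧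
    t < 4 * |∑ j, mv Ψ (fun e => if I e then sg (ε e) else 0) j
          * mv Ψ (fun e => if I e then 0 else sg (ε e)) j| with hQ
  have hQcard : ((univ.filter Q).card : ℝ) ≤ 2 * Real.exp (-t ^ 2 / (1024 * κ ^ 2 * m)) * 2 ^ Fintype.card E := by
    apply hw_section I Q
    intro δ
    set u : M → ℝ := mv Ψ (fun e => if I e then 0 else sg (δ e)) with hu
    have hu1 : ∀ ε : E → Bool, mv Ψ (fun e => if I e then 0 else sg (hwMerge I ε δ e)) = u := by
      intro ε
      rw [hu]
      congr 1
      ext e
      by_cases h : I e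
      · simp [h]
      · simp [h, hwMerge]
    have hu2 : ∀ ε : E → Bool, (fun e => if I e then sg (hwMerge I ε δ e) else 0)
        = (fun e => if I e then sg (ε e) else 0) := by
      intro ε
      ext e
      by_cases h : I e
      · simp [h, hwMerge]
      · simp [h]
    by_cases hbig : nsq u ≤ 32 * κ * m
    · set b : E → ℝ := fun e => if I e then tv Ψ u e else 0 with hb
      have hb1 : nsq b ≤ 32 * κ ^ 2 * m := by
        calc nsq b ≤ nsq (tv Ψ u) := by
              unfold nsq
              apply Finset.sum_le_sum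
              intro e _
              rw [hb]
              by_cases h : I e
              · simp [h]
              · simp only [h, if_false]
                nlinarith [sq_nonneg (tv Ψ u e)]
          _ ≤ κ * nsq u := hw_tr Ψ κ hκ hΨ u
          _ ≤ κ * (32 * κ * m) := mul_le_mul_of_nonneg_left hbig hκ.le
          _ = _ := by ring
      have hsum : ∀ ε : E → Bool, ∑ j, mv Ψ (fun e => if I e then sg (ε e) else 0) j * u j
          = ∑ e, sg (ε e) * b e := by
        intro ε
        unfold mv
        simp_rw [Finset.sum_mul]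
        rw [Finset.sum_comm]
        apply Finset.sum_congr rfl
        intro e _
        rw [hb]
        by_cases h : I e
        · simp only [h, if_true]
          unfold tv
          rw [Finset.mul_sum]
          apply Finset.sum_congr rfl
          intro j _
          ring
        · simp [h]
      have hsub : (univ.filter (fun ε : E → Bool => Q (hwMerge I ε δ)))
          ⊆ (univ.filter (fun ε : E → Bool => t / 4 ≤ ∑ e, sg (ε e) * b e))
            ∪ (univ.filter (fun ε : E → Bool => t / 4 ≤ ∑ e, sg (ε e) * (-b e))) := by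
        intro ε hε
        rw [Finset.mem_filter] at hε
        have h1 := hε.2.2
        rw [hu1, hu2, hsum] at h1
        rw [Finset.mem_union, Finset.mem_filter, Finset.mem_filter]
        rcases le_total 0 (∑ e, sg (ε e) * b e) with h0 | h0
        · left
          refine ⟨Finset.mem_univ _, ?_⟩
          rw [abs_of_nonneg h0] at h1
          linarith
        · right
          refine ⟨Finset.mem_univ _, ?_⟩
          rw [abs_of_nonpos h0] at h1
          have h2 : ∑ e, sg (ε e) * (-b e) = -∑ e, sg (ε e) * b e := by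
            rw [← Finset.sum_neg_distrib]
            apply Finset.sum_congr rfl
            intro e _
            ring
          rw [h2]
          linarith
      have hs : 0 < 32 * κ ^ 2 * m := by positivity
      have hH1 := hoeffding b (32 * κ ^ 2 * m) (t / 4) hs (by positivity) hb1
      have hb2 : nsq (fun e => -b e) ≤ 32 * κ ^ 2 * m := by
        have : nsq (fun e => -b e) = nsq b := by
          unfold nsq
          simp
        rw [this]
        exact hb1
      have hH2 := hoeffding (fun e => -b e) (32 * κ ^ 2 * m) (t / 4) hs (by positivity) hb2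
      have hexp : -(t / 4) ^ 2 / (2 * (32 * κ ^ 2 * m)) = -t ^ 2 / (1024 * κ ^ 2 * m) := by
        field_simp
        ring
      rw [hexp] at hH1 hH2
      have hc := (Finset.card_le_card hsub).trans (Finset.card_union_le _ _)
      have hc' : ((univ.filter (fun ε : E → Bool => Q (hwMerge I ε δ))).card : ℝ)
          ≤ ((univ.filter (fun ε : E → Bool => t / 4 ≤ ∑ e, sg (ε e) * b e)).card : ℝ)
            + ((univ.filter (fun ε : E → Bool => t / 4 ≤ ∑ e, sg (ε e) * (-b e))).card : ℝ) := by
        exact_mod_cast hc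
      linarith
    · have hempty : (univ.filter (fun ε : E → Bool => Q (hwMerge I ε δ))) = ∅ := by
        rw [Finset.filter_eq_empty_iff]
        intro ε _ h
        apply hbig
        have h1 := h.1
        rw [hu1] at h1
        exact h1
      rw [hempty]
      simp only [Finset.card_empty, Nat.cast_zero]
      positivity
  have hsub : (univ.filter (fun ε : E → Bool =>
        t < 4 * |∑ j, mv Ψ (fun e => if I e then sg (ε e) else 0) j
          * mv Ψ (fun e => if I e then 0 else sg (ε e)) j|))
      ⊆ (univ.filter (fun ε : E → Bool =>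
        32 * κ * m < nsq (mv Ψ (fun e => if I e then 0 else sg (ε e))))) ∪ univ.filter Q := by
    intro ε hε
    rw [Finset.mem_filter] at hε
    rw [Finset.mem_union, Finset.mem_filter, Finset.mem_filter]
    by_cases h : 32 * κ * m < nsq (mv Ψ (fun e => if I e then 0 else sg (ε e)))
    · exact Or.inl ⟨Finset.mem_univ _, h⟩
    · exact Or.inr ⟨Finset.mem_univ _, not_lt.mp h, hε.2⟩
  have hc := (Finset.card_le_card hsub).trans (Finset.card_union_le _ _)
  have hc' : ((univ.filter (fun ε : E → Bool =>
        t < 4 * |∑ j, mv Ψ (fun e => if I e then sg (ε e) else 0) j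
          * mv Ψ (fun e => if I e then 0 else sg (ε e)) j|)).card : ℝ)
      ≤ ((univ.filter (fun ε : E → Bool =>
        32 * κ * m < nsq (mv Ψ (fun e => if I e then 0 else sg (ε e))))).card : ℝ)
        + ((univ.filter Q).card : ℝ) := by
    exact_mod_cast hc
  refine hc'.trans ?_
  rw [add_mul]
  exact add_le_add htail hQcard

theorem hw {E M : Type} [Fintype E] [DecidableEq E] [Fintype M] [Nonempty M] (Ψ : M → E → ℝ) (κ t : ℝ) (hκ : 0 < κ)
    (ht : 0 < t) (P : ℕ) (hP : Fintype.card E ≤ 2 ^ P) (hΨ : ∀ η : E → ℝ, nsq (mv Ψ η) ≤ κ * nsq η) :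
    ((univ.filter (fun ε : E → Bool =>
        t < |nsq (mv Ψ (fun e => sg (ε e))) - ∑ j, ∑ e, Ψ j e ^ 2|)).card : ℝ)
      ≤ 2 ^ P * (Real.exp (-2 * Fintype.card M) + 2 * Real.exp (-t ^ 2 / (1024 * κ ^ 2 * Fintype.card M)))
        * 2 ^ Fintype.card E := by
  classical
  obtain ⟨W, hW, -⟩ := exists_had P
  obtain ⟨hW1, hW2, hW3⟩ := hW
  have hemb : Nonempty (E ↪ Fin (2 ^ P)) := by
    rw [Function.Embedding.nonempty_iff_card_le]
    simpa using hP
  obtain ⟨f⟩ := hemb
  set χ : Fin (2 ^ P) → E → ℝ := fun a e => W a (f e) with hχ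
  have hχsum : ∀ e e' : E, ∑ a, χ a e * χ a e' = if e = e' then (2 : ℝ) ^ P else 0 := by
    intro e e'
    have h1 : ∑ a, χ a e * χ a e' = ∑ l, W (f e) l * W (f e') l := by
      apply Finset.sum_congr rfl
      intro a _
      rw [hχ]
      simp only
      rw [hW2 a (f e), hW2 a (f e')]
    rw [h1, hW3]
    by_cases h : e = e'
    · subst h
      simp
    · have h2 : f e ≠ f e' := fun h3 => h (f.injective h3)
      simp [h, h2]
  -- the key identity
  have hkey : ∀ x : E → ℝ, ∑ a, nsq (mv Ψ (fun e => χ a e * x e)) = 2 ^ P * ∑ j, ∑ e, Ψ j e ^ 2 * x e ^ 2 := by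
    intro x
    have h1 : ∀ a : Fin (2 ^ P), nsq (mv Ψ (fun e => χ a e * x e))
        = ∑ j, ∑ e, ∑ e', (Ψ j e * x e) * (Ψ j e' * x e') * (χ a e * χ a e') := by
      intro a
      unfold nsq mv
      apply Finset.sum_congr rfl
      intro j _
      rw [sq, Finset.sum_mul_sum]
      apply Finset.sum_congr rfl
      intro e _
      apply Finset.sum_congr rfl
      intro e' _
      ring
    simp_rw [h1]
    rw [Finset.sum_comm, Finset.mul_sum]
    apply Finset.sum_congr rfl
    intro j _
    rw [Finset.sum_comm, Finset.mul_sum]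
    apply Finset.sum_congr rfl
    intro e _
    rw [Finset.sum_comm]
    simp_rw [← Finset.mul_sum, hχsum]
    simp only [mul_ite, mul_zero, Finset.sum_ite_eq, Finset.mem_univ, if_true]
    ring
  have hsgsq : ∀ b : Bool, sg b ^ 2 = 1 := by
    intro b
    cases b <;> simp [sg]
  have hsub : (univ.filter (fun ε : E → Bool =>
        t < |nsq (mv Ψ (fun e => sg (ε e))) - ∑ j, ∑ e, Ψ j e ^ 2|))
      ⊆ (univ : Finset (Fin (2 ^ P))).biUnion (fun a => univ.filter (fun ε : E → Bool =>
        t < 4 * |∑ j, mv Ψ (fun e => if χ a e = -1 then sg (ε e) else 0) j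
          * mv Ψ (fun e => if χ a e = -1 then 0 else sg (ε e)) j|)) := by
    intro ε hε
    rw [Finset.mem_filter] at hε
    have h1 := hε.2
    have h2 : ∀ a : Fin (2 ^ P), nsq (mv Ψ (fun e => sg (ε e))) - nsq (mv Ψ (fun e => χ a e * sg (ε e)))
        = 4 * ∑ j, mv Ψ (fun e => if χ a e = -1 then sg (ε e) else 0) j
          * mv Ψ (fun e => if χ a e = -1 then 0 else sg (ε e)) j := by
      intro a
      unfold nsq
      rw [← Finset.sum_sub_distrib, Finset.mul_sum]
      apply Finset.sum_congr rfl
      intro j _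
      have h3 : mv Ψ (fun e => sg (ε e)) j = mv Ψ (fun e => if χ a e = -1 then sg (ε e) else 0) j
          + mv Ψ (fun e => if χ a e = -1 then 0 else sg (ε e)) j := by
        unfold mv
        rw [← Finset.sum_add_distrib]
        apply Finset.sum_congr rfl
        intro e _
        by_cases h : χ a e = -1 <;> simp [h]
      have h4 : mv Ψ (fun e => χ a e * sg (ε e)) j = mv Ψ (fun e => if χ a e = -1 then 0 else sg (ε e)) j
          - mv Ψ (fun e => if χ a e = -1 then sg (ε e) else 0) j := by
        unfold mv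
        rw [← Finset.sum_sub_distrib]
        apply Finset.sum_congr rfl
        intro e _
        rcases hW1 a (f e) with h | h
        · have h5 : χ a e = 1 := h
          have h6 : ¬ (χ a e = -1) := by
            rw [h5]
            norm_num
          simp only [if_neg h6]
          rw [h5]
          ring
        · have h5 : χ a e = -1 := h
          simp [h5]
      rw [h3, h4]
      ring
    by_contra hcon
    rw [Finset.mem_biUnion] at hcon
    push Not at hcon
    have h5 : ∀ a : Fin (2 ^ P), 4 * |∑ j, mv Ψ (fun e => if χ a e = -1 then sg (ε e) else 0) j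
          * mv Ψ (fun e => if χ a e = -1 then 0 else sg (ε e)) j| ≤ t := by
      intro a
      have h6 := hcon a (Finset.mem_univ _)
      rw [Finset.mem_filter] at h6
      push Not at h6
      exact h6 (Finset.mem_univ _)
    have h6 : ∀ a : Fin (2 ^ P), |nsq (mv Ψ (fun e => sg (ε e))) - nsq (mv Ψ (fun e => χ a e * sg (ε e)))| ≤ t := by
      intro a
      rw [h2, abs_mul, abs_of_pos (by norm_num : (0 : ℝ) < 4)]
      exact h5 a
    have h7 : ∑ a : Fin (2 ^ P), (nsq (mv Ψ (fun e => sg (ε e))) - nsq (mv Ψ (fun e => χ a e * sg (ε e))))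
        = 2 ^ P * (nsq (mv Ψ (fun e => sg (ε e))) - ∑ j, ∑ e, Ψ j e ^ 2) := by
      rw [Finset.sum_sub_distrib, hkey (fun e => sg (ε e))]
      simp only [hsgsq, mul_one]
      rw [Finset.sum_const, Finset.card_univ, Fintype.card_fin, nsmul_eq_mul]
      push_cast
      ring
    have h8 : |∑ a : Fin (2 ^ P), (nsq (mv Ψ (fun e => sg (ε e))) - nsq (mv Ψ (fun e => χ a e * sg (ε e))))|
        ≤ 2 ^ P * t := by
      refine (Finset.abs_sum_le_sum_abs _ _).trans ?_
      refine (Finset.sum_le_sum (fun a _ => h6 a)).trans ?_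
      rw [Finset.sum_const, Finset.card_univ, Fintype.card_fin, nsmul_eq_mul]
      push_cast
      exact le_refl _
    rw [h7, abs_mul, abs_of_pos (by positivity : (0 : ℝ) < 2 ^ P)] at h8
    have h9 := le_of_mul_le_mul_left h8 (by positivity : (0 : ℝ) < 2 ^ P)
    linarith
  have hc := (Finset.card_le_card hsub).trans Finset.card_biUnion_le
  have hc' : ((univ.filter (fun ε : E → Bool =>
        t < |nsq (mv Ψ (fun e => sg (ε e))) - ∑ j, ∑ e, Ψ j e ^ 2|)).card : ℝ)
      ≤ ∑ a : Fin (2 ^ P), ((univ.filter (fun ε : E → Bool =>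
        t < 4 * |∑ j, mv Ψ (fun e => if χ a e = -1 then sg (ε e) else 0) j
          * mv Ψ (fun e => if χ a e = -1 then 0 else sg (ε e)) j|)).card : ℝ) := by
    exact_mod_cast hc
  refine hc'.trans ?_
  refine (Finset.sum_le_sum (fun a _ => hw_dec Ψ κ t hκ ht hΨ (fun e => χ a e = -1))).trans ?_
  rw [Finset.sum_const, Finset.card_univ, Fintype.card_fin, nsmul_eq_mul]
  push_cast
  exact le_of_eq (mul_assoc _ _ _).symm

end Pool.Agent.Helper951_sr
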