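import Pool.Agent.Helper951_sr.Defs

/-!
Project SR (helper951, MP_72d76c_lc). Auxiliary lemmas for STEP.
-/

namespace Pool.Agent.Helper951_sr

open Finset

theorem step_nsq_nonneg {ι : Type} [Fintype ι] (x : ι → ℝ) : 0 ≤ nsq x :=
  sum_nonneg fun _ _ => sq_nonneg _

theorem step_sg_sq (b : Bool) : sg b ^ 2 = 1 := by
  unfold sg; split_ifs <;> norm_num

/-- Cauchy-Schwarz. -/
theorem step_cs {ι : Type} [Fintype ι] (x y : ι → ℝ) : (∑ i, x i * y i) ^ 2 ≤ nsq x * nsq y := by
  unfold nsq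
  exact sum_mul_sq_le_sq_mul_sq univ x y

theorem step_cs_sqrt {ι : Type} [Fintype ι] (x y : ι → ℝ) :
    ∑ i, x i * y i ≤ Real.sqrt (nsq x) * Real.sqrt (nsq y) := by
  rw [← Real.sqrt_mul (step_nsq_nonneg x)]
  exact Real.le_sqrt_of_sq_le (step_cs x y)

theorem step_adj {J I : Type} [Fintype J] [Fintype I] (B : J → I → ℝ) (w : J → ℝ) (y : I → ℝ) :
    ∑ i, y i * tv B w i = ∑ j, mv B y j * w j := by
  unfold tv mv
  simp only [mul_sum, sum_mul]
  rw [sum_comm]
  refine sum_congr rfl fun j _ => sum_congr rfl fun i _ => ?_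
  ring

/-- The transposed of an isometry is a contraction. -/
theorem step_tv_le {Q M : Type} [Fintype Q] [Fintype M] (B : Q → M → ℝ)
    (hB : ∀ y, nsq (mv B y) = nsq y) (w : Q → ℝ) : nsq (tv B w) ≤ nsq w := by
  have h1 : nsq (tv B w) = ∑ j, mv B (tv B w) j * w j := by
    rw [← step_adj]
    unfold nsq
    exact sum_congr rfl fun i _ => by ring
  have h2 := step_cs (mv B (tv B w)) w
  rw [← h1, hB] at h2
  have h3 := step_nsq_nonneg (tv B w)
  have h4 := step_nsq_nonneg w
  by_contra h5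
  push Not at h5
  nlinarith

/-- Splitting off the large coordinates of a flat vector. -/
theorem step_split {ι : Type} [Fintype ι] (w : ι → ℝ) (β r : ℝ)
    (hw : ∀ S : Finset ι, ∑ i ∈ S, w i ^ 2 ≤ β * (1 / r + S.card / Fintype.card ι)) :
    ∑ i, (if 2 * β / Fintype.card ι < w i ^ 2 then w i ^ 2 else 0) ≤ 2 * β / r := by
  classical
  set S : Finset ι := univ.filter (fun i => 2 * β / Fintype.card ι < w i ^ 2) with hS
  have h1 := hw S
  have h2 : (2 * β / Fintype.card ι) * S.card ≤ ∑ i ∈ S, w i ^ 2 := by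
    rw [mul_comm, ← nsmul_eq_mul]
    exact card_nsmul_le_sum _ _ _ fun i hi => (mem_filter.1 hi).2.le
  have h3 : ∑ i, (if 2 * β / Fintype.card ι < w i ^ 2 then w i ^ 2 else 0) = ∑ i ∈ S, w i ^ 2 := by
    rw [hS, sum_filter]
  rw [h3]
  have e1 : (2 * β / Fintype.card ι) * S.card = 2 * (β * (S.card / Fintype.card ι)) := by ring
  have e2 : β * (1 / r + S.card / Fintype.card ι) = β / r + β * (S.card / Fintype.card ι) := by ring
  have e3 : 2 * β / r = 2 * (β / r) := by ring
  rw [e1] at h2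
  rw [e2] at h1
  rw [e3]
  linarith

/-- Buckets. -/
theorem step_fiber {E Q : Type} [Fintype E] [Fintype Q] [DecidableEq Q] (h : E → Q) (c : E → ℝ) :
    ∑ q, ∑ e, (if h e = q then c e else 0) = ∑ e, c e := by
  rw [sum_comm]
  refine sum_congr rfl fun e _ => ?_
  rw [sum_ite_eq]
  simp

/-- Bucketwise Cauchy-Schwarz. -/
theorem step_bucket {E Q : Type} [Fintype E] [Fintype Q] [DecidableEq Q] (h : E → Q)
    (a η : E → ℝ) (c : ℝ) (hc : ∀ q, ∑ e, (if h e = q then a e ^ 2 else 0) ≤ c) :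
    nsq (fun q => ∑ e, if h e = q then a e * η e else 0) ≤ c * nsq η := by
  have h1 : ∀ q, (∑ e, if h e = q then a e * η e else 0) ^ 2 ≤
      c * ∑ e, (if h e = q then η e ^ 2 else 0) := by
    intro q
    have h2 := step_cs (fun e => if h e = q then a e else 0) (fun e => if h e = q then η e else 0)
    have e1 : ∑ e, (if h e = q then a e else 0) * (if h e = q then η e else 0) =
        ∑ e, if h e = q then a e * η e else 0 :=
      sum_congr rfl fun e _ => by split_ifs <;> simp
    have e2 : nsq (fun e => if h e = q then a e else 0) = ∑ e, (if h e = q then a e ^ 2 else 0) :=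
      sum_congr rfl fun e _ => by by_cases hq : h e = q <;> simp [hq]
    have e3 : nsq (fun e => if h e = q then η e else 0) = ∑ e, (if h e = q then η e ^ 2 else 0) :=
      sum_congr rfl fun e _ => by by_cases hq : h e = q <;> simp [hq]
    simp only [e1] at h2
    rw [e2, e3] at h2
    refine h2.trans (mul_le_mul_of_nonneg_right (hc q) ?_)
    exact sum_nonneg fun e _ => by split_ifs <;> positivity
  calc nsq (fun q => ∑ e, if h e = q then a e * η e else 0)
      = ∑ q, (∑ e, if h e = q then a e * η e else 0) ^ 2 := rfl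
    _ ≤ ∑ q, c * ∑ e, (if h e = q then η e ^ 2 else 0) := sum_le_sum fun q _ => h1 q
    _ = c * nsq η := by rw [← mul_sum, step_fiber]; rfl

theorem step_tvG {E Q M : Type} [Fintype E] [Fintype Q] [DecidableEq Q] (B : Q → M → ℝ) (h : E → Q)
    (c : E → ℝ) (j : M) :
    tv B (fun q => ∑ e, if h e = q then c e else 0) j = ∑ e, B (h e) j * c e := by
  unfold tv
  simp only [mul_sum]
  rw [sum_comm]
  refine sum_congr rfl fun e _ => ?_
  have : ∀ q, B q j * (if h e = q then c e else 0) = if h e = q then B q j * c e else 0 := fun q => by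
    split_ifs <;> simp
  simp only [this]
  rw [sum_ite_eq]
  simp

/-- Union bound. -/
theorem step_union {Ω ι : Type} [Fintype Ω] [Nonempty Ω] (X : Finset ι) (bad : ι → Ω → Prop)
    [∀ i, DecidablePred (bad i)] (bad0 : Ω → Prop) [DecidablePred bad0] (c c0 : ℝ)
    (hc : ∀ i ∈ X, ((univ.filter (bad i)).card : ℝ) ≤ c * Fintype.card Ω)
    (hc0 : ((univ.filter bad0).card : ℝ) ≤ c0 * Fintype.card Ω) (hlt : X.card * c + c0 < 1) :
    ∃ ω, (∀ i ∈ X, ¬ bad i ω) ∧ ¬ bad0 ω := by
  classical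
  by_contra hcon
  push Not at hcon
  have h1 : (univ : Finset Ω) ⊆ (X.biUnion fun i => univ.filter (bad i)) ∪ univ.filter bad0 := by
    intro ω _
    rw [mem_union, mem_biUnion]
    by_cases h2 : ∀ i ∈ X, ¬ bad i ω
    · exact Or.inr (mem_filter.2 ⟨mem_univ _, hcon ω h2⟩)
    · push Not at h2
      obtain ⟨i, hi, hb⟩ := h2
      exact Or.inl ⟨i, hi, mem_filter.2 ⟨mem_univ _, hb⟩⟩
  have h2 := card_le_card h1
  have h3 : (Fintype.card Ω : ℝ) ≤ X.card * (c * Fintype.card Ω) + c0 * Fintype.card Ω := by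
    calc (Fintype.card Ω : ℝ) ≤ (((X.biUnion fun i => univ.filter (bad i)) ∪ univ.filter bad0).card : ℝ) := by
          exact_mod_cast h2
      _ ≤ ((X.biUnion fun i => univ.filter (bad i)).card : ℝ) + (univ.filter bad0).card := by
          exact_mod_cast card_union_le _ _
      _ ≤ (∑ i ∈ X, ((univ.filter (bad i)).card : ℝ)) + c0 * Fintype.card Ω := by
          refine add_le_add ?_ hc0
          exact_mod_cast card_biUnion_le
      _ ≤ X.card * (c * Fintype.card Ω) + c0 * Fintype.card Ω := by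
          gcongr
          rw [← nsmul_eq_mul]
          exact sum_le_card_nsmul _ _ _ hc
  have h4 : (0 : ℝ) < Fintype.card Ω := by exact_mod_cast Fintype.card_pos
  have h5 : (X.card * c + c0) * Fintype.card Ω < 1 * Fintype.card Ω :=
    mul_lt_mul_of_pos_right hlt h4
  linarith

/-- The final numerical estimate. -/
theorem step_final {M : Type} [Fintype M] (a b : M → ℝ) (F G t d : ℝ) (hFG : F + G = 1)
    (ht : t ≤ 1) (hG : 0 ≤ G) (ha : |nsq a - F| ≤ t) (hb : Real.sqrt (nsq b) ≤ d) :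
    |nsq (fun j => a j + b j) - 1| ≤ t + G + 4 * d + d ^ 2 := by
  have hd : 0 ≤ d := le_trans (Real.sqrt_nonneg _) hb
  have hb2 : nsq b ≤ d ^ 2 := by
    rw [← Real.sqrt_le_left hd]
    exact hb
  have hab : nsq (fun j => a j + b j) = nsq a + 2 * ∑ j, a j * b j + nsq b := by
    unfold nsq
    rw [mul_sum, ← sum_add_distrib, ← sum_add_distrib]
    exact sum_congr rfl fun j _ => by ring
  have ha1 := abs_le.1 ha
  have ha2 : nsq a ≤ 4 := by linarith [ha1.2]
  have ha3 : Real.sqrt (nsq a) ≤ 2 := by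
    rw [Real.sqrt_le_left (by norm_num)]
    linarith
  have hcs : |∑ j, a j * b j| ≤ 2 * d := by
    have h1 : (∑ j, a j * b j) ^ 2 ≤ (Real.sqrt (nsq a) * Real.sqrt (nsq b)) ^ 2 := by
      rw [mul_pow, Real.sq_sqrt (step_nsq_nonneg _), Real.sq_sqrt (step_nsq_nonneg _)]
      exact step_cs a b
    have h2 := abs_le_of_sq_le_sq h1 (by positivity)
    refine h2.trans ?_
    exact mul_le_mul ha3 hb (Real.sqrt_nonneg _) (by norm_num)
  have hcs1 := abs_le.1 hcs
  have hb0 := step_nsq_nonneg b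
  rw [hab, abs_le]
  constructor
  · nlinarith [ha1.1, hcs1.1, sq_nonneg d]
  · nlinarith [ha1.2, hcs1.2]

theorem step_mass_J {E Q : Type} [Fintype E] [DecidableEq Q] (h : E → Q) (c : E → ℝ)
    (J : Finset Q) : ∑ q ∈ J, ∑ e, (if h e = q then c e else 0) = ∑ e, if h e ∈ J then c e else 0 := by
  rw [sum_comm]
  refine sum_congr rfl fun e _ => ?_
  rw [sum_ite_eq]

/-- The decomposition of a vector for a given hashing. -/
theorem step_decomp {E Q : Type} [Fintype E] [Fintype Q] [DecidableEq Q] (h : E → Q)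
    (v f : E → ℝ) (β ra μ : ℝ) (hv1 : nsq v = 1)
    (hf : f = fun e => if 2 * β / Fintype.card E < v e ^ 2 then 0 else v e)
    (hsplit : ∑ e, (if 2 * β / Fintype.card E < v e ^ 2 then v e ^ 2 else 0) ≤ 2 * β / ra)
    (hmass : ∀ J : Finset Q, ∑ e, (if h e ∈ J then f e ^ 2 else 0) ≤
      3 * (J.card : ℝ) / Fintype.card Q + μ) (hμ : 2 * μ ≤ 4 * β / ra) :
    ∃ f1 : E → ℝ, (∀ q, ∑ e, (if h e = q then f1 e ^ 2 else 0) ≤ 6 / Fintype.card Q) ∧
      nsq f1 + nsq (fun e => v e - f1 e) = 1 ∧ nsq (fun e => v e - f1 e) ≤ 6 * β / ra := by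
  classical
  set J : Finset Q := univ.filter (fun q => 6 / (Fintype.card Q : ℝ) <
    ∑ e, (if h e = q then f e ^ 2 else 0)) with hJ
  have h0 : (0 : ℝ) ≤ 6 / Fintype.card Q := by positivity
  have h1 : (6 / (Fintype.card Q : ℝ)) * J.card ≤ ∑ e, (if h e ∈ J then f e ^ 2 else 0) := by
    rw [← step_mass_J, mul_comm, ← nsmul_eq_mul]
    exact card_nsmul_le_sum _ _ _ fun q hq => (mem_filter.1 hq).2.le
  have h2 := hmass J
  have e1 : (6 / (Fintype.card Q : ℝ)) * J.card = 2 * (3 * (J.card : ℝ) / Fintype.card Q) := by ring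
  have h3 : ∑ e, (if h e ∈ J then f e ^ 2 else 0) ≤ 4 * β / ra := by
    rw [e1] at h1
    linarith
  refine ⟨fun e => if h e ∈ J then 0 else f e, fun q => ?_, ?_, ?_⟩
  · by_cases hq : q ∈ J
    · refine le_trans (le_of_eq (sum_eq_zero fun e _ => ?_)) h0
      by_cases he : h e = q
      · simp [he, hq]
      · simp [he]
    · have h4 : ¬ (6 / (Fintype.card Q : ℝ) < ∑ e, (if h e = q then f e ^ 2 else 0)) := fun h5 =>
        hq (mem_filter.2 ⟨mem_univ _, h5⟩)
      refine le_trans (le_of_eq (sum_congr rfl fun e _ => ?_)) (not_lt.1 h4)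
      by_cases he : h e = q
      · simp [he, hq]
      · simp [he]
  · rw [← hv1]
    unfold nsq
    rw [← sum_add_distrib]
    refine sum_congr rfl fun e _ => ?_
    simp only [hf]
    split_ifs <;> ring
  · have h5 : 6 * β / ra = 2 * β / ra + 4 * β / ra := by ring
    rw [h5]
    refine le_trans ?_ (add_le_add hsplit h3)
    unfold nsq
    rw [← sum_add_distrib]
    refine sum_le_sum fun e _ => ?_
    simp only [hf]
    split_ifs <;> nlinarith [sq_nonneg (v e)]

end Pool.Agent.Helper951_sr
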