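import Pool.Agent.Helper951_sr.Defs
import Pool.Agent.Helper951_sr.Hoeff
import Pool.Agent.Helper951_sr.Net
import Pool.Agent.Helper951_sr.HW
import Pool.Agent.Helper951_sr.Hash
import Pool.Agent.Helper951_sr.StepAux

/-!
Project SR (helper951, MP_72d76c_lc). Job STEP: Proposition 2 in abstract form.
-/

namespace Pool.Agent.Helper951_sr

open Finset

/-- the small coordinates of `v` -/
noncomputable def step_sm {E : Type} [Fintype E] (β : ℝ) (v : E → ℝ) : E → ℝ :=
  fun e => if 2 * β / Fintype.card E < v e ^ 2 then 0 else v e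

theorem step_sm_sq {E : Type} [Fintype E] (β : ℝ) (hβ : 0 < β) (v : E → ℝ) (e : E) :
    step_sm β v e ^ 2 ≤ 2 * β / Fintype.card E := by
  unfold step_sm
  split_ifs with hc
  · rw [zero_pow (by norm_num)]; positivity
  · exact not_lt.1 hc

theorem step_sm_nsq {E : Type} [Fintype E] (β : ℝ) (v : E → ℝ) : nsq (step_sm β v) ≤ nsq v := by
  unfold nsq step_sm
  refine sum_le_sum fun e _ => ?_
  split_ifs
  · rw [zero_pow (by norm_num)]; positivity
  · exact le_rfl

/-- Choice of the hashing. -/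
theorem step_choose_h {E Q : Type} [Fintype E] [DecidableEq E] [Fintype Q] [DecidableEq Q] [Nonempty Q]
    [Nonempty E] (β m : ℝ) (hβ : 1 ≤ β)
    (hN : 2 * β * Real.log (4 * Fintype.card Q) ≤ (Fintype.card E : ℝ) / Fintype.card Q)
    (hm : 0 ≤ m) (X : Finset (E → ℝ)) (hX1 : ∀ v ∈ X, nsq v = 1)
    (hc1 : (X.card : ℝ) * Real.exp (1 - m) ≤ 1 / 2) :
    ∃ h : E → Q, (∀ v ∈ X, ∀ J : Finset Q, ∑ e, (if h e ∈ J then step_sm β v e ^ 2 else 0) ≤
      3 * (J.card : ℝ) / Fintype.card Q + 2 * β * m / Fintype.card E) ∧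
      ∀ q, ((univ.filter (fun e => h e = q)).card : ℝ) ≤ 3 * ((Fintype.card E : ℝ) / Fintype.card Q) := by
  have hQ : (0 : ℝ) < Fintype.card Q := by exact_mod_cast Fintype.card_pos
  have hQ1 : (1 : ℝ) ≤ Fintype.card Q := by exact_mod_cast Fintype.card_pos
  have hE : (0 : ℝ) < Fintype.card E := by exact_mod_cast Fintype.card_pos
  have hβ0 : 0 < β := by linarith
  have hlog : 0 ≤ Real.log (4 * Fintype.card Q) := Real.log_nonneg (by linarith)
  have hcard : (Fintype.card (E → Q) : ℝ) = (Fintype.card Q : ℝ) ^ Fintype.card E := by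
    rw [Fintype.card_fun]; push_cast; rfl
  set φ : ℝ := 2 * β / Fintype.card E with hφ
  have hφ0 : 0 < φ := by positivity
  have e4 : Real.exp (-Real.log (4 * Fintype.card Q)) = 1 / (4 * Fintype.card Q) := by
    rw [Real.exp_neg, Real.exp_log (by positivity), one_div]
  have hφQ : Real.exp (-1 / (φ * Fintype.card Q)) ≤ 1 / (4 * Fintype.card Q) := by
    rw [← e4, Real.exp_le_exp]
    have : -1 / (φ * Fintype.card Q) = -((Fintype.card E : ℝ) / Fintype.card Q / (2 * β)) := by
      rw [hφ]; field_simp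
    rw [this, neg_le_neg_iff, le_div_iff₀ (by positivity)]
    linarith
  have hmass : ∀ v ∈ X, ((univ.filter (fun h : E → Q => ∃ J : Finset Q,
      3 * (J.card : ℝ) / Fintype.card Q + 2 * β * m / Fintype.card E <
        ∑ e, if h e ∈ J then step_sm β v e ^ 2 else 0)).card : ℝ) ≤
      Real.exp (1 - m) * Fintype.card (E → Q) := by
    intro v hv
    refine (hash_mass (step_sm β v) φ (2 * β * m / Fintype.card E) hφ0 (by positivity)
      (step_sm_sq β hβ0 v) ((step_sm_nsq β v).trans (hX1 v hv).le)).trans ?_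
    rw [hcard]
    refine mul_le_mul_of_nonneg_right ?_ (by positivity)
    have h1 : (1 + Real.exp (-1 / (φ * Fintype.card Q))) ^ Fintype.card Q ≤ Real.exp 1 := by
      have h2 : 1 + Real.exp (-1 / (φ * Fintype.card Q)) ≤ Real.exp (1 / (4 * Fintype.card Q)) := by
        have := Real.add_one_le_exp (1 / (4 * (Fintype.card Q : ℝ)))
        linarith
      calc (1 + Real.exp (-1 / (φ * Fintype.card Q))) ^ Fintype.card Q
          ≤ (Real.exp (1 / (4 * Fintype.card Q))) ^ Fintype.card Q :=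
            pow_le_pow_left₀ (by positivity) h2 _
        _ = Real.exp (1 / 4) := by
            rw [← Real.exp_nat_mul]
            congr 1
            field_simp
        _ ≤ Real.exp 1 := by rw [Real.exp_le_exp]; norm_num
    have h2 : Real.exp (-(2 * β * m / Fintype.card E) / φ) = Real.exp (-m) := by
      congr 1
      rw [hφ]
      field_simp
    rw [h2, sub_eq_add_neg, Real.exp_add]
    exact mul_le_mul_of_nonneg_right h1 (Real.exp_pos _).le
  have hload : ((univ.filter (fun h : E → Q => ∃ q : Q,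
      3 * ((Fintype.card E : ℝ) / Fintype.card Q) ≤ ((univ.filter (fun e => h e = q)).card : ℝ))).card : ℝ)
      ≤ (1 / 4) * Fintype.card (E → Q) := by
    refine hash_load.trans ?_
    rw [hcard]
    refine mul_le_mul_of_nonneg_right ?_ (by positivity)
    have h1 : Real.exp (-(5 / 4) * ((Fintype.card E : ℝ) / Fintype.card Q)) ≤
        1 / (4 * Fintype.card Q) := by
      rw [← e4, Real.exp_le_exp]
      nlinarith
    calc (Fintype.card Q : ℝ) * Real.exp (-(5 / 4) * ((Fintype.card E : ℝ) / Fintype.card Q))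
        ≤ Fintype.card Q * (1 / (4 * Fintype.card Q)) := mul_le_mul_of_nonneg_left h1 hQ.le
      _ = 1 / 4 := by field_simp
  obtain ⟨h, h1, h2⟩ := step_union X _ _ _ _ hmass hload (by linarith)
  refine ⟨h, fun v hv J => ?_, fun q => ?_⟩
  · have := h1 v hv
    push Not at this
    exact this J
  · push Not at h2
    exact (h2 q).le

theorem step_exp_five (m : ℕ) : (5 : ℝ) ^ m * Real.exp (-4 * m) ≤ Real.exp (-2 * m) := by
  have h1 : (5 : ℝ) ≤ Real.exp 2 := by
    have := Real.exp_one_gt_d9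
    have e : Real.exp 2 = Real.exp 1 * Real.exp 1 := by rw [← Real.exp_add]; norm_num
    rw [e]; nlinarith
  have h2 : (5 : ℝ) ^ m ≤ Real.exp (2 * m) := by
    calc (5 : ℝ) ^ m ≤ (Real.exp 2) ^ m := pow_le_pow_left₀ (by norm_num) h1 m
      _ = Real.exp (2 * m) := by rw [← Real.exp_nat_mul]; congr 1; ring
  calc (5 : ℝ) ^ m * Real.exp (-4 * m) ≤ Real.exp (2 * m) * Real.exp (-4 * m) :=
        mul_le_mul_of_nonneg_right h2 (Real.exp_pos _).le
    _ = Real.exp (-2 * m) := by rw [← Real.exp_add]; congr 1; ring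

/-- The estimate of the bad part. -/
theorem step_bad {E Q M : Type} [Fintype E] [Fintype Q] [DecidableEq Q] [Fintype M]
    (B : Q → M → ℝ) (ra rb β A : ℝ) (hβ : 0 < β) (hra : 0 < ra) (hrb : 0 < rb) (hA : 1 ≤ A)
    (h : E → Q) (ε : E → Bool) (g : E → ℝ)
    (hBflat : ∀ (S : Finset Q) (y : M → ℝ),
      ∑ q ∈ S, (mv B y q) ^ 2 ≤ β * (1 / rb + S.card / Fintype.card Q) * nsq y)
    (hload : ∀ q, ((univ.filter (fun e => h e = q)).card : ℝ) ≤ 3 * A)
    (hg : nsq g ≤ 6 * β / ra) (Y : Finset (M → ℝ)) (hY1 : ∀ y ∈ Y, nsq y ≤ 1)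
    (hY2 : ∀ u : M → ℝ, ∃ y ∈ Y, Real.sqrt (nsq u) ≤ 2 * ∑ i, y i * u i)
    (hgood : ∀ y ∈ Y, ∑ e, sg (ε e) * (Real.sqrt rb * (step_sm β (mv B y) (h e) * g e)) ≤
      β * Real.sqrt (96 / ra)) :
    Real.sqrt (nsq (fun j => Real.sqrt rb * tv B (GG h ε g) j)) ≤ 32 * β * Real.sqrt (A / ra) := by
  obtain ⟨y, hy, h1⟩ := hY2 (fun j => Real.sqrt rb * tv B (GG h ε g) j)
  refine h1.trans ?_
  have e1 : ∑ i, y i * (Real.sqrt rb * tv B (GG h ε g) i) =
      Real.sqrt rb * ∑ q, mv B y q * GG h ε g q := by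
    rw [← step_adj, mul_sum]
    exact sum_congr rfl fun i _ => by ring
  set fy := step_sm β (mv B y) with hfy
  set gy : Q → ℝ := fun q => mv B y q - fy q with hgy
  have e2 : ∑ q, mv B y q * GG h ε g q = (∑ q, fy q * GG h ε g q) + ∑ q, gy q * GG h ε g q := by
    rw [← sum_add_distrib]
    exact sum_congr rfl fun q _ => by rw [hgy]; ring
  have e3 : Real.sqrt rb * (∑ q, fy q * GG h ε g q) =
      ∑ e, sg (ε e) * (Real.sqrt rb * (fy (h e) * g e)) := by
    unfold GG
    simp only [mul_sum]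
    rw [sum_comm]
    refine sum_congr rfl fun e _ => ?_
    have : ∀ q, Real.sqrt rb * (fy q * (if h e = q then sg (ε e) * g e else 0)) =
        if h e = q then Real.sqrt rb * (fy q * (sg (ε e) * g e)) else 0 := fun q => by
      split_ifs <;> simp
    simp only [this]
    rw [sum_ite_eq]
    simp only [mem_univ, if_true]
    ring
  have hgyn : nsq gy ≤ 2 * β / rb := by
    have h2 := step_split (mv B y) β rb (fun S => by
      refine (hBflat S y).trans ?_
      have h3 : 0 ≤ β * (1 / rb + S.card / Fintype.card Q) := by positivity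
      have := mul_le_mul_of_nonneg_left (hY1 y hy) h3
      linarith)
    refine le_trans (le_of_eq ?_) h2
    unfold nsq
    refine sum_congr rfl fun q _ => ?_
    simp only [hgy, hfy, step_sm]
    split_ifs <;> ring
  have hGn : nsq (GG h ε g) ≤ 3 * A * nsq g := by
    have := step_bucket h (fun e => sg (ε e)) g (3 * A) (fun q => by
      refine le_trans (le_of_eq ?_) (hload q)
      simp only [step_sg_sq]
      rw [sum_boole])
    exact this
  have h4 : ∑ q, gy q * GG h ε g q ≤ Real.sqrt (2 * β / rb) * Real.sqrt (3 * A * (6 * β / ra)) := by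
    refine (step_cs_sqrt gy (GG h ε g)).trans ?_
    refine mul_le_mul (Real.sqrt_le_sqrt hgyn) (Real.sqrt_le_sqrt ?_) (Real.sqrt_nonneg _)
      (Real.sqrt_nonneg _)
    refine hGn.trans ?_
    exact mul_le_mul_of_nonneg_left hg (by linarith)
  have h5 : Real.sqrt rb * (Real.sqrt (2 * β / rb) * Real.sqrt (3 * A * (6 * β / ra))) =
      6 * β * Real.sqrt (A / ra) := by
    rw [← Real.sqrt_mul (by positivity), ← Real.sqrt_mul (by positivity)]
    have e5 : rb * (2 * β / rb * (3 * A * (6 * β / ra))) = (6 * β) ^ 2 * (A / ra) := by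
      field_simp
      ring
    rw [e5, Real.sqrt_mul (by positivity), Real.sqrt_sq (by positivity)]
  have h6 : Real.sqrt (96 / ra) ≤ 10 * Real.sqrt (A / ra) := by
    have e6 : (10 : ℝ) * Real.sqrt (A / ra) = Real.sqrt (100 * (A / ra)) := by
      rw [Real.sqrt_mul (by norm_num)]
      congr 1
      rw [show (100 : ℝ) = 10 ^ 2 by norm_num, Real.sqrt_sq (by norm_num)]
    rw [e6]
    apply Real.sqrt_le_sqrt
    rw [← mul_div_assoc]
    gcongr
    linarith
  have h7 := hgood y hy
  rw [← hfy, ← e3] at h7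
  rw [e1, e2, mul_add]
  have h8 := mul_le_mul_of_nonneg_left h4 (Real.sqrt_nonneg rb)
  rw [h5] at h8
  have h9 := mul_le_mul_of_nonneg_left h6 hβ.le
  linarith

theorem step {E Q M : Type} [Fintype E] [DecidableEq E] [Fintype Q] [DecidableEq Q] [Fintype M] [DecidableEq M]
    [Nonempty M] (B : Q → M → ℝ) (ra rb β t : ℝ) (P : ℕ) (hβ : 1 ≤ β) (hra : 0 < ra) (hrb : 0 < rb) (ht : 0 < t)
    (ht1 : t ≤ 1) (hQ : (Fintype.card Q : ℝ) = rb * Fintype.card M)
    (hE : ra * Fintype.card M ≤ Fintype.card E) (hP : Fintype.card E ≤ 2 ^ P)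
    (hBiso : ∀ y, nsq (mv B y) = nsq y) (hBrow : ∀ q, nsq (B q) = 1 / rb)
    (hBflat : ∀ (S : Finset Q) (y : M → ℝ),
      ∑ q ∈ S, (mv B y q) ^ 2 ≤ β * (1 / rb + S.card / Fintype.card Q) * nsq y)
    (hN : 2 * β * Real.log (4 * Fintype.card Q) ≤ (Fintype.card E : ℝ) / Fintype.card Q)
    (X : Finset (E → ℝ)) (hX1 : ∀ v ∈ X, nsq v = 1)
    (hX2 : ∀ v ∈ X, ∀ S : Finset E, ∑ e ∈ S, v e ^ 2 ≤ β * (1 / ra + S.card / Fintype.card E))
    (hc1 : (X.card : ℝ) * Real.exp (1 - Fintype.card M) ≤ 1 / 2)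
    (hc2 : (X.card : ℝ) * (2 ^ P * (3 * Real.exp (-2 * Fintype.card M)
      + 2 * Real.exp (-t ^ 2 * Fintype.card M / 36864))) < 1) :
    ∃ (h : E → Q) (ε : E → Bool), ∀ v ∈ X,
      |rb * nsq (tv B (GG h ε v)) - 1| ≤
        t + 6 * β / ra + 4 * (32 * β * Real.sqrt ((Fintype.card E : ℝ) / Fintype.card Q / ra))
          + (32 * β * Real.sqrt ((Fintype.card E : ℝ) / Fintype.card Q / ra)) ^ 2 := by
  classical
  have hβ0 : 0 < β := by linarith
  have hm0 : (0 : ℝ) < Fintype.card M := by exact_mod_cast Fintype.card_pos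
  have hQ0 : (0 : ℝ) < Fintype.card Q := by rw [hQ]; positivity
  have hE0 : (0 : ℝ) < Fintype.card E := lt_of_lt_of_le (by positivity) hE
  have : Nonempty Q := Fintype.card_pos_iff.1 (by exact_mod_cast hQ0)
  have : Nonempty E := Fintype.card_pos_iff.1 (by exact_mod_cast hE0)
  have hQ1 : (1 : ℝ) ≤ Fintype.card Q := by exact_mod_cast Fintype.card_pos
  set A : ℝ := (Fintype.card E : ℝ) / Fintype.card Q with hA
  have hA1 : 1 ≤ A := by
    refine le_trans ?_ hN
    have h1 : (1 : ℝ) ≤ Real.log (4 * Fintype.card Q) := by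
      rw [Real.le_log_iff_exp_le (by positivity)]
      have := Real.exp_one_lt_d9
      linarith
    nlinarith
  obtain ⟨h, hh1, hh2⟩ := step_choose_h (Q := Q) β (Fintype.card M) hβ hN hm0.le X hX1 hc1
  -- the decomposition
  have hdec : ∀ v : E → ℝ, ∃ f1 : E → ℝ, v ∈ X →
      (∀ q, ∑ e, (if h e = q then f1 e ^ 2 else 0) ≤ 6 / Fintype.card Q) ∧
      nsq f1 + nsq (fun e => v e - f1 e) = 1 ∧ nsq (fun e => v e - f1 e) ≤ 6 * β / ra := by
    intro v
    by_cases hv : v ∈ X
    · obtain ⟨f1, hf⟩ := step_decomp h v (step_sm β v) β ra (2 * β * Fintype.card M / Fintype.card E)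
        (hX1 v hv) rfl (step_split v β ra (hX2 v hv)) (hh1 v hv) (by
          have h1 : (Fintype.card M : ℝ) / Fintype.card E ≤ 1 / ra := by
            rw [div_le_div_iff₀ hE0 hra]; linarith
          have h2 : 2 * (2 * β * Fintype.card M / Fintype.card E) =
              4 * β * ((Fintype.card M : ℝ) / Fintype.card E) := by ring
          have h3 : 4 * β / ra = 4 * β * (1 / ra) := by ring
          rw [h2, h3]
          exact mul_le_mul_of_nonneg_left h1 (by positivity))
      exact ⟨f1, fun _ => hf⟩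
    · exact ⟨0, fun h => absurd h hv⟩
  choose F1 hF1 using hdec
  obtain ⟨Y, hYc, hY1, hY2⟩ := exists_net M
  -- the matrices
  let Ψ : (E → ℝ) → M → E → ℝ := fun v j e => Real.sqrt rb * (B (h e) j * F1 v e)
  let aa : (E → ℝ) → (M → ℝ) → E → ℝ := fun v y e =>
    Real.sqrt rb * (step_sm β (mv B y) (h e) * (v e - F1 v e))
  have hΨmv : ∀ v η, mv (Ψ v) η = fun j => Real.sqrt rb *
      tv B (fun q => ∑ e, if h e = q then F1 v e * η e else 0) j := by
    intro v η
    funext j
    rw [step_tvG, mul_sum]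
    unfold mv
    exact sum_congr rfl fun e _ => by simp only [Ψ]; ring
  have hsqrb : Real.sqrt rb ^ 2 = rb := Real.sq_sqrt hrb.le
  have hnsc : ∀ (x : M → ℝ), nsq (fun j => Real.sqrt rb * x j) = rb * nsq x := by
    intro x
    unfold nsq
    rw [mul_sum]
    exact sum_congr rfl fun j _ => by rw [mul_pow, hsqrb]
  have hΨκ : ∀ v ∈ X, ∀ η : E → ℝ, nsq (mv (Ψ v) η) ≤ (6 / Fintype.card M) * nsq η := by
    intro v hv η
    rw [hΨmv, hnsc]
    have h1 := step_tv_le B hBiso (fun q => ∑ e, if h e = q then F1 v e * η e else 0)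
    have h2 := step_bucket h (F1 v) η _ (hF1 v hv).1
    have h3 := mul_le_mul_of_nonneg_left (h1.trans h2) hrb.le
    refine h3.trans (le_of_eq ?_)
    rw [hQ]
    field_simp
  have hΨF : ∀ v, ∑ j, ∑ e, Ψ v j e ^ 2 = nsq (F1 v) := by
    intro v
    rw [sum_comm]
    unfold nsq
    refine sum_congr rfl fun e _ => ?_
    simp only [Ψ, mul_pow, hsqrb]
    have h1 := hBrow (h e)
    unfold nsq at h1
    rw [← mul_sum, ← sum_mul, h1]
    field_simp
  -- the events
  have hcardB : (Fintype.card (E → Bool) : ℝ) = 2 ^ Fintype.card E := by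
    rw [Fintype.card_fun, Fintype.card_bool]; push_cast; rfl
  have hbad : ∀ v ∈ X, ((univ.filter (fun ε : E → Bool =>
      (t < |nsq (mv (Ψ v) (fun e => sg (ε e))) - ∑ j, ∑ e, Ψ v j e ^ 2|) ∨
      ∃ y ∈ Y, β * Real.sqrt (96 / ra) ≤ ∑ e, sg (ε e) * aa v y e)).card : ℝ) ≤
      (2 ^ P * (3 * Real.exp (-2 * Fintype.card M)
      + 2 * Real.exp (-t ^ 2 * Fintype.card M / 36864))) * Fintype.card (E → Bool) := by
    intro v hv
    have h1 := hw (Ψ v) (6 / Fintype.card M) t (by positivity) ht P hP (hΨκ v hv)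
    have e1 : -t ^ 2 / (1024 * (6 / (Fintype.card M : ℝ)) ^ 2 * Fintype.card M) =
        -t ^ 2 * Fintype.card M / 36864 := by
      field_simp
      ring
    rw [e1] at h1
    have h2 : ∀ y ∈ Y, ((univ.filter (fun ε : E → Bool =>
        β * Real.sqrt (96 / ra) ≤ ∑ e, sg (ε e) * aa v y e)).card : ℝ) ≤
        Real.exp (-4 * Fintype.card M) * 2 ^ Fintype.card E := by
      intro y hy
      have h3 : nsq (aa v y) ≤ 12 * β ^ 2 / (ra * Fintype.card M) := by
        have h4 : nsq (aa v y) ≤ rb * (2 * β / Fintype.card Q) * nsq (fun e => v e - F1 v e) := by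
          unfold nsq
          rw [mul_sum]
          refine sum_le_sum fun e _ => ?_
          simp only [aa, mul_pow, hsqrb]
          have h5 := step_sm_sq β hβ0 (mv B y) (h e)
          have h6 : 0 ≤ rb * (v e - F1 v e) ^ 2 := by positivity
          nlinarith [mul_le_mul_of_nonneg_left h5 h6]
        refine h4.trans ((mul_le_mul_of_nonneg_left (hF1 v hv).2.2 (by positivity)).trans
          (le_of_eq ?_))
        rw [hQ]
        field_simp
        ring
      refine (hoeffding (aa v y) (12 * β ^ 2 / (ra * Fintype.card M)) (β * Real.sqrt (96 / ra))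
        (by positivity) (by positivity) h3).trans (le_of_eq ?_)
      congr 2
      rw [mul_pow, Real.sq_sqrt (by positivity)]
      field_simp
      norm_num
    have h3 : (univ.filter (fun ε : E → Bool =>
      (t < |nsq (mv (Ψ v) (fun e => sg (ε e))) - ∑ j, ∑ e, Ψ v j e ^ 2|) ∨
      ∃ y ∈ Y, β * Real.sqrt (96 / ra) ≤ ∑ e, sg (ε e) * aa v y e)) ⊆
      (univ.filter (fun ε : E → Bool =>
        t < |nsq (mv (Ψ v) (fun e => sg (ε e))) - ∑ j, ∑ e, Ψ v j e ^ 2|)) ∪
      (Y.biUnion fun y => univ.filter (fun ε : E → Bool =>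
        β * Real.sqrt (96 / ra) ≤ ∑ e, sg (ε e) * aa v y e)) := by
      intro ε hε
      rw [mem_filter] at hε
      rw [mem_union, mem_biUnion]
      rcases hε.2 with h4 | ⟨y, hy, h4⟩
      · exact Or.inl (mem_filter.2 ⟨mem_univ _, h4⟩)
      · exact Or.inr ⟨y, hy, mem_filter.2 ⟨mem_univ _, h4⟩⟩
    have h4 : ((Y.biUnion fun y => univ.filter (fun ε : E → Bool =>
        β * Real.sqrt (96 / ra) ≤ ∑ e, sg (ε e) * aa v y e)).card : ℝ) ≤
        Real.exp (-2 * Fintype.card M) * 2 ^ Fintype.card E := by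
      calc ((Y.biUnion fun y => univ.filter (fun ε : E → Bool =>
          β * Real.sqrt (96 / ra) ≤ ∑ e, sg (ε e) * aa v y e)).card : ℝ)
          ≤ ∑ y ∈ Y, ((univ.filter (fun ε : E → Bool =>
            β * Real.sqrt (96 / ra) ≤ ∑ e, sg (ε e) * aa v y e)).card : ℝ) := by
            exact_mod_cast card_biUnion_le
        _ ≤ Y.card * (Real.exp (-4 * Fintype.card M) * 2 ^ Fintype.card E) := by
            rw [← nsmul_eq_mul]
            exact sum_le_card_nsmul _ _ _ h2
        _ ≤ 5 ^ Fintype.card M * (Real.exp (-4 * Fintype.card M) * 2 ^ Fintype.card E) := by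
            gcongr
            exact_mod_cast hYc
        _ = (5 ^ Fintype.card M * Real.exp (-4 * Fintype.card M)) * 2 ^ Fintype.card E := by ring
        _ ≤ Real.exp (-2 * Fintype.card M) * 2 ^ Fintype.card E := by
            gcongr
            exact step_exp_five _
    have h5 : ((univ.filter (fun ε : E → Bool =>
      (t < |nsq (mv (Ψ v) (fun e => sg (ε e))) - ∑ j, ∑ e, Ψ v j e ^ 2|) ∨
      ∃ y ∈ Y, β * Real.sqrt (96 / ra) ≤ ∑ e, sg (ε e) * aa v y e)).card : ℝ) ≤
      2 ^ P * (Real.exp (-2 * Fintype.card M) + 2 * Real.exp (-t ^ 2 * Fintype.card M / 36864))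
        * 2 ^ Fintype.card E + Real.exp (-2 * Fintype.card M) * 2 ^ Fintype.card E := by
      refine le_trans ?_ (add_le_add h1 h4)
      have h6 := (card_le_card h3).trans (card_union_le _ _)
      exact_mod_cast h6
    refine h5.trans ?_
    rw [hcardB]
    have h6 : (1 : ℝ) ≤ 2 ^ P := one_le_pow₀ (by norm_num)
    have h7 : 0 ≤ Real.exp (-2 * Fintype.card M) := (Real.exp_pos _).le
    have h8 : (0 : ℝ) ≤ 2 ^ Fintype.card E := by positivity
    rw [← add_mul]
    refine mul_le_mul_of_nonneg_right ?_ h8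
    nlinarith [mul_le_mul_of_nonneg_right h6 h7]
  obtain ⟨ε, hε, -⟩ := step_union X _ (fun _ : E → Bool => False) _ 0 hbad (by simp)
    (by rw [add_zero]; exact hc2)
  refine ⟨h, ε, fun v hv => ?_⟩
  have hε1 := hε v hv
  push Not at hε1
  obtain ⟨g1, g2⟩ := hε1
  rw [hΨF] at g1
  have hb := step_bad B ra rb β A hβ0 hra hrb hA1 h ε (fun e => v e - F1 v e) hBflat hh2
    (hF1 v hv).2.2 Y hY1 hY2 (fun y hy => (g2 y hy).le)
  have hfin := step_final (mv (Ψ v) (fun e => sg (ε e)))
    (fun j => Real.sqrt rb * tv B (GG h ε (fun e => v e - F1 v e)) j) (nsq (F1 v))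
    (nsq (fun e => v e - F1 v e)) t _ (hF1 v hv).2.1 ht1 (step_nsq_nonneg _) g1 hb
  have e1 : (fun j => mv (Ψ v) (fun e => sg (ε e)) j +
      Real.sqrt rb * tv B (GG h ε (fun e => v e - F1 v e)) j) =
      fun j => Real.sqrt rb * tv B (GG h ε v) j := by
    funext j
    rw [hΨmv]
    simp only []
    unfold GG
    rw [step_tvG, step_tvG, step_tvG, ← mul_add, ← sum_add_distrib]
    congr 1
    exact sum_congr rfl fun e _ => by ring
  rw [e1, hnsc] at hfin
  refine hfin.trans ?_
  have := (hF1 v hv).2.2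
  linarith

end Pool.Agent.Helper951_sr
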