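import Pool.Agent.Helper951_sr.Defs
import Pool.Agent.Helper951_sr.Calc

/-!
Project SR (helper951, MP_72d76c_lc). Job COST: cost of the transform and of its transpose.
-/

namespace Pool.Agent.Helper951_sr

open Finset

theorem LM_fast {I R : Type} [Fintype I] [DecidableEq I] [Fintype R] [DecidableEq R] (W : I → I → ℝ) (hW : IsHad W)
    (T : ℕ) (hT : FastMap T (mv W)) (ε : R × I → Bool) :
    FastMap (Fintype.card R * T + 8 * (Fintype.card R * Fintype.card I)) (mv (LM W ε)) := by
  have h1 := fast_comp (fast_reindex (fun s : R × I => s.2))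
    (fast_diag (fun s : R × I => (Real.sqrt ((Fintype.card R : ℝ) * Fintype.card I))⁻¹ * sg (ε s)))
  have h2 := fast_comp h1 (fast_blocks (R := R) hT)
  rw [Fintype.card_prod] at h2
  refine fast_congr (fast_mono h2 (by omega)) fun x s => ?_
  unfold mv LM
  refine Finset.sum_congr rfl fun i _ => ?_
  ring

theorem LM_fast_T {I R : Type} [Fintype I] [DecidableEq I] [Fintype R] [DecidableEq R] (W : I → I → ℝ) (hW : IsHad W)
    (T : ℕ) (hT : FastMap T (mv W)) (ε : R × I → Bool) :
    FastMap (Fintype.card R * T + 8 * (Fintype.card R * Fintype.card I) + Fintype.card I)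
      (tv (LM W ε)) := by
  obtain ⟨-, hsym, -⟩ := hW
  set M : I → R × I → ℝ := fun i s => if s.2 = i then
    (Real.sqrt ((Fintype.card R : ℝ) * Fintype.card I))⁻¹ * sg (ε s) else 0 with hM
  have hcard : ∑ i, (univ.filter (fun s => M i s ≠ 0)).card ≤ Fintype.card R * Fintype.card I := by
    have h1 : ∀ i ∈ (univ : Finset I), (univ.filter (fun s => M i s ≠ 0)).card ≤ Fintype.card R := by
      intro i _
      have h2 : (univ.filter (fun s => M i s ≠ 0)) ⊆ univ.image (fun b : R => (b, i)) := by
        intro s hs
        have h3 := (Finset.mem_filter.1 hs).2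
        rw [hM] at h3
        refine Finset.mem_image.2 ⟨s.1, mem_univ _, ?_⟩
        by_contra h4
        apply h3
        refine if_neg fun h5 => h4 ?_
        rw [← h5]
      exact (Finset.card_le_card h2).trans (Finset.card_image_le.trans (by simp))
    refine (Finset.sum_le_sum h1).trans (le_of_eq ?_)
    rw [Finset.sum_const, Finset.card_univ, smul_eq_mul, mul_comm]
  have h2 := fast_comp (fast_blocks (R := R) hT) (fast_sparse M)
  refine fast_congr (fast_mono h2 (by omega)) fun w i => ?_
  unfold mv tv LM
  rw [Fintype.sum_prod_type, Fintype.sum_prod_type]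
  refine Finset.sum_congr rfl fun b _ => ?_
  simp only [hM]
  rw [Finset.sum_eq_single i (fun j _ hj => by rw [if_neg hj, zero_mul])
    (fun h => absurd (mem_univ _) h), if_pos rfl, Finset.mul_sum]
  refine Finset.sum_congr rfl fun j _ => ?_
  rw [hsym j i]
  ring

theorem GG_fast {E Q : Type} [Fintype E] [DecidableEq E] [Fintype Q] [DecidableEq Q] (h : E → Q) (ε : E → Bool) :
    FastMap (3 * Fintype.card E + Fintype.card Q) (GG h ε) := by
  have h1 := fast_sparse (fun (q : Q) (e : E) => if h e = q then sg (ε e) else 0)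
  have hcard : ∑ q, (univ.filter (fun e => (if h e = q then sg (ε e) else 0) ≠ 0)).card ≤
      Fintype.card E := by
    have h2 : ∀ q ∈ (univ : Finset Q), (univ.filter (fun e => (if h e = q then sg (ε e) else 0) ≠ 0)).card ≤
        (univ.filter (fun e => h e = q)).card := by
      intro q _
      apply Finset.card_le_card
      intro e he
      have h3 := (Finset.mem_filter.1 he).2
      refine Finset.mem_filter.2 ⟨mem_univ _, ?_⟩
      by_contra h4
      exact h3 (if_neg h4)
    refine (Finset.sum_le_sum h2).trans (le_of_eq ?_)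
    rw [← Finset.card_univ, Finset.card_eq_sum_card_fiberwise (f := h) (t := univ)
      (fun _ _ => Finset.mem_coe.2 (mem_univ _))]
  refine fast_congr (fast_mono h1 (by omega)) fun v q => ?_
  unfold mv GG
  refine Finset.sum_congr rfl fun e _ => ?_
  rw [ite_mul, zero_mul]

theorem GG_fast_T {E Q : Type} [Fintype E] [DecidableEq E] [Fintype Q] [DecidableEq Q] (h : E → Q) (ε : E → Bool) :
    FastMap (2 * Fintype.card E) (fun (w : Q → ℝ) (e : E) => sg (ε e) * w (h e)) := by
  have h1 := fast_comp (fast_reindex h) (fast_diag (fun e => sg (ε e)))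
  exact fast_mono h1 (by omega)

end Pool.Agent.Helper951_sr
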