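import Pool.Agent.Helper951_sr.Defs

/-!
Project SR (helper951, MP_72d76c_lc). Job M: derandomised Maurey lemma.
-/

namespace Pool.Agent.Helper951_sr

open Finset

/-- The vector `∑_i |u|_1 * (sign) * e_{idx i}`. -/
noncomputable def mvec {E : Type} [Fintype E] [DecidableEq E] (u : E → ℝ) {l : ℕ} (idx : Fin l → E × Bool) (e : E) : ℝ :=
  ∑ i, if (idx i).1 = e then nab u * sg (idx i).2 else 0

theorem maurey_sg_sq (b : Bool) : sg b ^ 2 = 1 := by
  cases b <;> simp [sg]

theorem maurey_abs_mul_sg (x : ℝ) : |x| * sg (decide (0 ≤ x)) = x := by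
  by_cases h : 0 ≤ x
  · simp [sg, h, abs_of_nonneg h]
  · have h' : x ≤ 0 := le_of_not_ge h
    simp [sg, h, abs_of_nonpos h']

theorem maurey_nab_nonneg {E : Type} [Fintype E] (u : E → ℝ) : 0 ≤ nab u :=
  Finset.sum_nonneg fun _ _ => abs_nonneg _

/-- One step of the derandomised Maurey argument. -/
theorem maurey_step {E K : Type} [Fintype E] [DecidableEq E] [Fintype K] (M : K → E → ℝ) (u v : E → ℝ) (R2 lam : ℝ)
    (hlam : 0 ≤ lam) (hR : ∀ e, nab u ^ 2 * (∑ k, M k e ^ 2) ≤ R2) (hu : u ≠ 0) (X : E → ℝ) (c : ℝ) :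
    ∃ e : E, (∑ e', X e' * v e') - lam * nsq (mv M (fun e' => X e' - c * u e')) + (∑ e', u e' * v e') - lam * R2 ≤
      (∑ e', ((if e = e' then nab u * sg (decide (0 ≤ u e)) else 0) + X e') * v e')
        - lam * nsq (mv M (fun e' => ((if e = e' then nab u * sg (decide (0 ≤ u e)) else 0) + X e') - (c + 1) * u e')) := by
  by_contra hcon
  push Not at hcon
  set A := nab u with hA
  set d : K → ℝ := mv M (fun e' => X e' - c * u e') with hd
  set m : K → ℝ := mv M u with hm
  -- the sums for a fixed index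
  have h1 : ∀ e, (∑ e', ((if e = e' then A * sg (decide (0 ≤ u e)) else 0) + X e') * v e')
      = A * sg (decide (0 ≤ u e)) * v e + ∑ e', X e' * v e' := by
    intro e
    simp only [add_mul, Finset.sum_add_distrib, ite_mul, zero_mul, Finset.sum_ite_eq, Finset.mem_univ, if_true]
  have h2 : ∀ e k, mv M (fun e' => ((if e = e' then A * sg (decide (0 ≤ u e)) else 0) + X e') - (c + 1) * u e') k
      = A * sg (decide (0 ≤ u e)) * M k e + (d k - m k) := by
    intro e k
    simp only [hd, hm, mv]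
    rw [← Finset.sum_sub_distrib]
    have : ∀ i, M k i * (((if e = i then A * sg (decide (0 ≤ u e)) else 0) + X i) - (c + 1) * u i)
        = (if e = i then M k i * (A * sg (decide (0 ≤ u e))) else 0)
          + (M k i * (X i - c * u i) - M k i * u i) := by
      intro i
      split_ifs <;> ring
    rw [Finset.sum_congr rfl fun i _ => this i, Finset.sum_add_distrib]
    simp only [Finset.sum_ite_eq, Finset.mem_univ, if_true]
    ring
  -- the weighted sum of the differences
  have hpos : ∃ e, u e ≠ 0 := by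
    by_contra hne
    push Not at hne
    exact hu (funext hne)
  obtain ⟨e0, he0⟩ := hpos
  have hlt : ∑ e, |u e| * ((∑ e', ((if e = e' then A * sg (decide (0 ≤ u e)) else 0) + X e') * v e')
        - lam * nsq (mv M (fun e' => ((if e = e' then A * sg (decide (0 ≤ u e)) else 0) + X e') - (c + 1) * u e')))
      < ∑ e, |u e| * ((∑ e', X e' * v e') - lam * nsq d + (∑ e', u e' * v e') - lam * R2) := by
    apply Finset.sum_lt_sum
    · intro e _
      exact mul_le_mul_of_nonneg_left (hcon e).le (abs_nonneg _)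
    · exact ⟨e0, Finset.mem_univ _, mul_lt_mul_of_pos_left (hcon e0) (abs_pos.mpr he0)⟩
  rw [← Finset.sum_mul] at hlt
  have hAsum : ∑ e, |u e| = A := rfl
  rw [hAsum] at hlt
  -- evaluation of the left side
  have h3 : ∀ e, |u e| * ((∑ e', ((if e = e' then A * sg (decide (0 ≤ u e)) else 0) + X e') * v e')
        - lam * nsq (mv M (fun e' => ((if e = e' then A * sg (decide (0 ≤ u e)) else 0) + X e') - (c + 1) * u e')))
      = A * (u e * v e) + |u e| * (∑ e', X e' * v e')
        - lam * ∑ k, (A ^ 2 * (|u e| * M k e ^ 2) + 2 * A * ((d k - m k) * (M k e * u e)) + |u e| * (d k - m k) ^ 2) := by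
    intro e
    rw [h1 e]
    have h4 : nsq (mv M (fun e' => ((if e = e' then A * sg (decide (0 ≤ u e)) else 0) + X e') - (c + 1) * u e'))
        = ∑ k, (A * sg (decide (0 ≤ u e)) * M k e + (d k - m k)) ^ 2 := by
      simp only [nsq]
      exact Finset.sum_congr rfl fun k _ => by rw [h2 e k]
    rw [h4]
    have h5 : |u e| * ∑ k, (A * sg (decide (0 ≤ u e)) * M k e + (d k - m k)) ^ 2
        = ∑ k, (A ^ 2 * (|u e| * M k e ^ 2) + 2 * A * ((d k - m k) * (M k e * u e)) + |u e| * (d k - m k) ^ 2) := by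
      rw [Finset.mul_sum]
      refine Finset.sum_congr rfl fun k _ => ?_
      have hs := maurey_sg_sq (decide (0 ≤ u e))
      have ha := maurey_abs_mul_sg (u e)
      calc |u e| * (A * sg (decide (0 ≤ u e)) * M k e + (d k - m k)) ^ 2
          = A ^ 2 * (|u e| * M k e ^ 2) * sg (decide (0 ≤ u e)) ^ 2
            + 2 * A * ((d k - m k) * (M k e * (|u e| * sg (decide (0 ≤ u e))))) + |u e| * (d k - m k) ^ 2 := by ring
        _ = _ := by rw [hs, ha]; ring
    have ha := maurey_abs_mul_sg (u e)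
    calc |u e| * (A * sg (decide (0 ≤ u e)) * v e + ∑ e', X e' * v e'
            - lam * ∑ k, (A * sg (decide (0 ≤ u e)) * M k e + (d k - m k)) ^ 2)
        = A * ((|u e| * sg (decide (0 ≤ u e))) * v e) + |u e| * (∑ e', X e' * v e')
          - lam * (|u e| * ∑ k, (A * sg (decide (0 ≤ u e)) * M k e + (d k - m k)) ^ 2) := by ring
      _ = _ := by rw [h5, ha]
  rw [Finset.sum_congr rfl fun e _ => h3 e] at hlt
  rw [Finset.sum_sub_distrib, Finset.sum_add_distrib, ← Finset.mul_sum, ← Finset.sum_mul, hAsum, ← Finset.mul_sum] at hlt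
  -- the quadratic part
  have h6 : ∑ e, ∑ k, (A ^ 2 * (|u e| * M k e ^ 2) + 2 * A * ((d k - m k) * (M k e * u e)) + |u e| * (d k - m k) ^ 2)
      = (∑ e, |u e| * (A ^ 2 * ∑ k, M k e ^ 2)) + A * (∑ k, (d k ^ 2 - m k ^ 2)) := by
    have e1 : ∀ e, ∑ k, (A ^ 2 * (|u e| * M k e ^ 2) + 2 * A * ((d k - m k) * (M k e * u e)) + |u e| * (d k - m k) ^ 2)
        = |u e| * (A ^ 2 * ∑ k, M k e ^ 2)
          + ∑ k, (2 * A * ((d k - m k) * (M k e * u e)) + |u e| * (d k - m k) ^ 2) := by
      intro e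
      rw [Finset.mul_sum, Finset.mul_sum, ← Finset.sum_add_distrib]
      exact Finset.sum_congr rfl fun k _ => by ring
    rw [Finset.sum_congr rfl fun e _ => e1 e, Finset.sum_add_distrib]
    congr 1
    rw [Finset.sum_comm, Finset.mul_sum]
    refine Finset.sum_congr rfl fun k _ => ?_
    rw [Finset.sum_add_distrib, ← Finset.mul_sum, ← Finset.mul_sum, ← Finset.sum_mul, hAsum]
    have : ∑ e, M k e * u e = m k := rfl
    rw [this]
    ring
  rw [h6] at hlt
  have h7 : ∑ e, |u e| * (A ^ 2 * ∑ k, M k e ^ 2) ≤ A * R2 := by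
    have h7' : ∑ e, |u e| * (A ^ 2 * ∑ k, M k e ^ 2) ≤ ∑ e, |u e| * R2 :=
      Finset.sum_le_sum fun e _ => mul_le_mul_of_nonneg_left (hR e) (abs_nonneg _)
    rw [← Finset.sum_mul, hAsum] at h7'
    exact h7'
  have h8 : ∑ k, (d k ^ 2 - m k ^ 2) ≤ nsq d := by
    simp only [nsq]
    exact Finset.sum_le_sum fun k _ => by nlinarith [sq_nonneg (m k)]
  have hA0 : 0 ≤ A := maurey_nab_nonneg u
  have h9 : lam * ((∑ e, |u e| * (A ^ 2 * ∑ k, M k e ^ 2)) + A * (∑ k, (d k ^ 2 - m k ^ 2)))
      ≤ lam * (A * R2 + A * nsq d) := by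
    apply mul_le_mul_of_nonneg_left _ hlam
    exact add_le_add h7 (mul_le_mul_of_nonneg_left h8 hA0)
  linarith

theorem maurey {E K : Type} [Fintype E] [DecidableEq E] [Fintype K] (M : K → E → ℝ) (u v : E → ℝ) (R2 lam : ℝ)
    (hlam : 0 ≤ lam) (hR : ∀ e, nab u ^ 2 * (∑ k, M k e ^ 2) ≤ R2) (hu : u ≠ 0) (l : ℕ) :
    ∃ idx : Fin l → E × Bool,
      (l : ℝ) * (∑ e, u e * v e) - lam * l * R2 ≤
        (∑ e, mvec u idx e * v e) - lam * nsq (mv M (fun e => mvec u idx e - l * u e)) := by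
  induction l with
  | zero =>
    refine ⟨Fin.elim0, ?_⟩
    simp [mvec, nsq, mv]
  | succ l ih =>
    obtain ⟨idx, hidx⟩ := ih
    obtain ⟨e, he⟩ := maurey_step M u v R2 lam hlam hR hu (mvec u idx) l
    refine ⟨Fin.cons (e, decide (0 ≤ u e)) idx, ?_⟩
    have hm : ∀ e', mvec u (Fin.cons (e, decide (0 ≤ u e)) idx : Fin (l + 1) → E × Bool) e'
        = (if e = e' then nab u * sg (decide (0 ≤ u e)) else 0) + mvec u idx e' := by
      intro e'
      simp only [mvec]
      rw [Fin.sum_univ_succ]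
      simp only [Fin.cons_zero, Fin.cons_succ]
    simp only [hm]
    push_cast
    linarith

end Pool.Agent.Helper951_sr
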