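import Pool.Agent.Helper951_sr.Defs
import Pool.Agent.Helper951_sr.Hoeff
import Pool.Agent.Helper951_sr.Maurey

/-!
Project SR (helper951, MP_72d76c_lc). Job F1: flatness of the Hadamard copies for sign vectors (Lemma 1, step A).
-/

namespace Pool.Agent.Helper951_sr

open Finset

/-- The vector `∑_i (sign) e_{idx i}`. -/
noncomputable def flat1_U {E : Type} [DecidableEq E] {l : ℕ} (idx : Fin l → E × Bool) (e : E) : ℝ :=
  ∑ i, if (idx i).1 = e then sg (idx i).2 else 0

theorem flat1_mvec {E : Type} [Fintype E] [DecidableEq E] (u : E → ℝ) {l : ℕ} (idx : Fin l → E × Bool) (e : E) :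
    mvec u idx e = nab u * flat1_U idx e := by
  simp only [mvec, flat1_U, Finset.mul_sum]
  exact Finset.sum_congr rfl fun i _ => by split_ifs <;> simp

theorem flat1_mv_smul {E K : Type} [Fintype E] (M : K → E → ℝ) (c : ℝ) (x : E → ℝ) (k : K) :
    mv M (fun e => c * x e) k = c * mv M x k := by
  simp only [mv, Finset.mul_sum]
  exact Finset.sum_congr rfl fun i _ => by ring

theorem flat1_mv_sub {E K : Type} [Fintype E] (M : K → E → ℝ) (x y : E → ℝ) (k : K) :
    mv M (fun e => x e - y e) k = mv M x k - mv M y k := by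
  simp only [mv]
  rw [← Finset.sum_sub_distrib]
  exact Finset.sum_congr rfl fun i _ => by ring

/-- Deterministic part: a large part of `v` on `S` yields a sparse test vector. -/
theorem flat1_det {E K : Type} [Fintype E] [DecidableEq E] [Fintype K] (M : K → E → ℝ) (v : E → ℝ) (S : Finset E)
    (c1 c2 : ℝ) (hc2 : 0 < c2) (q : ℕ) (hq : 0 < q) (hcol : ∀ e, ∑ k, M k e ^ 2 ≤ c1)
    (hM : nsq (mv M (fun e => if e ∈ S then v e else 0)) ≤ c2 * ∑ e ∈ S, v e ^ 2)
    (hS : S.card * c1 ≤ q * c2) (hpos : 0 < ∑ e ∈ S, v e ^ 2) :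
    ∃ idx : Fin q → E × Bool, 0 < ∑ e, flat1_U idx e * v e ∧
      (∑ e ∈ S, v e ^ 2) / (4 * c2) * nsq (mv M (flat1_U idx)) ≤ (∑ e, flat1_U idx e * v e) ^ 2 := by
  set u : E → ℝ := fun e => if e ∈ S then v e else 0 with hu
  set t : ℝ := ∑ e ∈ S, v e ^ 2 with ht
  have hq0 : (0 : ℝ) < q := by exact_mod_cast hq
  have huv : ∑ e, u e * v e = t := by
    rw [ht, ← Finset.sum_filter_add_sum_filter_not univ (fun e => e ∈ S)]
    rw [Finset.sum_eq_zero (s := univ.filter (fun e => e ∉ S)), add_zero]
    · rw [Finset.filter_mem_eq_inter, Finset.univ_inter]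
      refine Finset.sum_congr rfl fun e he => ?_
      simp only [hu, if_pos he]; ring
    · intro e he
      rw [Finset.mem_filter] at he
      simp only [hu, if_neg he.2]; ring
  have hnab : nab u ^ 2 ≤ S.card * t := by
    have h1 : nab u = ∑ e ∈ S, |v e| := by
      simp only [nab]
      rw [← Finset.sum_filter_add_sum_filter_not univ (fun e => e ∈ S)]
      rw [Finset.sum_eq_zero (s := univ.filter (fun e => e ∉ S)), add_zero]
      · rw [Finset.filter_mem_eq_inter, Finset.univ_inter]
        refine Finset.sum_congr rfl fun e he => ?_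
        simp only [hu, if_pos he]
      · intro e he
        rw [Finset.mem_filter] at he
        simp only [hu, if_neg he.2, abs_zero]
    rw [h1]
    have h2 := sq_sum_le_card_mul_sum_sq (s := S) (f := fun e => |v e|)
    simpa only [sq_abs] using h2
  have hune : u ≠ 0 := by
    intro h0
    have : t = 0 := by
      rw [← huv]
      simp [h0]
    exact hpos.ne' this
  have hnabpos : 0 < nab u := by
    obtain ⟨e, he⟩ : ∃ e, u e ≠ 0 := by
      by_contra hne
      push Not at hne
      exact hune (funext hne)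
    have h1 : |u e| ≤ nab u := Finset.single_le_sum (f := fun e => |u e|) (fun _ _ => abs_nonneg _) (Finset.mem_univ e)
    exact lt_of_lt_of_le (abs_pos.mpr he) h1
  set lam : ℝ := 1 / (4 * q * c2) with hlam
  have hlam0 : 0 < lam := by positivity
  have hR : ∀ e, nab u ^ 2 * (∑ k, M k e ^ 2) ≤ q * c2 * t := by
    intro e
    calc nab u ^ 2 * (∑ k, M k e ^ 2) ≤ (S.card * t) * c1 :=
          mul_le_mul hnab (hcol e) (Finset.sum_nonneg fun _ _ => sq_nonneg _) (by positivity)
      _ = (S.card * c1) * t := by ring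
      _ ≤ (q * c2) * t := mul_le_mul_of_nonneg_right hS hpos.le
      _ = q * c2 * t := by ring
  obtain ⟨idx, hidx⟩ := maurey M u v (q * c2 * t) lam hlam0.le hR hune q
  refine ⟨idx, ?_⟩
  set x : ℝ := ∑ e, flat1_U idx e * v e with hx
  set a : K → ℝ := mv M (flat1_U idx) with ha
  have h1 : ∑ e, mvec u idx e * v e = nab u * x := by
    rw [hx, Finset.mul_sum]
    exact Finset.sum_congr rfl fun e _ => by rw [flat1_mvec]; ring
  have h2 : nsq (mv M (fun e => mvec u idx e - q * u e)) ≥ nab u ^ 2 * nsq a / 2 - q ^ 2 * nsq (mv M u) := by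
    have h3 : ∀ k, mv M (fun e => mvec u idx e - q * u e) k = nab u * a k - q * mv M u k := by
      intro k
      rw [flat1_mv_sub]
      have h3' : mvec u idx = fun e => nab u * flat1_U idx e := funext (flat1_mvec u idx)
      rw [h3', flat1_mv_smul, flat1_mv_smul]
    simp only [nsq]
    rw [Finset.mul_sum, Finset.sum_div, Finset.mul_sum, ← Finset.sum_sub_distrib]
    refine Finset.sum_le_sum fun k _ => ?_
    rw [h3 k]
    nlinarith [sq_nonneg (nab u * a k - 2 * (q * mv M u k))]
  rw [h1, huv] at hidx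
  have h4 : q * t / 2 + nab u ^ 2 * nsq a / (8 * q * c2) ≤ nab u * x := by
    have h5 : lam * nsq (mv M (fun e => mvec u idx e - q * u e))
        ≥ lam * (nab u ^ 2 * nsq a / 2 - q ^ 2 * (c2 * t)) := by
      apply mul_le_mul_of_nonneg_left _ hlam0.le
      have : (q : ℝ) ^ 2 * nsq (mv M u) ≤ q ^ 2 * (c2 * t) := mul_le_mul_of_nonneg_left hM (by positivity)
      linarith
    have h6 : lam * (nab u ^ 2 * nsq a / 2 - q ^ 2 * (c2 * t)) = nab u ^ 2 * nsq a / (8 * q * c2) - q * t / 4 := by
      rw [hlam]; field_simp; ring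
    have h7 : lam * q * (q * c2 * t) = q * t / 4 := by
      rw [hlam]; field_simp
    linarith
  have hnsq : 0 ≤ nsq a := Finset.sum_nonneg fun _ _ => sq_nonneg _
  have hA : 0 < q * t / 2 := by positivity
  have hB : 0 ≤ nab u ^ 2 * nsq a / (8 * q * c2) := by positivity
  constructor
  · by_contra hneg
    push Not at hneg
    have : nab u * x ≤ 0 := mul_nonpos_of_nonneg_of_nonpos hnabpos.le hneg
    linarith
  · have h8 : 4 * (q * t / 2) * (nab u ^ 2 * nsq a / (8 * q * c2)) ≤ (nab u * x) ^ 2 := by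
      have h9 : (q * t / 2 + nab u ^ 2 * nsq a / (8 * q * c2)) ^ 2 ≤ (nab u * x) ^ 2 :=
        pow_le_pow_left₀ (by positivity) h4 2
      nlinarith [sq_nonneg (q * t / 2 - nab u ^ 2 * nsq a / (8 * q * c2))]
    have h10 : 4 * (q * t / 2) * (nab u ^ 2 * nsq a / (8 * q * c2)) = nab u ^ 2 * (t / (4 * c2) * nsq a) := by
      field_simp; ring
    rw [h10, mul_pow] at h8
    exact le_of_mul_le_mul_left h8 (by positivity)

/-- The matrix of the seminorm `p` (up to the factor `n`). -/
noncomputable def flat1_M {R I : Type} [DecidableEq R] [DecidableEq I] (W : I → I → ℝ) (T : Finset I) :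
    R × I → R × I → ℝ :=
  fun k e => if k.1 = e.1 ∧ k.2 ∈ T then W e.2 k.2 else 0

theorem flat1_M_apply {R I : Type} [Fintype R] [Fintype I] [DecidableEq R] [DecidableEq I] (W : I → I → ℝ) (T : Finset I)
    (x : R × I → ℝ) (b : R) (i : I) :
    mv (flat1_M W T) x (b, i) = if i ∈ T then ∑ j, W j i * x (b, j) else 0 := by
  simp only [mv, flat1_M]
  rw [Fintype.sum_prod_type]
  by_cases hi : i ∈ T
  · simp only [hi, and_true, if_true]
    rw [Finset.sum_eq_single b]
    · simp
    · intro b' _ hb'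
      refine Finset.sum_eq_zero fun j _ => ?_
      rw [if_neg (fun h => hb' h.symm)]; ring
    · intro h; exact absurd (Finset.mem_univ b) h
  · simp [hi]

theorem flat1_M_col {R I : Type} [Fintype R] [Fintype I] [DecidableEq R] [DecidableEq I] (W : I → I → ℝ)
    (hW : IsHad W) (T : Finset I) (e : R × I) :
    ∑ k, flat1_M (R := R) W T k e ^ 2 ≤ T.card := by
  obtain ⟨b, j⟩ := e
  rw [Fintype.sum_prod_type]
  rw [Finset.sum_eq_single b]
  · have : ∀ i, flat1_M (R := R) W T (b, i) (b, j) ^ 2 = if i ∈ T then 1 else 0 := by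
      intro i
      simp only [flat1_M, true_and]
      split_ifs
      · rcases hW.1 j i with h | h <;> rw [h] <;> norm_num
      · norm_num
    rw [Finset.sum_congr rfl fun i _ => this i]
    simp
  · intro b' _ hb'
    refine Finset.sum_eq_zero fun i _ => ?_
    simp only [flat1_M]
    rw [if_neg (fun h => hb' h.1)]; ring
  · intro h; exact absurd (Finset.mem_univ b) h

theorem flat1_had {I : Type} [Fintype I] [DecidableEq I] (W : I → I → ℝ) (hW : IsHad W) (x : I → ℝ) :
    ∑ i, (∑ j, W j i * x j) ^ 2 = Fintype.card I * ∑ j, x j ^ 2 := by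
  have h1 : ∀ i, (∑ j, W j i * x j) ^ 2 = ∑ j, ∑ j', x j * x j' * (W j i * W j' i) := by
    intro i
    rw [sq, Finset.sum_mul_sum]
    exact Finset.sum_congr rfl fun j _ => Finset.sum_congr rfl fun j' _ => by ring
  rw [Finset.sum_congr rfl fun i _ => h1 i, Finset.sum_comm, Finset.mul_sum]
  refine Finset.sum_congr rfl fun j _ => ?_
  rw [Finset.sum_comm]
  have h2 : ∀ j', ∑ i, x j * x j' * (W j i * W j' i) = if j = j' then (Fintype.card I : ℝ) * (x j * x j') else 0 := by
    intro j'
    rw [← Finset.mul_sum, hW.2.2 j j']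
    split_ifs <;> ring
  rw [Finset.sum_congr rfl fun j' _ => h2 j']
  simp only [Finset.sum_ite_eq, Finset.mem_univ, if_true]
  ring

theorem flat1_M_bound {R I : Type} [Fintype R] [Fintype I] [DecidableEq R] [DecidableEq I] (W : I → I → ℝ)
    (hW : IsHad W) (T : Finset I) (x : R × I → ℝ) :
    nsq (mv (flat1_M W T) x) ≤ Fintype.card I * nsq x := by
  simp only [nsq]
  rw [Fintype.sum_prod_type, Fintype.sum_prod_type, Finset.mul_sum]
  refine Finset.sum_le_sum fun b _ => ?_
  rw [← flat1_had W hW (fun j => x (b, j))]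
  refine Finset.sum_le_sum fun i _ => ?_
  rw [flat1_M_apply]
  split_ifs
  · exact le_refl _
  · have := sq_nonneg (∑ j, W j i * x (b, j))
    simpa using this

/-- The sign vectors. -/
noncomputable def flat1_w {I : Type} [DecidableEq I] (T P : Finset I) (i : I) : ℝ :=
  if i ∈ T then sg (decide (i ∈ P)) else 0

/-- Probabilistic part: a fixed test vector. -/
theorem flat1_prob {I R : Type} [Fintype I] [DecidableEq I] [Fintype R] [DecidableEq R] [Nonempty I]
    [Nonempty R] (W : I → I → ℝ) (T P : Finset I) (U : R × I → ℝ) (nu : ℝ) (hnu : 0 ≤ nu) :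
    ((univ.filter (fun ε : R × I → Bool => 0 < ∑ e, U e * mv (LM W ε) (flat1_w T P) e ∧
      nu / (4 * Fintype.card I) * nsq (mv (flat1_M W T) U) ≤ (∑ e, U e * mv (LM W ε) (flat1_w T P) e) ^ 2)).card : ℝ)
      ≤ Real.exp (-(nu * Fintype.card R / 8)) * 2 ^ (Fintype.card R * Fintype.card I) := by
  set N : ℝ := (Fintype.card R : ℝ) * Fintype.card I with hN
  have hI0 : (0 : ℝ) < Fintype.card I := by exact_mod_cast Fintype.card_pos
  have hR0 : (0 : ℝ) < Fintype.card R := by exact_mod_cast Fintype.card_pos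
  have hN0 : 0 < N := mul_pos hR0 hI0
  set a : R × I → ℝ := fun p => (Real.sqrt N)⁻¹ * (flat1_w T P p.2 * ∑ j, W j p.2 * U (p.1, j)) with ha
  have hlin : ∀ ε : R × I → Bool, ∑ e, U e * mv (LM W ε) (flat1_w T P) e = ∑ p, sg (ε p) * a p := by
    intro ε
    rw [Fintype.sum_prod_type, Fintype.sum_prod_type]
    refine Finset.sum_congr rfl fun b _ => ?_
    simp only [mv, LM, ha]
    have h1 : ∀ j, U (b, j) * ∑ i, (Real.sqrt ((Fintype.card R : ℝ) * Fintype.card I))⁻¹ * (W j i * sg (ε (b, i))) * flat1_w T P i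
        = ∑ i, sg (ε (b, i)) * ((Real.sqrt N)⁻¹ * (flat1_w T P i * (W j i * U (b, j)))) := by
      intro j
      rw [Finset.mul_sum]
      exact Finset.sum_congr rfl fun i _ => by rw [← hN]; ring
    rw [Finset.sum_congr rfl fun j _ => h1 j, Finset.sum_comm]
    refine Finset.sum_congr rfl fun i _ => ?_
    rw [← Finset.mul_sum, ← Finset.mul_sum, ← Finset.mul_sum]
  have hnsq : nsq a = nsq (mv (flat1_M W T) U) / N := by
    simp only [nsq]
    rw [Fintype.sum_prod_type, Fintype.sum_prod_type, Finset.sum_div]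
    refine Finset.sum_congr rfl fun b _ => ?_
    rw [Finset.sum_div]
    refine Finset.sum_congr rfl fun i _ => ?_
    rw [flat1_M_apply]
    simp only [ha, flat1_w]
    have hs : (Real.sqrt N)⁻¹ ^ 2 = 1 / N := by
      rw [inv_pow, Real.sq_sqrt hN0.le, one_div]
    split_ifs with hi
    · rw [mul_pow, hs, mul_pow, maurey_sg_sq]
      ring
    · simp
  simp only [hlin]
  by_cases h0 : nsq (mv (flat1_M W T) U) = 0
  · -- degenerate case: the sum vanishes
    have ha0 : ∀ p, a p = 0 := by
      intro p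
      have h1 : nsq a = 0 := by rw [hnsq, h0, zero_div]
      have h2 := (Finset.sum_eq_zero_iff_of_nonneg (fun i _ => sq_nonneg (a i))).mp h1 p (Finset.mem_univ p)
      exact pow_eq_zero_iff (two_ne_zero) |>.mp h2
    have hemp : (univ.filter (fun ε : R × I → Bool => 0 < ∑ p, sg (ε p) * a p ∧
        nu / (4 * Fintype.card I) * nsq (mv (flat1_M W T) U) ≤ (∑ p, sg (ε p) * a p) ^ 2)) = ∅ := by
      rw [Finset.filter_eq_empty_iff]
      intro ε _ h
      have : ∑ p, sg (ε p) * a p = 0 := Finset.sum_eq_zero fun p _ => by rw [ha0 p, mul_zero]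
      rw [this] at h
      exact lt_irrefl _ h.1
    rw [hemp, Finset.card_empty, Nat.cast_zero]
    positivity
  · have hpos : 0 < nsq (mv (flat1_M W T) U) :=
      lt_of_le_of_ne (Finset.sum_nonneg fun _ _ => sq_nonneg _) (Ne.symm h0)
    set p2 : ℝ := nsq (mv (flat1_M W T) U) with hp2
    set t : ℝ := Real.sqrt (nu / (4 * Fintype.card I) * p2) with ht
    have ht0 : 0 ≤ t := Real.sqrt_nonneg _
    have htsq : t ^ 2 = nu / (4 * Fintype.card I) * p2 := Real.sq_sqrt (by positivity)
    have hs0 : 0 < p2 / N := by positivity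
    have hh := hoeffding a (p2 / N) t hs0 ht0 hnsq.le
    have hexp : -t ^ 2 / (2 * (p2 / N)) = -(nu * Fintype.card R / 8) := by
      rw [neg_div, htsq, hN]
      congr 1
      field_simp
      ring
    rw [hexp, Fintype.card_prod] at hh
    refine le_trans (Nat.cast_le.mpr (Finset.card_le_card ?_)) hh
    intro ε hε
    rw [Finset.mem_filter] at hε ⊢
    refine ⟨hε.1, ?_⟩
    have h1 : t ^ 2 ≤ (∑ p, sg (ε p) * a p) ^ 2 := by rw [htsq]; exact hε.2.2
    exact (sq_le_sq₀ ht0 hε.2.1.le).mp h1

/-- The level of the flatness bound. -/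
noncomputable def flat1_mu (R I : Type) [Fintype R] [Fintype I] (s : ℝ) : ℝ :=
  Real.log (2 * (Fintype.card R * Fintype.card I)) *
    (40 / Fintype.card R + 8 * s / (Fintype.card R * Fintype.card I))

/-- The bad signs for a fixed sign vector and a fixed size of `S`. -/
noncomputable def flat1_bad {I R : Type} [Fintype I] [DecidableEq I] [Fintype R] [DecidableEq R]
    (W : I → I → ℝ) (T P : Finset I) (s : ℕ) : Finset (R × I → Bool) := by
  classical
  exact univ.filter (fun ε => ∃ S : Finset (R × I), S.card = s ∧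
    T.card * flat1_mu R I s < ∑ e ∈ S, mv (LM W ε) (flat1_w T P) e ^ 2)

theorem flat1_bad_card {I R : Type} [Fintype I] [DecidableEq I] [Fintype R] [DecidableEq R] [Nonempty I]
    [Nonempty R] (W : I → I → ℝ) (hW : IsHad W) (T P : Finset I) (hT : T.Nonempty) (s : ℕ) (hs : 0 < s) :
    ((flat1_bad (R := R) W T P s).card : ℝ)
      ≤ Real.exp (Real.log (2 * (Fintype.card R * Fintype.card I)) * (1 - 5 * T.card))
        * 2 ^ (Fintype.card R * Fintype.card I) := by
  classical
  have hI0 : (0 : ℝ) < Fintype.card I := by exact_mod_cast Fintype.card_pos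
  have hR0 : (0 : ℝ) < Fintype.card R := by exact_mod_cast Fintype.card_pos
  have hI1 : (1 : ℝ) ≤ Fintype.card I := by exact_mod_cast Nat.one_le_iff_ne_zero.mpr Fintype.card_ne_zero
  have hR1 : (1 : ℝ) ≤ Fintype.card R := by exact_mod_cast Nat.one_le_iff_ne_zero.mpr Fintype.card_ne_zero
  set N : ℝ := (Fintype.card R : ℝ) * Fintype.card I with hN
  have hN1 : 1 ≤ N := by
    calc (1 : ℝ) = 1 * 1 := by ring
      _ ≤ N := mul_le_mul hR1 hI1 zero_le_one (by positivity)
  set L : ℝ := Real.log (2 * N) with hL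
  have hL0 : 0 < L := Real.log_pos (by linarith)
  have hτ : (0 : ℝ) < T.card := by exact_mod_cast hT.card_pos
  have hs0 : (0 : ℝ) < s := by exact_mod_cast hs
  have hmu : flat1_mu R I s = L * (40 / Fintype.card R + 8 * s / N) := rfl
  have hmu0 : 0 ≤ flat1_mu R I s := by rw [hmu]; positivity
  set q : ℕ := ⌈(s * T.card : ℝ) / Fintype.card I⌉₊ with hq
  have hqpos : 0 < q := Nat.ceil_pos.mpr (by positivity)
  have hqle : (s : ℝ) * T.card ≤ q * Fintype.card I := by
    have h1 := Nat.le_ceil ((s * T.card : ℝ) / Fintype.card I)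
    rw [div_le_iff₀ hI0] at h1
    exact h1
  have hqlt : (q : ℝ) ≤ (s * T.card : ℝ) / Fintype.card I + 1 := (Nat.ceil_lt_add_one (by positivity)).le
  have hsub : flat1_bad (R := R) W T P s ⊆ (univ : Finset (Fin q → (R × I) × Bool)).biUnion (fun idx =>
      univ.filter (fun ε : R × I → Bool => 0 < ∑ e, flat1_U idx e * mv (LM W ε) (flat1_w T P) e ∧
      (T.card * flat1_mu R I s) / (4 * Fintype.card I) * nsq (mv (flat1_M W T) (flat1_U idx))
        ≤ (∑ e, flat1_U idx e * mv (LM W ε) (flat1_w T P) e) ^ 2)) := by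
    intro ε hε
    rw [flat1_bad, Finset.mem_filter] at hε
    obtain ⟨S, hS, hlt⟩ := hε.2
    have hpos : 0 < ∑ e ∈ S, mv (LM W ε) (flat1_w T P) e ^ 2 := lt_of_le_of_lt (by positivity) hlt
    obtain ⟨idx, h1, h2⟩ := flat1_det (flat1_M W T) (mv (LM W ε) (flat1_w T P)) S T.card (Fintype.card I) hI0 q hqpos
      (flat1_M_col W hW T) (by
        refine le_trans (flat1_M_bound W hW T _) (le_of_eq ?_)
        congr 1
        simp only [nsq, ite_pow]
        rw [← Finset.sum_filter_add_sum_filter_not univ (fun e => e ∈ S)]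
        rw [Finset.sum_eq_zero (s := univ.filter (fun e => e ∉ S)), add_zero]
        · rw [Finset.filter_mem_eq_inter, Finset.univ_inter]
          refine Finset.sum_congr rfl fun e he => ?_
          simp only [if_pos he]
        · intro e he
          rw [Finset.mem_filter] at he
          simp only [if_neg he.2]; ring) (by rw [hS]; exact hqle) hpos
    rw [Finset.mem_biUnion]
    refine ⟨idx, Finset.mem_univ _, ?_⟩
    rw [Finset.mem_filter]
    refine ⟨Finset.mem_univ _, h1, le_trans ?_ h2⟩
    apply mul_le_mul_of_nonneg_right _ (Finset.sum_nonneg fun _ _ => sq_nonneg _)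
    exact div_le_div_of_nonneg_right hlt.le (by positivity)
  have hcard : ((flat1_bad (R := R) W T P s).card : ℝ)
      ≤ ∑ _idx : Fin q → (R × I) × Bool, Real.exp (-((T.card * flat1_mu R I s) * Fintype.card R / 8))
        * 2 ^ (Fintype.card R * Fintype.card I) := by
    refine le_trans (Nat.cast_le.mpr (le_trans (Finset.card_le_card hsub) Finset.card_biUnion_le)) ?_
    rw [Nat.cast_sum]
    exact Finset.sum_le_sum fun idx _ => flat1_prob W T P (flat1_U idx) _ (by positivity)
  rw [Finset.sum_const, Finset.card_univ, nsmul_eq_mul, ← mul_assoc] at hcard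
  refine le_trans hcard (mul_le_mul_of_nonneg_right ?_ (by positivity))
  rw [Fintype.card_fun, Fintype.card_prod, Fintype.card_prod, Fintype.card_bool, Fintype.card_fin]
  have h1 : (((Fintype.card R * Fintype.card I * 2) ^ q : ℕ) : ℝ) = Real.exp (q * L) := by
    rw [mul_comm (q : ℝ) L, hL, Real.exp_mul, Real.exp_log (by positivity), Real.rpow_natCast]
    push_cast
    rw [← hN]
    congr 1
    ring
  rw [h1, ← Real.exp_add, Real.exp_le_exp, hmu]
  have h2 : (T.card * (L * (40 / Fintype.card R + 8 * s / N))) * Fintype.card R / 8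
      = L * (5 * T.card + (s * T.card) / Fintype.card I) := by
    rw [hN]; field_simp; ring
  rw [h2]
  have h3 : (q : ℝ) * L ≤ ((s * T.card : ℝ) / Fintype.card I + 1) * L := mul_le_mul_of_nonneg_right hqlt hL0.le
  linarith

theorem exists_flat_signs {I R : Type} [Fintype I] [DecidableEq I] [Fintype R] [DecidableEq R] [Nonempty I]
    [Nonempty R] (W : I → I → ℝ) (hW : IsHad W) :
    ∃ ε : R × I → Bool, ∀ (T : Finset I) (σ : I → Bool) (S : Finset (R × I)),
      ∑ s ∈ S, (mv (LM W ε) (fun i => if i ∈ T then sg (σ i) else 0) s) ^ 2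
        ≤ T.card * (Real.log (2 * (Fintype.card R * Fintype.card I)) *
            (40 / Fintype.card R + 8 * S.card / (Fintype.card R * Fintype.card I))) := by
  classical
  by_contra hcon
  push Not at hcon
  have hI0 : (0 : ℝ) < Fintype.card I := by exact_mod_cast Fintype.card_pos
  have hR0 : (0 : ℝ) < Fintype.card R := by exact_mod_cast Fintype.card_pos
  have hI1 : (1 : ℝ) ≤ Fintype.card I := by exact_mod_cast Nat.one_le_iff_ne_zero.mpr Fintype.card_ne_zero
  have hR1 : (1 : ℝ) ≤ Fintype.card R := by exact_mod_cast Nat.one_le_iff_ne_zero.mpr Fintype.card_ne_zero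
  set N : ℝ := (Fintype.card R : ℝ) * Fintype.card I with hN
  have hN1 : 1 ≤ N := by
    calc (1 : ℝ) = 1 * 1 := by ring
      _ ≤ N := mul_le_mul hR1 hI1 zero_le_one (by positivity)
  have hIN : (Fintype.card I : ℝ) ≤ N := by
    rw [hN]; nlinarith
  set L : ℝ := Real.log (2 * N) with hL
  have hL0 : 0 < L := Real.log_pos (by linarith)
  set Nn : ℕ := Fintype.card R * Fintype.card I with hNn
  have hNcast : (Nn : ℝ) = N := by rw [hNn, hN]; push_cast; ring
  -- the bad sets cover everything
  have hcover : (univ : Finset (R × I → Bool)) ⊆ (univ.erase (∅ : Finset I)).biUnion (fun T =>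
      T.powerset.biUnion (fun P => (Finset.Icc 1 Nn).biUnion (fun s => flat1_bad (R := R) W T P s))) := by
    intro ε _
    obtain ⟨T, σ, S, hlt⟩ := hcon ε
    have hTne : T ≠ ∅ := by
      rintro rfl
      simp [mv] at hlt
    have hSne : S ≠ ∅ := by
      rintro rfl
      rw [Finset.sum_empty] at hlt
      refine absurd hlt (not_lt.mpr ?_)
      positivity
    set P : Finset I := T.filter (fun i => σ i = true) with hP
    have hw : (fun i => if i ∈ T then sg (σ i) else 0) = flat1_w T P := by
      funext i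
      simp only [flat1_w]
      split_ifs with hi
      · congr 1
        rw [hP]
        cases hσ : σ i <;> simp [hi, hσ]
      · rfl
    rw [Finset.mem_biUnion]
    refine ⟨T, Finset.mem_erase.mpr ⟨hTne, Finset.mem_univ _⟩, ?_⟩
    rw [Finset.mem_biUnion]
    refine ⟨P, Finset.mem_powerset.mpr (Finset.filter_subset _ _), ?_⟩
    rw [Finset.mem_biUnion]
    refine ⟨S.card, ?_, ?_⟩
    · rw [Finset.mem_Icc]
      refine ⟨(Finset.nonempty_iff_ne_empty.mpr hSne).card_pos, ?_⟩
      rw [hNn, ← Fintype.card_prod]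
      exact Finset.card_le_univ S
    · rw [flat1_bad, Finset.mem_filter]
      refine ⟨Finset.mem_univ _, S, rfl, ?_⟩
      rw [← hw]
      exact hlt
  have hcard := Finset.card_le_card hcover
  have h1 : ((univ : Finset (R × I → Bool)).card : ℝ) = 2 ^ Nn := by
    rw [Finset.card_univ, Fintype.card_fun, Fintype.card_bool, Fintype.card_prod]
    push_cast
    rfl
  set y : ℝ := 2 * ((2 * N) ^ 3)⁻¹ with hy
  have hy0 : 0 < y := by positivity
  -- the bound for one `T`
  have h2 : ∀ T ∈ univ.erase (∅ : Finset I), ((T.powerset.biUnion (fun P => (Finset.Icc 1 Nn).biUnion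
      (fun s => flat1_bad (R := R) W T P s))).card : ℝ) ≤ y ^ T.card * 2 ^ Nn := by
    intro T hT
    have hTne : T.Nonempty := Finset.nonempty_iff_ne_empty.mpr (Finset.ne_of_mem_erase hT)
    have hτ : (1 : ℝ) ≤ T.card := by exact_mod_cast hTne.card_pos
    have h3 : ((T.powerset.biUnion (fun P => (Finset.Icc 1 Nn).biUnion
      (fun s => flat1_bad (R := R) W T P s))).card : ℝ) ≤ ∑ P ∈ T.powerset, ∑ s ∈ Finset.Icc 1 Nn,
        Real.exp (L * (1 - 5 * T.card)) * 2 ^ Nn := by
      refine le_trans (Nat.cast_le.mpr Finset.card_biUnion_le) ?_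
      rw [Nat.cast_sum]
      refine Finset.sum_le_sum fun P _ => ?_
      refine le_trans (Nat.cast_le.mpr Finset.card_biUnion_le) ?_
      rw [Nat.cast_sum]
      refine Finset.sum_le_sum fun s hs => ?_
      exact flat1_bad_card W hW T P hTne s (Finset.mem_Icc.mp hs).1
    refine le_trans h3 ?_
    rw [Finset.sum_const, Finset.sum_const, Finset.card_powerset, Nat.card_Icc, nsmul_eq_mul, nsmul_eq_mul,
      Nat.add_sub_cancel, hNcast]
    have h4 : N * Real.exp (L * (1 - 5 * T.card)) ≤ (((2 * N) ^ 3)⁻¹) ^ T.card := by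
      have h5 : N ≤ Real.exp L := by
        rw [hL, Real.exp_log (by positivity)]; linarith
      have h6 : (((2 * N) ^ 3)⁻¹) ^ T.card = Real.exp (-(3 * T.card * L)) := by
        rw [Real.exp_neg, inv_pow, ← pow_mul]
        congr 1
        have : (3 * T.card * L : ℝ) = ((3 * T.card : ℕ) : ℝ) * L := by push_cast; ring
        rw [this, mul_comm ((3 * T.card : ℕ) : ℝ) L, hL, Real.exp_mul, Real.exp_log (by positivity), Real.rpow_natCast]
      rw [h6]
      calc N * Real.exp (L * (1 - 5 * T.card)) ≤ Real.exp L * Real.exp (L * (1 - 5 * T.card)) :=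
            mul_le_mul_of_nonneg_right h5 (Real.exp_nonneg _)
        _ = Real.exp (L + L * (1 - 5 * T.card)) := (Real.exp_add _ _).symm
        _ ≤ Real.exp (-(3 * T.card * L)) := by
            rw [Real.exp_le_exp]
            nlinarith
    calc ((2 ^ T.card : ℕ) : ℝ) * (N * (Real.exp (L * (1 - 5 * T.card)) * 2 ^ Nn))
        = 2 ^ T.card * (N * Real.exp (L * (1 - 5 * T.card))) * 2 ^ Nn := by push_cast; ring
      _ ≤ 2 ^ T.card * (((2 * N) ^ 3)⁻¹) ^ T.card * 2 ^ Nn := by
          apply mul_le_mul_of_nonneg_right _ (by positivity)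
          exact mul_le_mul_of_nonneg_left h4 (by positivity)
      _ = y ^ T.card * 2 ^ Nn := by rw [hy, mul_pow (2 : ℝ) (((2 * N) ^ 3)⁻¹) T.card]
  have h7 : (2 : ℝ) ^ Nn ≤ ∑ T ∈ univ.erase (∅ : Finset I), y ^ T.card * 2 ^ Nn := by
    rw [← h1]
    refine le_trans (Nat.cast_le.mpr (le_trans hcard Finset.card_biUnion_le)) ?_
    rw [Nat.cast_sum]
    refine le_trans (Finset.sum_le_sum h2) ?_
    rw [h1]
  rw [← Finset.sum_mul] at h7
  have h8 : ∑ T ∈ univ.erase (∅ : Finset I), y ^ T.card = (1 + y) ^ Fintype.card I - 1 := by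
    have h9 := Fintype.sum_pow_mul_eq_add_pow I y (1 : ℝ)
    simp only [one_pow, mul_one] at h9
    rw [add_comm 1 y, ← h9, ← Finset.add_sum_erase univ (fun T : Finset I => y ^ T.card) (Finset.mem_univ ∅)]
    simp
  rw [h8] at h7
  have h10 : (1 + y) ^ Fintype.card I < 2 := by
    have h11 : (1 + y) ^ Fintype.card I ≤ Real.exp (Fintype.card I * y) := by
      rw [mul_comm, Real.exp_mul, Real.rpow_natCast]
      exact pow_le_pow_left₀ (by positivity) (by linarith [Real.add_one_le_exp y]) _
    have h12 : Fintype.card I * y ≤ 1 / 4 := by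
      have h13 : N * y ≤ 1 / 4 := by
        rw [hy, ← sub_nonneg]
        have : 1 / 4 - N * (2 * ((2 * N) ^ 3)⁻¹) = (N ^ 2 - 1) / (4 * N ^ 2) := by
          field_simp; ring
        rw [this]
        apply div_nonneg _ (by positivity)
        nlinarith
      exact le_trans (mul_le_mul_of_nonneg_right hIN hy0.le) h13
    have h14 : Real.exp (1 / 4) < 2 := by
      have h15 : Real.exp (1 / 4) ^ 4 = Real.exp 1 := by
        rw [← Real.exp_nat_mul]; norm_num
      by_contra hge
      push Not at hge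
      have h16 : (2 : ℝ) ^ 4 ≤ Real.exp (1 / 4) ^ 4 := pow_le_pow_left₀ (by norm_num) hge 4
      rw [h15] at h16
      have := Real.exp_one_lt_d9
      norm_num at h16
      linarith
    calc (1 + y) ^ Fintype.card I ≤ Real.exp (Fintype.card I * y) := h11
      _ ≤ Real.exp (1 / 4) := Real.exp_le_exp.mpr h12
      _ < 2 := h14
  have h17 : (0 : ℝ) < 2 ^ Nn := by positivity
  nlinarith

end Pool.Agent.Helper951_sr
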