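import Pool.Agent.Helper951_sr.Defs

/-!
Project SR (helper951, MP_72d76c_lc). Job F2: from sign vectors to all vectors (Lemma 1, step B), and the elementary properties of the copies.
-/

namespace Pool.Agent.Helper951_sr

open Finset

/-- One level: a vector supported on `T` with entries at most `a`. -/
theorem flat2_level {I E : Type} [Fintype I] [DecidableEq I]
    (L : E → I → ℝ) (S : Finset E) (mu : ℝ)
    (h : ∀ (T : Finset I) (σ : I → Bool), ∑ s ∈ S, (mv L (fun i => if i ∈ T then sg (σ i) else 0) s) ^ 2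
      ≤ T.card * mu) (hmu : 0 ≤ mu) (T : Finset I) (a : ℝ) (ha : 0 ≤ a) (x : I → ℝ)
    (hx : ∀ i ∈ T, |x i| ≤ a) (hx0 : ∀ i, i ∉ T → x i = 0) :
    ∑ s ∈ S, (mv L x s) ^ 2 ≤ a ^ 2 * (T.card * mu) := by
  set A := ∑ s ∈ S, (mv L x s) ^ 2 with hA
  have hA0 : 0 ≤ A := Finset.sum_nonneg fun _ _ => sq_nonneg _
  let w : I → ℝ := fun i => ∑ s ∈ S, L s i * mv L x s
  let σ : I → Bool := fun i => decide (0 ≤ w i)
  have hsw : ∀ i, sg (σ i) * w i = |w i| := by
    intro i
    by_cases hi : 0 ≤ w i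
    · simp [σ, sg, hi, abs_of_nonneg hi]
    · simp [σ, sg, hi, abs_of_neg (not_le.1 hi)]
  have hswap : ∀ y : I → ℝ, ∑ s ∈ S, mv L y s * mv L x s = ∑ i, y i * w i := by
    intro y
    simp only [w, Finset.mul_sum]
    rw [Finset.sum_comm]
    refine Finset.sum_congr rfl fun s _ => ?_
    conv_lhs => rw [mv, Finset.sum_mul]
    exact Finset.sum_congr rfl fun i _ => by ring
  have h1 : A ≤ a * ∑ s ∈ S, mv L (fun i => if i ∈ T then sg (σ i) else 0) s * mv L x s := by
    have e1 : A = ∑ i, x i * w i := by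
      rw [← hswap, hA]
      exact Finset.sum_congr rfl fun s _ => by ring
    rw [e1, hswap, Finset.mul_sum]
    refine Finset.sum_le_sum fun i _ => ?_
    by_cases hi : i ∈ T
    · rw [if_pos hi, hsw]
      calc x i * w i ≤ |x i * w i| := le_abs_self _
        _ = |x i| * |w i| := abs_mul _ _
        _ ≤ a * |w i| := mul_le_mul_of_nonneg_right (hx i hi) (abs_nonneg _)
    · rw [if_neg hi, hx0 i hi]
      simp
  set B := ∑ s ∈ S, mv L (fun i => if i ∈ T then sg (σ i) else 0) s * mv L x s with hB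
  have h2 : B ^ 2 ≤ (T.card * mu) * A := by
    refine (Finset.sum_mul_sq_le_sq_mul_sq _ _ _).trans ?_
    exact mul_le_mul_of_nonneg_right (h T σ) hA0
  have hTm : 0 ≤ (T.card : ℝ) * mu := mul_nonneg (Nat.cast_nonneg _) hmu
  rcases eq_or_lt_of_le hA0 with h0 | h0
  · rw [← h0]; positivity
  · have h3 : A ^ 2 ≤ a ^ 2 * (T.card * mu) * A := by
      calc A ^ 2 ≤ (a * B) ^ 2 := pow_le_pow_left₀ hA0 h1 2
        _ = a ^ 2 * B ^ 2 := by ring
        _ ≤ a ^ 2 * ((T.card * mu) * A) := mul_le_mul_of_nonneg_left h2 (sq_nonneg a)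
        _ = a ^ 2 * (T.card * mu) * A := by ring
    rw [sq] at h3
    exact le_of_mul_le_mul_right h3 h0

/-- Dyadic levels of a number in `[0, b]`: there is a level function. -/
theorem flat2_dyadic (b c : ℝ) (hc : c ≤ b) (M : ℕ) :
    ∃ l ≤ M, c ≤ b * (1 / 2) ^ l ∧ (l < M → b * (1 / 2) ^ (l + 1) < c) := by
  induction M with
  | zero => exact ⟨0, le_rfl, by simpa using hc, fun h => absurd h (lt_irrefl _)⟩
  | succ M ih =>
    obtain ⟨l, hl, h1, h2⟩ := ih
    rcases eq_or_lt_of_le hl with rfl | hlt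
    · by_cases hh : c ≤ b * (1 / 2) ^ (l + 1)
      · exact ⟨l + 1, le_rfl, hh, fun h => absurd h (lt_irrefl _)⟩
      · exact ⟨l, by omega, h1, fun _ => not_le.1 hh⟩
    · exact ⟨l, by omega, h1, fun _ => h2 hlt⟩

theorem flat_of_signs {I E : Type} [Fintype I] [DecidableEq I] [Fintype E] (p : ℕ) (hI : Fintype.card I = 2 ^ p)
    (L : E → I → ℝ) (S : Finset E) (mu : ℝ) (hmu : 0 ≤ mu)
    (h : ∀ (T : Finset I) (σ : I → Bool), ∑ s ∈ S, (mv L (fun i => if i ∈ T then sg (σ i) else 0) s) ^ 2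
      ≤ T.card * mu) (x : I → ℝ) :
    ∑ s ∈ S, (mv L x s) ^ 2 ≤ 6 * (p + 1) * mu * nsq x := by
  classical
  set b := Real.sqrt (nsq x) with hb
  have hN0 : 0 ≤ nsq x := Finset.sum_nonneg fun i _ => sq_nonneg _
  have hb0 : 0 ≤ b := Real.sqrt_nonneg _
  have hb2 : b ^ 2 = nsq x := Real.sq_sqrt hN0
  set M := (p + 1) / 2 with hM
  have hle : ∀ i, |x i| ≤ b := fun i => by
    apply Real.abs_le_sqrt
    exact Finset.single_le_sum (f := fun i => x i ^ 2) (fun i _ => sq_nonneg _) (Finset.mem_univ i)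
  choose lev hlev1 hlev2 hlev3 using fun i => flat2_dyadic b |x i| (hle i) M
  let T : ℕ → Finset I := fun t => univ.filter (fun i => lev i = t)
  let y : ℕ → I → ℝ := fun t i => if lev i = t then x i else 0
  -- each level
  have hT : ∀ t, ∑ s ∈ S, (mv L (y t) s) ^ 2 ≤ (b * (1 / 2) ^ t) ^ 2 * ((T t).card * mu) := by
    intro t
    refine flat2_level L S mu h hmu (T t) _ (by positivity) (y t) ?_ ?_
    · intro i hi
      have hi' : lev i = t := (Finset.mem_filter.1 hi).2
      simp only [y, hi', if_true]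
      have := hlev2 i
      rwa [hi'] at this
    · intro i hi
      have hi' : lev i ≠ t := fun hh => hi (Finset.mem_filter.2 ⟨Finset.mem_univ _, hh⟩)
      simp only [y, hi', if_false]
  have hlow : ∀ t, t < M → (b * (1 / 2) ^ t) ^ 2 * ((T t).card * mu) ≤ 4 * mu * ∑ i ∈ T t, x i ^ 2 := by
    intro t ht
    have h1 : ((T t).card : ℝ) * (b * (1 / 2) ^ (t + 1)) ^ 2 ≤ ∑ i ∈ T t, x i ^ 2 := by
      rw [← nsmul_eq_mul, ← Finset.sum_const]
      refine Finset.sum_le_sum fun i hi => ?_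
      have hi' : lev i = t := (Finset.mem_filter.1 hi).2
      have h2 := hlev3 i (by rw [hi']; exact ht)
      rw [hi'] at h2
      rw [← sq_abs (x i)]
      exact pow_le_pow_left₀ (by positivity) h2.le 2
    have e : (b * (1 / 2) ^ t) ^ 2 * ((T t).card * mu) =
        4 * mu * (((T t).card : ℝ) * (b * (1 / 2) ^ (t + 1)) ^ 2) := by
      rw [pow_succ]; ring
    rw [e]
    exact mul_le_mul_of_nonneg_left h1 (by positivity)
  have hlast : (b * (1 / 2) ^ M) ^ 2 * ((T M).card * mu) ≤ mu * b ^ 2 := by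
    have h1 : ((T M).card : ℝ) ≤ 2 ^ p := by
      have : (T M).card ≤ Fintype.card I := Finset.card_le_univ _
      rw [hI] at this
      exact_mod_cast this
    have h2 : (2 : ℝ) ^ p ≤ 4 ^ M := by
      have : (4 : ℝ) ^ M = 2 ^ (2 * M) := by rw [pow_mul]; norm_num
      rw [this]
      exact pow_le_pow_right₀ (by norm_num) (by omega)
    have h3 : (b * (1 / 2) ^ M) ^ 2 = b ^ 2 * (1 / 4 : ℝ) ^ M := by
      rw [mul_pow, ← pow_mul, mul_comm M 2, pow_mul]; norm_num
    have h4 : (1 / 4 : ℝ) ^ M * ((T M).card) ≤ 1 := by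
      rw [one_div, inv_pow, inv_mul_le_iff₀ (by positivity), mul_one]
      exact h1.trans h2
    rw [h3]
    calc b ^ 2 * (1 / 4 : ℝ) ^ M * ((T M).card * mu) = (mu * b ^ 2) * ((1 / 4 : ℝ) ^ M * ((T M).card)) := by ring
      _ ≤ (mu * b ^ 2) * 1 := mul_le_mul_of_nonneg_left h4 (by positivity)
      _ = mu * b ^ 2 := mul_one _
  -- decomposition
  have hdec : ∀ s, mv L x s = ∑ t ∈ Finset.range (M + 1), mv L (y t) s := by
    intro s
    unfold mv
    rw [Finset.sum_comm]
    refine Finset.sum_congr rfl fun i _ => ?_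
    rw [← Finset.mul_sum]
    congr 1
    simp only [y]
    rw [Finset.sum_ite_eq, if_pos (Finset.mem_range.2 (Nat.lt_succ_of_le (hlev1 i)))]
  have hcs : ∀ s, (mv L x s) ^ 2 ≤ (M + 1) * ∑ t ∈ Finset.range (M + 1), (mv L (y t) s) ^ 2 := by
    intro s
    rw [hdec]
    have := sq_sum_le_card_mul_sum_sq (s := Finset.range (M + 1)) (f := fun t => mv L (y t) s)
    rw [Finset.card_range] at this
    exact_mod_cast this
  have hsum : ∑ s ∈ S, (mv L x s) ^ 2 ≤ (M + 1) * ∑ t ∈ Finset.range (M + 1), ∑ s ∈ S, (mv L (y t) s) ^ 2 := by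
    refine (Finset.sum_le_sum fun s _ => hcs s).trans ?_
    rw [← Finset.mul_sum, Finset.sum_comm]
  have htot : ∑ t ∈ Finset.range (M + 1), ∑ s ∈ S, (mv L (y t) s) ^ 2 ≤ 5 * mu * nsq x := by
    rw [Finset.sum_range_succ]
    have h1 : ∑ t ∈ Finset.range M, ∑ s ∈ S, (mv L (y t) s) ^ 2 ≤ 4 * mu * nsq x := by
      calc ∑ t ∈ Finset.range M, ∑ s ∈ S, (mv L (y t) s) ^ 2
          ≤ ∑ t ∈ Finset.range M, 4 * mu * ∑ i ∈ T t, x i ^ 2 :=
            Finset.sum_le_sum fun t ht => (hT t).trans (hlow t (Finset.mem_range.1 ht))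
        _ = 4 * mu * ∑ t ∈ Finset.range M, ∑ i ∈ T t, x i ^ 2 := by rw [← Finset.mul_sum]
        _ ≤ 4 * mu * nsq x := by
            refine mul_le_mul_of_nonneg_left ?_ (by positivity)
            rw [← Finset.sum_biUnion]
            · exact Finset.sum_le_sum_of_subset_of_nonneg (Finset.subset_univ _) fun i _ _ => sq_nonneg _
            · intro s _ t _ hst
              refine Finset.disjoint_left.2 fun i hi hi' => hst ?_
              exact ((Finset.mem_filter.1 hi).2).symm.trans (Finset.mem_filter.1 hi').2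
    have h2 := (hT M).trans hlast
    rw [hb2] at h2
    linarith
  have hMp : ((M : ℝ) + 1) * 5 ≤ 6 * (p + 1) := by
    have : (M + 1) * 5 ≤ 6 * (p + 1) := by omega
    exact_mod_cast this
  calc ∑ s ∈ S, (mv L x s) ^ 2 ≤ (M + 1) * ∑ t ∈ Finset.range (M + 1), ∑ s ∈ S, (mv L (y t) s) ^ 2 := hsum
    _ ≤ (M + 1) * (5 * mu * nsq x) := mul_le_mul_of_nonneg_left htot (by positivity)
    _ = (((M : ℝ) + 1) * 5) * (mu * nsq x) := by ring
    _ ≤ (6 * (p + 1)) * (mu * nsq x) := mul_le_mul_of_nonneg_right hMp (mul_nonneg hmu hN0)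
    _ = 6 * (p + 1) * mu * nsq x := by ring

theorem flat2_sg_sq (b : Bool) : sg b * sg b = 1 := by cases b <;> norm_num [sg]

theorem flat2_had {I : Type} [Fintype I] [DecidableEq I] (W : I → I → ℝ) (hW : IsHad W) (y : I → ℝ) :
    ∑ j, (∑ i, W j i * y i) ^ 2 = Fintype.card I * ∑ i, y i ^ 2 := by
  obtain ⟨_, hs, ho⟩ := hW
  have h1 : ∀ j, (∑ i, W j i * y i) ^ 2 = ∑ i, ∑ i', (y i * y i') * (W i j * W i' j) := by
    intro j
    rw [sq, Finset.sum_mul_sum]
    refine Finset.sum_congr rfl fun i _ => Finset.sum_congr rfl fun i' _ => ?_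
    rw [hs j i, hs j i']
    ring
  simp_rw [h1]
  rw [Finset.sum_comm, Finset.mul_sum]
  refine Finset.sum_congr rfl fun i _ => ?_
  rw [Finset.sum_comm]
  simp_rw [← Finset.mul_sum, ho]
  simp only [mul_ite, mul_zero]
  rw [Finset.sum_ite_eq, if_pos (Finset.mem_univ i)]
  ring

/-- `L` is an isometry. -/
theorem LM_iso {I R : Type} [Fintype I] [DecidableEq I] [Fintype R] [DecidableEq R] [Nonempty I]
    [Nonempty R] (W : I → I → ℝ) (hW : IsHad W) (ε : R × I → Bool) (x : I → ℝ) :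
    nsq (mv (LM W ε) x) = nsq x := by
  have hr : (0 : ℝ) < Fintype.card R := by exact_mod_cast Fintype.card_pos
  have hn : (0 : ℝ) < Fintype.card I := by exact_mod_cast Fintype.card_pos
  set c := (Real.sqrt ((Fintype.card R : ℝ) * Fintype.card I))⁻¹ with hc
  have hc2 : c ^ 2 = ((Fintype.card R : ℝ) * Fintype.card I)⁻¹ := by
    rw [hc, inv_pow, Real.sq_sqrt (by positivity)]
  have h1 : ∀ (b : R) (j : I), mv (LM W ε) x (b, j) = c * ∑ i, W j i * (sg (ε (b, i)) * x i) := by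
    intro b j
    unfold mv LM
    rw [Finset.mul_sum]
    exact Finset.sum_congr rfl fun i _ => by rw [← hc]; ring
  have h2 : ∀ b : R, ∑ j, (mv (LM W ε) x (b, j)) ^ 2 = c ^ 2 * (Fintype.card I * nsq x) := by
    intro b
    simp_rw [h1, mul_pow]
    rw [← Finset.mul_sum, flat2_had W hW]
    congr 2
    unfold nsq
    refine Finset.sum_congr rfl fun i _ => ?_
    have := flat2_sg_sq (ε (b, i))
    linear_combination (x i) ^ 2 * this
  have h3 : nsq (mv (LM W ε) x) = ∑ b : R, ∑ j : I, (mv (LM W ε) x (b, j)) ^ 2 := by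
    unfold nsq
    rw [Fintype.sum_prod_type]
  rw [h3]
  simp_rw [h2]
  rw [Finset.sum_const, Finset.card_univ, nsmul_eq_mul, hc2]
  field_simp

/-- The rows of `L` have squared norm `1/r`. -/
theorem LM_row {I R : Type} [Fintype I] [DecidableEq I] [Fintype R] [DecidableEq R] [Nonempty I]
    [Nonempty R] (W : I → I → ℝ) (hW : IsHad W) (ε : R × I → Bool) (s : R × I) :
    nsq (LM W ε s) = 1 / Fintype.card R := by
  have hr : (0 : ℝ) < Fintype.card R := by exact_mod_cast Fintype.card_pos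
  have hn : (0 : ℝ) < Fintype.card I := by exact_mod_cast Fintype.card_pos
  set c := (Real.sqrt ((Fintype.card R : ℝ) * Fintype.card I))⁻¹ with hc
  have hc2 : c ^ 2 = ((Fintype.card R : ℝ) * Fintype.card I)⁻¹ := by
    rw [hc, inv_pow, Real.sq_sqrt (by positivity)]
  have h1 : ∀ i, (LM W ε s i) ^ 2 = c ^ 2 := by
    intro i
    unfold LM
    rw [← hc, mul_pow, mul_pow]
    have e1 : sg (ε (s.1, i)) ^ 2 = 1 := by rw [sq]; exact flat2_sg_sq _
    have e2 : W s.2 i ^ 2 = 1 := by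
      rcases hW.1 s.2 i with h | h <;> rw [h] <;> norm_num
    rw [e1, e2]
    ring
  unfold nsq
  simp_rw [h1]
  rw [Finset.sum_const, Finset.card_univ, nsmul_eq_mul, hc2]
  field_simp

end Pool.Agent.Helper951_sr
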