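import Pool.Agent.Helper951_sr.Defs
import Pool.Agent.Helper951_sr.Net

/-!
Project SR (helper951, MP_72d76c_lc). Job RIP: a finite test set for the restricted isometry property (I.3).
-/

namespace Pool.Agent.Helper951_sr

open Finset

/-- Extension of a vector by zero. -/
noncomputable def ripnet_ext {I : Type} [DecidableEq I] (T : Finset I) (w : T → ℝ) : I → ℝ :=
  fun i => if h : i ∈ T then w ⟨i, h⟩ else 0

/-- The bilinear form of `Vᵀ V - 1`. -/
noncomputable def ripnet_B {I J : Type} [Fintype I] [Fintype J] (V : J → I → ℝ) (x y : I → ℝ) : ℝ :=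
  (∑ j, mv V x j * mv V y j) - ∑ i, x i * y i

theorem ripnet_sum_ext {I : Type} [Fintype I] [DecidableEq I] (T : Finset I) (w : T → ℝ) (g : I → ℝ) :
    ∑ i, ripnet_ext T w i * g i = ∑ i : T, w i * g i := by
  have h1 : ∑ i, ripnet_ext T w i * g i = ∑ i ∈ T, ripnet_ext T w i * g i := by
    symm
    apply Finset.sum_subset (Finset.subset_univ T)
    intro i _ hi
    simp [ripnet_ext, hi]
  rw [h1, ← Finset.sum_coe_sort T]
  refine Finset.sum_congr rfl fun i _ => ?_
  simp [ripnet_ext]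

theorem ripnet_nsq_ext {I : Type} [Fintype I] [DecidableEq I] (T : Finset I) (w : T → ℝ) :
    nsq (ripnet_ext T w) = nsq w := by
  have := ripnet_sum_ext T w (ripnet_ext T w)
  unfold nsq
  have e1 : ∑ i, ripnet_ext T w i ^ 2 = ∑ i, ripnet_ext T w i * ripnet_ext T w i :=
    Finset.sum_congr rfl fun i _ => by ring
  rw [e1, this]
  refine Finset.sum_congr rfl fun i _ => ?_
  simp [ripnet_ext, sq]

theorem ripnet_mv_add {I J : Type} [Fintype I] (V : J → I → ℝ) (x y : I → ℝ) (a : ℝ) (j : J) :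
    mv V (fun i => x i + a * y i) j = mv V x j + a * mv V y j := by
  unfold mv
  rw [Finset.mul_sum, ← Finset.sum_add_distrib]
  exact Finset.sum_congr rfl fun i _ => by ring

theorem ripnet_B_eq {I J : Type} [Fintype I] [Fintype J] (V : J → I → ℝ) (x y : I → ℝ) :
    ripnet_B V x y = ∑ i, x i * (tv V (mv V y) i - y i) := by
  have h1 : ∑ j, mv V x j * mv V y j = ∑ i, x i * tv V (mv V y) i := by
    unfold tv
    simp_rw [Finset.mul_sum]
    rw [Finset.sum_comm]
    refine Finset.sum_congr rfl fun j _ => ?_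
    conv_lhs => rw [mv, Finset.sum_mul]
    exact Finset.sum_congr rfl fun i _ => by ring
  unfold ripnet_B
  rw [h1, ← Finset.sum_sub_distrib]
  exact Finset.sum_congr rfl fun i _ => by ring

theorem ripnet_B_comm {I J : Type} [Fintype I] [Fintype J] (V : J → I → ℝ) (x y : I → ℝ) :
    ripnet_B V x y = ripnet_B V y x := by
  unfold ripnet_B
  congr 1
  · exact Finset.sum_congr rfl fun i _ => by ring
  · exact Finset.sum_congr rfl fun i _ => by ring

theorem ripnet_B_self {I J : Type} [Fintype I] [Fintype J] (V : J → I → ℝ) (x : I → ℝ) :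
    ripnet_B V x x = nsq (mv V x) - nsq x := by
  unfold ripnet_B nsq
  congr 1
  · exact Finset.sum_congr rfl fun i _ => by ring
  · exact Finset.sum_congr rfl fun i _ => by ring

/-- Polarisation. -/
theorem ripnet_polar {I J : Type} [Fintype I] [Fintype J] (V : J → I → ℝ) (x y : I → ℝ) :
    4 * ripnet_B V x y = (nsq (mv V (fun i => x i + 1 * y i)) - nsq (fun i => x i + 1 * y i)) -
      (nsq (mv V (fun i => x i + (-1) * y i)) - nsq (fun i => x i + (-1) * y i)) := by
  unfold ripnet_B nsq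
  simp_rw [ripnet_mv_add]
  have e1 : 4 * ∑ j, mv V x j * mv V y j = ∑ j, (mv V x j + 1 * mv V y j) ^ 2 -
      ∑ j, (mv V x j + (-1) * mv V y j) ^ 2 := by
    rw [← Finset.sum_sub_distrib, Finset.mul_sum]
    exact Finset.sum_congr rfl fun i _ => by ring
  have e2 : 4 * ∑ i, x i * y i = ∑ i, (x i + 1 * y i) ^ 2 - ∑ i, (x i + (-1) * y i) ^ 2 := by
    rw [← Finset.sum_sub_distrib, Finset.mul_sum]
    exact Finset.sum_congr rfl fun i _ => by ring
  linarith

theorem ripnet_parallel {I : Type} [Fintype I] (x y : I → ℝ) :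
    nsq (fun i => x i + 1 * y i) + nsq (fun i => x i + (-1) * y i) = 2 * nsq x + 2 * nsq y := by
  unfold nsq
  rw [← Finset.sum_add_distrib, Finset.mul_sum, Finset.mul_sum, ← Finset.sum_add_distrib]
  exact Finset.sum_congr rfl fun i _ => by ring

theorem ripnet_mv_smul {I J : Type} [Fintype I] (V : J → I → ℝ) (x : I → ℝ) (a : ℝ) (j : J) :
    mv V (fun i => a * x i) j = a * mv V x j := by
  unfold mv
  rw [Finset.mul_sum]
  exact Finset.sum_congr rfl fun i _ => by ring

theorem ripnet_nsq_smul {I : Type} [Fintype I] (x : I → ℝ) (a : ℝ) :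
    nsq (fun i => a * x i) = a ^ 2 * nsq x := by
  unfold nsq
  rw [Finset.mul_sum]
  exact Finset.sum_congr rfl fun i _ => by ring

theorem ripnet_nsq_nonneg {I : Type} [Fintype I] (x : I → ℝ) : 0 ≤ nsq x :=
  Finset.sum_nonneg fun i _ => sq_nonneg _

/-- The normalised vector. -/
noncomputable def ripnet_nrm {I : Type} [Fintype I] (x : I → ℝ) : I → ℝ :=
  fun i => (Real.sqrt (nsq x))⁻¹ * x i

theorem ripnet_nrm_nsq {I : Type} [Fintype I] (x : I → ℝ) (h : nsq x ≠ 0) : nsq (ripnet_nrm x) = 1 := by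
  unfold ripnet_nrm
  rw [ripnet_nsq_smul, inv_pow, Real.sq_sqrt (ripnet_nsq_nonneg x), inv_mul_cancel₀ h]

theorem ripnet_eq_zero {I : Type} [Fintype I] (x : I → ℝ) (h : nsq x = 0) : ∀ i, x i = 0 := fun i => by
  have := (Finset.sum_eq_zero_iff_of_nonneg (fun i _ => sq_nonneg (x i))).1 h i (Finset.mem_univ i)
  exact (pow_eq_zero_iff (two_ne_zero)).1 this

/-- From the unit vector to the vector. -/
theorem ripnet_test {I J : Type} [Fintype I] [Fintype J] (V : J → I → ℝ) (x : I → ℝ)
    (h : nsq x ≠ 0 → |nsq (mv V (ripnet_nrm x)) - 1| ≤ 1 / 16) :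
    |nsq (mv V x) - nsq x| ≤ 1 / 16 * nsq x := by
  by_cases hx : nsq x = 0
  · have h0 := ripnet_eq_zero x hx
    have : nsq (mv V x) = 0 := by
      unfold nsq mv
      simp [h0]
    rw [this, hx]
    simp
  · have h1 := h hx
    have hpos : 0 < nsq x := lt_of_le_of_ne (ripnet_nsq_nonneg x) (Ne.symm hx)
    have e : nsq (mv V (ripnet_nrm x)) = (nsq x)⁻¹ * nsq (mv V x) := by
      have : mv V (ripnet_nrm x) = fun j => (Real.sqrt (nsq x))⁻¹ * mv V x j := by
        funext j
        exact ripnet_mv_smul V x _ j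
      rw [this, ripnet_nsq_smul, inv_pow, Real.sq_sqrt hpos.le]
    rw [e] at h1
    have e2 : (nsq x)⁻¹ * nsq (mv V x) - 1 = (nsq x)⁻¹ * (nsq (mv V x) - nsq x) := by
      field_simp
    rw [e2, abs_mul, abs_of_pos (inv_pos.2 hpos)] at h1
    have h2 := mul_le_mul_of_nonneg_left h1 hpos.le
    rw [← mul_assoc, mul_inv_cancel₀ hx, one_mul] at h2
    linarith

/-- The main estimate on one support. -/
theorem ripnet_support {I J : Type} [Fintype I] [DecidableEq I] [Fintype J] (V : J → I → ℝ) (T : Finset I)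
    (Y : Finset (T → ℝ))
    (hY2 : ∀ u : T → ℝ, ∃ y ∈ Y, Real.sqrt (nsq u) ≤ 2 * ∑ i, y i * u i)
    (h : ∀ x ∈ Y, ∀ y ∈ Y, |ripnet_B V (ripnet_ext T x) (ripnet_ext T y)| ≤ 1 / 16) (z : T → ℝ) :
    |ripnet_B V (ripnet_ext T z) (ripnet_ext T z)| ≤ 1 / 4 * nsq (ripnet_ext T z) := by
  -- the operator
  let M : (T → ℝ) → (T → ℝ) := fun y i => tv V (mv V (ripnet_ext T y)) i - ripnet_ext T y i
  have hM : ∀ x y : T → ℝ, ripnet_B V (ripnet_ext T x) (ripnet_ext T y) = ∑ i, x i * M y i := fun x y => by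
    rw [ripnet_B_eq, ripnet_sum_ext]
  have hMy : ∀ y ∈ Y, Real.sqrt (nsq (M y)) ≤ 1 / 8 := by
    intro y hy
    obtain ⟨y', hy', h1⟩ := hY2 (M y)
    rw [← hM] at h1
    have := (abs_le.1 (h y' hy' y hy)).2
    linarith
  have hcs : ∀ x y : T → ℝ, |∑ i, x i * y i| ≤ Real.sqrt (nsq x) * Real.sqrt (nsq y) := by
    intro x y
    rw [← Real.sqrt_mul (ripnet_nsq_nonneg x)]
    apply Real.abs_le_sqrt
    exact Finset.sum_mul_sq_le_sq_mul_sq _ _ _
  have hMz : Real.sqrt (nsq (M z)) ≤ 1 / 4 * Real.sqrt (nsq z) := by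
    obtain ⟨y, hy, h1⟩ := hY2 (M z)
    rw [← hM, ripnet_B_comm, hM] at h1
    have h2 := (abs_le.1 (hcs z (M y))).2
    have h3 := hMy y hy
    have h4 : Real.sqrt (nsq z) * Real.sqrt (nsq (M y)) ≤ Real.sqrt (nsq z) * (1 / 8) :=
      mul_le_mul_of_nonneg_left h3 (Real.sqrt_nonneg _)
    linarith
  rw [hM, ripnet_nsq_ext]
  refine (hcs z (M z)).trans ?_
  have h5 : Real.sqrt (nsq z) * Real.sqrt (nsq (M z)) ≤ Real.sqrt (nsq z) * (1 / 4 * Real.sqrt (nsq z)) :=
    mul_le_mul_of_nonneg_left hMz (Real.sqrt_nonneg _)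
  refine h5.trans (le_of_eq ?_)
  have := Real.mul_self_sqrt (ripnet_nsq_nonneg z)
  linear_combination (1 / 4) * this

theorem rip_of_net (I J : Type) [Fintype I] [DecidableEq I] [Fintype J] (s : ℕ) (hs : s ≤ Fintype.card I) :
    ∃ X : Finset (I → ℝ), (X.card : ℝ) ≤ 2 * 25 ^ s * (Fintype.card I).choose s ∧ (∀ x ∈ X, nsq x = 1) ∧
      ∀ V : J → I → ℝ, (∀ x ∈ X, |nsq (mv V x) - 1| ≤ 1 / 16) → RIP V s (1 / 4) := by
  classical
  choose Y hY1 hY2 hY3 using fun T : Finset I => exists_net T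
  let G : Finset I → Finset (I → ℝ) := fun T =>
    ((Y T ×ˢ Y T) ×ˢ (Finset.univ : Finset Bool)).image
      (fun t => ripnet_nrm (fun i => ripnet_ext T t.1.1 i + sg t.2 * ripnet_ext T t.1.2 i))
  let X : Finset (I → ℝ) := ((Finset.univ.powersetCard s).biUnion G).filter (fun x => nsq x = 1)
  refine ⟨X, ?_, ?_, ?_⟩
  · have h1 : X.card ≤ (Finset.univ.powersetCard s : Finset (Finset I)).card * (2 * 25 ^ s) := by
      refine (Finset.card_filter_le _ _).trans ?_
      refine Finset.card_biUnion_le_card_mul _ _ _ fun T hT => ?_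
      refine Finset.card_image_le.trans ?_
      rw [Finset.card_product, Finset.card_product, Finset.card_univ, Fintype.card_bool]
      have h2 := hY1 T
      have h3 : Fintype.card T = s := by
        rw [Fintype.card_coe]; exact (Finset.mem_powersetCard.1 hT).2
      rw [h3] at h2
      calc (Y T).card * (Y T).card * 2 ≤ 5 ^ s * 5 ^ s * 2 :=
            Nat.mul_le_mul_right _ (Nat.mul_le_mul h2 h2)
        _ = 2 * 25 ^ s := by rw [← mul_pow]; ring
    rw [Finset.card_powersetCard, Finset.card_univ] at h1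
    calc (X.card : ℝ) ≤ (((Fintype.card I).choose s * (2 * 25 ^ s) : ℕ) : ℝ) := by exact_mod_cast h1
      _ = 2 * 25 ^ s * (Fintype.card I).choose s := by push_cast; ring
  · intro x hx
    exact (Finset.mem_filter.1 hx).2
  · intro V hV z hz
    obtain ⟨T, hT1, hT2⟩ : ∃ T : Finset I, univ.filter (fun i => z i ≠ 0) ⊆ T ∧ T.card = s :=
      Finset.exists_superset_card_eq hz hs
    have hTs : T ∈ Finset.univ.powersetCard s := Finset.mem_powersetCard.2 ⟨Finset.subset_univ _, hT2⟩
    have hB : ∀ x ∈ Y T, ∀ y ∈ Y T, |ripnet_B V (ripnet_ext T x) (ripnet_ext T y)| ≤ 1 / 16 := by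
      intro x hx y hy
      have key : ∀ b : Bool,
          |nsq (mv V (fun i => ripnet_ext T x i + sg b * ripnet_ext T y i)) -
            nsq (fun i => ripnet_ext T x i + sg b * ripnet_ext T y i)| ≤
          1 / 16 * nsq (fun i => ripnet_ext T x i + sg b * ripnet_ext T y i) := by
        intro b
        refine ripnet_test V _ fun hne => hV _ ?_
        refine Finset.mem_filter.2 ⟨Finset.mem_biUnion.2 ⟨T, hTs, ?_⟩, ripnet_nrm_nsq _ hne⟩
        exact Finset.mem_image.2 ⟨((x, y), b), by simp [hx, hy], rfl⟩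
      have k1 := key true
      have k2 := key false
      have s1 : sg true = 1 := rfl
      have s2 : sg false = -1 := rfl
      rw [s1] at k1
      rw [s2] at k2
      have hp := ripnet_polar V (ripnet_ext T x) (ripnet_ext T y)
      have hq := ripnet_parallel (ripnet_ext T x) (ripnet_ext T y)
      rw [ripnet_nsq_ext, ripnet_nsq_ext] at hq
      have hx1 := hY2 T x hx
      have hy1 := hY2 T y hy
      rw [abs_le] at k1 k2 ⊢
      constructor <;> linarith [k1.1, k1.2, k2.1, k2.2]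
    have hzT : z = ripnet_ext T (fun i => z i) := by
      funext i
      unfold ripnet_ext
      split_ifs with hi
      · rfl
      · by_contra hne
        exact hi (hT1 (Finset.mem_filter.2 ⟨Finset.mem_univ _, hne⟩))
    have hfin := ripnet_support V T (Y T) (hY3 T) hB (fun i => z i)
    rw [← hzT, ripnet_B_self] at hfin
    exact hfin

end Pool.Agent.Helper951_sr
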