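import Pool.Agent.Helper951_sr.Defs
import Pool.Agent.Helper951_sr.Had
import Pool.Agent.Helper951_sr.Flat1
import Pool.Agent.Helper951_sr.Flat2
import Pool.Agent.Helper951_sr.Step
import Pool.Agent.Helper951_sr.RipNet
import Pool.Agent.Helper951_sr.Cost

/-!
Project SR (helper951, MP_72d76c_lc). Job FR: existence of the transform, choice of the parameters (Theorem 3).
-/

namespace Pool.Agent.Helper951_sr

open Finset

/-- Corollary of F1 and F2. -/
theorem exists_flat {I R : Type} [Fintype I] [DecidableEq I] [Fintype R] [DecidableEq R] [Nonempty I]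
    [Nonempty R] (p : ℕ) (hI : Fintype.card I = 2 ^ p) (W : I → I → ℝ) (hW : IsHad W) :
    ∃ ε : R × I → Bool, ∀ (S : Finset (R × I)) (x : I → ℝ),
      ∑ s ∈ S, (mv (LM W ε) x s) ^ 2
        ≤ (240 * (p + 1) * Real.log (2 * (Fintype.card R * Fintype.card I))) *
            (1 / Fintype.card R + S.card / (Fintype.card R * Fintype.card I)) * nsq x := by
  obtain ⟨ε, hε⟩ := exists_flat_signs (I := I) (R := R) W hW
  refine ⟨ε, fun S x => ?_⟩
  have hR : (0:ℝ) < Fintype.card R := by exact_mod_cast Fintype.card_pos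
  have hI0 : (0:ℝ) < Fintype.card I := by exact_mod_cast Fintype.card_pos
  have hR1 : (1:ℝ) ≤ Fintype.card R := by exact_mod_cast Nat.one_le_iff_ne_zero.mpr Fintype.card_ne_zero
  have hI1 : (1:ℝ) ≤ Fintype.card I := by exact_mod_cast Nat.one_le_iff_ne_zero.mpr Fintype.card_ne_zero
  have hlog : 0 ≤ Real.log (2 * (Fintype.card R * Fintype.card I)) := by
    apply Real.log_nonneg
    nlinarith
  have h := flat_of_signs p hI (LM W ε) S (Real.log (2 * (Fintype.card R * Fintype.card I)) *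
            (40 / Fintype.card R + 8 * S.card / (Fintype.card R * Fintype.card I))) (by positivity)
            (fun T σ => hε T σ S) x
  refine h.trans ?_
  apply mul_le_mul_of_nonneg_right _ (Finset.sum_nonneg (fun i _ => sq_nonneg (x i)))
  have h1 : (40 / Fintype.card R + 8 * S.card / (Fintype.card R * Fintype.card I) : ℝ) ≤
      40 * (1 / Fintype.card R + S.card / (Fintype.card R * Fintype.card I)) := by
    have : (0:ℝ) ≤ (S.card : ℝ) / (Fintype.card R * Fintype.card I) := by positivity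
    have e1 : (40 / Fintype.card R + 8 * S.card / (Fintype.card R * Fintype.card I) : ℝ) =
      40 * (1 / Fintype.card R) + 8 * (S.card / (Fintype.card R * Fintype.card I)) := by ring
    rw [e1]; linarith
  calc 6 * ((p:ℝ) + 1) * (Real.log (2 * (Fintype.card R * Fintype.card I)) *
            (40 / Fintype.card R + 8 * S.card / (Fintype.card R * Fintype.card I)))
      ≤ 6 * ((p:ℝ) + 1) * (Real.log (2 * (Fintype.card R * Fintype.card I)) *
            (40 * (1 / Fintype.card R + S.card / (Fintype.card R * Fintype.card I)))) := by gcongr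
    _ = (240 * (p + 1) * Real.log (2 * (Fintype.card R * Fintype.card I))) *
            (1 / Fintype.card R + S.card / (Fintype.card R * Fintype.card I)) := by ring

/-! ### The transform -/

/-- The matrix of the transform. -/
noncomputable def fr_V {E Q I M : Type} [Fintype E] [DecidableEq Q] [Fintype Q] (c : ℝ) (B : Q → M → ℝ) (L : E → I → ℝ)
    (h : E → Q) (ε : E → Bool) : M → I → ℝ :=
  fun j i => c * tv B (GG h ε (fun e => L e i)) j

theorem fr_mv {E Q I M : Type} [Fintype E] [DecidableEq Q] [Fintype Q] [Fintype I] (c : ℝ) (B : Q → M → ℝ)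
    (L : E → I → ℝ) (h : E → Q) (ε : E → Bool) (x : I → ℝ) (j : M) :
    mv (fr_V c B L h ε) x j = c * tv B (GG h ε (mv L x)) j := by
  unfold mv fr_V tv GG
  simp only [Finset.mul_sum, Finset.sum_mul]
  rw [Finset.sum_comm]
  refine Finset.sum_congr rfl (fun q _ => ?_)
  rw [Finset.sum_comm]
  refine Finset.sum_congr rfl (fun e _ => ?_)
  by_cases heq : h e = q
  · simp only [heq, if_true, Finset.mul_sum]
    refine Finset.sum_congr rfl (fun i _ => by ring)
  · simp [heq]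

theorem fr_tv {E Q I M : Type} [Fintype E] [DecidableEq Q] [Fintype Q] [Fintype M] (c : ℝ) (B : Q → M → ℝ)
    (L : E → I → ℝ) (h : E → Q) (ε : E → Bool) (w : M → ℝ) (i : I) :
    tv (fr_V c B L h ε) w i = c * tv L (fun e => sg (ε e) * mv B w (h e)) i := by
  unfold tv fr_V tv GG mv
  simp only [Finset.mul_sum, Finset.sum_mul]
  -- left: ∑ j ∑ q ∑ e
  have h1 : ∀ j : M, (∑ q, ∑ e, c * (B q j * if h e = q then sg (ε e) * L e i else 0) * w j)
      = ∑ e, c * (B (h e) j * (sg (ε e) * L e i)) * w j := by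
    intro j
    rw [Finset.sum_comm]
    refine Finset.sum_congr rfl (fun e _ => ?_)
    rw [Finset.sum_eq_single (h e)]
    · simp
    · intro q _ hq
      simp [Ne.symm hq]
    · intro hq; exact absurd (Finset.mem_univ _) hq
  rw [Finset.sum_congr rfl (fun j _ => h1 j), Finset.sum_comm]
  refine Finset.sum_congr rfl (fun e _ => ?_)
  refine Finset.sum_congr rfl (fun j _ => by ring)

theorem fr_scale_fast {I : Type} [Fintype I] [DecidableEq I] (c : ℝ) :
    FastMap (4 * Fintype.card I) (fun (x : I → ℝ) (i : I) => c * x i) := by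
  have h := fast_sparse (fun (i j : I) => if i = j then c else 0)
  have he : mv (fun (i j : I) => if i = j then c else 0) = fun (x : I → ℝ) (i : I) => c * x i := by
    funext x i
    simp [mv]
  rw [he] at h
  refine fast_mono h ?_
  have : ∑ j : I, (univ.filter (fun i => (if j = i then c else 0) ≠ 0)).card ≤ ∑ j : I, 1 := by
    refine Finset.sum_le_sum (fun j _ => ?_)
    rw [Finset.card_le_one]
    intro a ha b hb
    simp only [Finset.mem_filter, Finset.mem_univ, true_and, ne_eq, ite_eq_right_iff, Classical.not_imp] at ha hb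
    exact ha.1.symm.trans hb.1
  simp only [Finset.sum_const, smul_eq_mul, mul_one, Finset.card_univ] at this
  omega

theorem fr_beta_ge {p a : ℕ} {β : ℝ} (hβ : β = 240 * (p + 1) * Real.log (2 * 2 ^ (p + a))) : 1 ≤ β := by
  have h2 : (1:ℝ) / 2 ≤ Real.log 2 := by
    have := Real.log_two_gt_d9; linarith
  have h1 : Real.log 2 ≤ Real.log (2 * 2 ^ (p + a)) := by
    apply Real.log_le_log (by norm_num)
    have : (1:ℝ) ≤ 2 ^ (p + a) := one_le_pow₀ (by norm_num)
    linarith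
  have hp : (0:ℝ) ≤ p := Nat.cast_nonneg p
  rw [hβ]
  nlinarith

/-- Powers of two, explicit parameters: `n = 2^p`, `N = 2^(p+a)`, `N' = 2^(p+a-g)`, `m = 2^q`. -/
theorem transform (p q a g : ℕ) (hqp : q ≤ p) (hga : g ≤ a) (X : Finset (Fin (2 ^ p) → ℝ))
    (hX : ∀ x ∈ X, nsq x = 1) (β : ℝ) (hβ : β = 240 * (p + 1) * Real.log (2 * 2 ^ (p + a)))
    (hg : 2 * β * Real.log (4 * 2 ^ (p + a)) ≤ 2 ^ g)
    (ha : (32 * β) ^ 2 * 2 ^ g * 2 ^ 16 ≤ 2 ^ a)
    (hc1 : (X.card : ℝ) * Real.exp (1 - 2 ^ q) ≤ 1 / 2)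
    (hc2 : (X.card : ℝ) * (2 ^ (p + a) * (3 * Real.exp (-2 * 2 ^ q)
      + 2 * Real.exp (-(1 / 64) ^ 2 * 2 ^ q / 36864))) < 1) :
    ∃ V : Fin (2 ^ q) → Fin (2 ^ p) → ℝ, (∀ x ∈ X, |nsq (mv V x) - 1| ≤ 1 / 16) ∧
      FastMap (40 * (p + 1) * 2 ^ (p + a)) (mv V) ∧ FastMap (40 * (p + 1) * 2 ^ (p + a)) (tv V) := by
  classical
  have hβ1 : 1 ≤ β := fr_beta_ge hβ
  set b : ℕ := p + a - g - q with hb
  have hbq : b + q = p + a - g := by omega
  have hbg : b + q + g = p + a := by omega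
  obtain ⟨Wp, hWp, hWpf⟩ := exists_had p
  obtain ⟨Wq, hWq, hWqf⟩ := exists_had q
  obtain ⟨εa, hεa⟩ := exists_flat (I := Fin (2 ^ p)) (R := Fin (2 ^ a)) p (by simp) Wp hWp
  obtain ⟨εb, hεb⟩ := exists_flat (I := Fin (2 ^ q)) (R := Fin (2 ^ b)) q (by simp) Wq hWq
  set L := LM Wp εa with hL
  set B := LM Wq εb with hB
  have hcE : (Fintype.card (Fin (2 ^ a) × Fin (2 ^ p)) : ℝ) = 2 ^ (p + a) := by
    rw [Fintype.card_prod, Fintype.card_fin, Fintype.card_fin]; push_cast; rw [pow_add]; ring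
  have hcQ : (Fintype.card (Fin (2 ^ b) × Fin (2 ^ q)) : ℝ) = 2 ^ (b + q) := by
    rw [Fintype.card_prod, Fintype.card_fin, Fintype.card_fin]; push_cast; rw [pow_add]
  have hEQ : (Fintype.card (Fin (2 ^ a) × Fin (2 ^ p)) : ℝ) / Fintype.card (Fin (2 ^ b) × Fin (2 ^ q)) = 2 ^ g := by
    rw [hcE, hcQ, ← hbg, pow_add (2:ℝ) (b + q) g]
    field_simp
  have hflatB : ∀ (S : Finset (Fin (2 ^ b) × Fin (2 ^ q))) (y : Fin (2 ^ q) → ℝ),
      ∑ s ∈ S, (mv B y s) ^ 2 ≤ β * (1 / (2 ^ b : ℝ) + S.card / Fintype.card (Fin (2 ^ b) × Fin (2 ^ q))) * nsq y := by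
    intro S y
    refine (hεb S y).trans ?_
    apply mul_le_mul_of_nonneg_right _ (Finset.sum_nonneg (fun i _ => sq_nonneg (y i)))
    have e1 : ((Fintype.card (Fin (2 ^ b)) : ℕ) : ℝ) = 2 ^ b := by simp
    have e2 : ((Fintype.card (Fin (2 ^ q)) : ℕ) : ℝ) = 2 ^ q := by simp
    rw [e1, e2, hcQ, pow_add (2:ℝ) b q]
    have h0 : (0:ℝ) ≤ 1 / 2 ^ b + S.card / (2 ^ b * 2 ^ q) := by positivity
    apply mul_le_mul_of_nonneg_right _ h0
    rw [hβ]
    have hlog : Real.log (2 * (2 ^ b * 2 ^ q)) ≤ Real.log (2 * 2 ^ (p + a)) := by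
      apply Real.log_le_log (by positivity)
      rw [← pow_add]
      have : (2:ℝ) ^ (b + q) ≤ 2 ^ (p + a) := pow_le_pow_right₀ (by norm_num) (by omega)
      linarith
    have hlog0 : 0 ≤ Real.log (2 * (2 ^ b * 2 ^ q) : ℝ) := by
      apply Real.log_nonneg
      have h1 : (1:ℝ) ≤ 2 ^ b := one_le_pow₀ (by norm_num)
      have h2 : (1:ℝ) ≤ 2 ^ q := one_le_pow₀ (by norm_num)
      nlinarith
    have hqp' : (q:ℝ) ≤ p := by exact_mod_cast hqp
    gcongr
  set X' : Finset (Fin (2 ^ a) × Fin (2 ^ p) → ℝ) := X.image (mv L) with hX'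
  have hX'c : (X'.card : ℝ) ≤ X.card := by exact_mod_cast Finset.card_image_le
  obtain ⟨h, ε, hV⟩ := step (E := Fin (2 ^ a) × Fin (2 ^ p)) (Q := Fin (2 ^ b) × Fin (2 ^ q)) (M := Fin (2 ^ q))
    B (2 ^ a) (2 ^ b) β (1 / 64) (p + a) hβ1 (by positivity) (by positivity) (by norm_num) (by norm_num)
    (by rw [hcQ, Fintype.card_fin, pow_add]; push_cast; ring)
    (by
      rw [hcE, Fintype.card_fin, pow_add]; push_cast
      have : (2:ℝ) ^ q ≤ 2 ^ p := pow_le_pow_right₀ (by norm_num) hqp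
      have h2 : (0:ℝ) < 2 ^ a := by positivity
      nlinarith)
    (by
      have : (Fintype.card (Fin (2 ^ a) × Fin (2 ^ p)) : ℝ) ≤ ((2 ^ (p + a) : ℕ) : ℝ) := by rw [hcE]; push_cast; rfl
      exact_mod_cast this)
    (fun y => LM_iso Wq hWq εb y)
    (fun q' => by rw [hB, LM_row Wq hWq εb q']; simp)
    hflatB
    (by
      rw [hEQ]
      refine le_trans ?_ hg
      have : Real.log (4 * Fintype.card (Fin (2 ^ b) × Fin (2 ^ q)) : ℝ) ≤ Real.log (4 * 2 ^ (p + a)) := by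
        rw [hcQ]
        apply Real.log_le_log (by positivity)
        have : (2:ℝ) ^ (b + q) ≤ 2 ^ (p + a) := pow_le_pow_right₀ (by norm_num) (by omega)
        linarith
      have hβ0 : 0 ≤ 2 * β := by linarith
      exact mul_le_mul_of_nonneg_left this hβ0)
    X'
    (by
      intro v hv
      obtain ⟨x, hx, rfl⟩ := Finset.mem_image.mp hv
      rw [hL, LM_iso Wp hWp εa x, hX x hx])
    (by
      intro v hv S
      obtain ⟨x, hx, rfl⟩ := Finset.mem_image.mp hv
      have h1 := hεa S x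
      rw [hX x hx, mul_one] at h1
      refine h1.trans (le_of_eq ?_)
      rw [hcE, hβ]
      simp only [Fintype.card_fin]
      push_cast
      rw [pow_add]
      ring_nf)
    (by
      have : (X'.card : ℝ) * Real.exp (1 - (Fintype.card (Fin (2 ^ q)) : ℝ)) ≤ X.card * Real.exp (1 - 2 ^ q) := by
        rw [Fintype.card_fin]; push_cast
        gcongr
      exact this.trans hc1)
    (by
      refine lt_of_le_of_lt ?_ hc2
      rw [Fintype.card_fin]; push_cast
      have hpos : (0:ℝ) ≤ 2 ^ (p + a) * (3 * Real.exp (-2 * 2 ^ q)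
        + 2 * Real.exp (-(1 / 64) ^ 2 * 2 ^ q / 36864)) := by positivity
      exact mul_le_mul_of_nonneg_right hX'c hpos)
  -- the error bound
  have herr : (1 / 64 : ℝ) + 6 * β / 2 ^ a + 4 * (32 * β * Real.sqrt ((Fintype.card (Fin (2 ^ a) × Fin (2 ^ p)) : ℝ)
      / Fintype.card (Fin (2 ^ b) × Fin (2 ^ q)) / 2 ^ a)) + (32 * β * Real.sqrt ((Fintype.card (Fin (2 ^ a) × Fin (2 ^ p)) : ℝ)
      / Fintype.card (Fin (2 ^ b) × Fin (2 ^ q)) / 2 ^ a)) ^ 2 ≤ 1 / 16 := by
    rw [hEQ]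
    have ha0 : (0:ℝ) < 2 ^ a := by positivity
    have hg1 : (1:ℝ) ≤ 2 ^ g := one_le_pow₀ (by norm_num)
    have hd3 : 32 * β * Real.sqrt (2 ^ g / 2 ^ a) ≤ 1 / 256 := by
      have h32 : 0 ≤ 32 * β := by linarith
      have e1 : 32 * β * Real.sqrt (2 ^ g / 2 ^ a) = Real.sqrt ((32 * β) ^ 2 * (2 ^ g / 2 ^ a)) := by
        rw [Real.sqrt_mul (by positivity), Real.sqrt_sq h32]
      rw [e1, Real.sqrt_le_left (by norm_num)]
      have e2 : (32 * β) ^ 2 * (2 ^ g / 2 ^ a) = ((32 * β) ^ 2 * 2 ^ g) / 2 ^ a := by ring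
      rw [e2, div_le_iff₀ ha0]
      nlinarith
    have hd30 : 0 ≤ 32 * β * Real.sqrt (2 ^ g / 2 ^ a) := by
      have : 0 ≤ Real.sqrt ((2:ℝ) ^ g / 2 ^ a) := Real.sqrt_nonneg _
      have : 0 ≤ 32 * β := by linarith
      positivity
    have h6 : 6 * β / 2 ^ a ≤ 1 / 64 := by
      rw [div_le_iff₀ ha0]
      have h1 : (32 * β) ^ 2 * 1 * 2 ^ 16 ≤ (32 * β) ^ 2 * 2 ^ g * 2 ^ 16 := by gcongr
      nlinarith
    nlinarith
  refine ⟨fr_V (Real.sqrt (2 ^ b)) B L h ε, ?_, ?_, ?_⟩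
  · intro x hx
    have h1 := (hV (mv L x) (Finset.mem_image_of_mem _ hx)).trans herr
    have h2 : nsq (mv (fr_V (Real.sqrt (2 ^ b)) B L h ε) x) = 2 ^ b * nsq (tv B (GG h ε (mv L x))) := by
      unfold nsq
      rw [Finset.mul_sum]
      refine Finset.sum_congr rfl (fun j _ => ?_)
      rw [fr_mv, mul_pow, Real.sq_sqrt (by positivity)]
    rw [h2]
    exact h1
  · -- cost of V
    have c1 := LM_fast Wp hWp (p * 2 ^ p) hWpf εa
    have c2 := GG_fast h ε
    have c3 := LM_fast_T Wq hWq (q * 2 ^ q) hWqf εb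
    have c4 := fr_scale_fast (I := Fin (2 ^ q)) (Real.sqrt (2 ^ b))
    have c5 := fast_comp (fast_comp (fast_comp c1 c2) c3) c4
    have he : mv (fr_V (Real.sqrt (2 ^ b)) B L h ε) =
        fun x => (fun (x : Fin (2 ^ q) → ℝ) (i : Fin (2 ^ q)) => Real.sqrt (2 ^ b) * x i)
          (tv (LM Wq εb) (GG h ε (mv (LM Wp εa) x))) := by
      funext x j
      rw [fr_mv]
    rw [he]
    refine fast_mono c5 ?_
    simp only [Fintype.card_fin, Fintype.card_prod]
    have e1 : 2 ^ a * 2 ^ p = 2 ^ (p + a) := by rw [← pow_add, add_comm]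
    have e2 : 2 ^ b * 2 ^ q = 2 ^ (b + q) := by rw [← pow_add]
    have e3 : 2 ^ (b + q) ≤ 2 ^ (p + a) := Nat.pow_le_pow_right (by norm_num) (by omega)
    have e4 : 2 ^ q ≤ 2 ^ (p + a) := Nat.pow_le_pow_right (by norm_num) (by omega)
    have e5 : 2 ^ a * (p * 2 ^ p) = p * 2 ^ (p + a) := by rw [← e1]; ring
    have e6 : 2 ^ b * (q * 2 ^ q) ≤ p * 2 ^ (p + a) := by
      calc 2 ^ b * (q * 2 ^ q) = q * 2 ^ (b + q) := by rw [← e2]; ring
        _ ≤ p * 2 ^ (p + a) := Nat.mul_le_mul hqp e3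
    rw [e1, e2, e5]
    have e7 : 40 * (p + 1) * 2 ^ (p + a) = 40 * (p * 2 ^ (p + a)) + 40 * 2 ^ (p + a) := by ring
    rw [e7]
    generalize 2 ^ (p + a) = N at *
    generalize p * N = pN at *
    omega
  · -- cost of the transpose
    have c1 := LM_fast Wq hWq (q * 2 ^ q) hWqf εb
    have c2 := GG_fast_T h ε
    have c3 := LM_fast_T Wp hWp (p * 2 ^ p) hWpf εa
    have c4 := fr_scale_fast (I := Fin (2 ^ p)) (Real.sqrt (2 ^ b))
    have c5 := fast_comp (fast_comp (fast_comp c1 c2) c3) c4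
    have he : tv (fr_V (Real.sqrt (2 ^ b)) B L h ε) =
        fun x => (fun (x : Fin (2 ^ p) → ℝ) (i : Fin (2 ^ p)) => Real.sqrt (2 ^ b) * x i)
          (tv (LM Wp εa) ((fun (w : Fin (2 ^ b) × Fin (2 ^ q) → ℝ) (e : Fin (2 ^ a) × Fin (2 ^ p)) =>
            sg (ε e) * w (h e)) (mv (LM Wq εb) x))) := by
      funext x j
      rw [fr_tv]
    rw [he]
    refine fast_mono c5 ?_
    simp only [Fintype.card_fin, Fintype.card_prod]
    have e1 : 2 ^ a * 2 ^ p = 2 ^ (p + a) := by rw [← pow_add, add_comm]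
    have e2 : 2 ^ b * 2 ^ q = 2 ^ (b + q) := by rw [← pow_add]
    have e3 : 2 ^ (b + q) ≤ 2 ^ (p + a) := Nat.pow_le_pow_right (by norm_num) (by omega)
    have e4 : 2 ^ p ≤ 2 ^ (p + a) := Nat.pow_le_pow_right (by norm_num) (by omega)
    have e5 : 2 ^ a * (p * 2 ^ p) = p * 2 ^ (p + a) := by rw [← e1]; ring
    have e6 : 2 ^ b * (q * 2 ^ q) ≤ p * 2 ^ (p + a) := by
      calc 2 ^ b * (q * 2 ^ q) = q * 2 ^ (b + q) := by rw [← e2]; ring
        _ ≤ p * 2 ^ (p + a) := Nat.mul_le_mul hqp e3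
    rw [e1, e2, e5]
    have e7 : 40 * (p + 1) * 2 ^ (p + a) = 40 * (p * 2 ^ (p + a)) + 40 * 2 ^ (p + a) := by ring
    rw [e7]
    generalize 2 ^ (p + a) = N at *
    generalize p * N = pN at *
    omega

/-! ### Parameters -/

theorem fr_choose_le {N s : ℕ} (hs : 1 ≤ s) (hsN : s ≤ N) :
    (N.choose s : ℝ) ≤ Real.exp (s * (1 + Real.log (N / s))) := by
  have hs0 : (0:ℝ) < s := by exact_mod_cast hs
  have hN0 : (0:ℝ) < N := by exact_mod_cast (by omega : 0 < N)
  have h1 : (N.choose s : ℝ) ≤ (N:ℝ) ^ s / (s.factorial : ℝ) := Nat.choose_le_pow_div s N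
  have h2 : (s:ℝ) ^ s / (s.factorial : ℝ) ≤ Real.exp s := Real.pow_div_factorial_le_exp s hs0.le s
  have hf : (0:ℝ) < s.factorial := by exact_mod_cast Nat.factorial_pos s
  have h3 : (N:ℝ) ^ s / (s.factorial : ℝ) = (N / s : ℝ) ^ s * ((s:ℝ) ^ s / (s.factorial : ℝ)) := by
    rw [div_pow]; field_simp
  have h4 : (N / s : ℝ) ^ s = Real.exp (s * Real.log (N / s)) := by
    rw [← Real.rpow_natCast, Real.rpow_def_of_pos (by positivity)]
    ring_nf
  rw [h3] at h1
  calc (N.choose s : ℝ) ≤ (N / s : ℝ) ^ s * ((s:ℝ) ^ s / (s.factorial : ℝ)) := h1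
    _ ≤ (N / s : ℝ) ^ s * Real.exp s := by gcongr
    _ = Real.exp (s * (1 + Real.log (N / s))) := by
      rw [h4, ← Real.exp_add]; congr 1; ring

/-- `1 + log n ≤ s (1 + log (n/s))`. -/
theorem fr_lam_ge {n s : ℕ} (hs : 1 ≤ s) (hsn : s ≤ n) :
    1 + Real.log n ≤ s * (1 + Real.log (n / s)) := by
  have hs0 : (0:ℝ) < s := by exact_mod_cast hs
  have hs1 : (1:ℝ) ≤ s := by exact_mod_cast hs
  have hn0 : (0:ℝ) < n := by exact_mod_cast (by omega : 0 < n)
  have hsn' : (s:ℝ) ≤ n := by exact_mod_cast hsn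
  rw [Real.log_div hn0.ne' hs0.ne']
  have h1 : Real.log s ≤ Real.log n := Real.log_le_log hs0 hsn'
  have h2 : Real.log s ≤ s - 1 := Real.log_le_sub_one_of_pos hs0
  nlinarith

theorem fr_params {p u : ℕ} (hu : p + 2 ≤ 2 ^ u) {β : ℝ}
    (hβ : β = 240 * (p + 1) * Real.log (2 * 2 ^ (p + (79 + 7 * u)))) :
    2 * β * Real.log (4 * 2 ^ (p + (79 + 7 * u))) ≤ 2 ^ (23 + 3 * u) ∧
      (32 * β) ^ 2 * 2 ^ (23 + 3 * u) * 2 ^ 16 ≤ 2 ^ (79 + 7 * u) := by
  have hβ1 : 1 ≤ β := fr_beta_ge hβ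
  have hl2 : Real.log 2 ≤ 1 := by
    have := Real.log_two_lt_d9; linarith
  have hl2' : 0 ≤ Real.log 2 := Real.log_nonneg (by norm_num)
  have hu' : (p:ℝ) + 2 ≤ 2 ^ u := by exact_mod_cast hu
  have hup : (u:ℝ) ≤ 2 ^ u := by exact_mod_cast (Nat.lt_two_pow_self (n := u)).le
  have h1u : (1:ℝ) ≤ 2 ^ u := one_le_pow₀ (by norm_num)
  have hsum : (p:ℝ) + (79 + 7 * u) + 2 ≤ 2 ^ (u + 7) := by
    rw [pow_add]; norm_num; nlinarith
  have hlogA : Real.log (2 * 2 ^ (p + (79 + 7 * u))) ≤ 2 ^ (u + 7) := by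
    rw [show (2:ℝ) * 2 ^ (p + (79 + 7 * u)) = 2 ^ (p + (79 + 7 * u) + 1) by rw [pow_succ]; ring, Real.log_pow]
    push_cast
    have h0 : (0:ℝ) ≤ (p:ℝ) + (79 + 7 * u) + 1 := by positivity
    nlinarith
  have hlogB : Real.log (4 * 2 ^ (p + (79 + 7 * u))) ≤ 2 ^ (u + 7) := by
    rw [show (4:ℝ) * 2 ^ (p + (79 + 7 * u)) = 2 ^ (p + (79 + 7 * u) + 2) by rw [pow_add _ _ 2]; ring, Real.log_pow]
    push_cast
    have h0 : (0:ℝ) ≤ (p:ℝ) + (79 + 7 * u) + 2 := by positivity
    nlinarith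
  have hlogA0 : 0 ≤ Real.log (2 * 2 ^ (p + (79 + 7 * u)) : ℝ) := by
    apply Real.log_nonneg
    have : (1:ℝ) ≤ 2 ^ (p + (79 + 7 * u)) := one_le_pow₀ (by norm_num)
    linarith
  have hlogB0 : 0 ≤ Real.log (4 * 2 ^ (p + (79 + 7 * u)) : ℝ) := by
    apply Real.log_nonneg
    have : (1:ℝ) ≤ 2 ^ (p + (79 + 7 * u)) := one_le_pow₀ (by norm_num)
    linarith
  have hβ2 : β ≤ 2 ^ (2 * u + 15) := by
    rw [hβ]
    have h1 : (p:ℝ) + 1 ≤ 2 ^ u := by linarith
    calc 240 * ((p:ℝ) + 1) * Real.log (2 * 2 ^ (p + (79 + 7 * u)))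
        ≤ 2 ^ 8 * 2 ^ u * 2 ^ (u + 7) := by
          have hp0 : (0:ℝ) ≤ p := Nat.cast_nonneg p
          gcongr
          norm_num
      _ = 2 ^ (2 * u + 15) := by rw [← pow_add, ← pow_add]; congr 1; ring
  have hβ0 : 0 ≤ β := by linarith
  constructor
  · calc 2 * β * Real.log (4 * 2 ^ (p + (79 + 7 * u)))
        ≤ 2 * 2 ^ (2 * u + 15) * 2 ^ (u + 7) := by gcongr
      _ = 2 ^ (23 + 3 * u) := by
        rw [← pow_succ', ← pow_add]; congr 1; ring
  · calc (32 * β) ^ 2 * 2 ^ (23 + 3 * u) * 2 ^ 16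
        ≤ (32 * 2 ^ (2 * u + 15)) ^ 2 * 2 ^ (23 + 3 * u) * 2 ^ 16 := by gcongr
      _ = 2 ^ (79 + 7 * u) := by
        rw [show (32:ℝ) = 2 ^ 5 by norm_num, ← pow_add, ← pow_mul, ← pow_add, ← pow_add]; congr 1; ring

/-- extension by zeros -/
noncomputable def fr_ext {n N : ℕ} (x : Fin n → ℝ) : Fin N → ℝ := fun i => if h : (i : ℕ) < n then x ⟨i, h⟩ else 0

theorem fr_ext_fast (n N : ℕ) : FastMap (3 * N + N) (fr_ext (n := n) (N := N)) := by
  have h := fast_sparse (fun (i : Fin N) (j : Fin n) => if (i : ℕ) = j then (1:ℝ) else 0)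
  have he : mv (fun (i : Fin N) (j : Fin n) => if (i : ℕ) = j then (1:ℝ) else 0) = fr_ext (n := n) (N := N) := by
    funext x i
    unfold mv fr_ext
    split_ifs with hi
    · rw [Finset.sum_eq_single (⟨i, hi⟩ : Fin n)]
      · simp
      · intro j _ hj
        have : (i : ℕ) ≠ j := by
          intro h'; apply hj; ext; exact h'.symm
        simp [this]
      · intro h'; exact absurd (Finset.mem_univ _) h'
    · apply Finset.sum_eq_zero
      intro j _
      have : (i : ℕ) ≠ j := by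
        have := j.2; omega
      simp [this]
  rw [he] at h
  refine fast_mono h ?_
  have : ∑ i : Fin N, (univ.filter (fun j : Fin n => (if (i : ℕ) = j then (1:ℝ) else 0) ≠ 0)).card ≤ ∑ i : Fin N, 1 := by
    refine Finset.sum_le_sum (fun i _ => ?_)
    rw [Finset.card_le_one]
    intro a ha b hb
    simp only [Finset.mem_filter, Finset.mem_univ, true_and, ne_eq, ite_eq_right_iff, one_ne_zero, imp_false,
      not_not] at ha hb
    ext; omega
  simp only [Finset.sum_const, smul_eq_mul, mul_one, Finset.card_univ, Fintype.card_fin] at this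
  simp only [Fintype.card_fin]
  omega

theorem fr_sum_ext {n N : ℕ} (hnN : n ≤ N) (f : Fin N → ℝ) (hf : ∀ i : Fin N, n ≤ (i : ℕ) → f i = 0) :
    ∑ i, f i = ∑ i : Fin n, f (Fin.castLE hnN i) := by
  symm
  have h1 : ∑ i : Fin n, f (Fin.castLE hnN i) = ∑ i ∈ Finset.univ.image (Fin.castLE hnN), f i := by
    rw [Finset.sum_image]
    intro a _ b _ hab
    exact Fin.castLE_injective hnN hab
  rw [h1]
  apply Finset.sum_subset (Finset.subset_univ _)
  intro i _ hi
  apply hf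
  by_contra h
  push Not at h
  apply hi
  rw [Finset.mem_image]
  exact ⟨⟨i, h⟩, Finset.mem_univ _, by ext; rfl⟩

theorem fr_nsq_ext {n N : ℕ} (hnN : n ≤ N) (x : Fin n → ℝ) : nsq (fr_ext (N := N) x) = nsq x := by
  unfold nsq
  rw [fr_sum_ext hnN _ (by intro i hi; unfold fr_ext; rw [dif_neg (by omega)]; ring)]
  refine Finset.sum_congr rfl (fun i _ => ?_)
  unfold fr_ext
  have : ((Fin.castLE hnN i : Fin N) : ℕ) < n := i.2
  rw [dif_pos this]
  rfl

theorem fr_mv_ext {J : Type} {n N : ℕ} (hnN : n ≤ N) (V : J → Fin N → ℝ) (x : Fin n → ℝ) :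
    mv (fun j (i : Fin n) => V j (Fin.castLE hnN i)) x = mv V (fr_ext x) := by
  funext j
  unfold mv
  rw [fr_sum_ext hnN (fun i => V j i * fr_ext x i) (by intro i hi; simp only [fr_ext]; rw [dif_neg (by omega)]; ring)]
  refine Finset.sum_congr rfl (fun i _ => ?_)
  unfold fr_ext
  have : ((Fin.castLE hnN i : Fin N) : ℕ) < n := i.2
  rw [dif_pos this]
  rfl

theorem fr_rip_ext {J : Type} [Fintype J] {n N s : ℕ} (hnN : n ≤ N) (V : J → Fin N → ℝ) {δ : ℝ} (hV : RIP V s δ) :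
    RIP (fun j (i : Fin n) => V j (Fin.castLE hnN i)) s δ := by
  intro x hx
  rw [fr_mv_ext hnN V x, ← fr_nsq_ext hnN x]
  apply hV
  refine le_trans ?_ hx
  have : univ.filter (fun i : Fin N => fr_ext x i ≠ 0) ⊆ (univ.filter (fun i : Fin n => x i ≠ 0)).image (Fin.castLE hnN) := by
    intro i hi
    simp only [Finset.mem_filter, Finset.mem_univ, true_and] at hi
    unfold fr_ext at hi
    by_cases h : (i : ℕ) < n
    · rw [dif_pos h] at hi
      rw [Finset.mem_image]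
      exact ⟨⟨i, h⟩, by simpa using hi, by ext; rfl⟩
    · rw [dif_neg h] at hi
      exact absurd rfl hi
  exact (Finset.card_le_card this).trans Finset.card_image_le

/-- Fast RIP matrices with the optimal number of rows. -/
theorem fast_rip : ∃ (c e : ℕ), ∀ n s : ℕ, 2 ≤ n → 1 ≤ s → s ≤ n →
    ∃ (m : ℕ) (V : Fin m → Fin n → ℝ), (m : ℝ) ≤ c * (s * (1 + Real.log (n / s))) ∧ RIP V s (1 / 4) ∧
      FastMap (c * n * (Nat.log 2 n + 1) ^ e) (mv V) ∧ FastMap (c * n * (Nat.log 2 n + 1) ^ e) (tv V) := by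
  refine ⟨2 ^ 107, 8, ?_⟩
  intro n s hn hs hsn
  have hs0 : (0:ℝ) < s := by exact_mod_cast hs
  have hs1 : (1:ℝ) ≤ s := by exact_mod_cast hs
  have hn0 : (0:ℝ) < n := by positivity
  have hl2u : Real.log 2 ≤ 7 / 10 := by
    have := Real.log_two_lt_d9; linarith
  have hl2l : 1 / 2 ≤ Real.log 2 := by
    have := Real.log_two_gt_d9; linarith
  set Λ : ℝ := s * (1 + Real.log (n / s)) with hΛ
  have hΛn : 1 + Real.log n ≤ Λ := fr_lam_ge hs hsn
  have hlogn0 : 0 ≤ Real.log n := Real.log_nonneg (by exact_mod_cast (by omega : 1 ≤ n))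
  have hΛ1 : 1 ≤ Λ := by linarith
  have hlns : 0 ≤ Real.log ((n:ℝ) / s) := by
    apply Real.log_nonneg
    rw [le_div_iff₀ hs0]
    have : (s:ℝ) ≤ n := by exact_mod_cast hsn
    linarith
  -- p
  set p := Nat.clog 2 n with hp
  set lg := Nat.log 2 n + 1 with hlg
  have hnp : n ≤ 2 ^ p := Nat.le_pow_clog (by norm_num) n
  have hp1 : 1 ≤ p := Nat.clog_pos (by norm_num) hn
  have hpn : 2 ^ p ≤ 2 * n := by
    have h1 : 2 ^ (p - 1) < n := Nat.pow_pred_clog_lt_self (by norm_num) (by omega)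
    have h2 : 2 ^ p = 2 * 2 ^ (p - 1) := by
      rw [← pow_succ']; congr 1; omega
    omega
  have hplg : p ≤ lg := by
    rw [hp]
    apply Nat.clog_le_of_le_pow
    exact (Nat.lt_pow_succ_log_self (by norm_num) n).le
  -- u, a, g
  set u := Nat.clog 2 (p + 2) with hu
  have hup : p + 2 ≤ 2 ^ u := Nat.le_pow_clog (by norm_num) _
  have hu2 : 2 ^ u ≤ 2 * (p + 2) := by
    have h1 : 2 ^ (u - 1) < p + 2 := Nat.pow_pred_clog_lt_self (b := 2) (x := p + 2) (by norm_num) (by omega)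
    have h0 : 1 ≤ u := Nat.clog_pos (b := 2) (n := p + 2) (by norm_num) (by omega)
    have h2 : 2 ^ u = 2 * 2 ^ (u - 1) := by
      rw [← pow_succ', Nat.sub_add_cancel h0]
    omega
  have hup2 : u ≤ p + 2 := by
    apply Nat.clog_le_of_le_pow
    exact (Nat.lt_two_pow_self).le
  set a := 79 + 7 * u with ha
  set g := 23 + 3 * u with hg
  have hga : g ≤ a := by omega
  set β : ℝ := 240 * (p + 1) * Real.log (2 * 2 ^ (p + a)) with hβ
  obtain ⟨hpar1, hpar2⟩ := fr_params (p := p) (u := u) hup (β := β) hβ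
  -- the threshold for m
  set S : ℝ := 6 * Λ + (p + a) * Real.log 2 + 3 with hS
  have hplog : (p:ℝ) ≤ 1 + 2 * Real.log n := by
    have h1 : ((2:ℝ) ^ p) ≤ 2 * n := by exact_mod_cast hpn
    have h2 := Real.log_le_log (by positivity) h1
    rw [Real.log_pow, Real.log_mul (by norm_num) hn0.ne'] at h2
    -- p log 2 ≤ log 2 + log n, so p ≤ 1 + log n / log 2
    have hl20 : 0 < Real.log 2 := by linarith
    have h3 : ((p:ℝ) - 1) * Real.log 2 ≤ Real.log n := by linarith
    have hp1' : (0:ℝ) ≤ (p:ℝ) - 1 := by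
      have : (1:ℝ) ≤ p := by exact_mod_cast hp1
      linarith
    nlinarith
  have hpΛ : (p:ℝ) ≤ 3 * Λ := by linarith
  have haΛ : (a:ℝ) ≤ 114 * Λ := by
    have h1 : (u:ℝ) ≤ p + 2 := by exact_mod_cast hup2
    have h2 : (a:ℝ) = 79 + 7 * u := by rw [ha]; push_cast; ring
    rw [h2]
    linarith
  have hS126 : S ≤ 126 * Λ := by
    rw [hS]
    have h0 : (0:ℝ) ≤ (p:ℝ) + a := by positivity
    have : ((p:ℝ) + a) * Real.log 2 ≤ ((p:ℝ) + a) * 1 := by
      apply mul_le_mul_of_nonneg_left _ h0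
      linarith
    linarith
  have hS9 : 9 ≤ S := by
    rw [hS]
    have : 0 ≤ ((p:ℝ) + a) * Real.log 2 := by positivity
    linarith
  obtain ⟨q', hq'1, hq'2⟩ := exists_nat_pow_near (show (1:ℝ) ≤ 2 ^ 28 * S by nlinarith) (show (1:ℝ) < 2 by norm_num)
  set q := q' + 1 with hq
  have hqM : 2 ^ 28 * S ≤ 2 ^ q := hq'2.le
  have hq36 : (2:ℝ) ^ q ≤ 2 ^ 36 * Λ := by
    rw [hq, pow_succ]
    nlinarith
  have hlg1 : 1 ≤ lg := by omega
  have hlg8 : 1 ≤ lg ^ 8 := Nat.one_le_pow _ _ hlg1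
  by_cases hqp : q ≤ p
  · -- the transform
    obtain ⟨X, hXc, hX1, hXrip⟩ := rip_of_net (Fin (2 ^ p)) (Fin (2 ^ q)) s (by rw [Fintype.card_fin]; omega)
    have hXexp : (X.card : ℝ) ≤ Real.exp (6 * Λ) := by
      refine hXc.trans ?_
      rw [Fintype.card_fin]
      have h1 := fr_choose_le (N := 2 ^ p) hs (by omega)
      have h25 : (25:ℝ) ^ s ≤ Real.exp (s * (7 / 2)) := by
        have h25' : (25:ℝ) ≤ Real.exp (7 / 2) := by
          have h := Real.exp_one_gt_d9
          have h2 : Real.exp (7 / 2) = Real.exp 1 ^ (7 / 2 : ℝ) := by rw [← Real.exp_mul]; norm_num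
          have h3 : Real.exp (7 / 2) = Real.exp 1 ^ 3 * Real.exp (1 / 2) := by
            rw [← Real.exp_nat_mul, ← Real.exp_add]; norm_num
          have h4 : 1 + 1 / 2 ≤ Real.exp (1 / 2 : ℝ) := by
            have := Real.add_one_le_exp (1 / 2 : ℝ); linarith
          rw [h3]
          have h5 : (2.7:ℝ) ^ 3 ≤ Real.exp 1 ^ 3 := by
            apply pow_le_pow_left₀ (by norm_num); linarith
          nlinarith
        calc (25:ℝ) ^ s ≤ (Real.exp (7 / 2)) ^ s := pow_le_pow_left₀ (by norm_num) h25' _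
          _ = Real.exp (s * (7 / 2)) := by rw [← Real.exp_nat_mul]
      have h2' : (2:ℝ) ≤ Real.exp (7 / 10) := by
        calc (2:ℝ) = Real.exp (Real.log 2) := (Real.exp_log (by norm_num)).symm
          _ ≤ Real.exp (7 / 10) := Real.exp_le_exp.mpr hl2u
      have hlog2p : Real.log (((2 ^ p : ℕ) : ℝ) / s) ≤ 7 / 10 + Real.log (n / s) := by
        have h3 : (((2 ^ p : ℕ) : ℝ) / s) ≤ 2 * (n / s) := by
          rw [← mul_div_assoc]
          apply div_le_div_of_nonneg_right _ hs0.le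
          exact_mod_cast hpn
        have h4 := Real.log_le_log (by positivity) h3
        rw [Real.log_mul (by norm_num) (by positivity)] at h4
        linarith
      calc 2 * (25:ℝ) ^ s * ((2 ^ p).choose s : ℝ)
          ≤ Real.exp (7 / 10) * Real.exp (s * (7 / 2)) * Real.exp (s * (1 + Real.log (((2 ^ p : ℕ) : ℝ) / s))) := by gcongr
        _ = Real.exp (7 / 10 + s * (7 / 2) + s * (1 + Real.log (((2 ^ p : ℕ) : ℝ) / s))) := by
          rw [Real.exp_add, Real.exp_add]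
        _ ≤ Real.exp (6 * Λ) := by
          apply Real.exp_le_exp.mpr
          rw [hΛ]
          nlinarith
    have hexp2 : Real.exp ((p + a) * Real.log 2) = 2 ^ (p + a) := by
      rw [mul_comm, ← Real.rpow_def_of_pos (by norm_num)]
      exact_mod_cast Real.rpow_natCast 2 (p + a)
    obtain ⟨V, hV1, hVf, hVf'⟩ := transform p q a g hqp hga X hX1 β hβ hpar1 hpar2
      (by
        calc (X.card : ℝ) * Real.exp (1 - 2 ^ q) ≤ Real.exp (6 * Λ) * Real.exp (1 - 2 ^ q) := by gcongr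
          _ = Real.exp (6 * Λ + (1 - 2 ^ q)) := by rw [Real.exp_add]
          _ ≤ Real.exp (-1) := by
            apply Real.exp_le_exp.mpr
            have h1 : S ≤ 2 ^ 28 * S := by nlinarith
            have h2 : 6 * Λ + 3 ≤ S := by
              rw [hS]
              have : 0 ≤ ((p:ℝ) + a) * Real.log 2 := by positivity
              linarith
            linarith
          _ ≤ 1 / 2 := by
            rw [Real.exp_neg, inv_le_comm₀ (Real.exp_pos _) (by norm_num)]
            have := Real.exp_one_gt_d9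
            norm_num; linarith)
      (by
        have hA : Real.exp (-2 * 2 ^ q) ≤ Real.exp (-S) := by
          apply Real.exp_le_exp.mpr
          nlinarith
        have hB : Real.exp (-(1 / 64) ^ 2 * 2 ^ q / 36864) ≤ Real.exp (-S) := by
          apply Real.exp_le_exp.mpr
          rw [div_le_iff₀ (by norm_num)]
          nlinarith
        have hSe : Real.exp (-S) = Real.exp (-(6 * Λ)) * (Real.exp (-((p + a) * Real.log 2)) * Real.exp (-3)) := by
          rw [← Real.exp_add, ← Real.exp_add]; congr 1; rw [hS]; ring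
        have h3 : Real.exp (-3) ≤ 1 / 8 := by
          rw [Real.exp_neg, inv_le_comm₀ (Real.exp_pos _) (by norm_num)]
          have h := Real.exp_one_gt_d9
          have h3 : Real.exp 3 = Real.exp 1 ^ 3 := by rw [← Real.exp_nat_mul]; norm_num
          rw [h3]
          have h5 : (2.7:ℝ) ^ 3 ≤ Real.exp 1 ^ 3 := by
            apply pow_le_pow_left₀ (by norm_num); linarith
          norm_num at h5 ⊢
          linarith
        have e0 : 0 < Real.exp (-S) := Real.exp_pos _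
        calc (X.card : ℝ) * (2 ^ (p + a) * (3 * Real.exp (-2 * 2 ^ q)
              + 2 * Real.exp (-(1 / 64) ^ 2 * 2 ^ q / 36864)))
            ≤ Real.exp (6 * Λ) * (2 ^ (p + a) * (3 * Real.exp (-S) + 2 * Real.exp (-S))) := by gcongr
          _ = 5 * (Real.exp (6 * Λ) * 2 ^ (p + a) * Real.exp (-S)) := by ring
          _ = 5 * Real.exp (-3) := by
            rw [hSe, ← hexp2]
            have e1 : Real.exp (6 * Λ) * Real.exp (-(6 * Λ)) = 1 := by rw [← Real.exp_add]; simp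
            have e2 : Real.exp ((p + a) * Real.log 2) * Real.exp (-((p + a) * Real.log 2)) = 1 := by
              rw [← Real.exp_add]; simp
            calc 5 * (Real.exp (6 * Λ) * Real.exp ((p + a) * Real.log 2) *
                  (Real.exp (-(6 * Λ)) * (Real.exp (-((p + a) * Real.log 2)) * Real.exp (-3))))
                = 5 * ((Real.exp (6 * Λ) * Real.exp (-(6 * Λ))) *
                  (Real.exp ((p + a) * Real.log 2) * Real.exp (-((p + a) * Real.log 2))) * Real.exp (-3)) := by ring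
              _ = 5 * Real.exp (-3) := by rw [e1, e2]; ring
          _ < 1 := by linarith)
    refine ⟨2 ^ q, fun j i => V j (Fin.castLE hnp i), ?_, ?_, ?_, ?_⟩
    · rw [Nat.cast_pow, Nat.cast_pow, Nat.cast_ofNat]
      calc (2:ℝ) ^ q ≤ 2 ^ 36 * Λ := hq36
        _ ≤ 2 ^ 107 * Λ := by
          apply mul_le_mul_of_nonneg_right _ (by linarith)
          norm_num
    · exact fr_rip_ext hnp V (hXrip V hV1)
    · have he : mv (fun j (i : Fin n) => V j (Fin.castLE hnp i)) = fun x => mv V (fr_ext x) := by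
        funext x; exact fr_mv_ext hnp V x
      rw [he]
      refine fast_mono (fast_comp (fr_ext_fast n (2 ^ p)) hVf) ?_
      have hpl : p + 1 ≤ 2 * lg := by omega
      have h2u : 2 ^ u ≤ 6 * lg := by omega
      have h2a : 2 ^ a ≤ 2 ^ 98 * lg ^ 7 := by
        calc 2 ^ a = 2 ^ 79 * (2 ^ u) ^ 7 := by rw [ha, pow_add, ← pow_mul]; congr 2; ring
          _ ≤ 2 ^ 79 * (6 * lg) ^ 7 := by gcongr
          _ = 2 ^ 79 * 279936 * lg ^ 7 := by rw [mul_pow]; ring
          _ ≤ 2 ^ 98 * lg ^ 7 := by gcongr; norm_num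
      have hcost : 40 * (p + 1) * 2 ^ (p + a) ≤ 160 * 2 ^ 98 * n * lg ^ 8 := by
        calc 40 * (p + 1) * 2 ^ (p + a) = 40 * (p + 1) * (2 ^ p * 2 ^ a) := by rw [pow_add]
          _ ≤ 40 * (2 * lg) * ((2 * n) * (2 ^ 98 * lg ^ 7)) := by gcongr
          _ = 160 * 2 ^ 98 * n * lg ^ 8 := by ring
      have hn8 : n ≤ n * lg ^ 8 := Nat.le_mul_of_pos_right _ hlg8
      calc 3 * 2 ^ p + 2 ^ p + 40 * (p + 1) * 2 ^ (p + a) ≤ 8 * (n * lg ^ 8) + 160 * 2 ^ 98 * n * lg ^ 8 := by omega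
        _ = (8 + 160 * 2 ^ 98) * n * lg ^ 8 := by ring
        _ ≤ 2 ^ 107 * n * lg ^ 8 := by gcongr; norm_num
    · have he : tv (fun j (i : Fin n) => V j (Fin.castLE hnp i)) =
          fun w => (fun (x : Fin (2 ^ p) → ℝ) (i : Fin n) => x (Fin.castLE hnp i)) (tv V w) := by
        funext w i; rfl
      rw [he]
      refine fast_mono (fast_comp hVf' (fast_reindex _)) ?_
      have hpl : p + 1 ≤ 2 * lg := by omega
      have h2u : 2 ^ u ≤ 6 * lg := by omega
      have h2a : 2 ^ a ≤ 2 ^ 98 * lg ^ 7 := by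
        calc 2 ^ a = 2 ^ 79 * (2 ^ u) ^ 7 := by rw [ha, pow_add, ← pow_mul]; congr 2; ring
          _ ≤ 2 ^ 79 * (6 * lg) ^ 7 := by gcongr
          _ = 2 ^ 79 * 279936 * lg ^ 7 := by rw [mul_pow]; ring
          _ ≤ 2 ^ 98 * lg ^ 7 := by gcongr; norm_num
      have hcost : 40 * (p + 1) * 2 ^ (p + a) ≤ 160 * 2 ^ 98 * n * lg ^ 8 := by
        calc 40 * (p + 1) * 2 ^ (p + a) = 40 * (p + 1) * (2 ^ p * 2 ^ a) := by rw [pow_add]
          _ ≤ 40 * (2 * lg) * ((2 * n) * (2 ^ 98 * lg ^ 7)) := by gcongr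
          _ = 160 * 2 ^ 98 * n * lg ^ 8 := by ring
      calc 40 * (p + 1) * 2 ^ (p + a) + 0 ≤ 160 * 2 ^ 98 * n * lg ^ 8 := by omega
        _ ≤ 2 ^ 107 * n * lg ^ 8 := by gcongr; norm_num
  · -- identity
    push Not at hqp
    refine ⟨n, fun i j => if i = j then 1 else 0, ?_, ?_, ?_, ?_⟩
    · have h1 : (n:ℝ) ≤ 2 ^ p := by exact_mod_cast hnp
      have h2 : (2:ℝ) ^ p ≤ 2 ^ q := pow_le_pow_right₀ (by norm_num) hqp.le
      have h3 : (2:ℝ) ^ 36 * Λ ≤ 2 ^ 107 * Λ := by
        apply mul_le_mul_of_nonneg_right _ (by linarith)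
        norm_num
      rw [Nat.cast_pow, Nat.cast_ofNat]
      linarith
    · intro x _
      have : mv (fun (i j : Fin n) => if i = j then (1:ℝ) else 0) x = x := by
        funext i; simp [mv]
      rw [this]
      simp only [sub_self, abs_zero]
      have : 0 ≤ nsq x := Finset.sum_nonneg (fun i _ => sq_nonneg _)
      positivity
    · have he : mv (fun (i j : Fin n) => if i = j then (1:ℝ) else 0) = fun (x : Fin n → ℝ) (i : Fin n) => x i := by
        funext x i; simp [mv]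
      rw [he]
      exact fast_mono (fast_reindex (fun i : Fin n => i)) (Nat.zero_le _)
    · have he : tv (fun (i j : Fin n) => if i = j then (1:ℝ) else 0) = fun (x : Fin n → ℝ) (i : Fin n) => x i := by
        funext x i; simp [tv]
      rw [he]
      exact fast_mono (fast_reindex (fun i : Fin n => i)) (Nat.zero_le _)

end Pool.Agent.Helper951_sr
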