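import Pool.Agent.Helper951_sr.Defs

/-!
Project SR (helper951, MP_72d76c_lc). Job EX: hash family (unbalanced expander), Lemma 4.
-/

namespace Pool.Agent.Helper951_sr

open Finset

/-- averaging over the value at one point -/
theorem hashFam_avg {n R : ℕ} (F : (Fin n → Fin R) → ℝ) (i : Fin n) :
    ∑ f : Fin n → Fin R, ∑ c : Fin R, F (Function.update f i c) =
      R * ∑ f : Fin n → Fin R, F f := by
  classical
  have h1 : ∑ f : Fin n → Fin R, ∑ c : Fin R, F (Function.update f i c) =
      ∑ p : (Fin n → Fin R) × Fin R, F (Function.update p.1 i p.2) := by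
    rw [Fintype.sum_prod_type]
  have h2 : ∑ p : (Fin n → Fin R) × Fin R, F (Function.update p.1 i p.2) =
      ∑ p : (Fin n → Fin R) × Fin R, F p.1 := by
    let e : (Fin n → Fin R) × Fin R ≃ (Fin n → Fin R) × Fin R :=
      { toFun := fun p => (Function.update p.1 i p.2, p.1 i)
        invFun := fun p => (Function.update p.1 i p.2, p.1 i)
        left_inv := by
          rintro ⟨f, c⟩
          simp
        right_inv := by
          rintro ⟨f, c⟩
          simp }
    exact Fintype.sum_equiv e _ _ (fun p => rfl)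
  rw [h1, h2, Fintype.sum_prod_type]
  simp only [sum_const, card_univ, Fintype.card_fin, nsmul_eq_mul]
  rw [mul_sum]

/-- the generating function of the number of repetitions of one random function -/
theorem hashFam_one {n R : ℕ} (hR : 0 < R) (z : ℝ) (hz : 1 ≤ z) (Y : Finset (Fin n)) :
    ∑ f : Fin n → Fin R, z ^ (Y.card - (Y.image f).card) ≤
      (R : ℝ) ^ n * Real.exp ((z - 1) * (Y.card : ℝ) ^ 2 / R) := by
  classical
  have hR0 : (0 : ℝ) < R := by exact_mod_cast hR
  induction Y using Finset.induction_on with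
  | empty => simp
  | insert i Y hi ih =>
    set S : ℝ := ∑ f : Fin n → Fin R, z ^ (Y.card - (Y.image f).card) with hS
    have hz0 : 0 ≤ z := by linarith
    -- the inner sum
    have hB : ∀ f : Fin n → Fin R, ∑ c : Fin R, z ^ ((insert i Y).card -
        ((insert i Y).image (Function.update f i c)).card) ≤
        z ^ (Y.card - (Y.image f).card) * (R + (z - 1) * Y.card) := by
      intro f
      have him : ∀ c : Fin R, (insert i Y).image (Function.update f i c) = insert c (Y.image f) := by
        intro c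
        rw [image_insert, Function.update_self]
        congr 1
        apply image_congr
        intro j hj
        exact Function.update_of_ne (fun h : j = i => hi (by rw [← h]; exact hj)) _ _
      have hle : (Y.image f).card ≤ Y.card := card_image_le
      have hterm : ∀ c : Fin R, z ^ ((insert i Y).card -
          ((insert i Y).image (Function.update f i c)).card) =
          z ^ (Y.card - (Y.image f).card) * (1 + if c ∈ Y.image f then (z - 1) else 0) := by
        intro c
        rw [him c, card_insert_of_notMem hi]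
        by_cases hc : c ∈ Y.image f
        · rw [insert_eq_self.mpr hc, if_pos hc]
          have : Y.card + 1 - (Y.image f).card = (Y.card - (Y.image f).card) + 1 := by omega
          rw [this, pow_succ]
          ring
        · rw [card_insert_of_notMem hc, if_neg hc]
          have : Y.card + 1 - ((Y.image f).card + 1) = Y.card - (Y.image f).card := by omega
          rw [this, add_zero, mul_one]
      simp only [hterm]
      rw [← mul_sum, sum_add_distrib, sum_ite_mem, univ_inter, sum_const, sum_const, card_univ,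
        Fintype.card_fin, nsmul_eq_mul, nsmul_eq_mul, mul_one]
      apply mul_le_mul_of_nonneg_left _ (pow_nonneg hz0 _)
      have : ((Y.image f).card : ℝ) ≤ Y.card := by exact_mod_cast hle
      nlinarith
    have h1 := hashFam_avg (fun f : Fin n → Fin R =>
      z ^ ((insert i Y).card - ((insert i Y).image f).card)) i
    have h2 : ∑ f : Fin n → Fin R, ∑ c : Fin R, z ^ ((insert i Y).card -
        ((insert i Y).image (Function.update f i c)).card) ≤ S * (R + (z - 1) * Y.card) := by
      rw [hS, sum_mul]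
      exact sum_le_sum (fun f _ => hB f)
    rw [h1] at h2
    have h3 : ∑ f : Fin n → Fin R, z ^ ((insert i Y).card - ((insert i Y).image f).card) ≤
        S * (1 + (z - 1) * Y.card / R) := by
      have e : S * (1 + (z - 1) * Y.card / R) = (S * (R + (z - 1) * Y.card)) / R := by
        field_simp
      rw [e, le_div_iff₀ hR0, mul_comm]
      exact h2
    have h4 : 1 + (z - 1) * Y.card / R ≤ Real.exp ((z - 1) * Y.card / R) := by
      rw [add_comm]; exact Real.add_one_le_exp _
    have hS0 : 0 ≤ S := sum_nonneg (fun f _ => pow_nonneg hz0 _)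
    have hz1 : 0 ≤ z - 1 := by linarith
    calc _ ≤ S * (1 + (z - 1) * Y.card / R) := h3
      _ ≤ S * Real.exp ((z - 1) * Y.card / R) := mul_le_mul_of_nonneg_left h4 hS0
      _ ≤ ((R : ℝ) ^ n * Real.exp ((z - 1) * (Y.card : ℝ) ^ 2 / R)) *
          Real.exp ((z - 1) * Y.card / R) := mul_le_mul_of_nonneg_right ih (Real.exp_pos _).le
      _ = (R : ℝ) ^ n * Real.exp ((z - 1) * (Y.card : ℝ) ^ 2 / R + (z - 1) * Y.card / R) := by
          rw [mul_assoc, ← Real.exp_add]
      _ ≤ (R : ℝ) ^ n * Real.exp ((z - 1) * ((insert i Y).card : ℝ) ^ 2 / R) := by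
          apply mul_le_mul_of_nonneg_left _ (by positivity)
          apply Real.exp_le_exp.mpr
          rw [card_insert_of_notMem hi, ← add_div]
          apply div_le_div_of_nonneg_right _ hR0.le
          push_cast
          have : (0 : ℝ) ≤ Y.card := Nat.cast_nonneg _
          nlinarith

/-- the family -/
theorem hashFam_gen {n d R : ℕ} (hR : 0 < R) (z : ℝ) (hz : 1 ≤ z) (Y : Finset (Fin n)) :
    ∑ h : Fin d → Fin n → Fin R, z ^ (∑ l, (Y.card - (Y.image (h l)).card)) ≤
      ((R : ℝ) ^ n * Real.exp ((z - 1) * (Y.card : ℝ) ^ 2 / R)) ^ d := by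
  classical
  have e : ∑ h : Fin d → Fin n → Fin R, z ^ (∑ l, (Y.card - (Y.image (h l)).card)) =
      (∑ f : Fin n → Fin R, z ^ (Y.card - (Y.image f).card)) ^ d := by
    rw [Fintype.sum_pow]
    apply sum_congr rfl
    intro h _
    rw [prod_pow_eq_pow_sum]
  rw [e]
  apply pow_le_pow_left₀
  · exact sum_nonneg (fun f _ => pow_nonneg (by linarith) _)
  · exact hashFam_one hR z hz Y

theorem hashFam_bad {n k d R : ℕ} (hk : 1 ≤ k) (hkn : 2 * k ≤ n) (hR : 256 * k ≤ R)
    (hd : 16 * (1 + Real.log (3 * n / k) / Real.log 2) ≤ d) (Y : Finset (Fin n))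
    (hY1 : 1 ≤ Y.card) (hY2 : Y.card ≤ 2 * k) :
    ((univ.filter (fun h : Fin d → Fin n → Fin R =>
      d * Y.card < 16 * ∑ l, (Y.card - (Y.image (h l)).card))).card : ℝ) ≤
      ((R : ℝ) ^ n) ^ d * ((Y.card : ℝ) / (12 * n)) ^ Y.card := by
  classical
  set y := Y.card with hy
  have hk0 : (0 : ℝ) < k := by exact_mod_cast hk
  have hn0 : (0 : ℝ) < n := by
    have : 0 < n := by omega
    exact_mod_cast this
  have hy0 : (0 : ℝ) < y := by exact_mod_cast hY1
  have hR0 : 0 < R := by omega
  have hR0' : (0 : ℝ) < R := by exact_mod_cast hR0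
  have hR' : (256 : ℝ) * k ≤ R := by exact_mod_cast hR
  have hy2' : (y : ℝ) ≤ 2 * k := by exact_mod_cast hY2
  have hkn' : (2 : ℝ) * k ≤ n := by exact_mod_cast hkn
  set z : ℝ := R / (16 * y) with hzd
  have hz : 1 ≤ z := by
    rw [hzd, le_div_iff₀ (by positivity)]; linarith
  have hz0 : 0 < z := by linarith
  have hgen := hashFam_gen (n := n) (d := d) hR0 z hz Y
  -- Markov
  have hM : ((univ.filter (fun h : Fin d → Fin n → Fin R =>
      d * y < 16 * ∑ l, (y - (Y.image (h l)).card))).card : ℝ) * z ^ ((d * y : ℝ) / 16) ≤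
      ∑ h : Fin d → Fin n → Fin R, z ^ (∑ l, (y - (Y.image (h l)).card)) := by
    rw [← nsmul_eq_mul, ← sum_const]
    calc _ ≤ ∑ h ∈ univ.filter (fun h : Fin d → Fin n → Fin R =>
          d * y < 16 * ∑ l, (y - (Y.image (h l)).card)),
          z ^ (∑ l, (y - (Y.image (h l)).card)) := by
          apply sum_le_sum
          intro h hh
          have hh' := (mem_filter.mp hh).2
          rw [← Real.rpow_natCast z (∑ l, (y - (Y.image (h l)).card))]
          apply Real.rpow_le_rpow_of_exponent_le hz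
          have : ((d * y : ℕ) : ℝ) < ((16 * ∑ l, (y - (Y.image (h l)).card) : ℕ) : ℝ) := by
            exact_mod_cast hh'
          rw [Nat.cast_mul, Nat.cast_mul] at this
          rw [div_le_iff₀ (by norm_num)]
          push_cast at this ⊢
          linarith
      _ ≤ _ := sum_le_sum_of_subset_of_nonneg (filter_subset _ _)
          (fun h _ _ => pow_nonneg hz0.le _)
  have hzpow : z ^ ((d * y : ℝ) / 16) = Real.exp ((d * y : ℝ) / 16 * Real.log z) := by
    rw [Real.rpow_def_of_pos hz0, mul_comm]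
  have hpos : 0 < z ^ ((d * y : ℝ) / 16) := Real.rpow_pos_of_pos hz0 _
  have h1 : ((univ.filter (fun h : Fin d → Fin n → Fin R =>
      d * y < 16 * ∑ l, (y - (Y.image (h l)).card))).card : ℝ) ≤
      ((R : ℝ) ^ n * Real.exp ((z - 1) * (y : ℝ) ^ 2 / R)) ^ d / z ^ ((d * y : ℝ) / 16) := by
    rw [le_div_iff₀ hpos]
    exact hM.trans hgen
  refine h1.trans ?_
  rw [mul_pow, mul_div_assoc]
  apply mul_le_mul_of_nonneg_left _ (by positivity)
  rw [← Real.exp_nat_mul, hzpow, ← Real.exp_sub]
  have hyn : (y : ℝ) / (12 * n) = Real.exp (Real.log (y / (12 * n))) :=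
    (Real.exp_log (by positivity)).symm
  rw [hyn, ← Real.exp_nat_mul]
  apply Real.exp_le_exp.mpr
  -- exponents
  have e1 : (z - 1) * (y : ℝ) ^ 2 / R ≤ y / 16 := by
    have : z * (y : ℝ) ^ 2 / R = y / 16 := by
      rw [hzd]; field_simp
    have h2 : 0 ≤ (y : ℝ) ^ 2 / R := by positivity
    have h3 : (z - 1) * (y : ℝ) ^ 2 / R = z * (y : ℝ) ^ 2 / R - (y : ℝ) ^ 2 / R := by ring
    rw [h3, this]; linarith
  have e2 : 1 + Real.log (4 * k / y) ≤ Real.log z := by
    have h2 : Real.exp 1 * (4 * k / y) ≤ z := by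
      rw [hzd, ← mul_div_assoc, div_le_div_iff₀ hy0 (by positivity)]
      have h3 : Real.exp 1 < 3 := Real.exp_one_lt_three
      have h4 : Real.exp 1 * (4 * k) ≤ 3 * (4 * k) :=
        mul_le_mul_of_nonneg_right h3.le (by positivity)
      have h5 : Real.exp 1 * (4 * k) * (16 * y) ≤ 3 * (4 * k) * (16 * y) :=
        mul_le_mul_of_nonneg_right h4 (by positivity)
      have h6 : 3 * (4 * (k : ℝ)) * (16 * y) ≤ R * y := by nlinarith
      linarith
    have h3 := Real.log_le_log (by positivity) h2
    rw [Real.log_mul (Real.exp_pos 1).ne' (by positivity), Real.log_exp] at h3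
    exact h3
  have hl2 : 0 < Real.log 2 := Real.log_pos (by norm_num)
  have e3 : Real.log 2 ≤ Real.log (4 * k / y) := by
    apply Real.log_le_log (by norm_num)
    rw [le_div_iff₀ hy0]; linarith
  have e4 : 0 ≤ Real.log (3 * n / k) := by
    apply Real.log_nonneg
    rw [le_div_iff₀ hk0]; linarith
  have e5 : Real.log (4 * k / y) + Real.log (3 * n / k) = -Real.log (y / (12 * n)) := by
    rw [← Real.log_mul (by positivity) (by positivity), ← Real.log_inv]
    congr 1
    field_simp
    ring
  have e6 : Real.log (4 * k / y) + Real.log (3 * n / k) ≤ d / 16 * Real.log (4 * k / y) := by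
    have h2 : 1 + Real.log (3 * n / k) / Real.log 2 ≤ d / 16 := by
      rw [le_div_iff₀ (by norm_num)]; linarith
    have h3 : 0 ≤ Real.log (4 * k / y) := by linarith
    have h4 := mul_le_mul_of_nonneg_right h2 h3
    have h5 : Real.log (3 * n / k) ≤ Real.log (3 * n / k) / Real.log 2 * Real.log (4 * k / y) := by
      have : Real.log (3 * n / k) = Real.log (3 * n / k) / Real.log 2 * Real.log 2 := by
        field_simp
      calc Real.log (3 * n / k) = Real.log (3 * n / k) / Real.log 2 * Real.log 2 := this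
        _ ≤ _ := mul_le_mul_of_nonneg_left e3 (div_nonneg e4 hl2.le)
    linarith [h4, h5]
  have hd0 : (0 : ℝ) ≤ d := Nat.cast_nonneg _
  have e7 : (d : ℝ) * ((z - 1) * (y : ℝ) ^ 2 / R) ≤ d * (y / 16) :=
    mul_le_mul_of_nonneg_left e1 hd0
  have e8 : (d * y : ℝ) / 16 * (1 + Real.log (4 * k / y)) ≤ (d * y : ℝ) / 16 * Real.log z :=
    mul_le_mul_of_nonneg_left e2 (div_nonneg (mul_nonneg hd0 hy0.le) (by norm_num))
  have e9 : (y : ℝ) * (Real.log (4 * k / y) + Real.log (3 * n / k)) ≤
      y * (d / 16 * Real.log (4 * k / y)) := mul_le_mul_of_nonneg_left e6 hy0.le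
  rw [e5] at e9
  linarith [e7, e8, e9]

theorem hashFam_geom (n : ℕ) : ∑ i ∈ range n, (1 / 4 : ℝ) ^ (i + 1) = (1 - (1 / 4) ^ n) / 3 := by
  induction n with
  | zero => simp
  | succ n ih => rw [sum_range_succ, ih, pow_succ]; ring

theorem hashFam_choose {n y : ℕ} (hn : 0 < n) (hy : 1 ≤ y) :
    (n.choose y : ℝ) * ((y : ℝ) / (12 * n)) ^ y ≤ (1 / 4) ^ y := by
  have hn0 : (0 : ℝ) < n := by exact_mod_cast hn
  have h1 : (n.choose y : ℝ) ≤ (n : ℝ) ^ y / (y.factorial : ℝ) := Nat.choose_le_pow_div y n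
  have h2 : (y : ℝ) ^ y / (y.factorial : ℝ) ≤ Real.exp y :=
    Real.pow_div_factorial_le_exp y (Nat.cast_nonneg _) y
  have hf : (0 : ℝ) < y.factorial := by exact_mod_cast Nat.factorial_pos y
  calc (n.choose y : ℝ) * ((y : ℝ) / (12 * n)) ^ y
      ≤ (n : ℝ) ^ y / (y.factorial : ℝ) * ((y : ℝ) / (12 * n)) ^ y :=
        mul_le_mul_of_nonneg_right h1 (by positivity)
    _ = (y : ℝ) ^ y / (y.factorial : ℝ) * (1 / 12) ^ y := by
        rw [div_pow, mul_pow, div_pow, one_pow]
        have ha : (n : ℝ) ^ y ≠ 0 := by positivity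
        have hc : (12 : ℝ) ^ y ≠ 0 := by positivity
        generalize (n : ℝ) ^ y = a at *
        generalize (12 : ℝ) ^ y = c at *
        generalize (y : ℝ) ^ y = b at *
        field_simp
    _ ≤ Real.exp y * (1 / 12) ^ y := mul_le_mul_of_nonneg_right h2 (by positivity)
    _ = (Real.exp 1 * (1 / 12)) ^ y := by
        rw [mul_pow, ← Real.exp_nat_mul, mul_one]
    _ ≤ (1 / 4) ^ y := by
        apply pow_le_pow_left₀ (by positivity)
        have := Real.exp_one_lt_three
        linarith

theorem exists_hash (n k d R : ℕ) (hk : 1 ≤ k) (hkn : 2 * k ≤ n) (hR : 256 * k ≤ R)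
    (hd : 16 * (1 + Real.log (3 * n / k) / Real.log 2) ≤ d) :
    ∃ h : Fin d → Fin n → Fin R, ∀ Y : Finset (Fin n), Y.card ≤ 2 * k →
      16 * ∑ l, (Y.card - (Y.image (h l)).card) ≤ d * Y.card := by
  classical
  by_contra hcon
  push Not at hcon
  have hn : 0 < n := by omega
  have hR0 : (0 : ℝ) < R := by
    have : 0 < R := by omega
    exact_mod_cast this
  set Bad : Finset (Fin n) → Finset (Fin d → Fin n → Fin R) := fun Y =>
    univ.filter (fun h => d * Y.card < 16 * ∑ l, (Y.card - (Y.image (h l)).card)) with hBad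
  set F : ℕ → ℝ := fun y => if y = 0 then 0 else ((R : ℝ) ^ n) ^ d * ((y : ℝ) / (12 * n)) ^ y with hF
  have hF0 : ∀ y, 0 ≤ F y := by
    intro y
    simp only [hF]
    split_ifs
    · exact le_rfl
    · positivity
  have hcov : (univ : Finset (Fin d → Fin n → Fin R)) ⊆
      ((univ : Finset (Fin n)).powerset.filter (fun Y => 1 ≤ Y.card ∧ Y.card ≤ 2 * k)).biUnion Bad := by
    intro h _
    obtain ⟨Y, hY, hlt⟩ := hcon h
    rw [mem_biUnion]
    refine ⟨Y, mem_filter.mpr ⟨mem_powerset.mpr (subset_univ _), ?_, hY⟩,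
      mem_filter.mpr ⟨mem_univ _, hlt⟩⟩
    by_contra h0
    have hY0 : Y = ∅ := card_eq_zero.mp (by omega)
    rw [hY0] at hlt
    simp at hlt
  have h1 : (((univ : Finset (Fin d → Fin n → Fin R)).card : ℕ) : ℝ) ≤
      ∑ Y ∈ ((univ : Finset (Fin n)).powerset.filter (fun Y => 1 ≤ Y.card ∧ Y.card ≤ 2 * k)),
        ((Bad Y).card : ℝ) := by
    have := (card_le_card hcov).trans card_biUnion_le
    exact_mod_cast this
  have h2 : ∑ Y ∈ ((univ : Finset (Fin n)).powerset.filter
        (fun Y => 1 ≤ Y.card ∧ Y.card ≤ 2 * k)), ((Bad Y).card : ℝ) ≤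
      ∑ Y ∈ (univ : Finset (Fin n)).powerset, F Y.card := by
    calc _ ≤ ∑ Y ∈ ((univ : Finset (Fin n)).powerset.filter
          (fun Y => 1 ≤ Y.card ∧ Y.card ≤ 2 * k)), F Y.card := by
          apply sum_le_sum
          intro Y hY
          obtain ⟨-, hY1, hY2⟩ := mem_filter.mp hY
          simp only [hF]
          rw [if_neg (by omega)]
          exact hashFam_bad hk hkn hR hd Y hY1 hY2
      _ ≤ _ := sum_le_sum_of_subset_of_nonneg (filter_subset _ _) (fun Y _ _ => hF0 _)
  rw [sum_powerset_apply_card (fun y => F y)] at h2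
  have h3 : ∑ y ∈ range ((univ : Finset (Fin n)).card + 1),
      ((univ : Finset (Fin n)).card.choose y) • F y ≤
      ((R : ℝ) ^ n) ^ d * ((1 - (1 / 4) ^ n) / 3) := by
    rw [card_univ, Fintype.card_fin, sum_range_succ']
    have hz : (n.choose 0) • F 0 = 0 := by simp [hF]
    rw [hz, add_zero, ← hashFam_geom, mul_sum]
    apply sum_le_sum
    intro y _
    simp only [hF]
    rw [if_neg (Nat.succ_ne_zero y), nsmul_eq_mul]
    have := hashFam_choose (n := n) (y := y + 1) hn (by omega)
    calc (n.choose (y + 1) : ℝ) * (((R : ℝ) ^ n) ^ d * (((y + 1 : ℕ) : ℝ) / (12 * n)) ^ (y + 1))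
        = ((R : ℝ) ^ n) ^ d * ((n.choose (y + 1) : ℝ) *
            (((y + 1 : ℕ) : ℝ) / (12 * n)) ^ (y + 1)) := by ring
      _ ≤ _ := mul_le_mul_of_nonneg_left this (by positivity)
  have h4 : (((univ : Finset (Fin d → Fin n → Fin R)).card : ℕ) : ℝ) = ((R : ℝ) ^ n) ^ d := by
    rw [card_univ, Fintype.card_fun, Fintype.card_fun, Fintype.card_fin, Fintype.card_fin,
      Fintype.card_fin]
    push_cast
    rfl
  rw [h4] at h1
  have h5 : ((R : ℝ) ^ n) ^ d ≤ ((R : ℝ) ^ n) ^ d * ((1 - (1 / 4) ^ n) / 3) :=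
    h1.trans (h2.trans h3)
  have hpos : (0 : ℝ) < ((R : ℝ) ^ n) ^ d := by positivity
  have h6 : (0 : ℝ) < (1 / 4) ^ n := by positivity
  nlinarith

end Pool.Agent.Helper951_sr
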