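import Pool.Agent.Helper951_sr.Defs

/-!
Project SR (helper951, MP_72d76c_lc). Job IHT: one step of iterative hard thresholding, the tail, the head.
-/

namespace Pool.Agent.Helper951_sr

open Finset

theorem iht_nsq_nonneg {ι : Type} [Fintype ι] (x : ι → ℝ) : 0 ≤ nsq x :=
  Finset.sum_nonneg (fun _ _ => sq_nonneg _)

theorem iht_mv_add {J I : Type} [Fintype I] (M : J → I → ℝ) (p q : I → ℝ) (j : J) :
    mv M (fun i => p i + q i) j = mv M p j + mv M q j := by
  unfold mv
  rw [← Finset.sum_add_distrib]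
  exact Finset.sum_congr rfl (fun i _ => by ring)

theorem iht_mv_sub {J I : Type} [Fintype I] (M : J → I → ℝ) (p q : I → ℝ) (j : J) :
    mv M (fun i => p i - q i) j = mv M p j - mv M q j := by
  unfold mv
  rw [← Finset.sum_sub_distrib]
  exact Finset.sum_congr rfl (fun i _ => by ring)

theorem iht_mv_smul {J I : Type} [Fintype I] (M : J → I → ℝ) (c : ℝ) (p : I → ℝ) (j : J) :
    mv M (fun i => c * p i) j = c * mv M p j := by
  unfold mv
  rw [Finset.mul_sum]
  exact Finset.sum_congr rfl (fun i _ => by ring)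

/-- adjointness -/
theorem iht_adj {J I : Type} [Fintype J] [Fintype I] (M : J → I → ℝ) (y : I → ℝ) (g : J → ℝ) :
    ∑ i, y i * tv M g i = ∑ j, mv M y j * g j := by
  unfold mv tv
  simp only [Finset.mul_sum, Finset.sum_mul]
  rw [Finset.sum_comm]
  exact Finset.sum_congr rfl (fun j _ => Finset.sum_congr rfl (fun i _ => by ring))

/-- Cauchy-Schwarz -/
theorem iht_cs {ι : Type} [Fintype ι] (a c : ι → ℝ) :
    ∑ i, a i * c i ≤ Real.sqrt (nsq a) * Real.sqrt (nsq c) := by
  unfold nsq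
  rw [← Real.sqrt_mul (Finset.sum_nonneg (fun _ _ => sq_nonneg _))]
  apply Real.le_sqrt_of_sq_le
  exact Finset.sum_mul_sq_le_sq_mul_sq _ _ _

theorem iht_ip0 {J I : Type} [Fintype J] [Fintype I] [DecidableEq I] (V : J → I → ℝ) (s : ℕ) (δ : ℝ)
    (hV : RIP V s δ) (A : Finset I) (hA : A.card ≤ s) (p q : I → ℝ) (hp : ∀ i, p i ≠ 0 → i ∈ A)
    (hq : ∀ i, q i ≠ 0 → i ∈ A) :
    |(∑ j, mv V p j * mv V q j) - ∑ i, p i * q i| ≤ δ / 2 * (nsq p + nsq q) := by
  have h1 := hV (fun i => p i + q i) (by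
    refine le_trans (Finset.card_le_card ?_) hA
    intro i hi
    rw [Finset.mem_filter] at hi
    by_contra hiA
    have hp0 : p i = 0 := by by_contra h; exact hiA (hp i h)
    have hq0 : q i = 0 := by by_contra h; exact hiA (hq i h)
    exact hi.2 (by simp [hp0, hq0]))
  have h2 := hV (fun i => p i - q i) (by
    refine le_trans (Finset.card_le_card ?_) hA
    intro i hi
    rw [Finset.mem_filter] at hi
    by_contra hiA
    have hp0 : p i = 0 := by by_contra h; exact hiA (hp i h)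
    have hq0 : q i = 0 := by by_contra h; exact hiA (hq i h)
    exact hi.2 (by simp [hp0, hq0]))
  have h3 : nsq (mv V (fun i => p i + q i)) = nsq (mv V p) + 2 * (∑ j, mv V p j * mv V q j) + nsq (mv V q) := by
    unfold nsq
    rw [Finset.mul_sum, ← Finset.sum_add_distrib, ← Finset.sum_add_distrib]
    apply Finset.sum_congr rfl
    intro j _
    rw [iht_mv_add]; ring
  have h4 : nsq (mv V (fun i => p i - q i)) = nsq (mv V p) - 2 * (∑ j, mv V p j * mv V q j) + nsq (mv V q) := by
    unfold nsq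
    rw [Finset.mul_sum, ← Finset.sum_sub_distrib, ← Finset.sum_add_distrib]
    apply Finset.sum_congr rfl
    intro j _
    rw [iht_mv_sub]; ring
  have h5 : nsq (fun i => p i + q i) = nsq p + 2 * (∑ i, p i * q i) + nsq q := by
    unfold nsq
    rw [Finset.mul_sum, ← Finset.sum_add_distrib, ← Finset.sum_add_distrib]
    apply Finset.sum_congr rfl
    intro j _
    ring
  have h6 : nsq (fun i => p i - q i) = nsq p - 2 * (∑ i, p i * q i) + nsq q := by
    unfold nsq
    rw [Finset.mul_sum, ← Finset.sum_sub_distrib, ← Finset.sum_add_distrib]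
    apply Finset.sum_congr rfl
    intro j _
    ring
  rw [h3, h5, abs_le] at h1
  rw [h4, h6, abs_le] at h2
  rw [abs_le]
  constructor <;> linarith [h1.1, h1.2, h2.1, h2.2]

theorem iht_ip {J I : Type} [Fintype J] [Fintype I] [DecidableEq I] (V : J → I → ℝ) (s : ℕ) (δ : ℝ)
    (hV : RIP V s δ) (A : Finset I) (hA : A.card ≤ s) (p q : I → ℝ) (hp : ∀ i, p i ≠ 0 → i ∈ A)
    (hq : ∀ i, q i ≠ 0 → i ∈ A) :
    (∑ j, mv V p j * mv V q j) - ∑ i, p i * q i ≤ δ * (Real.sqrt (nsq p) * Real.sqrt (nsq q)) := by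
  set α := Real.sqrt (nsq p) with hα
  set γ := Real.sqrt (nsq q) with hγ
  have hα0 : 0 ≤ α := Real.sqrt_nonneg _
  have hγ0 : 0 ≤ γ := Real.sqrt_nonneg _
  have hα2 : α ^ 2 = nsq p := Real.sq_sqrt (iht_nsq_nonneg p)
  have hγ2 : γ ^ 2 = nsq q := Real.sq_sqrt (iht_nsq_nonneg q)
  have hzero : ∀ x : I → ℝ, nsq x = 0 → ∀ i, x i = 0 := by
    intro x hx i
    unfold nsq at hx
    rw [Finset.sum_eq_zero_iff_of_nonneg (fun k _ => sq_nonneg _)] at hx
    exact pow_eq_zero_iff (two_ne_zero) |>.mp (hx i (Finset.mem_univ _))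
  rcases hα0.eq_or_lt with h0 | hαpos
  · have : ∀ i, p i = 0 := hzero p (by rw [← hα2, ← h0]; simp)
    have h1 : ∀ j, mv V p j = 0 := by
      intro j
      unfold mv
      exact Finset.sum_eq_zero (fun i _ => by rw [this i, mul_zero])
    rw [Finset.sum_eq_zero (fun j _ => by rw [h1 j, zero_mul]), Finset.sum_eq_zero (fun i _ => by rw [this i, zero_mul]),
      ← h0]
    simp
  rcases hγ0.eq_or_lt with h0 | hγpos
  · have : ∀ i, q i = 0 := hzero q (by rw [← hγ2, ← h0]; simp)
    have h1 : ∀ j, mv V q j = 0 := by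
      intro j
      unfold mv
      exact Finset.sum_eq_zero (fun i _ => by rw [this i, mul_zero])
    rw [Finset.sum_eq_zero (fun j _ => by rw [h1 j, mul_zero]), Finset.sum_eq_zero (fun i _ => by rw [this i, mul_zero]),
      ← h0]
    simp
  have h1 := iht_ip0 V s δ hV A hA (fun i => γ * p i) (fun i => α * q i)
    (fun i hi => hp i (fun h => hi (by simp [h]))) (fun i hi => hq i (fun h => hi (by simp [h])))
  have h2 : (∑ j, mv V (fun i => γ * p i) j * mv V (fun i => α * q i) j) = (α * γ) * ∑ j, mv V p j * mv V q j := by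
    rw [Finset.mul_sum]
    apply Finset.sum_congr rfl
    intro j _
    rw [iht_mv_smul, iht_mv_smul]; ring
  have h3 : (∑ i, γ * p i * (α * q i)) = (α * γ) * ∑ i, p i * q i := by
    rw [Finset.mul_sum]
    apply Finset.sum_congr rfl
    intro j _
    ring
  have h4 : nsq (fun i => γ * p i) = γ ^ 2 * α ^ 2 := by
    rw [hα2]; unfold nsq; rw [Finset.mul_sum]
    exact Finset.sum_congr rfl (fun i _ => by ring)
  have h5 : nsq (fun i => α * q i) = γ ^ 2 * α ^ 2 := by
    rw [hγ2]; unfold nsq; rw [Finset.sum_mul]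
    exact Finset.sum_congr rfl (fun i _ => by ring)
  rw [h2, h3, h4, h5] at h1
  have h6 := (abs_le.mp h1).2
  have h7 : (α * γ) * ((∑ j, mv V p j * mv V q j) - ∑ i, p i * q i) ≤ (α * γ) * (δ * (α * γ)) := by
    nlinarith [h6]
  exact le_of_mul_le_mul_left h7 (mul_pos hαpos hγpos)

/-- RIP bound for the norm -/
theorem iht_norm {J I : Type} [Fintype J] [Fintype I] [DecidableEq I] (V : J → I → ℝ) (s : ℕ)
    (hV : RIP V s (1 / 4)) (A : Finset I) (hA : A.card ≤ s) (p : I → ℝ) (hp : ∀ i, p i ≠ 0 → i ∈ A) :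
    Real.sqrt (nsq (mv V p)) ≤ Real.sqrt (5 / 4) * Real.sqrt (nsq p) := by
  rw [← Real.sqrt_mul (by norm_num)]
  apply Real.sqrt_le_sqrt
  have h1 := hV p (by
    refine le_trans (Finset.card_le_card ?_) hA
    intro i hi
    rw [Finset.mem_filter] at hi
    exact hp i hi.2)
  have := (abs_le.mp h1).2
  linarith

/-- one step of iterative hard thresholding -/
theorem iht_step {J : Type} [Fintype J] {n k : ℕ} (V : J → Fin n → ℝ) (hV : RIP V (12 * k) (1 / 4))
    (z b w : Fin n → ℝ) (e : J → ℝ) (hz : (univ.filter (fun i => z i ≠ 0)).card ≤ 4 * k)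
    (T : Finset (Fin n)) (hT : T.card ≤ 8 * k) (hbT : ∀ i, b i ≠ 0 → i ∈ T)
    (hw : ∀ i, w i = z i + tv V (fun j => mv V b j + e j - mv V z j) i) :
    Real.sqrt (∑ i ∈ T, (w i - b i) ^ 2) ≤
      1 / 4 * Real.sqrt (nsq (fun i => b i - z i)) + Real.sqrt (5 / 4) * Real.sqrt (nsq e) := by
  set A : Finset (Fin n) := T ∪ univ.filter (fun i => z i ≠ 0) with hAdef
  have hA : A.card ≤ 12 * k := by
    refine (Finset.card_union_le _ _).trans ?_
    omega
  set y : Fin n → ℝ := fun i => if i ∈ T then w i - b i else 0 with hy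
  set d : Fin n → ℝ := fun i => b i - z i with hd
  have hyA : ∀ i, y i ≠ 0 → i ∈ A := by
    intro i hi
    by_contra h
    apply hi
    have : i ∉ T := fun hT => h (Finset.mem_union_left _ hT)
    simp [hy, this]
  have hdA : ∀ i, d i ≠ 0 → i ∈ A := by
    intro i hi
    by_contra h
    apply hi
    have h1 : i ∉ T := fun hT => h (Finset.mem_union_left _ hT)
    have h2 : z i = 0 := by
      by_contra hz0
      exact h (Finset.mem_union_right _ (by simp [hz0]))
    have h3 : b i = 0 := by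
      by_contra hb0
      exact h1 (hbT i hb0)
    simp [hd, h2, h3]
  have hnsqy : ∑ i ∈ T, (w i - b i) ^ 2 = nsq y := by
    unfold nsq
    have : ∀ i, y i ^ 2 = if i ∈ T then (w i - b i) ^ 2 else 0 := by
      intro i
      simp only [hy]
      split_ifs <;> simp
    rw [Finset.sum_congr rfl (fun i _ => this i), Finset.sum_ite_mem, Finset.univ_inter]
  rw [hnsqy]
  set Y := Real.sqrt (nsq y) with hY
  have hY0 : 0 ≤ Y := Real.sqrt_nonneg _
  have hY2 : Y ^ 2 = nsq y := Real.sq_sqrt (iht_nsq_nonneg y)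
  have h1 : nsq y = ((∑ j, mv V y j * mv V d j) - ∑ i, y i * d i) + ∑ j, mv V y j * e j := by
    have h2 : nsq y = ∑ i, (y i * tv V (fun j => mv V b j + e j - mv V z j) i - y i * d i) := by
      unfold nsq
      apply Finset.sum_congr rfl
      intro i _
      by_cases hi : i ∈ T
      · simp only [hy, hi, if_true, hd]
        rw [hw i]; ring
      · simp only [hy, hi, if_false]; ring
    rw [h2, Finset.sum_sub_distrib, iht_adj]
    have h3 : ∀ j, mv V y j * (mv V b j + e j - mv V z j) = mv V y j * mv V d j + mv V y j * e j := by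
      intro j
      rw [hd, iht_mv_sub]; ring
    rw [Finset.sum_congr rfl (fun j _ => h3 j), Finset.sum_add_distrib]
    ring
  have h2 := iht_ip V (12 * k) (1 / 4) hV A hA y d hyA hdA
  have h3 : ∑ j, mv V y j * e j ≤ Real.sqrt (5 / 4) * Y * Real.sqrt (nsq e) := by
    refine (iht_cs _ _).trans ?_
    exact mul_le_mul_of_nonneg_right (iht_norm V (12 * k) hV A hA y hyA) (Real.sqrt_nonneg _)
  rcases hY0.eq_or_lt with h0 | hYpos
  · rw [← h0]; positivity
  · have h4 : Y * Y ≤ Y * (1 / 4 * Real.sqrt (nsq d) + Real.sqrt (5 / 4) * Real.sqrt (nsq e)) := by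
      have : Y * Y = nsq y := by rw [← hY2]; ring
      rw [this, h1]
      nlinarith [h2, h3]
    exact le_of_mul_le_mul_left h4 hYpos

/-- the `k` largest elements of a finite set -/
theorem iht_top {I : Type} [DecidableEq I] (f : I → ℝ) (A : Finset I) :
    ∀ k : ℕ, k ≤ A.card → ∃ T ⊆ A, T.card = k ∧ ∀ i ∈ A \ T, ∀ j ∈ T, f i ≤ f j := by
  intro k
  induction k with
  | zero => intro _; exact ⟨∅, Finset.empty_subset _, rfl, by simp⟩
  | succ k ih =>
    intro hk
    obtain ⟨T, hTA, hTc, hT⟩ := ih (by omega)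
    have hne : (A \ T).Nonempty := by
      rw [← Finset.card_pos, Finset.card_sdiff_of_subset hTA]
      omega
    obtain ⟨m, hm, hmax⟩ := Finset.exists_max_image (A \ T) f hne
    have hmA := (Finset.mem_sdiff.mp hm).1
    have hmT := (Finset.mem_sdiff.mp hm).2
    refine ⟨insert m T, Finset.insert_subset hmA hTA, ?_, ?_⟩
    · rw [Finset.card_insert_of_notMem hmT, hTc]
    · intro i hi j hj
      rw [Finset.mem_sdiff, Finset.mem_insert, not_or] at hi
      have hi' : i ∈ A \ T := Finset.mem_sdiff.mpr ⟨hi.1, hi.2.2⟩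
      rcases Finset.mem_insert.mp hj with rfl | hj
      · exact hmax i hi'
      · exact hT i hi' j hj

/-- the tail: small entries -/
theorem tail_bound {J : Type} [Fintype J] {n k : ℕ} (hk : 1 ≤ k) (hkn : k ≤ n) (V : J → Fin n → ℝ)
    (hV : RIP V (12 * k) (1 / 4)) (r : Fin n → ℝ) (E : ℝ) (hr : ∀ i, |r i| ≤ E / k) (hE : nab r ≤ E) :
    Real.sqrt (nsq (mv V r)) ≤ Real.sqrt (5 / 4) * (2 * E / Real.sqrt k) := by
  have hkpos : (0 : ℝ) < k := by exact_mod_cast hk
  have hE0 : 0 ≤ E := le_trans (Finset.sum_nonneg (fun _ _ => abs_nonneg _)) hE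
  set y : J → ℝ := mv V r with hy
  set Y := Real.sqrt (nsq y) with hY
  have hY0 : 0 ≤ Y := Real.sqrt_nonneg _
  have hY2 : Y ^ 2 = nsq y := Real.sq_sqrt (iht_nsq_nonneg y)
  set P : Fin n → ℝ := tv V y with hP
  obtain ⟨T, -, hTc, hT⟩ := iht_top (fun i => |P i|) (univ : Finset (Fin n)) k (by simpa using hkn)
  set PT : Fin n → ℝ := fun i => if i ∈ T then P i else 0 with hPT
  have hnsqPT : ∑ i ∈ T, P i ^ 2 = nsq PT := by
    unfold nsq
    have : ∀ i, PT i ^ 2 = if i ∈ T then P i ^ 2 else 0 := by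
      intro i
      simp only [hPT]
      split_ifs <;> simp
    rw [Finset.sum_congr rfl (fun i _ => this i), Finset.sum_ite_mem, Finset.univ_inter]
  set Q := Real.sqrt (nsq PT) with hQ
  have hQ0 : 0 ≤ Q := Real.sqrt_nonneg _
  have hQ2 : Q ^ 2 = nsq PT := Real.sq_sqrt (iht_nsq_nonneg PT)
  have hQle : Q ≤ Real.sqrt (5 / 4) * Y := by
    have h1 : nsq PT = ∑ j, mv V PT j * y j := by
      rw [← iht_adj]
      unfold nsq
      apply Finset.sum_congr rfl
      intro i _
      by_cases hi : i ∈ T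
      · simp only [hPT, hi, if_true, sq, hP]
      · simp [hPT, hi]
    have h2 : nsq PT ≤ Real.sqrt (5 / 4) * Q * Y := by
      rw [h1]
      refine (iht_cs _ _).trans ?_
      refine mul_le_mul_of_nonneg_right (iht_norm V (12 * k) hV T (by omega) PT ?_) (Real.sqrt_nonneg _)
      intro i hi
      by_contra h
      exact hi (by simp [hPT, h])
    rcases hQ0.eq_or_lt with h0 | hQpos
    · rw [← h0]; positivity
    · have h4 : Q * Q ≤ Q * (Real.sqrt (5 / 4) * Y) := by
        have : Q * Q = nsq PT := by rw [← hQ2]; ring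
        rw [this]; linarith
      exact le_of_mul_le_mul_left h4 hQpos
  have hoff : ∀ i ∉ T, |P i| ≤ Q / Real.sqrt k := by
    intro i hi
    have h1 : (k : ℝ) * P i ^ 2 ≤ Q ^ 2 := by
      rw [hQ2, ← hnsqPT]
      have h2 : ∑ j ∈ T, P i ^ 2 ≤ ∑ j ∈ T, P j ^ 2 := by
        apply Finset.sum_le_sum
        intro j hj
        exact sq_le_sq.mpr (hT i (by simp [hi]) j hj)
      rw [Finset.sum_const, nsmul_eq_mul, hTc] at h2
      exact h2
    rw [le_div_iff₀ (Real.sqrt_pos.mpr hkpos)]
    have h3 : (|P i| * Real.sqrt k) ^ 2 ≤ Q ^ 2 := by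
      rw [mul_pow, sq_abs, Real.sq_sqrt hkpos.le]
      linarith
    exact (abs_le_of_sq_le_sq' h3 hQ0).2
  have hmain : Y ^ 2 ≤ Q * (2 * E / Real.sqrt k) := by
    have h1 : Y ^ 2 = ∑ i, r i * P i := by
      rw [hP, iht_adj, hY2]
      unfold nsq
      exact Finset.sum_congr rfl (fun j _ => by rw [sq])
    rw [h1, ← Finset.sum_add_sum_compl T]
    have h2 : ∑ i ∈ T, r i * P i ≤ Q * (E / Real.sqrt k) := by
      have h3 : (∑ i ∈ T, r i * P i) ^ 2 ≤ (∑ i ∈ T, r i ^ 2) * ∑ i ∈ T, P i ^ 2 :=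
        Finset.sum_mul_sq_le_sq_mul_sq _ _ _
      have h4 : ∑ i ∈ T, r i ^ 2 ≤ E ^ 2 / k := by
        have h5 : ∑ i ∈ T, r i ^ 2 ≤ ∑ i ∈ T, (E / k) ^ 2 := by
          apply Finset.sum_le_sum
          intro i _
          rw [← sq_abs]
          exact pow_le_pow_left₀ (abs_nonneg _) (hr i) 2
        rw [Finset.sum_const, nsmul_eq_mul, hTc] at h5
        refine h5.trans (le_of_eq ?_)
        field_simp
      have h6 : (∑ i ∈ T, r i * P i) ^ 2 ≤ (Q * (E / Real.sqrt k)) ^ 2 := by
        rw [mul_pow, div_pow, Real.sq_sqrt hkpos.le]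
        refine h3.trans ?_
        rw [hnsqPT, ← hQ2, mul_comm]
        exact mul_le_mul_of_nonneg_left h4 (sq_nonneg _)
      exact (abs_le_of_sq_le_sq' h6 (by positivity)).2
    have h3 : ∑ i ∈ Tᶜ, r i * P i ≤ Q * (E / Real.sqrt k) := by
      calc ∑ i ∈ Tᶜ, r i * P i ≤ ∑ i ∈ Tᶜ, |r i| * (Q / Real.sqrt k) := by
            apply Finset.sum_le_sum
            intro i hi
            calc r i * P i ≤ |r i * P i| := le_abs_self _
              _ = |r i| * |P i| := abs_mul _ _
              _ ≤ |r i| * (Q / Real.sqrt k) :=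
                mul_le_mul_of_nonneg_left (hoff i (by simpa using hi)) (abs_nonneg _)
        _ = (∑ i ∈ Tᶜ, |r i|) * (Q / Real.sqrt k) := by rw [Finset.sum_mul]
        _ ≤ E * (Q / Real.sqrt k) := by
            apply mul_le_mul_of_nonneg_right _ (by positivity)
            refine le_trans ?_ hE
            exact Finset.sum_le_sum_of_subset_of_nonneg (Finset.subset_univ _) (fun i _ _ => abs_nonneg _)
        _ = Q * (E / Real.sqrt k) := by ring
    have h4 : Q * (2 * E / Real.sqrt k) = Q * (E / Real.sqrt k) + Q * (E / Real.sqrt k) := by ring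
    rw [h4]
    exact add_le_add h2 h3
  rcases hY0.eq_or_lt with h0 | hYpos
  · rw [← h0]; positivity
  · have h1 : Q * (2 * E / Real.sqrt k) ≤ Real.sqrt (5 / 4) * Y * (2 * E / Real.sqrt k) :=
      mul_le_mul_of_nonneg_right hQle (by positivity)
    have h2 : Y * Y ≤ Y * (Real.sqrt (5 / 4) * (2 * E / Real.sqrt k)) := by nlinarith [hmain, h1]
    exact le_of_mul_le_mul_left h2 hYpos

/-- the head: a set containing the support of `x'` and `k` further largest entries. -/
theorem head_set {n k : ℕ} (hk : 1 ≤ k) (hkn : 2 * k ≤ n) (x x' : Fin n → ℝ)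
    (hx' : (univ.filter (fun i => x' i ≠ 0)).card ≤ k) :
    ∃ S : Finset (Fin n), S.card ≤ 2 * k ∧ (∀ i, x' i ≠ 0 → i ∈ S) ∧
      ∀ i ∉ S, |x i| ≤ nab (fun i => x i - x' i) / k := by
  have hkpos : (0 : ℝ) < k := by exact_mod_cast hk
  set B := univ.filter (fun i => x' i ≠ 0) with hB
  have hAc : k ≤ (Bᶜ).card := by
    rw [Finset.card_compl, Fintype.card_fin]
    omega
  obtain ⟨T, hTA, hTc, hT⟩ := iht_top (fun i => |x i|) Bᶜ k hAc
  refine ⟨B ∪ T, ?_, ?_, ?_⟩
  · refine (Finset.card_union_le _ _).trans ?_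
    omega
  · intro i hi
    exact Finset.mem_union_left _ (by simp [hB, hi])
  · intro i hi
    rw [Finset.mem_union, not_or] at hi
    have hi' : i ∈ Bᶜ \ T := by
      rw [Finset.mem_sdiff, Finset.mem_compl]; exact hi
    rw [le_div_iff₀ hkpos]
    have h1 : ∑ j ∈ T, |x i| ≤ ∑ j ∈ T, |x j - x' j| := by
      apply Finset.sum_le_sum
      intro j hj
      have h2 : x' j = 0 := by
        have := hTA hj
        rw [Finset.mem_compl, hB, Finset.mem_filter, not_and, not_not] at this
        exact this (Finset.mem_univ _)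
      rw [h2, sub_zero]
      exact hT i hi' j hj
    rw [Finset.sum_const, nsmul_eq_mul, hTc] at h1
    have h3 : ∑ j ∈ T, |x j - x' j| ≤ nab (fun i => x i - x' i) :=
      Finset.sum_le_sum_of_subset_of_nonneg (Finset.subset_univ _) (fun i _ _ => abs_nonneg _)
    linarith

end Pool.Agent.Helper951_sr
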