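import Pool.Agent.Helper951_sr.Defs

/-!
Project SR (helper951, MP_72d76c_lc). Job CONF: the confusion lemma, Lemma 5.
-/

namespace Pool.Agent.Helper951_sr

open Finset

/-- The confused indices. -/
def conf {n d R : ℕ} (h : Fin d → Fin n → Fin R) (U : Finset (Fin n)) : Finset (Fin n) :=
  univ.filter (fun i => d ≤ 2 * (univ.filter (fun l => ∃ i' ∈ U, i' ≠ i ∧ h l i' = h l i)).card)

/-- one hash function: collisions with `U` force repetitions -/
theorem conf_one {n R : ℕ} (f : Fin n → Fin R) (U W : Finset (Fin n)) :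
    (W.filter (fun i => ∃ i' ∈ U, i' ≠ i ∧ f i' = f i)).card ≤
      2 * ((U ∪ W).card - ((U ∪ W).image f).card) := by
  classical
  set Y := U ∪ W with hY
  set C := W.filter (fun i => ∃ i' ∈ U, i' ≠ i ∧ f i' = f i) with hC
  have hCY : C ⊆ Y := fun i hi => mem_union_right _ (mem_filter.mp hi).1
  have h1 : Y.card = ∑ ρ ∈ Y.image f, (Y.filter (fun i => f i = ρ)).card :=
    card_eq_sum_card_image f Y
  have h2 : C.card = ∑ ρ ∈ Y.image f, (C.filter (fun i => f i = ρ)).card := by
    apply card_eq_sum_card_fiberwise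
    intro i hi
    exact mem_image_of_mem f (hCY hi)
  have h3 : ∀ ρ ∈ Y.image f, (C.filter (fun i => f i = ρ)).card + 2 ≤
      2 * (Y.filter (fun i => f i = ρ)).card := by
    intro ρ hρ
    have hsub : C.filter (fun i => f i = ρ) ⊆ Y.filter (fun i => f i = ρ) :=
      filter_subset_filter _ hCY
    have hle := card_le_card hsub
    obtain ⟨j, hj, hjρ⟩ := mem_image.mp hρ
    have hpos : 0 < (Y.filter (fun i => f i = ρ)).card :=
      card_pos.mpr ⟨j, mem_filter.mpr ⟨hj, hjρ⟩⟩
    rcases Nat.lt_or_ge 1 (Y.filter (fun i => f i = ρ)).card with h | h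
    · omega
    · have hC0 : (C.filter (fun i => f i = ρ)).card = 0 := by
        rw [card_eq_zero, filter_eq_empty_iff]
        intro i hi hiρ
        obtain ⟨-, i', hi'U, hne, hfe⟩ := mem_filter.mp hi
        have m1 : i ∈ Y.filter (fun i => f i = ρ) := mem_filter.mpr ⟨hCY hi, hiρ⟩
        have m2 : i' ∈ Y.filter (fun i => f i = ρ) :=
          mem_filter.mpr ⟨mem_union_left _ hi'U, hfe.trans hiρ⟩
        exact hne (card_le_one.mp h i' m2 i m1)
      omega
  have h4 : C.card + 2 * (Y.image f).card ≤ 2 * Y.card := by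
    have : ∑ ρ ∈ Y.image f, ((C.filter (fun i => f i = ρ)).card + 2) ≤
        ∑ ρ ∈ Y.image f, 2 * (Y.filter (fun i => f i = ρ)).card := sum_le_sum h3
    rw [sum_add_distrib, ← h2, sum_const, smul_eq_mul, ← mul_sum, ← h1] at this
    omega
  omega

theorem conf_card {n d R k : ℕ} (hd : 1 ≤ d) (h : Fin d → Fin n → Fin R)
    (hh : ∀ Y : Finset (Fin n), Y.card ≤ 2 * k → 16 * ∑ l, (Y.card - (Y.image (h l)).card) ≤ d * Y.card)
    (U : Finset (Fin n)) (hU : U.card ≤ k) : 2 * (conf h U).card ≤ U.card := by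
  classical
  by_contra hcon
  push Not at hcon
  rcases Nat.eq_zero_or_pos U.card with h0 | h0
  · have hU0 : U = ∅ := card_eq_zero.mp h0
    have : conf h U = ∅ := by
      unfold conf
      rw [filter_eq_empty_iff]
      intro i _
      rw [hU0]
      simp
      omega
    rw [this] at hcon
    simp at hcon
  obtain ⟨W, hWs, hWc⟩ : ∃ W ⊆ conf h U, W.card = U.card / 2 + 1 :=
    exists_subset_card_eq (by omega)
  have hYc : (U ∪ W).card ≤ U.card + W.card := card_union_le U W
  have hrep := hh (U ∪ W) (by omega)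
  have h1 : ∑ l, (W.filter (fun i => ∃ i' ∈ U, i' ≠ i ∧ h l i' = h l i)).card ≤
      2 * ∑ l, ((U ∪ W).card - ((U ∪ W).image (h l)).card) := by
    rw [mul_sum]
    exact sum_le_sum (fun l _ => conf_one (h l) U W)
  have h2 : ∑ l, (W.filter (fun i => ∃ i' ∈ U, i' ≠ i ∧ h l i' = h l i)).card =
      ∑ i ∈ W, (univ.filter (fun l => ∃ i' ∈ U, i' ≠ i ∧ h l i' = h l i)).card := by
    simp only [card_filter]
    rw [sum_comm]
  have h3 : W.card * d ≤
      2 * ∑ i ∈ W, (univ.filter (fun l => ∃ i' ∈ U, i' ≠ i ∧ h l i' = h l i)).card := by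
    rw [mul_sum, ← smul_eq_mul, ← sum_const]
    apply sum_le_sum
    intro i hi
    exact (mem_filter.mp (hWs hi)).2
  have h4 : 4 * (W.card * d) ≤ d * (U ∪ W).card := by
    calc 4 * (W.card * d) ≤ 16 * ∑ l, ((U ∪ W).card - ((U ∪ W).image (h l)).card) := by omega
      _ ≤ _ := hrep
  have h5 : 4 * W.card ≤ (U ∪ W).card := by
    have : d * (4 * W.card) ≤ d * (U ∪ W).card := by
      calc d * (4 * W.card) = 4 * (W.card * d) := by ring
        _ ≤ _ := h4
    exact Nat.le_of_mul_le_mul_left this (by omega)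
  omega

end Pool.Agent.Helper951_sr
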