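import Pool.Agent.Helper951_sr.Defs
import Pool.Agent.Helper951_sr.Calc

/-!
Project SR (helper951, MP_72d76c_lc). Job SORT: order statistics by a bitonic sorting network.
-/

namespace Pool.Agent.Helper951_sr

open Finset

/-- bitonic merging of `2 ^ k` numbers (largest first) -/
noncomputable def ostat_bm : ℕ → (ℕ → ℝ) → ℕ → ℝ
  | 0, x => x
  | (k + 1), x => fun i => if i < 2 ^ k then ostat_bm k (fun j => max (x j) (x (j + 2 ^ k))) i
      else ostat_bm k (fun j => min (x j) (x (j + 2 ^ k))) (i - 2 ^ k)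

/-- bitonic sorting of `2 ^ k` numbers (largest first) -/
noncomputable def ostat_sort : ℕ → (ℕ → ℝ) → ℕ → ℝ
  | 0, x => x
  | (k + 1), x => ostat_bm (k + 1) (fun i => if i < 2 ^ k then ostat_sort k x i
      else ostat_sort k (fun j => x (j + 2 ^ k)) (2 ^ (k + 1) - 1 - i))

/-- minimum of the entries with index at most `j` -/
noncomputable def ostat_mn (y : ℕ → ℝ) : ℕ → ℝ
  | 0 => y 0
  | (j + 1) => min (ostat_mn y j) (y (j + 1))

theorem ostat_mn_le (y : ℕ → ℝ) : ∀ j i : ℕ, i ≤ j → ostat_mn y j ≤ y i := by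
  intro j
  induction j with
  | zero => intro i hi; have : i = 0 := by omega
            subst this; exact le_refl _
  | succ j ih =>
    intro i hi
    rw [ostat_mn]
    rcases Nat.lt_or_ge i (j + 1) with h | h
    · exact (min_le_left _ _).trans (ih i (by omega))
    · have : i = j + 1 := by omega
      subst this; exact min_le_right _ _

theorem ostat_max_mem {U : Set ℝ} (hU : IsUpperSet U) (a b : ℝ) : max a b ∈ U ↔ a ∈ U ∨ b ∈ U := by
  constructor
  · intro h
    rcases le_total a b with hab | hab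
    · right; rwa [max_eq_right hab] at h
    · left; rwa [max_eq_left hab] at h
  · rintro (h | h)
    · exact hU (le_max_left _ _) h
    · exact hU (le_max_right _ _) h

theorem ostat_min_mem {U : Set ℝ} (hU : IsUpperSet U) (a b : ℝ) : min a b ∈ U ↔ a ∈ U ∧ b ∈ U := by
  constructor
  · intro h
    exact ⟨hU (min_le_left _ _) h, hU (min_le_right _ _) h⟩
  · rintro ⟨ha, hb⟩
    rcases le_total a b with hab | hab
    · rwa [min_eq_left hab]
    · rwa [min_eq_right hab]

theorem ostat_mod (m x : ℕ) (hm : 0 < m) :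
    ((x % (m * 2) = x % m ∧ (x + m) % (m * 2) = x % m + m) ∨
      (x % (m * 2) = x % m + m ∧ (x + m) % (m * 2) = x % m)) := by
  rw [Nat.mod_mul, Nat.mod_mul, Nat.add_mod_right, Nat.add_div_right _ hm]
  rcases Nat.mod_two_eq_zero_or_one (x / m) with h | h
  · left
    have h2 : (x / m).succ % 2 = 1 := by omega
    rw [h, h2]; simp
  · right
    have h2 : (x / m).succ % 2 = 0 := by omega
    rw [h, h2]; simp

theorem ostat_bm_thr {U : Set ℝ} (hU : IsUpperSet U) : ∀ (k : ℕ) (x : ℕ → ℝ) (s l : ℕ),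
    (∀ i < 2 ^ k, (x i ∈ U ↔ (i + s) % 2 ^ k < l)) → ∀ i < 2 ^ k, (ostat_bm k x i ∈ U ↔ i < l) := by
  intro k
  induction k with
  | zero =>
    intro x s l h i hi
    have h0 : i = 0 := by simpa using hi
    subst h0
    have := h 0 (by norm_num)
    rw [pow_zero, Nat.mod_one] at this
    exact this
  | succ k ih =>
    intro x s l h i hi
    have hm : 0 < 2 ^ k := by positivity
    have h1 : ∀ j < 2 ^ k, (max (x j) (x (j + 2 ^ k)) ∈ U ↔ (j + s) % 2 ^ k < l) := by
      intro j hj
      rw [ostat_max_mem hU, h j (by rw [pow_succ]; omega), h (j + 2 ^ k) (by rw [pow_succ]; omega)]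
      have e : j + 2 ^ k + s = (j + s) + 2 ^ k := by omega
      rw [e, pow_succ]
      rcases ostat_mod (2 ^ k) (j + s) hm with ⟨h1, h2⟩ | ⟨h1, h2⟩
      · rw [h1, h2]; omega
      · rw [h1, h2]; omega
    have h2 : ∀ j < 2 ^ k, (min (x j) (x (j + 2 ^ k)) ∈ U ↔ (j + s) % 2 ^ k < l - 2 ^ k) := by
      intro j hj
      rw [ostat_min_mem hU, h j (by rw [pow_succ]; omega), h (j + 2 ^ k) (by rw [pow_succ]; omega)]
      have e : j + 2 ^ k + s = (j + s) + 2 ^ k := by omega
      rw [e, pow_succ]
      rcases ostat_mod (2 ^ k) (j + s) hm with ⟨h1, h2⟩ | ⟨h1, h2⟩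
      · rw [h1, h2]; omega
      · rw [h1, h2]; omega
    rw [ostat_bm]
    simp only
    split_ifs with hik
    · exact ih _ s l h1 i hik
    · rw [ih _ s (l - 2 ^ k) h2 (i - 2 ^ k) (by rw [pow_succ] at hi; omega)]
      omega

open Classical in
theorem ostat_sort_thr {U : Set ℝ} (hU : IsUpperSet U) : ∀ (k : ℕ) (x : ℕ → ℝ),
    ∀ i < 2 ^ k, (ostat_sort k x i ∈ U ↔ i < ((range (2 ^ k)).filter (fun j => x j ∈ U)).card) := by
  intro k
  induction k with
  | zero =>
    intro x i hi
    have h0 : i = 0 := by simpa using hi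
    subst h0
    rw [ostat_sort, pow_zero, range_one, filter_singleton]
    by_cases h : x 0 ∈ U
    · simp [h]
    · simp [h]
  | succ k ih =>
    intro x i hi
    have hm : 0 < 2 ^ k := by positivity
    obtain ⟨p, hp⟩ : ∃ p, p = ((range (2 ^ k)).filter (fun j => x j ∈ U)).card := ⟨_, rfl⟩
    obtain ⟨q, hq⟩ : ∃ q, q = ((range (2 ^ k)).filter (fun j => x (j + 2 ^ k) ∈ U)).card := ⟨_, rfl⟩
    have hp' : p ≤ 2 ^ k := by
      rw [hp]; exact (card_filter_le _ _).trans (by simp)
    have hq' : q ≤ 2 ^ k := by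
      rw [hq]; exact (card_filter_le _ _).trans (by simp)
    have hpq : ((range (2 ^ (k + 1))).filter (fun j => x j ∈ U)).card = p + q := by
      rw [hp, hq, card_filter, card_filter, card_filter, pow_succ, mul_two, sum_range_add]
      congr 1
      apply sum_congr rfl
      intro j _
      rw [add_comm]
    rw [hpq, ostat_sort]
    apply ostat_bm_thr hU (k + 1) _ q (p + q) _ i hi
    intro j hj
    have e2 : 2 ^ (k + 1) = 2 ^ k + 2 ^ k := by rw [pow_succ, mul_two]
    split_ifs with hjk
    · rw [ih x j hjk, ← hp, Nat.mod_eq_of_lt (by omega)]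
      omega
    · rw [ih _ (2 ^ (k + 1) - 1 - j) (by omega), ← hq]
      by_cases h : j + q < 2 ^ (k + 1)
      · rw [Nat.mod_eq_of_lt h]
        omega
      · rw [Nat.mod_eq_sub_mod (by omega), Nat.mod_eq_of_lt (by omega)]
        omega

theorem ostat_sort_lt (k : ℕ) (x : ℕ → ℝ) (i : ℕ) (hi : i < 2 ^ k) (θ : ℝ) :
    θ < ostat_sort k x i ↔ i < ((range (2 ^ k)).filter (fun j => θ < x j)).card := by
  have := ostat_sort_thr (isUpperSet_Ioi θ) k x i hi
  convert this <;> exact Set.mem_Ioi.symm

theorem ostat_sort_le (k : ℕ) (x : ℕ → ℝ) (i : ℕ) (hi : i < 2 ^ k) (θ : ℝ) :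
    θ ≤ ostat_sort k x i ↔ i < ((range (2 ^ k)).filter (fun j => θ ≤ x j)).card := by
  have := ostat_sort_thr (isUpperSet_Ici θ) k x i hi
  convert this <;> exact Set.mem_Ici.symm

theorem ostat_comp_max {α : Type} {P : Set (α → ℝ)} {f g : α → ℝ} (hf : f ∈ P) (hg : g ∈ P) :
    Comp 1 P {fun a => max (f a) (g a)} := by
  have h := fast_max α P (fun a b => if b then g a else f a) (by
    intro b
    cases b
    · simpa using hf
    · simpa using hg)
  refine comp_mono h (le_refl _) (Set.Subset.refl _) ?_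
  rintro u rfl
  exact ⟨(), by simp⟩

theorem ostat_comp_min {α : Type} {P : Set (α → ℝ)} {f g : α → ℝ} (hf : f ∈ P) (hg : g ∈ P) :
    Comp 1 P {fun a => min (f a) (g a)} := by
  have h := fast_min α P (fun a b => if b then g a else f a) (by
    intro b
    cases b
    · simpa using hf
    · simpa using hg)
  refine comp_mono h (le_refl _) (Set.Subset.refl _) ?_
  rintro u rfl
  exact ⟨(), by simp⟩

theorem ostat_comp_fin {α : Type} {P : Set (α → ℝ)} (n : ℕ) (F : ℕ → α → ℝ)
    (h : ∀ j < n, Comp 1 P {F j}) : Comp n P {f | ∃ j < n, f = F j} := by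
  have h' := comp_iUnion (ι := Fin n) (fun _ => 1) P (fun j => {F j}) (fun j => h j j.2)
  refine comp_mono h' (by simp) (Set.Subset.refl _) ?_
  rintro f ⟨j, hj, rfl⟩
  exact Set.mem_iUnion.2 ⟨⟨j, hj⟩, rfl⟩

theorem ostat_bm_cost {α : Type} : ∀ (k : ℕ) (P : Set (α → ℝ)) (x : α → ℕ → ℝ),
    (∀ i < 2 ^ k, (fun a => x a i) ∈ P) →
      Comp (k * 2 ^ k) P {f | ∃ j < 2 ^ k, f = fun a => ostat_bm k (x a) j} := by
  intro k
  induction k with
  | zero =>
    intro P x h
    rw [zero_mul]
    apply comp_refl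
    rintro f ⟨j, hj, rfl⟩
    exact h j hj
  | succ k ih =>
    intro P x h
    have e2 : 2 ^ (k + 1) = 2 ^ k + 2 ^ k := by rw [pow_succ, mul_two]
    have c1 : Comp (2 ^ k) P {f | ∃ j < 2 ^ k, f = fun a => max (x a j) (x a (j + 2 ^ k))} :=
      ostat_comp_fin (2 ^ k) (fun j a => max (x a j) (x a (j + 2 ^ k))) (fun j hj =>
        ostat_comp_max (h j (by omega)) (h (j + 2 ^ k) (by omega)))
    have c2 : Comp (2 ^ k) P {f | ∃ j < 2 ^ k, f = fun a => min (x a j) (x a (j + 2 ^ k))} :=
      ostat_comp_fin (2 ^ k) (fun j a => min (x a j) (x a (j + 2 ^ k))) (fun j hj =>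
        ostat_comp_min (h j (by omega)) (h (j + 2 ^ k) (by omega)))
    have c3 := comp_union c1 c2
    have c4 := ih (P ∪ ({f | ∃ j < 2 ^ k, f = fun a => max (x a j) (x a (j + 2 ^ k))} ∪
        {f | ∃ j < 2 ^ k, f = fun a => min (x a j) (x a (j + 2 ^ k))}))
      (fun a j => max (x a j) (x a (j + 2 ^ k))) (fun i hi => Or.inr (Or.inl ⟨i, hi, rfl⟩))
    have c5 := ih (P ∪ ({f | ∃ j < 2 ^ k, f = fun a => max (x a j) (x a (j + 2 ^ k))} ∪
        {f | ∃ j < 2 ^ k, f = fun a => min (x a j) (x a (j + 2 ^ k))}))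
      (fun a j => min (x a j) (x a (j + 2 ^ k))) (fun i hi => Or.inr (Or.inr ⟨i, hi, rfl⟩))
    have c6 := comp_trans c3 (comp_union c4 c5)
    refine comp_mono c6 (le_of_eq ?_) (Set.Subset.refl _) ?_
    · rw [e2]; ring
    · rintro f ⟨j, hj, rfl⟩
      right
      by_cases hjk : j < 2 ^ k
      · left
        exact ⟨j, hjk, by funext a; simp only [ostat_bm]; rw [if_pos hjk]⟩
      · right
        exact ⟨j - 2 ^ k, by omega, by funext a; simp only [ostat_bm]; rw [if_neg hjk]⟩

theorem ostat_sort_cost {α : Type} : ∀ (k : ℕ) (P : Set (α → ℝ)) (x : α → ℕ → ℝ),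
    (∀ i < 2 ^ k, (fun a => x a i) ∈ P) →
      Comp (k ^ 2 * 2 ^ k) P {f | ∃ j < 2 ^ k, f = fun a => ostat_sort k (x a) j} := by
  intro k
  induction k with
  | zero =>
    intro P x h
    refine comp_mono (comp_refl P _ ?_) (Nat.zero_le _) (Set.Subset.refl _) (Set.Subset.refl _)
    rintro f ⟨j, hj, rfl⟩
    exact h j hj
  | succ k ih =>
    intro P x h
    have e2 : 2 ^ (k + 1) = 2 ^ k + 2 ^ k := by rw [pow_succ, mul_two]
    have c1 := ih P x (fun i hi => h i (by omega))
    have c2 := ih P (fun a j => x a (j + 2 ^ k)) (fun i hi => h (i + 2 ^ k) (by omega))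
    have c3 := comp_union c1 c2
    have c4 := ostat_bm_cost (k + 1)
      (P ∪ ({f | ∃ j < 2 ^ k, f = fun a => ostat_sort k (x a) j} ∪
        {f | ∃ j < 2 ^ k, f = fun a => ostat_sort k (fun j => x a (j + 2 ^ k)) j}))
      (fun a i => if i < 2 ^ k then ostat_sort k (x a) i
      else ostat_sort k (fun j => x a (j + 2 ^ k)) (2 ^ (k + 1) - 1 - i)) (by
        intro i hi
        right
        by_cases hik : i < 2 ^ k
        · left
          exact ⟨i, hik, by funext a; rw [if_pos hik]⟩
        · right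
          exact ⟨2 ^ (k + 1) - 1 - i, by omega, by funext a; rw [if_neg hik]⟩)
    have c5 := comp_trans c3 c4
    refine comp_mono c5 ?_ (Set.Subset.refl _) ?_
    · rw [e2]
      have : 0 < 2 ^ k := by positivity
      nlinarith [Nat.zero_le (k * 2 ^ k)]
    · rintro f ⟨j, hj, rfl⟩
      right
      exact ⟨j, hj, rfl⟩

theorem ostat_mn_cost {α : Type} (P : Set (α → ℝ)) (x : α → ℕ → ℝ) : ∀ n : ℕ,
    (∀ i ≤ n, (fun a => x a i) ∈ P) → Comp n P {fun a => ostat_mn (x a) n} := by
  intro n
  induction n with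
  | zero =>
    intro h
    apply comp_refl
    rintro f rfl
    exact h 0 (le_refl _)
  | succ n ih =>
    intro h
    have c1 := ih (fun i hi => h i (by omega))
    have c2 : Comp 1 (P ∪ {fun a => ostat_mn (x a) n}) {fun a => min (ostat_mn (x a) n) (x a (n + 1))} :=
      ostat_comp_min (Or.inr rfl) (Or.inl (h (n + 1) (le_refl _)))
    have c3 := comp_trans c1 c2
    refine comp_mono c3 (le_refl _) (Set.Subset.refl _) ?_
    rintro f rfl
    right
    rfl

theorem exists_ostat : ∃ c : ℕ, ∀ N K : ℕ, K < N → ∃ θ : (Fin N → ℝ) → ℝ,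
    FastMap (c * N * (Nat.log 2 N + 1) ^ 2) (fun x (_ : Unit) => θ x) ∧
      ∀ x : Fin N → ℝ, (univ.filter (fun i => θ x < x i)).card ≤ K ∧
        K + 1 ≤ (univ.filter (fun i => θ x ≤ x i)).card := by
  classical
  refine ⟨3, ?_⟩
  intro N K hKN
  obtain ⟨p, hp⟩ : ∃ p, p = Nat.log 2 N + 1 := ⟨_, rfl⟩
  have hN2 : N < 2 ^ p := by rw [hp]; exact Nat.lt_pow_succ_log_self (by norm_num) N
  have h2N : 2 ^ p ≤ 2 * N := by
    rw [hp, pow_succ, mul_comm]
    exact Nat.mul_le_mul_left 2 (Nat.pow_log_le_self 2 (by omega))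
  -- the extension of `x`
  let ex : (Fin N → ℝ) → ℕ → ℝ := fun x i => if h : i < N then x ⟨i, h⟩ else 0
  let pd : (Fin N → ℝ) → ℕ → ℝ := fun x i => if i < N then ex x i else ostat_mn (ex x) (N - 1)
  have hpd : ∀ (x : Fin N → ℝ) (i : Fin N), pd x i = x i := by
    intro x i
    simp only [pd, ex]
    rw [if_pos i.2, dif_pos i.2]
  have hcard : ∀ (x : Fin N → ℝ) (U : ℝ → Prop) [DecidablePred U], (univ.filter (fun i => U (x i))).card =
      ((range N).filter (fun j => U (pd x j))).card := by
    intro x U _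
    rw [card_filter, card_filter, Finset.sum_range]
    apply sum_congr rfl
    intro i _
    rw [hpd]
  refine ⟨fun x => ostat_sort p (pd x) K, ?_, ?_⟩
  · intro α P x hx
    have hex : ∀ i < N, (fun a => ex (x a) i) ∈ P := by
      intro i hi
      have : (fun a => ex (x a) i) = fun a => x a ⟨i, hi⟩ := by
        funext a; simp only [ex]; rw [dif_pos hi]
      rw [this]; exact hx _
    have c1 := ostat_mn_cost P (fun a => ex (x a)) (N - 1) (fun i hi => hex i (by omega))
    have c2 := ostat_sort_cost p (P ∪ {fun a => ostat_mn (ex (x a)) (N - 1)}) (fun a => pd (x a)) (by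
      intro i hi
      by_cases hiN : i < N
      · left
        have : (fun a => pd (x a) i) = fun a => ex (x a) i := by
          funext a; simp only [pd]; rw [if_pos hiN]
        rw [this]; exact hex i hiN
      · right
        have : (fun a => pd (x a) i) = fun a => ostat_mn (ex (x a)) (N - 1) := by
          funext a; simp only [pd]; rw [if_neg hiN]
        rw [this]; rfl)
    have c3 := comp_trans c1 c2
    refine comp_mono c3 ?_ (Set.Subset.refl _) ?_
    · rw [← hp]
      have hp1 : 1 ≤ p := by omega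
      have hp2 : 1 ≤ p ^ 2 := Nat.one_le_pow _ _ hp1
      calc N - 1 + p ^ 2 * 2 ^ p ≤ N * p ^ 2 + p ^ 2 * (2 * N) := by
            apply Nat.add_le_add
            · calc N - 1 ≤ N := Nat.sub_le _ _
                _ = N * 1 := (mul_one N).symm
                _ ≤ N * p ^ 2 := Nat.mul_le_mul_left _ hp2
            · exact Nat.mul_le_mul_left _ h2N
        _ = 3 * N * p ^ 2 := by ring
    · rintro f ⟨_, rfl⟩
      right
      exact ⟨K, by omega, rfl⟩
  · intro x
    obtain ⟨θ, hθ⟩ : ∃ θ, θ = ostat_sort p (pd x) K := ⟨_, rfl⟩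
    simp only
    rw [← hθ]
    constructor
    · have h1 := ostat_sort_lt p (pd x) K (by omega) θ
      rw [← hθ] at h1
      have h2 : ((range (2 ^ p)).filter (fun j => θ < pd x j)).card ≤ K := by
        by_contra hcon
        exact lt_irrefl θ (h1.2 (by omega))
      have h3 := hcard x (fun u => θ < u)
      have h4 : ((range N).filter (fun j => θ < pd x j)).card ≤
          ((range (2 ^ p)).filter (fun j => θ < pd x j)).card :=
        card_le_card (filter_subset_filter _ (range_subset_range.2 hN2.le))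
      rw [h3]
      exact h4.trans h2
    · have h1 := ostat_sort_le p (pd x) K (by omega) θ
      rw [← hθ] at h1
      have h2 := h1.1 (le_refl θ)
      have h3 := hcard x (fun u => θ ≤ u)
      rw [h3]
      by_cases hm : θ ≤ ostat_mn (ex x) (N - 1)
      · have : (range N).filter (fun j => θ ≤ pd x j) = range N := by
          apply filter_true_of_mem
          intro j hj
          rw [mem_range] at hj
          have e : pd x j = ex x j := by simp only [pd]; rw [if_pos hj]
          rw [e]
          exact hm.trans (ostat_mn_le (ex x) (N - 1) j (by omega))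
        rw [this, card_range]
        omega
      · have h6 : (range (2 ^ p)).filter (fun j => θ ≤ pd x j) ⊆
            (range N).filter (fun j => θ ≤ pd x j) := by
          intro j hj
          rw [mem_filter] at hj ⊢
          refine ⟨?_, hj.2⟩
          rw [mem_range]
          by_contra hjN
          apply hm
          have e : pd x j = ostat_mn (ex x) (N - 1) := by simp only [pd]; rw [if_neg hjN]
          have := hj.2
          rw [e] at this
          exact this
        have := card_le_card h6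
        omega

end Pool.Agent.Helper951_sr
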