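import Pool.Agent.Helper951_sr.Defs
import Pool.Agent.Helper951_sr.Calc
import Pool.Agent.Helper951_sr.Conf
import Pool.Agent.Helper951_sr.Ostat

/-!
Project SR (helper951, MP_72d76c_lc). Job S1: stage 1 of the decoder.
-/

namespace Pool.Agent.Helper951_sr

open Finset

/-- measurement of the hash family -/
def hm {n d R : ℕ} (h : Fin d → Fin n → Fin R) (x : Fin n → ℝ) : Fin d × Fin R → ℝ :=
  fun q => ∑ i, if h q.1 i = q.2 then x i else 0

/-- One round of stage 1, on the pair (measurement, current approximation). -/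
def stage1Step {n d R : ℕ} (θ : (Fin d → ℝ) → ℝ) (h : Fin d → Fin n → Fin R)
    (w : (Fin d × Fin R) ⊕ Fin n → ℝ) : (Fin d × Fin R) ⊕ Fin n → ℝ :=
  Sum.elim (fun q => w (Sum.inl q))
    (fun i => w (Sum.inr i) + θ (fun l => w (Sum.inl (l, h l i)) - hm h (fun i' => w (Sum.inr i')) (l, h l i)))

theorem stage1_hm_fast {n d R : ℕ} (h : Fin d → Fin n → Fin R) : FastMap (3 * (d * n) + d * R) (hm h) := by
  have h1 := fast_sparse (I := Fin n) (J := Fin d × Fin R) (fun q i => if h q.1 i = q.2 then (1 : ℝ) else 0)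
  have h2 : (mv (fun (q : Fin d × Fin R) (i : Fin n) => if h q.1 i = q.2 then (1 : ℝ) else 0)) = hm h := by
    funext x q
    unfold mv hm
    apply Finset.sum_congr rfl
    intro i _
    by_cases hq : h q.1 i = q.2 <;> simp [hq]
  rw [h2] at h1
  refine fast_mono h1 (le_of_eq ?_)
  have h3 : ∑ j : Fin d × Fin R, (univ.filter (fun i : Fin n => (if h j.1 i = j.2 then (1 : ℝ) else 0) ≠ 0)).card
      = d * n := by
    have h4 : ∀ j : Fin d × Fin R,
        (univ.filter (fun i : Fin n => (if h j.1 i = j.2 then (1 : ℝ) else 0) ≠ 0)).card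
        = ∑ i : Fin n, if h j.1 i = j.2 then 1 else 0 := by
      intro j
      rw [Finset.card_filter]
      apply Finset.sum_congr rfl
      intro i _
      by_cases hq : h j.1 i = j.2 <;> simp [hq]
    simp_rw [h4]
    rw [Fintype.sum_prod_type]
    have h5 : ∀ l : Fin d, ∑ ρ : Fin R, ∑ i : Fin n, (if h l i = ρ then 1 else 0) = n := by
      intro l
      rw [Finset.sum_comm]
      simp
    calc _ = ∑ _l : Fin d, n := Finset.sum_congr rfl (fun l _ => h5 l)
      _ = d * n := by simp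
  rw [h3]
  simp

theorem stage1_step_fast {n d R : ℕ} {T : ℕ} (θ : (Fin d → ℝ) → ℝ) (h : Fin d → Fin n → Fin R)
    (hθ : FastMap T (fun x (_ : Unit) => θ x)) :
    FastMap (3 * (d * n) + 2 * (d * R) + n * T + n) (stage1Step θ h) := by
  have hF1 : FastMap (0 + (3 * (d * n) + d * R))
      (fun w : (Fin d × Fin R) ⊕ Fin n → ℝ => hm h (fun i => w (Sum.inr i))) :=
    fast_comp (fast_reindex (Sum.inr : Fin n → (Fin d × Fin R) ⊕ Fin n)) (stage1_hm_fast h)
  have hF2 := fast_pair (fast_reindex (Sum.inl : (Fin d × Fin R) → (Fin d × Fin R) ⊕ Fin n)) hF1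
  have hF3 := fast_comp hF2 (fast_sub (I := Fin d × Fin R))
  have hF4 : FastMap (∑ _j : Fin n, (0 + T)) (fun (r : Fin d × Fin R → ℝ) (i : Fin n) => θ (fun l => r (l, h l i))) := by
    apply fast_pi (fun _ : Fin n => 0 + T)
    intro i
    exact fast_comp (fast_reindex (fun l : Fin d => (l, h l i))) hθ
  have hF5 := fast_comp hF3 hF4
  have hF6 := fast_pair (fast_reindex (Sum.inr : Fin n → (Fin d × Fin R) ⊕ Fin n)) hF5
  have hF7 := fast_comp hF6 (fast_add (I := Fin n))
  have hF8 := fast_pair (fast_reindex (Sum.inl : (Fin d × Fin R) → (Fin d × Fin R) ⊕ Fin n)) hF7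
  have hle : 0 + (0 + (0 + (0 + (3 * (d * n) + d * R)) + Fintype.card (Fin d × Fin R) + ∑ _j : Fin n, (0 + T)) + Fintype.card (Fin n))
      ≤ 3 * (d * n) + 2 * (d * R) + n * T + n := by
    simp only [Fintype.card_prod, Fintype.card_fin, Finset.sum_const, Finset.card_univ, smul_eq_mul]
    ring_nf
    exact le_refl _
  exact fast_mono hF8 hle

theorem stage1_iter_fast {I : Type} {T : ℕ} (F : (I → ℝ) → (I → ℝ)) (hF : FastMap T F) (t : ℕ) :
    FastMap (t * T) (F^[t]) := by
  induction t with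
  | zero =>
    have h := fast_reindex (fun i : I => i)
    rw [Nat.zero_mul]
    exact h
  | succ t ih =>
    have h := fast_comp ih hF
    rw [Function.iterate_succ']
    refine fast_mono h (le_of_eq ?_)
    ring

theorem stage1_median {d : ℕ} (θ : (Fin d → ℝ) → ℝ)
    (hθ : ∀ x : Fin d → ℝ, (univ.filter (fun i => θ x < x i)).card ≤ d / 2 ∧
        d / 2 + 1 ≤ (univ.filter (fun i => θ x ≤ x i)).card)
    (x : Fin d → ℝ) (z V : ℝ) (B : Finset (Fin d)) (hB : 2 * B.card < d) (hx : ∀ l, l ∉ B → |x l - z| ≤ V) :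
    |θ x - z| ≤ V := by
  obtain ⟨h1, h2⟩ := hθ x
  rw [abs_le]
  constructor
  · by_contra hcon
    push Not at hcon
    have h3 : Bᶜ ⊆ univ.filter (fun i => θ x < x i) := by
      intro l hl
      rw [Finset.mem_compl] at hl
      rw [Finset.mem_filter]
      refine ⟨Finset.mem_univ _, ?_⟩
      have h4 := (abs_le.mp (hx l hl)).1
      linarith
    have h5 := Finset.card_le_card h3
    rw [Finset.card_compl, Fintype.card_fin] at h5
    omega
  · by_contra hcon
    push Not at hcon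
    have h3 : univ.filter (fun i => θ x ≤ x i) ⊆ B := by
      intro l hl
      rw [Finset.mem_filter] at hl
      by_contra hlB
      have h4 := (abs_le.mp (hx l hlB)).2
      linarith [hl.2]
    have h5 := Finset.card_le_card h3
    omega

/-- The bound for the approximation after one round. -/
theorem stage1_round {n d R : ℕ} (θ : (Fin d → ℝ) → ℝ)
    (hθ : ∀ x : Fin d → ℝ, (univ.filter (fun i => θ x < x i)).card ≤ d / 2 ∧
        d / 2 + 1 ≤ (univ.filter (fun i => θ x ≤ x i)).card)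
    (h : Fin d → Fin n → Fin R) (x z : Fin n → ℝ) (U : Finset (Fin n)) :
    ∑ i ∈ (conf h U)ᶜ, |x i - (z i + θ (fun l => hm h x (l, h l i) - hm h z (l, h l i)))|
      ≤ n * ∑ i ∈ Uᶜ, |x i - z i| := by
  have h1 : ∀ i ∈ (conf h U)ᶜ, |x i - (z i + θ (fun l => hm h x (l, h l i) - hm h z (l, h l i)))|
      ≤ ∑ i ∈ Uᶜ, |x i - z i| := by
    intro i hi
    rw [Finset.mem_compl] at hi
    unfold conf at hi
    rw [Finset.mem_filter] at hi
    push Not at hi
    have hi' := hi (Finset.mem_univ _)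
    have h2 := stage1_median θ hθ (fun l => hm h x (l, h l i) - hm h z (l, h l i)) (x i - z i)
      (∑ i ∈ Uᶜ, |x i - z i|) (univ.filter (fun l => ∃ i' ∈ U, i' ≠ i ∧ h l i' = h l i)) hi' ?_
    · have h3 : x i - (z i + θ (fun l => hm h x (l, h l i) - hm h z (l, h l i)))
          = -(θ (fun l => hm h x (l, h l i) - hm h z (l, h l i)) - (x i - z i)) := by ring
      rw [h3, abs_neg]
      exact h2
    · intro l hl
      rw [Finset.mem_filter] at hl
      push Not at hl
      have hl' := hl (Finset.mem_univ _)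
      have h3 : hm h x (l, h l i) - hm h z (l, h l i) - (x i - z i)
          = ∑ i' ∈ univ.filter (fun i' => i' ≠ i ∧ h l i' = h l i), (x i' - z i') := by
        have h4 : hm h x (l, h l i) - hm h z (l, h l i)
            = ∑ i' : Fin n, if h l i' = h l i then (x i' - z i') else 0 := by
          unfold hm
          rw [← Finset.sum_sub_distrib]
          apply Finset.sum_congr rfl
          intro i' _
          by_cases hq : h l i' = h l i <;> simp [hq]
        rw [h4, ← Finset.add_sum_erase _ _ (Finset.mem_univ i)]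
        rw [if_pos rfl, add_sub_cancel_left, ← Finset.sum_filter]
        apply Finset.sum_congr _ (fun _ _ => rfl)
        ext i'
        simp
      rw [h3]
      refine (Finset.abs_sum_le_sum_abs _ _).trans ?_
      apply Finset.sum_le_sum_of_subset_of_nonneg
      · intro i' hi'
        rw [Finset.mem_filter] at hi'
        rw [Finset.mem_compl]
        intro hU
        exact hl' i' hU hi'.2.1 hi'.2.2
      · intro _ _ _
        exact abs_nonneg _
  refine (Finset.sum_le_sum h1).trans ?_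
  rw [Finset.sum_const, nsmul_eq_mul]
  apply mul_le_mul_of_nonneg_right
  · have h3 := Finset.card_le_univ (conf h U)ᶜ
    rw [Fintype.card_fin] at h3
    exact_mod_cast h3
  · exact Finset.sum_nonneg (fun _ _ => abs_nonneg _)

theorem stage1_inv {n d R k : ℕ} (θ : (Fin d → ℝ) → ℝ)
    (hθ : ∀ x : Fin d → ℝ, (univ.filter (fun i => θ x < x i)).card ≤ d / 2 ∧
        d / 2 + 1 ≤ (univ.filter (fun i => θ x ≤ x i)).card)
    (h : Fin d → Fin n → Fin R) (hconf : ∀ U : Finset (Fin n), U.card ≤ k → 2 * (conf h U).card ≤ U.card)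
    (x x' : Fin n → ℝ) (hx' : (univ.filter (fun i => x' i ≠ 0)).card ≤ k) (t : ℕ) :
    (∀ q, (stage1Step θ h)^[t] (Sum.elim (hm h x) (fun _ => 0)) (Sum.inl q) = hm h x q) ∧
    ∃ U : Finset (Fin n), 2 ^ t * U.card ≤ k ∧
      ∑ i ∈ Uᶜ, |x i - (stage1Step θ h)^[t] (Sum.elim (hm h x) (fun _ => 0)) (Sum.inr i)|
        ≤ (n : ℝ) ^ t * nab (fun i => x i - x' i) := by
  induction t with
  | zero =>
    refine ⟨fun q => rfl, univ.filter (fun i => x' i ≠ 0), by simpa using hx', ?_⟩
    rw [pow_zero, one_mul]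
    unfold nab
    have h1 : ∑ i ∈ (univ.filter (fun i => x' i ≠ 0))ᶜ,
        |x i - (stage1Step θ h)^[0] (Sum.elim (hm h x) (fun _ => 0)) (Sum.inr i)|
        = ∑ i ∈ (univ.filter (fun i => x' i ≠ 0))ᶜ, |x i - x' i| := by
      apply Finset.sum_congr rfl
      intro i hi
      rw [Finset.mem_compl, Finset.mem_filter] at hi
      push Not at hi
      rw [hi (Finset.mem_univ _)]
      rfl
    rw [h1]
    exact Finset.sum_le_univ_sum_of_nonneg (fun i => abs_nonneg _)
  | succ t ih =>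
    obtain ⟨ih1, U, hU1, hU2⟩ := ih
    set w := (stage1Step θ h)^[t] (Sum.elim (hm h x) (fun _ => 0)) with hw
    rw [Function.iterate_succ', Function.comp_apply, ← hw]
    refine ⟨fun q => ?_, conf h U, ?_, ?_⟩
    · show w (Sum.inl q) = _
      exact ih1 q
    · have h1 : U.card ≤ k := by
        have h2 : 1 ≤ 2 ^ t := Nat.one_le_two_pow
        nlinarith
      have h2 := hconf U h1
      calc 2 ^ (t + 1) * (conf h U).card = 2 ^ t * (2 * (conf h U).card) := by ring
        _ ≤ 2 ^ t * U.card := Nat.mul_le_mul_left _ h2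
        _ ≤ k := hU1
    · have h1 := stage1_round θ hθ h x (fun i => w (Sum.inr i)) U
      have h2 : ∀ i, stage1Step θ h w (Sum.inr i)
          = w (Sum.inr i) + θ (fun l => hm h x (l, h l i) - hm h (fun i => w (Sum.inr i)) (l, h l i)) := by
        intro i
        show w (Sum.inr i) + θ (fun l => w (Sum.inl (l, h l i)) - hm h (fun i' => w (Sum.inr i')) (l, h l i)) = _
        simp_rw [ih1]
      simp_rw [h2]
      refine h1.trans ?_
      calc (n : ℝ) * ∑ i ∈ Uᶜ, |x i - w (Sum.inr i)|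
          ≤ n * ((n : ℝ) ^ t * nab (fun i => x i - x' i)) :=
            mul_le_mul_of_nonneg_left hU2 (Nat.cast_nonneg n)
        _ = _ := by ring

/-- Stage 1: there is a decoding map of near-linear cost. -/
theorem stage1 (c0 : ℕ) : ∃ (c e : ℕ), ∀ n k d R : ℕ, 1 ≤ k → 2 * k ≤ n → 1 ≤ d → R ≤ n →
    d ≤ c0 * (Nat.log 2 n + 1) →
    ∀ h : Fin d → Fin n → Fin R, (∀ U : Finset (Fin n), U.card ≤ k → 2 * (conf h U).card ≤ U.card) →
    ∃ Δ : (Fin d × Fin R → ℝ) → (Fin n → ℝ), FastMap (c * n * (Nat.log 2 n + 1) ^ e) Δ ∧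
      ∀ (x x' : Fin n → ℝ), (univ.filter (fun i => x' i ≠ 0)).card ≤ k →
        nab (fun i => x i - Δ (hm h x) i) ≤ (n : ℝ) ^ (Nat.log 2 k + 1) * nab (fun i => x i - x' i) := by
  obtain ⟨co, hco⟩ := exists_ostat
  refine ⟨5 * c0 + co * c0 * (c0 + 1) ^ 2 + 2, 4, ?_⟩
  intro n k d R hk hkn hd hR hdL h hconf
  obtain ⟨θ, hθ1, hθ2⟩ := hco d (d / 2) (Nat.div_lt_self hd (by norm_num))
  have hstep := stage1_step_fast θ h hθ1
  have hiter := stage1_iter_fast _ hstep (Nat.log 2 k + 1)
  have hzero : FastMap (3 * (∅ : Finset (Fin d × Fin R)).card + 1 + 0)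
      (fun (_ : Fin d × Fin R → ℝ) (_ : Fin n) => (0 : ℝ)) := by
    have h1 := fast_comp (fast_lin (∅ : Finset (Fin d × Fin R)) (fun _ => (0 : ℝ)))
      (fast_reindex (fun _ : Fin n => ()))
    simp only [Finset.sum_empty] at h1
    exact h1
  have hinit := fast_pair (fast_reindex (fun q : Fin d × Fin R => q)) hzero
  have hall := fast_comp (fast_comp hinit hiter) (fast_reindex (Sum.inr : Fin n → (Fin d × Fin R) ⊕ Fin n))
  refine ⟨fun y i => (stage1Step θ h)^[Nat.log 2 k + 1] (Sum.elim y (fun _ => 0)) (Sum.inr i), ?_, ?_⟩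
  · refine fast_mono hall ?_
    rw [Finset.card_empty]
    set L := Nat.log 2 n + 1 with hL
    have hL1 : 1 ≤ L := Nat.le_add_left 1 _
    have hn1 : 1 ≤ n := by omega
    have hkL : Nat.log 2 k + 1 ≤ L := by
      rw [hL]
      have := Nat.log_mono_right (b := 2) (show k ≤ n by omega)
      omega
    have hlogd : Nat.log 2 d + 1 ≤ (c0 + 1) * L := by
      have h1 : Nat.log 2 d ≤ d := Nat.log_le_self 2 d
      nlinarith
    have hLpow : L ≤ L ^ 3 := by
      calc L = L ^ 1 := (pow_one L).symm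
        _ ≤ L ^ 3 := Nat.pow_le_pow_right hL1 (by norm_num)
    have hL3 : 1 ≤ L ^ 3 := Nat.one_le_pow _ _ hL1
    have hL4 : 1 ≤ L ^ 4 := Nat.one_le_pow _ _ hL1
    have hdn : d * n ≤ c0 * n * L ^ 3 := by
      calc d * n ≤ (c0 * L) * n := Nat.mul_le_mul_right _ hdL
        _ = c0 * n * L := by ring
        _ ≤ c0 * n * L ^ 3 := Nat.mul_le_mul_left _ hLpow
    have hdR : d * R ≤ c0 * n * L ^ 3 := (Nat.mul_le_mul_left _ hR).trans hdn
    have hmed : n * (co * d * (Nat.log 2 d + 1) ^ 2) ≤ co * c0 * (c0 + 1) ^ 2 * n * L ^ 3 := by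
      have h1 : (Nat.log 2 d + 1) ^ 2 ≤ ((c0 + 1) * L) ^ 2 := Nat.pow_le_pow_left hlogd 2
      calc n * (co * d * (Nat.log 2 d + 1) ^ 2) ≤ n * (co * (c0 * L) * ((c0 + 1) * L) ^ 2) := by
            apply Nat.mul_le_mul_left
            exact Nat.mul_le_mul (Nat.mul_le_mul_left _ hdL) h1
        _ = _ := by ring
    have hn3 : n ≤ n * L ^ 3 := Nat.le_mul_of_pos_right _ hL3
    have hround : 3 * (d * n) + 2 * (d * R) + n * (co * d * (Nat.log 2 d + 1) ^ 2) + n
        ≤ (5 * c0 + co * c0 * (c0 + 1) ^ 2 + 1) * (n * L ^ 3) := by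
      calc _ ≤ 3 * (c0 * n * L ^ 3) + 2 * (c0 * n * L ^ 3) + co * c0 * (c0 + 1) ^ 2 * n * L ^ 3 + n * L ^ 3 := by
            omega
        _ = _ := by ring
    calc 0 + (3 * 0 + 1 + 0) + (Nat.log 2 k + 1) *
          (3 * (d * n) + 2 * (d * R) + n * (co * d * (Nat.log 2 d + 1) ^ 2) + n) + 0
        ≤ 1 + L * ((5 * c0 + co * c0 * (c0 + 1) ^ 2 + 1) * (n * L ^ 3)) := by
          have := Nat.mul_le_mul hkL hround
          omega
      _ ≤ n * L ^ 4 + L * ((5 * c0 + co * c0 * (c0 + 1) ^ 2 + 1) * (n * L ^ 3)) := by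
          have : 1 * 1 ≤ n * L ^ 4 := Nat.mul_le_mul hn1 hL4
          omega
      _ = _ := by ring
  · intro x x' hx'
    obtain ⟨-, U, hU1, hU2⟩ := stage1_inv θ hθ2 h hconf x x' hx' (Nat.log 2 k + 1)
    have hU0 : U = ∅ := by
      rw [← Finset.card_eq_zero]
      by_contra hne
      have h1 : 1 ≤ U.card := Nat.one_le_iff_ne_zero.mpr hne
      have h2 : k < 2 ^ (Nat.log 2 k + 1) := Nat.lt_pow_succ_log_self (by norm_num) k
      nlinarith
    rw [hU0, Finset.compl_empty] at hU2
    exact hU2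

end Pool.Agent.Helper951_sr
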