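import Pool.Agent.Helper951_sr.Defs
import Pool.Agent.Helper951_sr.Calc
import Pool.Agent.Helper951_sr.Ostat

/-!
Project SR (helper951, MP_72d76c_lc). Job THR: hard thresholding.
-/

namespace Pool.Agent.Helper951_sr

open Finset

theorem thr_sums {n k : ℕ} (a b h : Fin n → ℝ) (θ : ℝ) (hθ : 0 ≤ θ) (P S R : Finset (Fin n))
    (hP : ∀ i, i ∈ P ↔ θ < |a i|) (hS : ∀ i, i ∈ S ↔ b i ≠ 0) (hRS : Disjoint R S)
    (hR : ∀ i ∈ R, θ ≤ |a i|) (hSc : S.card ≤ 2 * k) (hRc : R.card = 2 * k)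
    (hh : ∀ i, h i = if |a i| ≤ θ then 0 else a i) :
    nsq (fun i => h i - b i) ≤ 4 * ∑ i ∈ (P ∪ S ∪ R), (a i - b i) ^ 2 := by
  classical
  have h1 : nsq (fun i => h i - b i) ≤ ∑ i ∈ P, (a i - b i) ^ 2 + 2 * ∑ i ∈ S \ P, (a i - b i) ^ 2 +
      2 * ∑ i ∈ S \ P, (a i) ^ 2 := by
    have e1 : ∑ i ∈ P, (a i - b i) ^ 2 = ∑ i, if i ∈ P then (a i - b i) ^ 2 else 0 := by
      rw [← sum_filter]; congr 1; ext i; simp
    have e2 : ∑ i ∈ S \ P, (a i - b i) ^ 2 = ∑ i, if i ∈ S \ P then (a i - b i) ^ 2 else 0 := by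
      rw [← sum_filter]; congr 1; ext i; simp
    have e3 : ∑ i ∈ S \ P, (a i) ^ 2 = ∑ i, if i ∈ S \ P then (a i) ^ 2 else 0 := by
      rw [← sum_filter]; congr 1; ext i; simp
    rw [e1, e2, e3, nsq, mul_sum, mul_sum, ← sum_add_distrib, ← sum_add_distrib]
    apply sum_le_sum
    intro i _
    rw [hh i]
    by_cases hiP : i ∈ P
    · have h2 : ¬ |a i| ≤ θ := not_le.2 ((hP i).1 hiP)
      rw [if_neg h2, if_pos hiP, if_neg (by simp [hiP]), if_neg (by simp [hiP])]
      linarith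
    · have h2 : |a i| ≤ θ := not_lt.1 (fun hc => hiP ((hP i).2 hc))
      rw [if_pos h2, if_neg hiP]
      by_cases hiS : i ∈ S
      · rw [if_pos (by simp [hiP, hiS]), if_pos (by simp [hiP, hiS])]
        nlinarith [sq_nonneg (2 * a i - b i)]
      · rw [if_neg (by simp [hiS]), if_neg (by simp [hiS])]
        have : b i = 0 := by
          by_contra hc
          exact hiS ((hS i).2 hc)
        rw [this]; norm_num
  have h2 : ∑ i ∈ S \ P, (a i) ^ 2 ≤ ∑ i ∈ R, (a i - b i) ^ 2 := by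
    calc ∑ i ∈ S \ P, (a i) ^ 2 ≤ ∑ i ∈ S \ P, θ ^ 2 := by
          apply sum_le_sum
          intro i hi
          have : |a i| ≤ θ := not_lt.1 (fun hc => (mem_sdiff.1 hi).2 ((hP i).2 hc))
          exact sq_le_sq' (by linarith [neg_abs_le (a i)]) ((le_abs_self _).trans this)
      _ = ((S \ P).card : ℝ) * θ ^ 2 := by rw [sum_const, nsmul_eq_mul]
      _ ≤ (R.card : ℝ) * θ ^ 2 := by
          apply mul_le_mul_of_nonneg_right _ (sq_nonneg _)
          have : (S \ P).card ≤ S.card := card_le_card sdiff_subset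
          exact_mod_cast (by omega : (S \ P).card ≤ R.card)
      _ = ∑ i ∈ R, θ ^ 2 := by rw [sum_const, nsmul_eq_mul]
      _ ≤ ∑ i ∈ R, (a i - b i) ^ 2 := by
          apply sum_le_sum
          intro i hi
          have hb : b i = 0 := by
            by_contra hc
            exact (Finset.disjoint_left.1 hRS hi) ((hS i).2 hc)
          rw [hb, sub_zero, ← sq_abs (a i)]
          have := hR i hi
          gcongr
  have h3 : ∑ i ∈ R, (a i - b i) ^ 2 ≤ ∑ i ∈ (P ∪ S ∪ R), (a i - b i) ^ 2 :=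
    sum_le_sum_of_subset_of_nonneg subset_union_right (fun _ _ _ => sq_nonneg _)
  have h4 : ∑ i ∈ P, (a i - b i) ^ 2 + ∑ i ∈ S \ P, (a i - b i) ^ 2 ≤ ∑ i ∈ (P ∪ S ∪ R), (a i - b i) ^ 2 := by
    rw [← sum_union disjoint_sdiff]
    apply sum_le_sum_of_subset_of_nonneg _ (fun _ _ _ => sq_nonneg _)
    intro i hi
    simp only [mem_union, mem_sdiff] at hi ⊢
    tauto
  have h5 : 0 ≤ ∑ i ∈ P, (a i - b i) ^ 2 := sum_nonneg (fun _ _ => sq_nonneg _)
  have h6 : 0 ≤ ∑ i ∈ R, (a i - b i) ^ 2 := sum_nonneg (fun _ _ => sq_nonneg _)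
  linarith

/-- hard thresholding operators -/
theorem exists_thr : ∃ (c : ℕ), ∀ n k : ℕ, 1 ≤ k → 4 * k < n → ∃ H : (Fin n → ℝ) → (Fin n → ℝ),
    FastMap (c * n * (Nat.log 2 n + 1) ^ 2) H ∧
      (∀ a, (univ.filter (fun i => H a i ≠ 0)).card ≤ 4 * k) ∧
      ∀ (a : Fin n → ℝ) (b : Fin n → ℝ), (univ.filter (fun i => b i ≠ 0)).card ≤ 2 * k →
        ∃ T : Finset (Fin n), T.card ≤ 8 * k ∧ (∀ i, b i ≠ 0 → i ∈ T) ∧ (∀ i, H a i ≠ 0 → i ∈ T) ∧
          Real.sqrt (nsq (fun i => H a i - b i)) ≤ 2 * Real.sqrt (∑ i ∈ T, (a i - b i) ^ 2) := by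
  classical
  obtain ⟨c, hc⟩ := exists_ostat
  refine ⟨c + 5, ?_⟩
  intro n k hk hkn
  obtain ⟨θ, hθf, hθ⟩ := hc n (4 * k) hkn
  refine ⟨fun a i => if |a i| ≤ θ (fun j => |a j|) then 0 else a i, ?_, ?_, ?_⟩
  · intro α P x hx
    have c1 : Comp (3 * n) P {f | ∃ j, f = fun a => |x a j|} := by
      have := fast_abs α P x hx
      rwa [Fintype.card_fin] at this
    have c2 : Comp (c * n * (Nat.log 2 n + 1) ^ 2) (P ∪ {f | ∃ j, f = fun a => |x a j|})
        {fun a => θ (fun i => |x a i|)} := by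
      have := hθf α (P ∪ {f | ∃ j, f = fun a => |x a j|}) (fun a i => |x a i|) (fun i => Or.inr ⟨i, rfl⟩)
      refine comp_mono this (le_refl _) (Set.Subset.refl _) ?_
      rintro f rfl
      exact ⟨(), rfl⟩
    have c3 : Comp 1 (P ∪ ({f | ∃ j, f = fun a => |x a j|} ∪ {fun a => θ (fun i => |x a i|)}))
        {fun _ => (0 : ℝ)} := comp_one _ _ (Instr.const 0)
    have c4 : Comp n (P ∪ (({f | ∃ j, f = fun a => |x a j|} ∪ {fun a => θ (fun i => |x a i|)}) ∪
        {fun _ => (0 : ℝ)}))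
        {f | ∃ j < n, f = (fun (j : ℕ) (a : α) => if h : j < n then
          (if |x a ⟨j, h⟩| ≤ θ (fun i => |x a i|) then 0 else x a ⟨j, h⟩) else 0) j} := by
      apply ostat_comp_fin
      intro j hj
      have e : (fun (a : α) => if h : j < n then
          (if |x a ⟨j, h⟩| ≤ θ (fun i => |x a i|) then 0 else x a ⟨j, h⟩) else 0) =
          fun a => if |x a ⟨j, hj⟩| ≤ θ (fun i => |x a i|) then 0 else x a ⟨j, hj⟩ := by
        funext a
        rw [dif_pos hj]
      rw [e]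
      apply comp_one
      exact Instr.sel (fun a => |x a ⟨j, hj⟩|) (fun a => θ (fun i => |x a i|)) (fun _ => 0) (fun a => x a ⟨j, hj⟩)
        (Or.inr (Or.inl (Or.inl ⟨_, rfl⟩))) (Or.inr (Or.inl (Or.inr rfl))) (Or.inr (Or.inr rfl))
        (Or.inl (hx _))
    have c5 := comp_trans (comp_trans (comp_trans c1 c2) c3) c4
    refine comp_mono c5 ?_ (Set.Subset.refl _) ?_
    · have h1 : 1 ≤ (Nat.log 2 n + 1) ^ 2 := Nat.one_le_pow _ _ (by omega)
      have h2 : n ≤ n * (Nat.log 2 n + 1) ^ 2 := Nat.le_mul_of_pos_right _ (by omega)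
      have h3 : (c + 5) * n * (Nat.log 2 n + 1) ^ 2 = c * n * (Nat.log 2 n + 1) ^ 2 +
        5 * (n * (Nat.log 2 n + 1) ^ 2) := by ring
      rw [h3]
      omega
    · rintro f ⟨j, rfl⟩
      right
      refine ⟨j, j.2, ?_⟩
      funext a
      simp only [Fin.eta, dif_pos j.2]
  · intro a
    refine le_trans (card_le_card ?_) (hθ (fun j => |a j|)).1
    intro i hi
    rw [mem_filter] at hi ⊢
    refine ⟨mem_univ _, ?_⟩
    by_contra hcon
    apply hi.2
    exact if_pos (not_lt.1 hcon)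
  · intro a b hb
    obtain ⟨h1, h2⟩ := hθ (fun j => |a j|)
    obtain ⟨t, ht⟩ : ∃ t, t = θ (fun j => |a j|) := ⟨_, rfl⟩
    simp only at h1 h2 ⊢
    rw [← ht] at h1 h2 ⊢
    have ht0 : 0 ≤ t := by
      by_contra hcon
      have : (univ.filter (fun i : Fin n => t < |a i|)) = univ := by
        apply filter_true_of_mem
        intro i _
        exact lt_of_lt_of_le (not_le.1 hcon) (abs_nonneg _)
      rw [this, card_univ, Fintype.card_fin] at h1
      omega
    set P := univ.filter (fun i : Fin n => t < |a i|) with hPdef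
    set S := univ.filter (fun i : Fin n => b i ≠ 0) with hSdef
    have h3 : 2 * k ≤ ((univ.filter (fun i : Fin n => t ≤ |a i|)) \ S).card := by
      have := le_card_sdiff S (univ.filter (fun i : Fin n => t ≤ |a i|))
      omega
    obtain ⟨R, hRsub, hRc⟩ := exists_subset_card_eq h3
    have hmain := thr_sums (k := k) a b (fun i => if |a i| ≤ t then 0 else a i) t ht0 P S R (by simp [hPdef])
      (by simp [hSdef]) (by
        rw [Finset.disjoint_left]
        intro i hi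
        exact (mem_sdiff.1 (hRsub hi)).2) (by
        intro i hi
        exact (mem_filter.1 (mem_sdiff.1 (hRsub hi)).1).2) hb hRc (fun i => rfl)
    refine ⟨P ∪ S ∪ R, ?_, ?_, ?_, ?_⟩
    · have := card_union_le (P ∪ S) R
      have := card_union_le P S
      omega
    · intro i hi
      simp [hSdef, hi]
    · intro i hi
      have : t < |a i| := by
        by_contra hcon
        apply hi
        rw [if_pos (not_lt.1 hcon)]
      simp [hPdef, this]
    · have e : (2 : ℝ) = Real.sqrt 4 := by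
        rw [show (4 : ℝ) = 2 ^ 2 by norm_num, Real.sqrt_sq (by norm_num)]
      rw [e, ← Real.sqrt_mul (by norm_num)]
      exact Real.sqrt_le_sqrt hmain

end Pool.Agent.Helper951_sr
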