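import Pool.Agent.Helper951_sr.FastRip
import Pool.Agent.Helper951_sr.HashFam
import Pool.Agent.Helper951_sr.Stage1
import Pool.Agent.Helper951_sr.Thr
import Pool.Agent.Helper951_sr.Iht
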