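import Pool.Agent.Helper951_sr.Defs
import Pool.Agent.Helper951_sr.Iht

/-!
Project SR (helper951, MP_72d76c_lc). Error analysis of stage 2 of the decoder.
-/

namespace Pool.Agent.Helper951_sr

open Finset

theorem dec_nsq_nonneg {ι : Type} [Fintype ι] (x : ι → ℝ) : 0 ≤ nsq x :=
  Finset.sum_nonneg (fun _ _ => sq_nonneg _)

theorem dec_nab_nonneg {ι : Type} [Fintype ι] (x : ι → ℝ) : 0 ≤ nab x :=
  Finset.sum_nonneg (fun _ _ => abs_nonneg _)

/-- triangle inequality for the Euclidean norm, via `EuclideanSpace` -/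
theorem dec_sqrt_nsq_add {ι : Type} [Fintype ι] (x y : ι → ℝ) :
    Real.sqrt (nsq (fun i => x i + y i)) ≤ Real.sqrt (nsq x) + Real.sqrt (nsq y) := by
  have h := norm_add_le (WithLp.toLp 2 x : EuclideanSpace ℝ ι) (WithLp.toLp 2 y)
  simpa [EuclideanSpace.norm_eq, nsq, Real.norm_eq_abs, sq_abs] using h

theorem dec_sqrt_nsq_le_nab {ι : Type} [Fintype ι] (x : ι → ℝ) : Real.sqrt (nsq x) ≤ nab x := by
  rw [Real.sqrt_le_left (dec_nab_nonneg x)]
  unfold nsq nab
  calc ∑ i, x i ^ 2 = ∑ i, |x i| * |x i| := by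
        refine Finset.sum_congr rfl (fun i _ => ?_)
        rw [← sq_abs]; ring
    _ ≤ ∑ i, |x i| * ∑ j, |x j| := by
        refine Finset.sum_le_sum (fun i _ => ?_)
        exact mul_le_mul_of_nonneg_left
          (Finset.single_le_sum (fun j _ => abs_nonneg (x j)) (Finset.mem_univ i)) (abs_nonneg _)
    _ = (∑ i, |x i|) ^ 2 := by rw [← Finset.sum_mul]; ring

theorem dec_mv_add {J I : Type} [Fintype I] (M : J → I → ℝ) (x y : I → ℝ) (j : J) :
    mv M (fun i => x i + y i) j = mv M x j + mv M y j := by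
  unfold mv
  rw [← Finset.sum_add_distrib]
  exact Finset.sum_congr rfl (fun i _ => by ring)

/-- Error analysis of iterative hard thresholding. -/
theorem decode_error {J : Type} [Fintype J] {n k : ℕ} (hk : 1 ≤ k) (hkn : 2 * k ≤ n) (V : J → Fin n → ℝ)
    (hV : RIP V (12 * k) (1 / 4)) (H : (Fin n → ℝ) → (Fin n → ℝ))
    (hH1 : ∀ a, (univ.filter (fun i => H a i ≠ 0)).card ≤ 4 * k)
    (hH2 : ∀ (a : Fin n → ℝ) (b : Fin n → ℝ), (univ.filter (fun i => b i ≠ 0)).card ≤ 2 * k →
        ∃ T : Finset (Fin n), T.card ≤ 8 * k ∧ (∀ i, b i ≠ 0 → i ∈ T) ∧ (∀ i, H a i ≠ 0 → i ∈ T) ∧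
          Real.sqrt (nsq (fun i => H a i - b i)) ≤ 2 * Real.sqrt (∑ i ∈ T, (a i - b i) ^ 2))
    (x x' : Fin n → ℝ) (hx' : (univ.filter (fun i => x' i ≠ 0)).card ≤ k) (x1 : Fin n → ℝ) (P : ℝ)
    (hP : nab (fun i => x i - x1 i) ≤ P * nab (fun i => x i - x' i))
    (z : ℕ → Fin n → ℝ) (hz0 : z 0 = H x1)
    (hz : ∀ t, z (t + 1) = H (fun i => z t i + tv V (fun j => mv V x j - mv V (z t) j) i)) (t : ℕ) :
    Real.sqrt (∑ i, (z t i - x i) ^ 2) ≤
      (1 / 2) ^ t * (2 * (P + 1) * nab (fun i => x i - x' i)) + 11 * nab (fun i => x i - x' i) / Real.sqrt k := by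
  set E := nab (fun i => x i - x' i) with hE
  have hE0 : 0 ≤ E := dec_nab_nonneg _
  have hk0 : (0:ℝ) < k := by exact_mod_cast hk
  have hsk : 0 < Real.sqrt k := Real.sqrt_pos.mpr hk0
  obtain ⟨S, hSc, hSx', hS⟩ := head_set hk hkn x x' hx'
  set b : Fin n → ℝ := fun i => if i ∈ S then x i else 0 with hb
  set r : Fin n → ℝ := fun i => if i ∈ S then 0 else x i with hr
  have hxbr : x = fun i => b i + r i := by
    funext i; simp only [hb, hr]; split_ifs <;> simp
  have hbsupp : (univ.filter (fun i => b i ≠ 0)).card ≤ 2 * k := by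
    refine le_trans (Finset.card_le_card ?_) hSc
    intro i hi
    simp only [Finset.mem_filter, Finset.mem_univ, true_and, hb] at hi
    by_contra h
    simp [h] at hi
  have hr1 : ∀ i, |r i| ≤ E / k := by
    intro i
    by_cases hi : i ∈ S
    · simp only [hr, hi, if_true, abs_zero]; positivity
    · simp only [hr, hi, if_false]; exact hS i hi
  have hr2' : ∀ i, |r i| ≤ |x i - x' i| := by
    intro i
    by_cases hi : i ∈ S
    · simp only [hr, hi, if_true, abs_zero]; positivity
    · have : x' i = 0 := by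
        by_contra h
        exact hi (hSx' i h)
      simp only [hr, hi, if_false, this, sub_zero, le_refl]
  have hr2 : nab r ≤ E := Finset.sum_le_sum (fun i _ => hr2' i)
  have hrn : Real.sqrt (nsq r) ≤ E / Real.sqrt k := by
    rw [Real.sqrt_le_left (by positivity)]
    calc nsq r = ∑ i, |r i| * |r i| := by
          unfold nsq; refine Finset.sum_congr rfl (fun i _ => ?_); rw [← sq_abs]; ring
      _ ≤ ∑ i, (E / k) * |r i| :=
          Finset.sum_le_sum (fun i _ => mul_le_mul_of_nonneg_right (hr1 i) (abs_nonneg _))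
      _ = (E / k) * nab r := by rw [← Finset.mul_sum]; rfl
      _ ≤ (E / k) * E := mul_le_mul_of_nonneg_left hr2 (by positivity)
      _ = (E / Real.sqrt k) ^ 2 := by
          rw [div_pow, Real.sq_sqrt hk0.le]; ring
  set e : J → ℝ := mv V r with he
  have hen : Real.sqrt (nsq e) ≤ Real.sqrt (5 / 4) * (2 * E / Real.sqrt k) :=
    tail_bound hk (by omega) V hV r E hr1 hr2
  have h54 : Real.sqrt (5 / 4) * Real.sqrt (5 / 4) = 5 / 4 := Real.mul_self_sqrt (by norm_num)
  have h54' : 0 ≤ Real.sqrt (5 / 4) := Real.sqrt_nonneg _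
  -- the error recursion
  have hrec : ∀ t, Real.sqrt (nsq (fun i => z t i - b i)) ≤
      (1 / 2) ^ t * (2 * (P + 1) * E) + 10 * E / Real.sqrt k := by
    intro t
    induction t with
    | zero =>
      obtain ⟨T, hT, hbT, hHT, hTn⟩ := hH2 x1 b hbsupp
      rw [hz0]
      refine hTn.trans ?_
      have h1 : Real.sqrt (∑ i ∈ T, (x1 i - b i) ^ 2) ≤ (P + 1) * E := by
        calc Real.sqrt (∑ i ∈ T, (x1 i - b i) ^ 2) ≤ Real.sqrt (nsq (fun i => x1 i - b i)) :=
              Real.sqrt_le_sqrt (Finset.sum_le_sum_of_subset_of_nonneg (Finset.subset_univ _)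
                (fun _ _ _ => sq_nonneg _))
          _ ≤ nab (fun i => x1 i - b i) := dec_sqrt_nsq_le_nab _
          _ ≤ ∑ i, (|x i - x1 i| + |r i|) := by
              refine Finset.sum_le_sum (fun i _ => ?_)
              have hx : x i = b i + r i := congrFun hxbr i
              have h0 : x1 i - b i = -(x i - x1 i) + r i := by rw [hx]; ring
              show |x1 i - b i| ≤ |x i - x1 i| + |r i|
              rw [h0]
              exact (abs_add_le _ _).trans (by rw [abs_neg])
          _ = nab (fun i => x i - x1 i) + nab r := Finset.sum_add_distrib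
          _ ≤ P * E + E := add_le_add hP hr2
          _ = (P + 1) * E := by ring
      have h2 : 0 ≤ 10 * E / Real.sqrt k := by positivity
      linarith [h1, h2]
    | succ t ih =>
      set w : Fin n → ℝ := fun i => z t i + tv V (fun j => mv V x j - mv V (z t) j) i with hw
      obtain ⟨T, hT, hbT, hHT, hTn⟩ := hH2 w b hbsupp
      have hz' : z (t + 1) = H w := hz t
      rw [hz']
      refine hTn.trans ?_
      have hzt : (univ.filter (fun i => z t i ≠ 0)).card ≤ 4 * k := by
        cases t with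
        | zero => rw [hz0]; exact hH1 _
        | succ s => rw [hz s]; exact hH1 _
      have hw' : ∀ i, w i = z t i + tv V (fun j => mv V b j + e j - mv V (z t) j) i := by
        intro i
        simp only [hw]
        congr 2
        funext j
        have : mv V x j = mv V b j + e j := by
          rw [he, ← dec_mv_add, ← hxbr]
        rw [this]
      have h1 := iht_step V hV (z t) b w e hzt T hT hbT hw'
      have h2 : Real.sqrt (nsq (fun i => b i - z t i)) = Real.sqrt (nsq (fun i => z t i - b i)) := by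
        congr 1; unfold nsq; exact Finset.sum_congr rfl (fun i _ => by ring)
      rw [h2] at h1
      have h3 : Real.sqrt (5 / 4) * Real.sqrt (nsq e) ≤ 5 / 4 * (2 * E / Real.sqrt k) := by
        calc Real.sqrt (5 / 4) * Real.sqrt (nsq e)
            ≤ Real.sqrt (5 / 4) * (Real.sqrt (5 / 4) * (2 * E / Real.sqrt k)) :=
              mul_le_mul_of_nonneg_left hen h54'
          _ = 5 / 4 * (2 * E / Real.sqrt k) := by rw [← mul_assoc, h54]
      have h4 : (1 / 2 : ℝ) ^ (t + 1) * (2 * (P + 1) * E) = 1 / 2 * ((1 / 2) ^ t * (2 * (P + 1) * E)) := by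
        rw [pow_succ]; ring
      rw [h4]
      have h5 : 5 / 4 * (2 * E / Real.sqrt k) = (5 / 2) * (E / Real.sqrt k) := by ring
      have h6 : 10 * E / Real.sqrt k = 10 * (E / Real.sqrt k) := by ring
      rw [h6] at ih ⊢
      rw [h5] at h3
      nlinarith [h1, h3, ih]
  have hfin : (fun i => z t i - x i) = fun i => (z t i - b i) + (-(r i)) := by
    funext i
    have hx : x i = b i + r i := congrFun hxbr i
    rw [hx]; ring
  have h1 : Real.sqrt (∑ i, (z t i - x i) ^ 2) ≤ Real.sqrt (nsq (fun i => z t i - b i)) + Real.sqrt (nsq r) := by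
    have h := dec_sqrt_nsq_add (fun i => z t i - b i) (fun i => -(r i))
    have h' : nsq (fun i => -(r i)) = nsq r := by
      unfold nsq; exact Finset.sum_congr rfl (fun i _ => by ring)
    rw [h', ← hfin] at h
    exact h
  have h2 := hrec t
  have h3 : 11 * E / Real.sqrt k = 10 * E / Real.sqrt k + E / Real.sqrt k := by ring
  rw [h3]
  linarith [h1, h2, hrn]

end Pool.Agent.Helper951_sr
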