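import Mathlib

/-!
Project SR (helper951, MP_72d76c_lc): basic definitions.
-/

namespace Pool.Agent.Helper951_sr

open Finset

/-- `Instr P f`: the real function `f` (of an input `y : α`) is obtained by ONE unit-cost instruction from functions
which belong to the set `P` of available values: a real constant, a sum, a difference, the product of a value with a
real constant, or a selection `if f ≤ g then p else q`. (There is no product of two computed values, no division and
no rounding.) -/
inductive Instr {α : Type} (P : Set (α → ℝ)) : (α → ℝ) → Prop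
  | const (c : ℝ) : Instr P (fun _ => c)
  | add (f g : α → ℝ) (hf : f ∈ P) (hg : g ∈ P) : Instr P (fun y => f y + g y)
  | sub (f g : α → ℝ) (hf : f ∈ P) (hg : g ∈ P) : Instr P (fun y => f y - g y)
  | smul (c : ℝ) (f : α → ℝ) (hf : f ∈ P) : Instr P (fun y => c * f y)
  | sel (f g p q : α → ℝ) (hf : f ∈ P) (hg : g ∈ P) (hp : p ∈ P) (hq : q ∈ P) :
      Instr P (fun y => if f y ≤ g y then p y else q y)

/-- `SLP P L`: the list `L` (last computed value first) is a straight-line program over the initially available
values `P`: every entry is obtained by one instruction from `P` and the entries computed before it. -/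
inductive SLP {α : Type} (P : Set (α → ℝ)) : List (α → ℝ) → Prop
  | nil : SLP P []
  | cons (L : List (α → ℝ)) (f : α → ℝ) (hL : SLP P L) (hf : Instr (P ∪ {g | g ∈ L}) f) : SLP P (f :: L)

/-- `Comp T P Q`: from the available values `P` one can compute all values in `Q` by a straight-line program with at
most `T` instructions. -/
def Comp {α : Type} (T : ℕ) (P Q : Set (α → ℝ)) : Prop :=
  ∃ L : List (α → ℝ), SLP P L ∧ L.length ≤ T ∧ Q ⊆ P ∪ {g | g ∈ L}

/-- `FastMap T Φ`: whenever the coordinates of a vector `x` (depending on the input `a : α`) are available, the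
coordinates of `Φ x` can be computed with at most `T` further instructions. -/
def FastMap {I J : Type} (T : ℕ) (Φ : (I → ℝ) → (J → ℝ)) : Prop :=
  ∀ (α : Type) (P : Set (α → ℝ)) (x : α → I → ℝ), (∀ i, (fun a => x a i) ∈ P) →
    Comp T P {f | ∃ j, f = fun a => Φ (x a) j}

/-- Sum of squares. -/
def nsq {ι : Type} [Fintype ι] (x : ι → ℝ) : ℝ := ∑ i, x i ^ 2

/-- Sum of absolute values. -/
def nab {ι : Type} [Fintype ι] (x : ι → ℝ) : ℝ := ∑ i, |x i|

/-- Signs as real numbers. -/
def sg (b : Bool) : ℝ := if b then 1 else -1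

/-- Symmetric Hadamard matrices. -/
def IsHad {I : Type} [Fintype I] [DecidableEq I] (W : I → I → ℝ) : Prop :=
  (∀ i j, W i j = 1 ∨ W i j = -1) ∧ (∀ i j, W i j = W j i) ∧
    (∀ i j, ∑ l, W i l * W j l = if i = j then (Fintype.card I : ℝ) else 0)

/-- The matrix of the stacked Hadamard copies: `(L x)_{(b,j)} = N^{-1/2} ∑ i, W j i * ε (b,i) * x i`. -/
noncomputable def LM {R I : Type} [Fintype R] [Fintype I] (W : I → I → ℝ) (ε : R × I → Bool) :
    R × I → I → ℝ :=
  fun s i => (Real.sqrt ((Fintype.card R : ℝ) * Fintype.card I))⁻¹ * (W s.2 i * sg (ε (s.1, i)))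

/-- Matrix times vector. -/
def mv {J I : Type} [Fintype I] (M : J → I → ℝ) (x : I → ℝ) : J → ℝ := fun j => ∑ i, M j i * x i

/-- Transposed matrix times vector. -/
def tv {J I : Type} [Fintype J] (M : J → I → ℝ) (w : J → ℝ) : I → ℝ := fun i => ∑ j, M j i * w j

/-- Signed hashing: `(G v)_q = ∑_{e : h e = q} ε_e v_e`. -/
def GG {E Q : Type} [Fintype E] [DecidableEq Q] (h : E → Q) (ε : E → Bool) (v : E → ℝ) : Q → ℝ :=
  fun q => ∑ e, if h e = q then sg (ε e) * v e else 0

/-- Restricted isometry of order `s` with constant `δ`. -/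
def RIP {J I : Type} [Fintype J] [Fintype I] [DecidableEq I] (V : J → I → ℝ) (s : ℕ) (δ : ℝ) : Prop :=
  ∀ x : I → ℝ, (univ.filter (fun i => x i ≠ 0)).card ≤ s → |nsq (mv V x) - nsq x| ≤ δ * nsq x

end Pool.Agent.Helper951_sr
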