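import Pool.Agent.Helper951_sr.Defs
import Pool.Agent.Helper951_sr.Calc
import Pool.Agent.Helper951_sr.FastRip
import Pool.Agent.Helper951_sr.HashFam
import Pool.Agent.Helper951_sr.Conf
import Pool.Agent.Helper951_sr.Stage1
import Pool.Agent.Helper951_sr.Thr
import Pool.Agent.Helper951_sr.Decode

/-!
Project SR (helper951, MP_72d76c_lc). The decoder and its cost; final assembly.
-/

namespace Pool.Agent.Helper951_sr

open Finset

/-- One iteration of iterative hard thresholding as a map of (current vector, measurement). -/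
noncomputable def fin_iter {n : ℕ} {J : Type} [Fintype J] (V : J → Fin n → ℝ) (H : (Fin n → ℝ) → (Fin n → ℝ))
    (x : Fin n ⊕ J → ℝ) : Fin n → ℝ :=
  H (fun i => x (Sum.inl i) + tv V (fun j => x (Sum.inr j) - mv V (fun i => x (Sum.inl i)) j) i)

theorem fin_iter_fast {n : ℕ} {J : Type} [Fintype J] (V : J → Fin n → ℝ) (H : (Fin n → ℝ) → (Fin n → ℝ))
    (T1 T2 T3 : ℕ) (h1 : FastMap T1 (mv V)) (h2 : FastMap T2 (tv V)) (h3 : FastMap T3 H) :
    FastMap (T1 + Fintype.card J + T2 + n + T3) (fin_iter V H) := by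
  -- z
  have hz : FastMap 0 (fun (x : Fin n ⊕ J → ℝ) (i : Fin n) => x (Sum.inl i)) := fast_reindex _
  have hy : FastMap 0 (fun (x : Fin n ⊕ J → ℝ) (j : J) => x (Sum.inr j)) := fast_reindex _
  have hu : FastMap (0 + T1) (fun (x : Fin n ⊕ J → ℝ) => mv V (fun i => x (Sum.inl i))) := fast_comp hz h1
  have hp : FastMap (0 + (0 + T1)) (fun (x : Fin n ⊕ J → ℝ) =>
      Sum.elim (fun j => x (Sum.inr j)) (mv V (fun i => x (Sum.inl i)))) := fast_pair hy hu
  have hs := fast_comp hp (fast_sub (I := J))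
  have ht := fast_comp hs h2
  have hq := fast_pair hz ht
  have ha := fast_comp hq (fast_add (I := Fin n))
  have hf := fast_comp ha h3
  refine fast_mono (T := 0 + (0 + (0 + T1) + Fintype.card J + T2) + Fintype.card (Fin n) + T3) ?_ ?_
  · exact hf
  · simp only [Fintype.card_fin]; omega

/-- The decoder after `t` iterations. -/
noncomputable def fin_dec {n : ℕ} {J Q : Type} [Fintype J] (V : J → Fin n → ℝ) (H : (Fin n → ℝ) → (Fin n → ℝ))
    (Δ : (Q → ℝ) → (Fin n → ℝ)) : ℕ → (Q ⊕ J → ℝ) → (Fin n → ℝ)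
  | 0, y => H (Δ (fun q => y (Sum.inl q)))
  | t + 1, y => fin_iter V H (Sum.elim (fin_dec V H Δ t y) (fun j => y (Sum.inr j)))

theorem fin_dec_fast {n : ℕ} {J Q : Type} [Fintype J] (V : J → Fin n → ℝ) (H : (Fin n → ℝ) → (Fin n → ℝ))
    (Δ : (Q → ℝ) → (Fin n → ℝ)) (T0 T1 T2 T3 : ℕ) (h0 : FastMap T0 Δ) (h1 : FastMap T1 (mv V))
    (h2 : FastMap T2 (tv V)) (h3 : FastMap T3 H) (t : ℕ) :
    FastMap (T0 + T3 + t * (T1 + Fintype.card J + T2 + n + T3)) (fin_dec V H Δ t) := by
  induction t with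
  | zero =>
    have hz : FastMap 0 (fun (x : Q ⊕ J → ℝ) (i : Q) => x (Sum.inl i)) := fast_reindex _
    have ha := fast_comp (fast_comp hz h0) h3
    refine fast_mono (T := 0 + T0 + T3) ha ?_
    omega
  | succ t ih =>
    have hy : FastMap 0 (fun (x : Q ⊕ J → ℝ) (j : J) => x (Sum.inr j)) := fast_reindex _
    have hq := fast_pair ih hy
    have ha := fast_comp hq (fin_iter_fast V H T1 T2 T3 h1 h2 h3)
    refine fast_mono ha ?_
    rw [Nat.succ_mul]
    omega

theorem fin_log_two : (1:ℝ) / 2 ≤ Real.log 2 := by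
  have := Real.log_two_gt_d9
  linarith

theorem fin_lg_le {n : ℕ} (hn : 2 ≤ n) : ((Nat.log 2 n + 1 : ℕ) : ℝ) ≤ 4 * Real.log n := by
  have hn0 : (0:ℝ) < n := by positivity
  have h2 := fin_log_two
  have hln : Real.log 2 ≤ Real.log n := Real.log_le_log (by norm_num) (by exact_mod_cast hn)
  have h1 : ((2:ℝ) ^ (Nat.log 2 n)) ≤ n := by
    exact_mod_cast Nat.pow_log_le_self 2 (by omega)
  have h3 : (Nat.log 2 n : ℝ) * Real.log 2 ≤ Real.log n := by
    have := Real.log_le_log (by positivity) h1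
    rwa [Real.log_pow] at this
  push_cast
  nlinarith [h3, h2, hln, (Nat.cast_nonneg (Nat.log 2 n) : (0:ℝ) ≤ (Nat.log 2 n : ℝ))]

/-- `s (1 + log (n/s)) ≤ n`. -/
theorem fin_slog_le {n s : ℕ} (hs : 1 ≤ s) (hsn : s ≤ n) : (s:ℝ) * (1 + Real.log (n / s)) ≤ n := by
  have hs0 : (0:ℝ) < s := by exact_mod_cast hs
  have hn0 : (0:ℝ) < n := by exact_mod_cast (by omega : 0 < n)
  have h := Real.log_le_sub_one_of_pos (show (0:ℝ) < n / s by positivity)
  calc (s:ℝ) * (1 + Real.log (n / s)) ≤ s * (1 + (n / s - 1)) := by gcongr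
    _ = n := by field_simp; ring

theorem fin_pow_bound {n k : ℕ} (hk : 1 ≤ k) (hkn : 2 * k ≤ n) :
    (1 / 2 : ℝ) ^ ((Nat.log 2 n + 1) ^ 2 + (Nat.log 2 n + 1) + 2) * (2 * ((n:ℝ) ^ (Nat.log 2 k + 1) + 1))
      ≤ 1 / Real.sqrt k := by
  set lg := Nat.log 2 n + 1 with hlg
  have hn1 : (1:ℝ) ≤ n := by exact_mod_cast (by omega : 1 ≤ n)
  have hk0 : (0:ℝ) < k := by exact_mod_cast hk
  have hnlg : (n:ℝ) ≤ 2 ^ lg := by
    exact_mod_cast (Nat.lt_pow_succ_log_self (by norm_num : 1 < 2) n).le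
  have hT1 : Nat.log 2 k + 1 ≤ lg := by
    rw [hlg]
    have := Nat.log_mono_right (b := 2) (show k ≤ n by omega)
    omega
  have h1 : (n:ℝ) ^ (Nat.log 2 k + 1) ≤ 2 ^ (lg ^ 2) := by
    calc (n:ℝ) ^ (Nat.log 2 k + 1) ≤ (n:ℝ) ^ lg := pow_le_pow_right₀ hn1 hT1
      _ ≤ (2 ^ lg) ^ lg := pow_le_pow_left₀ (by positivity) hnlg _
      _ = 2 ^ (lg ^ 2) := by rw [← pow_mul, sq]
  have h2 : (1:ℝ) ≤ 2 ^ (lg ^ 2) := one_le_pow₀ (by norm_num)
  have h3 : Real.sqrt k ≤ 2 ^ lg := by
    calc Real.sqrt k ≤ Real.sqrt ((2 ^ lg) ^ 2) := by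
          apply Real.sqrt_le_sqrt
          have : (k:ℝ) ≤ n := by exact_mod_cast (by omega : k ≤ n)
          calc (k:ℝ) ≤ n := this
            _ ≤ 2 ^ lg := hnlg
            _ ≤ (2 ^ lg) ^ 2 := by
              have : (1:ℝ) ≤ 2 ^ lg := one_le_pow₀ (by norm_num)
              nlinarith
      _ = 2 ^ lg := Real.sqrt_sq (by positivity)
  have hsk : 0 < Real.sqrt k := Real.sqrt_pos.mpr hk0
  rw [le_div_iff₀ hsk]
  calc (1 / 2 : ℝ) ^ (lg ^ 2 + lg + 2) * (2 * ((n:ℝ) ^ (Nat.log 2 k + 1) + 1)) * Real.sqrt k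
      ≤ (1 / 2 : ℝ) ^ (lg ^ 2 + lg + 2) * (2 * (2 ^ (lg ^ 2) + 2 ^ (lg ^ 2))) * 2 ^ lg := by gcongr
    _ = ((1 / 2 : ℝ) ^ (lg ^ 2) * 2 ^ (lg ^ 2)) * ((1 / 2 : ℝ) ^ lg * 2 ^ lg) * ((1 / 2) ^ 2 * 4) := by
        rw [pow_add, pow_add]; ring
    _ = 1 := by
        rw [← mul_pow, ← mul_pow]; norm_num

/-- The main theorem in terms of `Comp`. -/
theorem main_thm : ∃ (C c : ℝ) (e : ℕ), 0 < C ∧ 0 < c ∧ ∀ n k : ℕ, 1 ≤ k → 2 * k ≤ n →
    ∃ (m T : ℕ) (A : Fin m → Fin n → ℝ) (D : (Fin m → ℝ) → (Fin n → ℝ)),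
      (m : ℝ) ≤ c * (k * Real.log (n / k)) ∧ (T : ℝ) ≤ c * (n * Real.log n ^ e) ∧
      Comp T {f | ∃ i, f = fun (y : Fin m → ℝ) => y i} {f | ∃ j, f = fun (y : Fin m → ℝ) => D y j} ∧
      ∀ x x' : Fin n → ℝ, (univ.filter (fun i => x' i ≠ 0)).card ≤ k →
        Real.sqrt (∑ i, (D (mv A x) i - x i) ^ 2) ≤ C / Real.sqrt k * nab (fun i => x i - x' i) := by
  obtain ⟨cr, er, hrip⟩ := fast_rip
  obtain ⟨c1, e1, hst1⟩ := stage1 65
  obtain ⟨c3, hthr⟩ := exists_thr
  set E : ℕ := e1 + er + 4 with hE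
  set K : ℕ := c1 + c3 + 4 * (3 * cr + 1 + c3) with hK
  refine ⟨12, (512 + 256 * 113 + 24 * cr + K * 4 ^ E : ℝ), E, by norm_num, by positivity, ?_⟩
  intro n k hk hkn
  have hk0 : (0:ℝ) < k := by exact_mod_cast hk
  have hn2 : 2 ≤ n := by omega
  have hn0 : (0:ℝ) < n := by positivity
  have hl2 := fin_log_two
  have hlogn : 1 / 2 ≤ Real.log n :=
    hl2.trans (Real.log_le_log (by norm_num) (by exact_mod_cast hn2))
  have hnk2 : (2:ℝ) ≤ (n:ℝ) / k := by
    rw [le_div_iff₀ hk0]; exact_mod_cast hkn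
  have hlnk : 1 / 2 ≤ Real.log ((n:ℝ) / k) := hl2.trans (Real.log_le_log (by norm_num) hnk2)
  set c : ℝ := (512 + 256 * 113 + 24 * cr + K * 4 ^ E : ℝ) with hc
  have hKE : (0:ℝ) ≤ K * 4 ^ E := by positivity
  have hcr0 : (0:ℝ) ≤ cr := by positivity
  by_cases hbig : n < 256 * k
  · -- trivial regime
    refine ⟨n, 0, fun i j => if i = j then 1 else 0, fun y => y, ?_, ?_, ?_, ?_⟩
    · have h1 : (n:ℝ) ≤ 256 * k := by exact_mod_cast hbig.le
      have h2 : (256:ℝ) * k ≤ 512 * (k * Real.log (n / k)) := by nlinarith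
      have h3 : 0 ≤ (k:ℝ) * Real.log (n / k) := by positivity
      have h4 : (512:ℝ) ≤ c := by rw [hc]; nlinarith
      nlinarith
    · simp only [Nat.cast_zero]
      have : 0 ≤ Real.log n := by linarith
      positivity
    · exact comp_refl _ _ (by rintro f ⟨j, rfl⟩; exact ⟨j, rfl⟩)
    · intro x x' _
      have : ∀ i, mv (fun (i j : Fin n) => if i = j then (1:ℝ) else 0) x i = x i := by
        intro i; simp [mv]
      simp only [this, sub_self]
      have h0 : 0 ≤ nab (fun i => x i - x' i) := dec_nab_nonneg _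
      simp only [ne_eq, OfNat.ofNat_ne_zero, not_false_eq_true, zero_pow, sum_const_zero, Real.sqrt_zero]
      positivity
  · push Not at hbig
    have hnk256 : (256:ℝ) ≤ (n:ℝ) / k := by
      rw [le_div_iff₀ hk0]; exact_mod_cast hbig
    have hl1 : 1 ≤ Real.log ((n:ℝ) / k) := by
      have h := Real.log_le_log (by norm_num : (0:ℝ) < 256) hnk256
      have h256 : Real.log 256 = 8 * Real.log 2 := by
        rw [show (256:ℝ) = 2 ^ 8 by norm_num, Real.log_pow]; norm_num
      rw [h256] at h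
      linarith
    -- hash family
    set lnk := Real.log ((n:ℝ) / k) with hlnkdef
    set d : ℕ := ⌈16 * (1 + Real.log (3 * n / k) / Real.log 2)⌉₊ with hd
    have hlog3 : Real.log (3 * n / k) = Real.log 3 + lnk := by
      rw [mul_div_assoc, Real.log_mul (by norm_num) (by positivity)]
    have hlog3' : Real.log 3 ≤ 2 := by
      have := Real.log_le_sub_one_of_pos (show (0:ℝ) < 3 by norm_num)
      linarith
    have hlog3'' : 0 ≤ Real.log 3 := Real.log_nonneg (by norm_num)
    have hx0 : 0 ≤ 16 * (1 + Real.log (3 * n / k) / Real.log 2) := by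
      rw [hlog3]; positivity
    have hdge : 16 * (1 + Real.log (3 * n / k) / Real.log 2) ≤ d := Nat.le_ceil _
    have hdlt : (d:ℝ) < 16 * (1 + Real.log (3 * n / k) / Real.log 2) + 1 := Nat.ceil_lt_add_one hx0
    have hdiv : Real.log (3 * n / k) / Real.log 2 ≤ 2 * (2 + lnk) := by
      rw [hlog3, div_le_iff₀ (by linarith)]
      nlinarith
    have hd113 : (d:ℝ) ≤ 113 * lnk := by nlinarith
    have hd1 : 1 ≤ d := by
      have : (0:ℝ) < d := by
        have h0 : 0 ≤ Real.log (3 * n / k) / Real.log 2 := by rw [hlog3]; positivity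
        linarith
      exact_mod_cast this
    have hdlog : d ≤ 65 * (Nat.log 2 n + 1) := by
      -- log (3 n / k) / log 2 ≤ 2 + log n / log 2 ≤ 3 + Nat.log 2 n
      have h1 : Real.log (3 * n / k) ≤ Real.log 4 + Real.log n := by
        rw [← Real.log_mul (by norm_num) (by positivity)]
        apply Real.log_le_log (by positivity)
        rw [div_le_iff₀ hk0]
        have : (1:ℝ) ≤ k := by exact_mod_cast hk
        nlinarith
      have h4 : Real.log 4 = 2 * Real.log 2 := by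
        rw [show (4:ℝ) = 2 ^ 2 by norm_num, Real.log_pow]; norm_num
      have h5 : Real.log n ≤ ((Nat.log 2 n + 1 : ℕ) : ℝ) * Real.log 2 := by
        rw [← Real.log_pow]
        apply Real.log_le_log hn0
        exact_mod_cast (Nat.lt_pow_succ_log_self (by norm_num : 1 < 2) n).le
      have h6 : Real.log (3 * n / k) / Real.log 2 ≤ 2 + ((Nat.log 2 n + 1 : ℕ) : ℝ) := by
        rw [div_le_iff₀ (by linarith)]
        rw [h4] at h1
        linarith
      have h7 : (d:ℝ) < 16 * (1 + (2 + ((Nat.log 2 n + 1 : ℕ) : ℝ))) + 1 := by linarith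
      have h8 : d < 16 * (1 + (2 + (Nat.log 2 n + 1))) + 1 := by exact_mod_cast h7
      omega
    obtain ⟨h, hh⟩ := exists_hash n k d (256 * k) hk hkn le_rfl hdge
    have hconf : ∀ U : Finset (Fin n), U.card ≤ k → 2 * (conf h U).card ≤ U.card :=
      fun U hU => conf_card hd1 h hh U hU
    obtain ⟨Δ, hΔf, hΔ⟩ := hst1 n k d (256 * k) hk hkn hd1 hbig hdlog h hconf
    -- RIP matrix
    obtain ⟨mV, V, hmV, hVrip, hVf, hVf'⟩ := hrip n (12 * k) hn2 (by omega) (by omega)
    -- thresholding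
    obtain ⟨H, hHf, hH1, hH2⟩ := hthr n k hk (by omega)
    -- the decoder
    set lg := Nat.log 2 n + 1 with hlg
    have hlg1 : 1 ≤ lg := by omega
    set t : ℕ := lg ^ 2 + lg + 2 with ht
    have hdec := fin_dec_fast V H Δ _ _ _ _ hΔf hVf hVf' hHf t
    -- reindexing
    let eqv : Fin (d * (256 * k) + mV) ≃ (Fin d × Fin (256 * k)) ⊕ Fin mV :=
      finSumFinEquiv.symm.trans (Equiv.sumCongr finProdFinEquiv.symm (Equiv.refl _))
    have hmVn : mV ≤ cr * n := by
      have h1 : (mV:ℝ) ≤ cr * n := by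
        refine hmV.trans ?_
        have := fin_slog_le (n := n) (s := 12 * k) (by omega) (by omega)
        exact mul_le_mul_of_nonneg_left this hcr0
      exact_mod_cast h1
    refine ⟨d * (256 * k) + mV, c1 * n * lg ^ e1 + c3 * n * lg ^ 2 + t * (cr * n * lg ^ er + mV + cr * n * lg ^ er
        + n + c3 * n * lg ^ 2), fun q i => Sum.elim (fun s => if h s.1 i = s.2 then 1 else 0)
        (fun j => V j i) (eqv q), fun y => fin_dec V H Δ t (fun s => y (eqv.symm s)), ?_, ?_, ?_, ?_⟩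
    · -- number of rows
      push_cast
      have h1 : (d:ℝ) * (256 * k) ≤ 256 * 113 * (k * lnk) := by nlinarith
      have h2 : (mV:ℝ) ≤ 24 * cr * (k * lnk) := by
        refine hmV.trans ?_
        have h3 : Real.log ((n:ℝ) / ((12 * k : ℕ) : ℝ)) ≤ lnk := by
          rw [hlnkdef]
          apply Real.log_le_log
          · positivity
          · push_cast
            apply div_le_div_of_nonneg_left hn0.le hk0
            linarith
        have h4 : ((12 * k : ℕ) : ℝ) * (1 + Real.log ((n:ℝ) / ((12 * k : ℕ) : ℝ))) ≤ 24 * (k * lnk) := by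
          push_cast at h3 ⊢
          have h5 : (1:ℝ) + Real.log ((n:ℝ) / (12 * k)) ≤ 2 * lnk := by linarith
          calc (12:ℝ) * k * (1 + Real.log ((n:ℝ) / (12 * k))) ≤ 12 * k * (2 * lnk) := by gcongr
            _ = 24 * (k * lnk) := by ring
        calc (cr:ℝ) * (((12 * k : ℕ) : ℝ) * (1 + Real.log ((n:ℝ) / ((12 * k : ℕ) : ℝ))))
            ≤ cr * (24 * (k * lnk)) := by gcongr
          _ = 24 * cr * (k * lnk) := by ring
      have h0 : 0 ≤ (k:ℝ) * lnk := by positivity
      calc (d:ℝ) * (256 * k) + mV ≤ 256 * 113 * (k * lnk) + 24 * cr * (k * lnk) := by linarith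
        _ ≤ c * (k * lnk) := by
          rw [hc]
          nlinarith
    · -- running time
      have hlgE : ∀ a : ℕ, a ≤ E → lg ^ a ≤ lg ^ E := fun a ha => Nat.pow_le_pow_right hlg1 ha
      have ht4 : t ≤ 4 * lg ^ 2 := by
        rw [ht]; nlinarith
      have hT : c1 * n * lg ^ e1 + c3 * n * lg ^ 2 + t * (cr * n * lg ^ er + mV + cr * n * lg ^ er
          + n + c3 * n * lg ^ 2) ≤ K * n * lg ^ E := by
        have a1 : c1 * n * lg ^ e1 ≤ c1 * n * lg ^ E := Nat.mul_le_mul_left _ (hlgE _ (by omega))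
        have a2 : c3 * n * lg ^ 2 ≤ c3 * n * lg ^ E := Nat.mul_le_mul_left _ (hlgE _ (by omega))
        have b0 : 1 ≤ lg ^ (er + 2) := Nat.one_le_pow _ _ hlg1
        have b1 : lg ^ er ≤ lg ^ (er + 2) := Nat.pow_le_pow_right hlg1 (by omega)
        have b2 : lg ^ 2 ≤ lg ^ (er + 2) := Nat.pow_le_pow_right hlg1 (by omega)
        have a3 : cr * n * lg ^ er + mV + cr * n * lg ^ er + n + c3 * n * lg ^ 2
            ≤ (3 * cr + 1 + c3) * n * lg ^ (er + 2) := by
          calc cr * n * lg ^ er + mV + cr * n * lg ^ er + n + c3 * n * lg ^ 2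
              ≤ cr * n * lg ^ (er + 2) + cr * n * lg ^ (er + 2) + cr * n * lg ^ (er + 2) + n * lg ^ (er + 2)
                + c3 * n * lg ^ (er + 2) := by
                have q1 : cr * n * lg ^ er ≤ cr * n * lg ^ (er + 2) := Nat.mul_le_mul_left _ b1
                have q2 : mV ≤ cr * n * lg ^ (er + 2) := hmVn.trans (Nat.le_mul_of_pos_right _ b0)
                have q3 : n ≤ n * lg ^ (er + 2) := Nat.le_mul_of_pos_right _ b0
                have q4 : c3 * n * lg ^ 2 ≤ c3 * n * lg ^ (er + 2) := Nat.mul_le_mul_left _ b2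
                omega
            _ = (3 * cr + 1 + c3) * n * lg ^ (er + 2) := by ring
        have a4 : t * (cr * n * lg ^ er + mV + cr * n * lg ^ er + n + c3 * n * lg ^ 2)
            ≤ (4 * (3 * cr + 1 + c3)) * n * lg ^ E := by
          calc t * (cr * n * lg ^ er + mV + cr * n * lg ^ er + n + c3 * n * lg ^ 2)
              ≤ (4 * lg ^ 2) * ((3 * cr + 1 + c3) * n * lg ^ (er + 2)) := Nat.mul_le_mul ht4 a3
            _ = (4 * (3 * cr + 1 + c3)) * n * lg ^ (er + 4) := by ring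
            _ ≤ (4 * (3 * cr + 1 + c3)) * n * lg ^ E := Nat.mul_le_mul_left _ (hlgE _ (by omega))
        calc _ ≤ c1 * n * lg ^ E + c3 * n * lg ^ E + (4 * (3 * cr + 1 + c3)) * n * lg ^ E := by omega
          _ = K * n * lg ^ E := by rw [hK]; ring
      have hT' : (((c1 * n * lg ^ e1 + c3 * n * lg ^ 2 + t * (cr * n * lg ^ er + mV + cr * n * lg ^ er
          + n + c3 * n * lg ^ 2) : ℕ)) : ℝ) ≤ ((K * n * lg ^ E : ℕ) : ℝ) := by exact_mod_cast hT
      refine hT'.trans ?_
      have hlgle : (lg:ℝ) ≤ 4 * Real.log n := fin_lg_le hn2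
      push_cast
      calc (K:ℝ) * n * (lg:ℝ) ^ E ≤ K * n * (4 * Real.log n) ^ E := by gcongr
        _ = (K * 4 ^ E) * (n * Real.log n ^ E) := by rw [mul_pow]; ring
        _ ≤ c * (n * Real.log n ^ E) := by
          have h0 : 0 ≤ (n:ℝ) * Real.log n ^ E := by
            have : 0 ≤ Real.log n := by linarith
            positivity
          apply mul_le_mul_of_nonneg_right _ h0
          rw [hc]
          have : (0:ℝ) ≤ 24 * cr := by positivity
          linarith
    · -- the program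
      have hre : FastMap 0 (fun (y : Fin (d * (256 * k) + mV) → ℝ) (s : (Fin d × Fin (256 * k)) ⊕ Fin mV) =>
          y (eqv.symm s)) := fast_reindex _
      have hall := fast_comp hre hdec
      have hmono := fast_mono (T' := c1 * n * lg ^ e1 + c3 * n * lg ^ 2 + t * (cr * n * lg ^ er + mV
        + cr * n * lg ^ er + n + c3 * n * lg ^ 2)) hall (by simp only [Fintype.card_fin]; omega)
      exact hmono (Fin (d * (256 * k) + mV) → ℝ) {f | ∃ i, f = fun y => y i} (fun y i => y i) (fun i => ⟨i, rfl⟩)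
    · -- the error
      intro x x' hx'
      set A : Fin (d * (256 * k) + mV) → Fin n → ℝ := fun q i =>
        Sum.elim (fun s => if h s.1 i = s.2 then 1 else 0) (fun j => V j i) (eqv q) with hA
      set y : (Fin d × Fin (256 * k)) ⊕ Fin mV → ℝ := fun s => mv A x (eqv.symm s) with hy
      have hy1 : (fun q => y (Sum.inl q)) = hm h x := by
        funext q
        simp only [hy, mv, hA, hm, Equiv.apply_symm_apply, Sum.elim_inl]
        exact Finset.sum_congr rfl (fun i _ => by split_ifs <;> simp)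
      have hy2 : (fun j => y (Sum.inr j)) = mv V x := by
        funext j
        simp only [hy, mv, hA, Equiv.apply_symm_apply, Sum.elim_inr]
      set z : ℕ → Fin n → ℝ := fun t => fin_dec V H Δ t y with hz
      have hz0 : z 0 = H (Δ (hm h x)) := by
        simp only [hz, fin_dec, hy1]
      have hzs : ∀ t, z (t + 1) = H (fun i => z t i + tv V (fun j => mv V x j - mv V (z t) j) i) := by
        intro t
        have hy2' : ∀ j, y (Sum.inr j) = mv V x j := fun j => congrFun hy2 j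
        simp only [hz, fin_dec, fin_iter, Sum.elim_inl, Sum.elim_inr, hy2']
      have herr := decode_error hk hkn V hVrip H hH1 hH2 x x' hx' (Δ (hm h x)) ((n:ℝ) ^ (Nat.log 2 k + 1))
        (hΔ x x' hx') z hz0 hzs t
      refine herr.trans ?_
      have hE0 : 0 ≤ nab (fun i => x i - x' i) := dec_nab_nonneg _
      have hpb := fin_pow_bound hk hkn
      calc (1 / 2 : ℝ) ^ t * (2 * ((n:ℝ) ^ (Nat.log 2 k + 1) + 1) * nab (fun i => x i - x' i))
            + 11 * nab (fun i => x i - x' i) / Real.sqrt k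
          = ((1 / 2 : ℝ) ^ t * (2 * ((n:ℝ) ^ (Nat.log 2 k + 1) + 1))) * nab (fun i => x i - x' i)
            + 11 * nab (fun i => x i - x' i) / Real.sqrt k := by ring
        _ ≤ (1 / Real.sqrt k) * nab (fun i => x i - x' i) + 11 * nab (fun i => x i - x' i) / Real.sqrt k := by
            gcongr
        _ = 12 / Real.sqrt k * nab (fun i => x i - x' i) := by ring

end Pool.Agent.Helper951_sr
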